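import Mathlib

open Finset PowerSeries

namespace Pool.Agent.Lib.MP_493311_pr

/-- `q j n`: probability that a random permutation of `n` elements has no cycle of length
at most `j`. -/
noncomputable def q (j : ℕ) : ℕ → ℝ
  | 0 => 1
  | n + 1 => (n * q j n + if j ≤ n then q j (n - j) else 0) / (n + 1)
termination_by n => n

lemma q_zero (j : ℕ) : q j 0 = 1 := by rw [q]

lemma q_succ (j n : ℕ) :
    (n + 1) * q j (n + 1) = n * q j n + if j ≤ n then q j (n - j) else 0 := by
  rw [q]
  have : (n : ℝ) + 1 ≠ 0 := by positivity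
  field_simp

/-- generating series of `q j` -/
noncomputable def Q (j : ℕ) : ℝ⟦X⟧ := PowerSeries.mk (q j)

@[simp] lemma coeff_Q (j n : ℕ) : coeff n (Q j) = q j n := coeff_mk _ _

lemma coeff_one_sub_X_mul_zero {R : Type*} [CommRing R] (f : R⟦X⟧) :
    coeff 0 ((1 - X) * f) = coeff 0 f := by
  simp

lemma coeff_one_sub_X_mul {R : Type*} [CommRing R] (f : R⟦X⟧) (n : ℕ) :
    coeff (n + 1) ((1 - X) * f) = coeff (n + 1) f - coeff n f := by
  rw [sub_mul, one_mul, map_sub, coeff_succ_X_mul]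

/-- `(1 - X) f'` -/
lemma coeff_one_sub_X_mul_deriv {R : Type*} [CommRing R] (f : R⟦X⟧) (n : ℕ) :
    coeff n ((1 - X) * d⁄dX R f) = (n + 1) * coeff (n + 1) f - n * coeff n f := by
  rcases n with _ | n
  · rw [coeff_one_sub_X_mul_zero, coeff_derivative]; push_cast; ring
  · rw [coeff_one_sub_X_mul, coeff_derivative, coeff_derivative]; push_cast; ring

lemma Q_ode (j : ℕ) : (1 - X) * d⁄dX ℝ (Q j) = X ^ j * Q j := by
  ext n
  rw [coeff_one_sub_X_mul_deriv, coeff_X_pow_mul', coeff_Q, coeff_Q, q_succ]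
  simp only [coeff_Q]
  ring

lemma ode_unique {j : ℕ} {f g : ℝ⟦X⟧} (hf : (1 - X) * d⁄dX ℝ f = X ^ j * f)
    (hg : (1 - X) * d⁄dX ℝ g = X ^ j * g) (h0 : coeff 0 f = coeff 0 g) : f = g := by
  ext n
  induction n using Nat.strong_induction_on with
  | _ n ih =>
    rcases n with _ | n
    · exact h0
    · have h1 := congrArg (coeff n) hf
      have h2 := congrArg (coeff n) hg
      rw [coeff_one_sub_X_mul_deriv, coeff_X_pow_mul'] at h1 h2
      have h3 : (n : ℝ) + 1 ≠ 0 := by positivity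
      apply mul_left_cancel₀ h3
      have h4 := ih n (Nat.lt_succ_self n)
      by_cases h5 : j ≤ n
      · rw [if_pos h5] at h1 h2
        have h6 := ih (n - j) (by omega)
        rw [h4] at h1
        rw [h6] at h1
        linarith
      · rw [if_neg h5] at h1 h2
        rw [h4] at h1
        linarith

/-- `exp (X ^ j / j)` -/
noncomputable def Ex (j : ℕ) : ℝ⟦X⟧ :=
  PowerSeries.mk fun n => if j ∣ n then 1 / ((n / j).factorial * (j : ℝ) ^ (n / j)) else 0

lemma Ex_ode {j : ℕ} (hj : 0 < j) : d⁄dX ℝ (Ex j) = X ^ (j - 1) * Ex j := by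
  ext n
  rw [coeff_derivative, coeff_X_pow_mul']
  unfold Ex
  simp only [coeff_mk]
  have hj' : (j : ℝ) ≠ 0 := by positivity
  by_cases h : j ∣ n + 1
  · obtain ⟨m, hm⟩ := h
    have hm0 : m ≠ 0 := by rintro rfl; simp at hm
    obtain ⟨m, rfl⟩ := Nat.exists_eq_succ_of_ne_zero hm0
    have h1 : j - 1 ≤ n := by
      have : j * 1 ≤ j * (m + 1) := Nat.mul_le_mul_left _ (by omega)
      rw [Nat.succ_eq_add_one] at hm
      omega
    have h2 : n - (j - 1) = j * m := by
      rw [Nat.succ_eq_add_one, mul_add, mul_one] at hm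
      omega
    rw [if_pos h1, if_pos ⟨_, hm⟩, h2, if_pos (dvd_mul_right _ _), hm,
      Nat.mul_div_cancel_left _ hj, Nat.mul_div_cancel_left _ hj, Nat.succ_eq_add_one,
      Nat.factorial_succ]
    have h3 : (n : ℝ) + 1 = j * (m + 1) := by exact_mod_cast hm
    rw [h3]
    push_cast
    have : ((m : ℝ) + 1) ≠ 0 := by positivity
    have : (m.factorial : ℝ) ≠ 0 := by positivity
    field_simp
    rw [pow_succ]
    ring
  · rw [if_neg h, zero_mul]
    by_cases h1 : j - 1 ≤ n
    · rw [if_pos h1, if_neg]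
      intro h2
      apply h
      have : n + 1 = n - (j - 1) + j := by omega
      rw [this]
      exact (Nat.dvd_add_right h2).mpr dvd_rfl
    · rw [if_neg h1]

lemma coeff_zero_Ex (j : ℕ) : coeff 0 (Ex j) = 1 := by
  unfold Ex
  rw [coeff_mk]
  simp

/-- `Q_{j-1} = exp(X^j/j) Q_j` -/
lemma Q_pred (j : ℕ) : Q j = Ex (j + 1) * Q (j + 1) := by
  have hEx : d⁄dX ℝ (Ex (j + 1)) = X ^ j * Ex (j + 1) := Ex_ode (Nat.succ_pos j)
  apply ode_unique (Q_ode j)
  · rw [Derivation.leibniz, smul_eq_mul, smul_eq_mul, hEx, mul_add]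
    have h1 : (1 - X) * (Ex (j + 1) * d⁄dX ℝ (Q (j + 1))) =
        Ex (j + 1) * ((1 - X) * d⁄dX ℝ (Q (j + 1))) := by ring
    rw [h1, Q_ode]
    ring
  · rw [coeff_Q, q_zero, coeff_mul]
    simp [coeff_zero_Ex, q_zero]

lemma Q_zero : Q 0 = PowerSeries.mk fun _ => (1 : ℝ) := by
  apply ode_unique (j := 0) (Q_ode 0)
  · ext n
    rw [coeff_one_sub_X_mul_deriv, pow_zero, one_mul, coeff_mk, coeff_mk]
    ring
  · simp [q_zero]

lemma q_zero_left (n : ℕ) : q 0 n = 1 := by
  have := congrArg (coeff n) Q_zero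
  simpa using this

lemma q_nonneg (j n : ℕ) : 0 ≤ q j n := by
  induction n using Nat.strong_induction_on with
  | _ n ih =>
    rcases n with _ | n
    · rw [q_zero]; exact zero_le_one
    · rw [q]
      apply div_nonneg _ (by positivity)
      apply add_nonneg
      · exact mul_nonneg (by positivity) (ih n (Nat.lt_succ_self n))
      · split_ifs
        · exact ih _ (by omega)
        · exact le_rfl

/-- `n q_n` is a partial sum -/
lemma mul_q_eq_sum (j n : ℕ) : (n : ℝ) * q j n = ∑ m ∈ range (n - j), q j m := by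
  induction n with
  | zero => simp
  | succ n ih =>
    push_cast
    rw [q_succ, ih]
    by_cases h : j ≤ n
    · rw [if_pos h, Nat.succ_sub h, sum_range_succ]
    · rw [if_neg h, add_zero]
      have h1 : n - j = 0 := by omega
      have h2 : n + 1 - j = 0 := by omega
      rw [h1, h2]

lemma q_eq_zero {j n : ℕ} (hn : 0 < n) (h : n ≤ j) : q j n = 0 := by
  have h1 := mul_q_eq_sum j n
  have h2 : n - j = 0 := by omega
  rw [h2, range_zero, sum_empty] at h1
  have h3 : (n : ℝ) ≠ 0 := by positivity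
  exact (mul_eq_zero.mp h1).resolve_left h3

lemma q_le {j n : ℕ} (hn : 0 < n) : q j n ≤ 1 / (j + 1) := by
  induction n using Nat.strong_induction_on with
  | _ n ih =>
    by_cases h : n ≤ j
    · rw [q_eq_zero hn h]; positivity
    · have h1 := mul_q_eq_sum j n
      have h2 : n - j = (n - j - 1) + 1 := by omega
      rw [h2, sum_range_succ', q_zero] at h1
      have h3 : ∑ m ∈ range (n - j - 1), q j (m + 1) ≤
          ∑ m ∈ range (n - j - 1), (1 / ((j : ℝ) + 1)) := by
        apply sum_le_sum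
        intro m hm
        apply ih _ _ (Nat.succ_pos m)
        have := mem_range.mp hm
        omega
      rw [sum_const, card_range, nsmul_eq_mul] at h3
      have h4 : ((n - j - 1 : ℕ) : ℝ) = n - j - 1 := by
        rw [Nat.cast_sub (by omega), Nat.cast_sub (by omega)]; simp
      rw [h4] at h3
      have hn' : (0 : ℝ) < n := by exact_mod_cast hn
      have hj' : (0 : ℝ) < (j : ℝ) + 1 := by positivity
      have h5 : (n : ℝ) * q j n ≤ n * (1 / (j + 1)) := by
        rw [h1]
        have : ((n : ℝ) - j - 1) * (1 / ((j : ℝ) + 1)) + 1 = n * (1 / (j + 1)) := by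
          field_simp; ring
        linarith
      exact le_of_mul_le_mul_left h5 hn'

lemma q_le_one (j n : ℕ) : q j n ≤ 1 := by
  rcases Nat.eq_zero_or_pos n with rfl | h
  · rw [q_zero]
  · refine (q_le h).trans ?_
    rw [div_le_one (by positivity)]
    have : (0 : ℝ) ≤ j := by positivity
    linarith

/-- `(1-X)^M Q_j` -/
noncomputable def FM (j M : ℕ) : ℝ⟦X⟧ := (1 - X) ^ M * Q j

lemma FM_zero (j : ℕ) : FM j 0 = Q j := by simp [FM]

lemma FM_succ (j M : ℕ) : FM j (M + 1) = (1 - X) * FM j M := by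
  unfold FM; rw [pow_succ']; ring

lemma derivative_one_sub_X_pow (R : Type*) [CommRing R] (M : ℕ) :
    d⁄dX R ((1 - X : R⟦X⟧) ^ (M + 1)) = -(((M + 1 : ℕ) : R⟦X⟧) * (1 - X) ^ M) := by
  rw [Derivation.leibniz_pow]
  have : d⁄dX R (1 - X : R⟦X⟧) = -1 := by
    rw [map_sub, Derivation.map_one_eq_zero, derivative_X, zero_sub]
  rw [this]
  simp [nsmul_eq_mul]

lemma FM_deriv (j M : ℕ) :
    d⁄dX ℝ (FM j (M + 1)) = (X ^ j - ((M + 1 : ℕ) : ℝ⟦X⟧)) * FM j M := by
  unfold FM
  rw [Derivation.leibniz, smul_eq_mul, smul_eq_mul, derivative_one_sub_X_pow]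
  have h := Q_ode j
  have h2 : (1 - X : ℝ⟦X⟧) ^ (M + 1) * d⁄dX ℝ (Q j) = (1 - X) ^ M * (X ^ j * Q j) := by
    rw [← h, pow_succ]; ring
  rw [h2]
  ring

lemma FM_rec (j M n : ℕ) :
    ((n : ℝ) + 1) * coeff (n + 1) (FM j (M + 1)) =
      (if j ≤ n then coeff (n - j) (FM j M) else 0) - (M + 1) * coeff n (FM j M) := by
  have h := congrArg (coeff n) (FM_deriv j M)
  rw [coeff_derivative, sub_mul, map_sub, coeff_X_pow_mul'] at h
  have h2 : coeff n (((M + 1 : ℕ) : ℝ⟦X⟧) * FM j M) = (M + 1) * coeff n (FM j M) := by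
    rw [← nsmul_eq_mul, map_nsmul, nsmul_eq_mul]; push_cast; ring
  rw [h2] at h
  rw [← h]; ring

end Pool.Agent.Lib.MP_493311_pr
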