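import Mathlib
import Pool.Agent.Lib.MP_493311_pr.Basic

open Finset PowerSeries Filter
open scoped Topology

namespace Pool.Agent.Lib.MP_493311_pr

lemma coeff_FM_one (j n : ℕ) : coeff (n + 1) (FM j 1) = q j (n + 1) - q j n := by
  rw [FM_succ, FM_zero, coeff_one_sub_X_mul, coeff_Q, coeff_Q]

lemma q_sub_telescope (j n m : ℕ) :
    q j (n + m) - q j n = ∑ i ∈ range m, coeff (n + i + 1) (FM j 1) := by
  induction m with
  | zero => simp
  | succ m ih =>
    rw [sum_range_succ, ← ih, coeff_FM_one]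
    ring_nf

lemma abs_c_le {j : ℕ} (hj : 0 < j) {n : ℕ} (hn : j + 2 ≤ n) :
    |coeff n (FM j 1)| ≤ 1 / (j : ℝ) ^ 2 := by
  obtain ⟨m, rfl⟩ : ∃ m, n = m + 1 := ⟨n - 1, by omega⟩
  have h := FM_rec j 0 m
  rw [FM_zero, coeff_Q, if_pos (by omega), coeff_Q] at h
  have h1 := q_le (j := j) (n := m) (by omega)
  have h2 := q_le (j := j) (n := m - j) (by omega)
  have h3 := q_nonneg j m
  have h4 := q_nonneg j (m - j)
  have hj' : (0 : ℝ) < j := by exact_mod_cast hj
  have hm : (j : ℝ) ≤ (m : ℝ) + 1 := by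
    have : j ≤ m + 1 := by omega
    exact_mod_cast this
  have h5 : |((m : ℝ) + 1) * coeff (m + 1) (FM j (0 + 1))| ≤ 1 / (j + 1) := by
    rw [h]; push_cast; rw [abs_le]
    constructor <;> linarith
  rw [abs_mul, abs_of_pos (by positivity : (0 : ℝ) < (m : ℝ) + 1)] at h5
  rw [le_div_iff₀ (by positivity)]
  rw [le_div_iff₀ (by positivity)] at h5
  rw [zero_add] at h5
  have h6 := abs_nonneg (coeff (m + 1) (FM j 1))
  have h7 : (j : ℝ) ^ 2 ≤ ((m : ℝ) + 1) * (j + 1) := by nlinarith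
  calc |coeff (m + 1) (FM j 1)| * (j : ℝ) ^ 2
      ≤ |coeff (m + 1) (FM j 1)| * (((m : ℝ) + 1) * (j + 1)) := by gcongr
    _ ≤ 1 := by nlinarith

/-- polynomial decay of the coefficients of `(1-X) Q_j` -/
lemma abs_c_decay (R : ℕ) {j : ℕ} (hj : 0 < j) {n : ℕ} (hn : j + 2 ≤ n) :
    |coeff n (FM j 1)| ≤ ((2 : ℝ) ^ (R + 2) + 1) ^ R / (j : ℝ) ^ 2 * ((j : ℝ) / (n + j)) ^ R := by
  induction n using Nat.strong_induction_on with
  | _ n ih =>
    have hj' : (0 : ℝ) < j := by exact_mod_cast hj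
    have hn' : (0 : ℝ) < n := by exact_mod_cast (by omega : 0 < n)
    have hB : (0 : ℝ) ≤ ((2 : ℝ) ^ (R + 2) + 1) ^ R / (j : ℝ) ^ 2 := by positivity
    rcases lt_or_ge (n : ℝ) ((2 : ℝ) ^ (R + 2) * j) with h | h
    · refine (abs_c_le hj hn).trans ?_
      rw [div_mul_eq_mul_div, ← mul_pow]
      gcongr
      apply one_le_pow₀
      rw [mul_div_assoc', le_div_iff₀ (by positivity)]
      nlinarith
    · obtain ⟨m, rfl⟩ : ∃ m, n = m + 1 := ⟨n - 1, by omega⟩
      have h4 : (4 : ℝ) ≤ (2 : ℝ) ^ (R + 2) := by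
        rw [pow_add]
        have : (1 : ℝ) ≤ 2 ^ R := one_le_pow₀ (by norm_num)
        nlinarith
      have h5 : 4 * j ≤ m + 1 := by
        have : (4 : ℝ) * j ≤ ((m + 1 : ℕ) : ℝ) := by nlinarith
        exact_mod_cast this
      have hrec := FM_rec j 0 m
      rw [FM_zero, coeff_Q, if_pos (by omega), coeff_Q] at hrec
      have htel := q_sub_telescope j (m - j) j
      rw [Nat.sub_add_cancel (by omega)] at htel
      have hsum : |q j m - q j (m - j)| ≤
          j * (((2 : ℝ) ^ (R + 2) + 1) ^ R / (j : ℝ) ^ 2 *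
            ((j : ℝ) / ((m + 1 : ℕ) : ℝ)) ^ R) := by
        rw [htel]
        calc |∑ i ∈ range j, coeff (m - j + i + 1) (FM j 1)|
            ≤ ∑ i ∈ range j, |coeff (m - j + i + 1) (FM j 1)| := abs_sum_le_sum_abs _ _
          _ ≤ ∑ i ∈ range j, (((2 : ℝ) ^ (R + 2) + 1) ^ R / (j : ℝ) ^ 2 *
            ((j : ℝ) / ((m + 1 : ℕ) : ℝ)) ^ R) := by
              apply sum_le_sum
              intro i hi
              have hi' := mem_range.mp hi
              refine (ih (m - j + i + 1) (by omega) (by omega)).trans ?_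
              gcongr
              have : m + 1 ≤ (m - j + i + 1) + j := by omega
              exact_mod_cast this
          _ = _ := by rw [sum_const, card_range, nsmul_eq_mul]
      set B : ℝ := ((2 : ℝ) ^ (R + 2) + 1) ^ R / (j : ℝ) ^ 2 with hBdef
      set N : ℝ := ((m + 1 : ℕ) : ℝ) with hN
      have hNm : N = (m : ℝ) + 1 := by rw [hN]; push_cast; ring
      have h6 : N * |coeff (m + 1) (FM j 1)| ≤ j * (B * ((j : ℝ) / N) ^ R) := by
        have : N * |coeff (m + 1) (FM j 1)| = |q j m - q j (m - j)| := by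
          rw [← abs_of_pos hn', ← abs_mul]
          rw [hNm]
          rw [zero_add] at hrec
          rw [hrec, abs_sub_comm]
          congr 1
          push_cast; ring
        rw [this]; exact hsum
      have h7 : |coeff (m + 1) (FM j 1)| ≤ (j / N) * (B * ((j : ℝ) / N) ^ R) := by
        rw [div_mul_eq_mul_div, le_div_iff₀ hn']
        linarith
      refine h7.trans ?_
      have h8 : (j : ℝ) / N ≤ 1 / 2 ^ (R + 2) := by
        rw [div_le_div_iff₀ hn' (by positivity)]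
        nlinarith
      have h9 : ((j : ℝ) / N) ^ R ≤ 2 ^ R * ((j : ℝ) / (N + j)) ^ R := by
        rw [← mul_pow]
        gcongr
        rw [mul_div_assoc', div_le_div_iff₀ hn' (by positivity)]
        have : (j : ℝ) ≤ N := by nlinarith
        nlinarith
      calc (j / N) * (B * ((j : ℝ) / N) ^ R)
          ≤ (1 / 2 ^ (R + 2)) * (B * (2 ^ R * ((j : ℝ) / (N + j)) ^ R)) := by gcongr
        _ = (1 / 4) * (B * ((j : ℝ) / (N + j)) ^ R) := by
            rw [pow_add]; field_simp; ring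
        _ ≤ B * ((j : ℝ) / (N + j)) ^ R := by
            have : 0 ≤ B * ((j : ℝ) / (N + j)) ^ R := by positivity
            linarith

lemma telescope_pow {x : ℝ} (hx : 0 < x) (R : ℕ) :
    1 / (x + 1) ^ (R + 2) ≤ 1 / x ^ (R + 1) - 1 / (x + 1) ^ (R + 1) := by
  have key : x ^ (R + 1) * (x + 2) ≤ (x + 1) ^ (R + 2) := by
    induction R with
    | zero => simp only [zero_add, pow_one]; nlinarith
    | succ R ih =>
      calc x ^ (R + 1 + 1) * (x + 2) = x * (x ^ (R + 1) * (x + 2)) := by ring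
        _ ≤ x * (x + 1) ^ (R + 2) := by gcongr
        _ ≤ (x + 1) * (x + 1) ^ (R + 2) := by gcongr; linarith
        _ = _ := by ring
  have h1 : 0 < x + 1 := by linarith
  rw [le_sub_iff_add_le]
  have h2 : 1 / (x + 1) ^ (R + 2) + 1 / (x + 1) ^ (R + 1) = (x + 2) / (x + 1) ^ (R + 2) := by
    rw [div_add_div _ _ (by positivity) (by positivity),
      div_eq_div_iff (by positivity) (by positivity)]
    ring
  rw [h2, div_le_div_iff₀ (by positivity) (by positivity)]
  linarith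

/-- constant -/
noncomputable def KR (R : ℕ) : ℝ := ((2 : ℝ) ^ (R + 4) + 1) ^ (R + 2)

lemma KR_pos (R : ℕ) : 0 < KR R := by unfold KR; positivity

/-- differences of `q` -/
lemma abs_q_sub_le (R : ℕ) {j : ℕ} (hj : 0 < j) {n : ℕ} (hn : j + 1 ≤ n) (m : ℕ) :
    |q j (n + m) - q j n| ≤ KR R / j * ((j : ℝ) / (n + j)) ^ (R + 1) := by
  have hj' : (0 : ℝ) < j := by exact_mod_cast hj
  have hn' : (0 : ℝ) < n := by exact_mod_cast (by omega : 0 < n)
  have key : |q j (n + m) - q j n| ≤ KR R / (j : ℝ) ^ 2 * (j : ℝ) ^ (R + 2) *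
      (1 / ((n : ℝ) + j) ^ (R + 1) - 1 / (((n + m : ℕ) : ℝ) + j) ^ (R + 1)) := by
    induction m with
    | zero => simp
    | succ m ih =>
      have h1 : |q j (n + (m + 1)) - q j (n + m)| ≤ KR R / (j : ℝ) ^ 2 * (j : ℝ) ^ (R + 2) *
          (1 / (((n + m : ℕ) : ℝ) + j) ^ (R + 1) -
            1 / (((n + (m + 1) : ℕ) : ℝ) + j) ^ (R + 1)) := by
        have h2 : q j (n + (m + 1)) - q j (n + m) = coeff (n + m + 1) (FM j 1) := by
          rw [coeff_FM_one]; ring_nf
        rw [h2]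
        refine (abs_c_decay (R + 2) hj (by omega)).trans ?_
        have h3 := telescope_pow (x := ((n + m : ℕ) : ℝ) + j) (by positivity) R
        have h4 : (((n + (m + 1) : ℕ) : ℝ) + j) = ((n + m : ℕ) : ℝ) + j + 1 := by
          push_cast; ring
        have h5 : (((n + m + 1 : ℕ) : ℝ) + j) = ((n + m : ℕ) : ℝ) + j + 1 := by
          push_cast; ring
        rw [h4, h5]
        unfold KR
        rw [show R + 2 + 2 = R + 4 by ring, div_pow]
        have h6 : 0 ≤ ((2 : ℝ) ^ (R + 4) + 1) ^ (R + 2) / (j : ℝ) ^ 2 * (j : ℝ) ^ (R + 2) := by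
          positivity
        calc ((2 : ℝ) ^ (R + 4) + 1) ^ (R + 2) / (j : ℝ) ^ 2 *
              ((j : ℝ) ^ (R + 2) / (((n + m : ℕ) : ℝ) + j + 1) ^ (R + 2))
            = ((2 : ℝ) ^ (R + 4) + 1) ^ (R + 2) / (j : ℝ) ^ 2 * (j : ℝ) ^ (R + 2) *
              (1 / (((n + m : ℕ) : ℝ) + j + 1) ^ (R + 2)) := by ring
          _ ≤ _ := mul_le_mul_of_nonneg_left h3 h6
      calc |q j (n + (m + 1)) - q j n|
          = |(q j (n + (m + 1)) - q j (n + m)) + (q j (n + m) - q j n)| := by ring_nf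
        _ ≤ _ := abs_add_le _ _
        _ ≤ _ := add_le_add h1 ih
        _ = _ := by ring
  refine key.trans ?_
  have h1 : 1 / ((n : ℝ) + j) ^ (R + 1) - 1 / (((n + m : ℕ) : ℝ) + j) ^ (R + 1) ≤
      1 / ((n : ℝ) + j) ^ (R + 1) := by
    have : 0 ≤ 1 / (((n + m : ℕ) : ℝ) + j) ^ (R + 1) := by positivity
    linarith
  have hK := KR_pos R
  calc _ ≤ KR R / (j : ℝ) ^ 2 * (j : ℝ) ^ (R + 2) * (1 / ((n : ℝ) + j) ^ (R + 1)) := by
        gcongr
    _ = _ := by
        rw [div_pow]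
        field_simp
        ring

end Pool.Agent.Lib.MP_493311_pr
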