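import Mathlib
import Pool.Agent.Lib.MP_493311_pr.Decay

open Finset PowerSeries Filter
open scoped Topology

namespace Pool.Agent.Lib.MP_493311_pr

section General

variable {𝕜 : Type*} [RCLike 𝕜]

/-- coefficients are `O(n^(-p))` -/
def BigO (p : ℕ) (f : 𝕜⟦X⟧) : Prop := ∃ C : ℝ, ∀ n : ℕ, ‖coeff n f‖ ≤ C / ((n : ℝ) + 1) ^ p

lemma BigO.nonneg {p : ℕ} {f : 𝕜⟦X⟧} (hf : BigO p f) :
    ∃ C : ℝ, 0 ≤ C ∧ ∀ n : ℕ, ‖coeff n f‖ ≤ C / ((n : ℝ) + 1) ^ p := by
  obtain ⟨C, hC⟩ := hf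
  refine ⟨C, ?_, hC⟩
  have := (norm_nonneg _).trans (hC 0)
  simpa using this

lemma bigO_of_eventually {p : ℕ} {f : 𝕜⟦X⟧} {C : ℝ} {N : ℕ}
    (h : ∀ n, N ≤ n → ‖coeff n f‖ ≤ C / ((n : ℝ) + 1) ^ p) : BigO p f := by
  refine ⟨|C| + ∑ n ∈ range N, ‖coeff n f‖ * ((n : ℝ) + 1) ^ p, ?_⟩
  intro n
  have hs : 0 ≤ ∑ n ∈ range N, ‖coeff n f‖ * ((n : ℝ) + 1) ^ p :=
    sum_nonneg fun _ _ => by positivity
  rcases le_or_gt N n with hn | hn
  · refine (h n hn).trans ?_
    gcongr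
    have := le_abs_self C
    linarith
  · rw [le_div_iff₀ (by positivity)]
    have h1 : ‖coeff n f‖ * ((n : ℝ) + 1) ^ p ≤ ∑ n ∈ range N, ‖coeff n f‖ * ((n : ℝ) + 1) ^ p :=
      single_le_sum (f := fun n => ‖coeff n f‖ * ((n : ℝ) + 1) ^ p)
        (fun _ _ => by positivity) (mem_range.mpr hn)
    have := abs_nonneg C
    linarith

lemma BigO.add {p : ℕ} {f g : 𝕜⟦X⟧} (hf : BigO p f) (hg : BigO p g) : BigO p (f + g) := by
  obtain ⟨C, hC⟩ := hf
  obtain ⟨D, hD⟩ := hg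
  refine ⟨C + D, fun n => ?_⟩
  rw [map_add, add_div]
  exact (norm_add_le _ _).trans (add_le_add (hC n) (hD n))

lemma BigO.neg {p : ℕ} {f : 𝕜⟦X⟧} (hf : BigO p f) : BigO p (-f) := by
  obtain ⟨C, hC⟩ := hf
  exact ⟨C, fun n => by rw [map_neg, norm_neg]; exact hC n⟩

lemma BigO.sub {p : ℕ} {f g : 𝕜⟦X⟧} (hf : BigO p f) (hg : BigO p g) : BigO p (f - g) := by
  rw [sub_eq_add_neg]; exact hf.add hg.neg

lemma BigO.zero (p : ℕ) : BigO p (0 : 𝕜⟦X⟧) := ⟨0, fun n => by simp⟩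

lemma BigO.sum {ι : Type*} {p : ℕ} (s : Finset ι) {f : ι → 𝕜⟦X⟧} (hf : ∀ i ∈ s, BigO p (f i)) :
    BigO p (∑ i ∈ s, f i) := by
  classical
  induction s using Finset.induction_on with
  | empty => simpa using BigO.zero p
  | insert a s ha ih =>
    rw [sum_insert ha]
    exact (hf a (mem_insert_self _ _)).add (ih fun i hi => hf i (mem_insert_of_mem hi))

lemma BigO.C_mul {p : ℕ} {f : 𝕜⟦X⟧} (hf : BigO p f) (c : 𝕜) : BigO p (C c * f) := by
  obtain ⟨D, hD⟩ := hf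
  refine ⟨‖c‖ * D, fun n => ?_⟩
  rw [coeff_C_mul, norm_mul, mul_div_assoc]
  gcongr
  exact hD n

lemma BigO.mono {p p' : ℕ} (h : p' ≤ p) {f : 𝕜⟦X⟧} (hf : BigO p f) : BigO p' f := by
  obtain ⟨C, hC0, hC⟩ := hf.nonneg
  refine ⟨C, fun n => (hC n).trans ?_⟩
  gcongr
  have : (0 : ℝ) ≤ n := by positivity
  linarith

lemma BigO.X_mul {p : ℕ} {f : 𝕜⟦X⟧} (hf : BigO p f) : BigO p (X * f) := by
  obtain ⟨D, hD0, hD⟩ := hf.nonneg
  apply bigO_of_eventually (N := 1) (C := D * 2 ^ p)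
  intro n hn
  obtain ⟨m, rfl⟩ : ∃ m, n = m + 1 := ⟨n - 1, by omega⟩
  rw [coeff_succ_X_mul]
  refine (hD m).trans ?_
  rw [div_le_div_iff₀ (by positivity) (by positivity), mul_assoc, ← mul_pow]
  gcongr
  push_cast
  have : (0 : ℝ) ≤ m := by positivity
  linarith

lemma BigO.X_pow_mul {p : ℕ} {f : 𝕜⟦X⟧} (hf : BigO p f) (k : ℕ) : BigO p (X ^ k * f) := by
  induction k with
  | zero => simpa using hf
  | succ k ih => rw [pow_succ', mul_assoc]; exact ih.X_mul

lemma BigO.poly_mul {p : ℕ} {f : 𝕜⟦X⟧} (hf : BigO p f) (P : Polynomial 𝕜) :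
    BigO p ((P : 𝕜⟦X⟧) * f) := by
  induction P using Polynomial.induction_on' with
  | add P Q hP hQ => rw [Polynomial.coe_add, add_mul]; exact hP.add hQ
  | monomial n a =>
    have : ((Polynomial.monomial n a : Polynomial 𝕜) : 𝕜⟦X⟧) * f = C a * (X ^ n * f) := by
      rw [← Polynomial.C_mul_X_pow_eq_monomial, Polynomial.coe_mul, Polynomial.coe_C,
        Polynomial.coe_pow, Polynomial.coe_X, mul_assoc]
    rw [this]
    exact (hf.X_pow_mul n).C_mul a

lemma BigO.one (p : ℕ) : BigO p (1 : 𝕜⟦X⟧) := by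
  refine ⟨1, fun n => ?_⟩
  rw [coeff_one]
  split_ifs with h
  · subst h; simp
  · simp only [norm_zero]; positivity

lemma BigO.poly (p : ℕ) (P : Polynomial 𝕜) : BigO p (P : 𝕜⟦X⟧) := by
  have := (BigO.one (𝕜 := 𝕜) p).poly_mul P
  rwa [mul_one] at this

lemma BigO.deriv {p : ℕ} {f : 𝕜⟦X⟧} (hf : BigO (p + 1) f) : BigO p (d⁄dX 𝕜 f) := by
  obtain ⟨D, hD0, hD⟩ := hf.nonneg
  refine ⟨D, fun n => ?_⟩
  rw [coeff_derivative, norm_mul]
  have h1 : ‖((n : 𝕜) + 1)‖ = (n : ℝ) + 1 := by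
    have : ((n : 𝕜) + 1) = ((n + 1 : ℕ) : 𝕜) := by push_cast; ring
    rw [this, RCLike.norm_natCast]; push_cast; ring
  rw [h1]
  calc ‖coeff (n + 1) f‖ * ((n : ℝ) + 1) ≤ D / (((n + 1 : ℕ) : ℝ) + 1) ^ (p + 1) * ((n : ℝ) + 1) := by
        gcongr; exact hD _
    _ ≤ D / ((n : ℝ) + 1) ^ (p + 1) * ((n : ℝ) + 1) := by
        gcongr
        push_cast; linarith
    _ = _ := by rw [pow_succ]; field_simp

lemma BigO.antideriv {p : ℕ} {f : 𝕜⟦X⟧} (hf : BigO p (d⁄dX 𝕜 f)) : BigO (p + 1) f := by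
  obtain ⟨D, hD0, hD⟩ := hf.nonneg
  apply bigO_of_eventually (N := 1) (C := D * 2 ^ (p + 1))
  intro n hn
  obtain ⟨m, rfl⟩ : ∃ m, n = m + 1 := ⟨n - 1, by omega⟩
  have h1 := hD m
  rw [coeff_derivative, norm_mul] at h1
  have h2 : ‖((m : 𝕜) + 1)‖ = (m : ℝ) + 1 := by
    have : ((m : 𝕜) + 1) = ((m + 1 : ℕ) : 𝕜) := by push_cast; ring
    rw [this, RCLike.norm_natCast]; push_cast; ring
  rw [h2] at h1
  have h3 : ‖coeff (m + 1) f‖ ≤ D / ((m : ℝ) + 1) ^ (p + 1) := by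
    rw [pow_succ, ← div_div, le_div_iff₀ (by positivity)]
    exact h1
  refine h3.trans ?_
  rw [div_le_div_iff₀ (by positivity) (by positivity), mul_assoc, ← mul_pow]
  gcongr
  push_cast
  have : (0 : ℝ) ≤ m := by positivity
  linarith

end General

section Limits

/-- convergence of a sequence with small differences -/
lemma limit_of_diff {z : ℕ → ℝ} {C : ℝ} (s : ℕ)
    (h : ∀ n : ℕ, |z (n + 1) - z n| ≤ C / ((n : ℝ) + 1) ^ (s + 2)) :
    ∃ c, (∀ n : ℕ, |z n - c| ≤ 2 * C / ((n : ℝ) + 1) ^ (s + 1)) ∧ Tendsto z atTop (𝓝 c) := by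
  have hC : 0 ≤ C := by
    have := (abs_nonneg _).trans (h 0)
    simpa using this
  have key : ∀ n m : ℕ, |z (n + m + 1) - z n| ≤
      2 * C / ((n : ℝ) + 1) ^ (s + 1) - C / ((n : ℝ) + m + 1) ^ (s + 1) := by
    intro n m
    induction m with
    | zero =>
      simp only [add_zero, Nat.cast_zero]
      refine (h n).trans ?_
      rw [← sub_div]
      have : 2 * C - C = C := by ring
      rw [this]
      gcongr
      · have : (0 : ℝ) ≤ n := by positivity
        linarith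
      · omega
    | succ m ih =>
      have h1 := h (n + m + 1)
      have h2 : z (n + (m + 1) + 1) - z n =
          (z (n + m + 1 + 1) - z (n + m + 1)) + (z (n + m + 1) - z n) := by
        rw [← add_assoc]; ring
      rw [h2]
      refine (abs_add_le _ _).trans ?_
      have h3 := telescope_pow (x := (n : ℝ) + m + 1) (by positivity) s
      have h4 : (((n + m + 1 : ℕ) : ℝ) + 1) = (n : ℝ) + m + 1 + 1 := by push_cast; ring
      have h5 : ((n : ℝ) + ((m + 1 : ℕ) : ℝ) + 1) = (n : ℝ) + m + 1 + 1 := by push_cast; ring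
      rw [h4] at h1
      rw [h5]
      have h6 : C / ((n : ℝ) + m + 1 + 1) ^ (s + 2) ≤
          C / ((n : ℝ) + m + 1) ^ (s + 1) - C / ((n : ℝ) + m + 1 + 1) ^ (s + 1) := by
        have := mul_le_mul_of_nonneg_left h3 hC
        calc C / ((n : ℝ) + m + 1 + 1) ^ (s + 2) = C * (1 / ((n : ℝ) + m + 1 + 1) ^ (s + 2)) := by
              ring
          _ ≤ _ := this
          _ = _ := by ring
      linarith
  have key2 : ∀ n m : ℕ, |z (n + m) - z n| ≤ 2 * C / ((n : ℝ) + 1) ^ (s + 1) := by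
    intro n m
    rcases m with _ | m
    · simp only [add_zero, sub_self, abs_zero]; positivity
    · refine (key n m).trans ?_
      have : 0 ≤ C / ((n : ℝ) + m + 1) ^ (s + 1) := by positivity
      linarith
  have hlim0 : Tendsto (fun n : ℕ => 2 * (2 * C / ((n : ℝ) + 1) ^ (s + 1))) atTop (𝓝 0) := by
    have h1 : Tendsto (fun n : ℕ => ((n : ℝ) + 1) ^ (s + 1)) atTop atTop :=
      (tendsto_pow_atTop (Nat.succ_ne_zero s)).comp
        (tendsto_atTop_add_const_right _ _ tendsto_natCast_atTop_atTop)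
    have h2 := ((tendsto_const_nhds (x := 2 * C)).div_atTop h1).const_mul 2
    simpa using h2
  have hc : CauchySeq z := by
    apply cauchySeq_of_le_tendsto_0 _ _ hlim0
    intro a b N ha hb
    have h1 := key2 N (a - N)
    have h2 := key2 N (b - N)
    rw [Nat.add_sub_cancel' ha] at h1
    rw [Nat.add_sub_cancel' hb] at h2
    rw [Real.dist_eq]
    calc |z a - z b| = |(z a - z N) - (z b - z N)| := by ring_nf
      _ ≤ _ := abs_sub _ _
      _ ≤ _ := add_le_add h1 h2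
      _ = _ := by ring
  obtain ⟨c, hc⟩ := cauchySeq_tendsto_of_complete hc
  refine ⟨c, fun n => ?_, hc⟩
  have h1 : Tendsto (fun m => |z (n + m) - z n|) atTop (𝓝 |c - z n|) := by
    apply Tendsto.abs
    apply Tendsto.sub_const
    have := hc.comp (tendsto_add_atTop_nat n)
    refine this.congr fun m => ?_
    simp only [Function.comp_apply, add_comm]
  rw [abs_sub_comm]
  exact le_of_tendsto h1 (Eventually.of_forall fun m => key2 n m)

/-- geometric series -/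
noncomputable def GG : ℝ⟦X⟧ := PowerSeries.mk fun _ => 1

lemma coeff_GG (n : ℕ) : coeff n GG = 1 := coeff_mk _ _

lemma one_sub_X_mul_GG : (1 - X) * GG = 1 := by
  ext n
  rcases n with _ | n
  · rw [coeff_one_sub_X_mul_zero, coeff_GG]; simp
  · rw [coeff_one_sub_X_mul, coeff_GG, coeff_GG, coeff_one, if_neg (Nat.succ_ne_zero n), sub_self]

/-- summation of a sequence -/
lemma BigO.sum_series {p : ℕ} {u : ℝ⟦X⟧} (hu : BigO (p + 2) ((1 - X) * u)) :
    ∃ c : ℝ, BigO (p + 1) (u - C c * GG) := by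
  obtain ⟨D, hD0, hD⟩ := hu.nonneg
  have h1 : ∀ n : ℕ, |coeff (n + 1) u - coeff n u| ≤ D / ((n : ℝ) + 1) ^ (p + 2) := by
    intro n
    have := hD (n + 1)
    rw [coeff_one_sub_X_mul, Real.norm_eq_abs] at this
    refine this.trans ?_
    gcongr
    push_cast; linarith
  obtain ⟨c, hc, _⟩ := limit_of_diff (z := fun n => coeff n u) p h1
  refine ⟨c, 2 * D, fun n => ?_⟩
  rw [map_sub, coeff_C_mul, coeff_GG, mul_one, Real.norm_eq_abs]
  exact hc n

lemma BigO.tendsto {p : ℕ} {u : ℝ⟦X⟧} (hu : BigO (p + 1) u) :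
    Tendsto (fun n => coeff n u) atTop (𝓝 0) := by
  obtain ⟨D, hD0, hD⟩ := hu.nonneg
  have h1 : Tendsto (fun n : ℕ => ((n : ℝ) + 1) ^ (p + 1)) atTop atTop :=
    (tendsto_pow_atTop (Nat.succ_ne_zero p)).comp
      (tendsto_atTop_add_const_right _ _ tendsto_natCast_atTop_atTop)
  have h2 := (tendsto_const_nhds (x := D)).div_atTop h1
  exact squeeze_zero_norm hD h2

/-- if `v → 0` and `(1-X)^i v` is small then `v` is small -/
lemma BigO.of_pow_mul {s : ℕ} {v : ℝ⟦X⟧} (hv : Tendsto (fun n => coeff n v) atTop (𝓝 0)) (i : ℕ)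
    (h : BigO (s + 1 + i) ((1 - X) ^ i * v)) : BigO (s + 1) v := by
  have hmul : ∀ u : ℝ⟦X⟧, Tendsto (fun n => coeff n u) atTop (𝓝 0) →
      Tendsto (fun n => coeff n ((1 - X) * u)) atTop (𝓝 0) := by
    intro u hu
    rw [← tendsto_add_atTop_iff_nat 1]
    have h1 := (hu.comp (tendsto_add_atTop_nat 1)).sub hu
    rw [sub_zero] at h1
    refine h1.congr fun n => ?_
    rw [coeff_one_sub_X_mul]; rfl
  have hpow : ∀ i, Tendsto (fun n => coeff n ((1 - X) ^ i * v)) atTop (𝓝 0) := by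
    intro i
    induction i with
    | zero => simpa using hv
    | succ i ih => rw [pow_succ', mul_assoc]; exact hmul _ ih
  induction i with
  | zero => simpa using h
  | succ i ih =>
    apply ih
    rw [pow_succ', mul_assoc, show s + 1 + (i + 1) = (s + i) + 2 by ring] at h
    obtain ⟨c, hc⟩ := BigO.sum_series h
    have h2 := hc.tendsto
    have h3 := (hpow i).sub h2
    have h4 : Tendsto (fun n => coeff n ((1 - X) ^ i * v) -
        coeff n ((1 - X) ^ i * v - C c * GG)) atTop (𝓝 c) := by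
      have : (fun n => coeff n ((1 - X) ^ i * v) -
        coeff n ((1 - X) ^ i * v - C c * GG)) = fun _ => c := by
        ext n
        rw [map_sub, coeff_C_mul, coeff_GG]; ring
      rw [this]; exact tendsto_const_nhds
    have h5 : c = 0 := by
      have := tendsto_nhds_unique h4 h3
      simpa using this
    rw [h5, map_zero, zero_mul, sub_zero] at hc
    rw [show s + 1 + i = s + i + 1 by ring]
    exact hc

end Limits

end Pool.Agent.Lib.MP_493311_pr
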