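import Mathlib
import Pool.Agent.Lib.MP_493311_pr.Decay
import Pool.Agent.Lib.MP_493311_pr.BigO

section

open Finset PowerSeries Filter
open scoped Topology

namespace Pool.Agent.Lib.MP_493311_pr

lemma coeff_Ex_eq {J : ℕ} (hJ : 0 < J) {a N : ℕ} (ha : a ≤ N) :
    coeff a (Ex J) = ∑ i ∈ range (N + 1), 1 / (i.factorial * (J : ℝ) ^ i) *
      coeff a (X ^ (J * i) : ℝ⟦X⟧) := by
  unfold Ex
  rw [coeff_mk]
  by_cases h : J ∣ a
  · rw [if_pos h]
    obtain ⟨m, rfl⟩ := h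
    rw [Nat.mul_div_cancel_left _ hJ]
    rw [sum_eq_single m]
    · rw [coeff_X_pow, if_pos rfl, mul_one]
    · intro b _ hb
      rw [coeff_X_pow, if_neg, mul_zero]
      intro h
      exact hb (Nat.eq_of_mul_eq_mul_left hJ h).symm
    · intro h
      exfalso; apply h
      rw [mem_range]
      have : m ≤ J * m := Nat.le_mul_of_pos_left _ hJ
      omega
  · rw [if_neg h]
    symm
    apply sum_eq_zero
    intro i _
    rw [coeff_X_pow, if_neg, mul_zero]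
    rintro rfl
    exact h (dvd_mul_right _ _)

lemma coeff_Ex_mul {J : ℕ} (hJ : 0 < J) (n N : ℕ) (hN : n ≤ N) (f : ℝ⟦X⟧) :
    coeff n (Ex J * f) = ∑ i ∈ range (N + 1), 1 / (i.factorial * (J : ℝ) ^ i) *
      coeff n (X ^ (J * i) * f) := by
  rw [coeff_mul]
  have h1 : ∀ i, coeff n (X ^ (J * i) * f) =
      ∑ p ∈ antidiagonal n, coeff p.1 (X ^ (J * i) : ℝ⟦X⟧) * coeff p.2 f := fun i => coeff_mul _ _ _
  simp_rw [h1, mul_sum]
  rw [sum_comm]
  apply sum_congr rfl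
  intro p hp
  have hp' : p.1 ≤ N := by
    have := mem_antidiagonal.mp hp
    omega
  rw [coeff_Ex_eq hJ hp', sum_mul]
  apply sum_congr rfl
  intro i _
  ring

/-- `exp (-H_j)` -/
noncomputable def h (j : ℕ) : ℝ := Real.exp (-∑ i ∈ range j, (1 : ℝ) / (i + 1))

lemma h_zero : h 0 = 1 := by simp [h]

lemma h_pos (j : ℕ) : 0 < h j := Real.exp_pos _

lemma h_succ (j : ℕ) : h j = Real.exp (1 / ((j + 1 : ℕ) : ℝ)) * h (j + 1) := by
  unfold h
  rw [← Real.exp_add, sum_range_succ]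
  congr 1
  push_cast
  ring

lemma tendsto_q_exists {j : ℕ} (hj : 0 < j) : ∃ L, Tendsto (q j) atTop (𝓝 L) := by
  apply cauchySeq_tendsto_of_complete
  have hj' : (0 : ℝ) < j := by exact_mod_cast hj
  have hb : Tendsto (fun n : ℕ => 2 * (KR 0 / j * ((j : ℝ) / (((n + j + 1 : ℕ) : ℝ) + j)) ^ (0 + 1)))
      atTop (𝓝 0) := by
    have h1 : Tendsto (fun n : ℕ => ((n + j + 1 : ℕ) : ℝ) + j) atTop atTop := by
      have h0 : Tendsto (fun n : ℕ => n + j + 1) atTop atTop :=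
        tendsto_atTop_mono (fun n => by simp only [id]; omega) tendsto_id
      exact tendsto_atTop_add_const_right _ _ (tendsto_natCast_atTop_atTop.comp h0)
    have h2 := (tendsto_const_nhds (x := (j : ℝ))).div_atTop h1
    have h3 := (h2.const_mul (KR 0 / j)).const_mul 2
    simpa using h3
  have hc : CauchySeq (fun n => q j (n + (j + 1))) := by
    apply cauchySeq_of_le_tendsto_0 _ _ hb
    intro a b N ha hb
    have h1 : ∀ c, N ≤ c → |q j (c + (j + 1)) - q j (N + j + 1)| ≤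
        KR 0 / j * ((j : ℝ) / (((N + j + 1 : ℕ) : ℝ) + j)) ^ (0 + 1) := by
      intro c hc
      have h2 := abs_q_sub_le 0 hj (n := N + j + 1) (by omega) (c - N)
      rw [show N + j + 1 + (c - N) = c + (j + 1) by omega] at h2
      exact h2
    have h2 := h1 a ha
    have h3 := h1 b hb
    rw [Real.dist_eq]
    calc |q j (a + (j + 1)) - q j (b + (j + 1))|
        = |(q j (a + (j + 1)) - q j (N + j + 1)) - (q j (b + (j + 1)) - q j (N + j + 1))| := by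
          ring_nf
      _ ≤ _ := abs_sub _ _
      _ ≤ _ := add_le_add h2 h3
      _ = _ := by ring
  exact (cauchySeq_shift (j + 1)).mp hc

lemma coeff_X_pow_Q_nonneg (K j n : ℕ) : 0 ≤ coeff n (X ^ K * Q j) := by
  rw [coeff_X_pow_mul']
  split_ifs
  · rw [coeff_Q]; exact q_nonneg _ _
  · exact le_rfl

lemma coeff_X_pow_Q_le_one (K j n : ℕ) : coeff n (X ^ K * Q j) ≤ 1 := by
  rw [coeff_X_pow_mul']
  split_ifs
  · rw [coeff_Q]; exact q_le_one _ _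
  · exact zero_le_one

lemma q_pred_eq_tsum (j n : ℕ) : q j n = ∑' i : ℕ, 1 / (i.factorial * ((j + 1 : ℕ) : ℝ) ^ i) *
    coeff n (X ^ ((j + 1) * i) * Q (j + 1)) := by
  rw [← coeff_Q, Q_pred, coeff_Ex_mul (Nat.succ_pos j) n n le_rfl]
  rw [tsum_eq_sum (s := range (n + 1))]
  intro i hi
  rw [coeff_X_pow_mul', if_neg, mul_zero]
  rw [mem_range, not_lt] at hi
  have : i ≤ (j + 1) * i := Nat.le_mul_of_pos_left _ (Nat.succ_pos j)
  omega

lemma summable_inv_factorial (J : ℝ) :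
    Summable (fun i : ℕ => 1 / (i.factorial * J ^ i)) := by
  have := Real.summable_pow_div_factorial (1 / J)
  refine this.congr fun i => ?_
  rw [div_pow, one_pow, div_div, mul_comm]

lemma tsum_inv_factorial (J : ℝ) : ∑' i : ℕ, 1 / (i.factorial * J ^ i) = Real.exp (1 / J) := by
  rw [Real.exp_eq_exp_ℝ, NormedSpace.exp_eq_tsum_div]
  apply tsum_congr
  intro i
  rw [div_pow, one_pow, div_div, mul_comm]

/-- the limit of `q j n` as `n → ∞` -/
lemma tendsto_q (j : ℕ) : Tendsto (q j) atTop (𝓝 (h j)) := by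
  induction j with
  | zero =>
    rw [h_zero]
    have : q 0 = fun _ => 1 := by ext n; exact q_zero_left n
    rw [this]; exact tendsto_const_nhds
  | succ j ih =>
    obtain ⟨L, hL⟩ := tendsto_q_exists (Nat.succ_pos j)
    rw [Nat.succ_eq_add_one] at hL
    have h1 : Tendsto (fun n => ∑' i : ℕ, 1 / (i.factorial * ((j + 1 : ℕ) : ℝ) ^ i) *
        coeff n (X ^ ((j + 1) * i) * Q (j + 1))) atTop
        (𝓝 (∑' i : ℕ, 1 / (i.factorial * ((j + 1 : ℕ) : ℝ) ^ i) * L)) := by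
      apply tendsto_tsum_of_dominated_convergence (summable_inv_factorial ((j + 1 : ℕ) : ℝ))
      · intro i
        apply Tendsto.const_mul
        have h2 : Tendsto (fun n => q (j + 1) (n - (j + 1) * i)) atTop (𝓝 L) :=
          hL.comp (tendsto_sub_atTop_nat _)
        refine h2.congr' ?_
        filter_upwards [eventually_ge_atTop ((j + 1) * i)] with n hn
        rw [coeff_X_pow_mul', if_pos hn, coeff_Q]
      · filter_upwards with n i
        rw [Real.norm_eq_abs, abs_mul, abs_of_nonneg (coeff_X_pow_Q_nonneg _ _ _),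
          abs_of_nonneg (by positivity)]
        have := coeff_X_pow_Q_le_one ((j + 1) * i) (j + 1) n
        calc _ ≤ 1 / (i.factorial * ((j + 1 : ℕ) : ℝ) ^ i) * 1 := by gcongr
          _ = _ := mul_one _
    have h2 : (fun n => ∑' i : ℕ, 1 / (i.factorial * ((j + 1 : ℕ) : ℝ) ^ i) *
        coeff n (X ^ ((j + 1) * i) * Q (j + 1))) = q j := by
      ext n; exact (q_pred_eq_tsum j n).symm
    rw [h2, tsum_mul_right, tsum_inv_factorial] at h1
    have h3 := tendsto_nhds_unique h1 ih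
    rw [h_succ] at h3
    have h4 : L = h (j + 1) := mul_left_cancel₀ (Real.exp_pos _).ne' h3
    rw [← h4]; exact hL

lemma h_le (j : ℕ) : h j ≤ 1 / (j + 1) := by
  apply le_of_tendsto (tendsto_q j)
  filter_upwards [eventually_gt_atTop 0] with n hn
  exact q_le hn

lemma h_le' {j : ℕ} (hj : 0 < j) : h j ≤ 1 / j := by
  refine (h_le j).trans ?_
  have hj' : (0 : ℝ) < j := by exact_mod_cast hj
  exact one_div_le_one_div_of_le hj' (by linarith)

lemma abs_h_sub_q_le (R : ℕ) {j : ℕ} (hj : 0 < j) {n : ℕ} (hn : j + 1 ≤ n) :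
    |h j - q j n| ≤ KR R / j * ((j : ℝ) / (n + j)) ^ (R + 1) := by
  have h1 : Tendsto (fun m => |q j (n + m) - q j n|) atTop (𝓝 |h j - q j n|) := by
    apply Tendsto.abs
    apply Tendsto.sub_const
    have := (tendsto_q j).comp (tendsto_add_atTop_nat n)
    refine this.congr fun m => ?_
    simp only [Function.comp_apply, add_comm]
  exact le_of_tendsto h1 (Eventually.of_forall fun m => abs_q_sub_le R hj hn m)

/-- `e^{-H_j}` minus the `n`-th coefficient of `X^K Q_j` -/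
noncomputable def dl (j K n : ℕ) : ℝ := h j - coeff n (X ^ K * Q j)

/-- basic bound for `dl` -/
lemma abs_dl_le (R : ℕ) {j : ℕ} (hj : 0 < j) (k n : ℕ) :
    |dl j (k * j) n| ≤ (KR R + 2 ^ (R + 1)) / j * ((k + 1) * (j : ℝ) / (n + j)) ^ (R + 1) +
      (if n = k * j then 1 else 0) := by
  have hj' : (0 : ℝ) < j := by exact_mod_cast hj
  have hK := KR_pos R
  have hh := h_pos j
  have hh' := h_le' hj
  have hmain : 0 ≤ (KR R + 2 ^ (R + 1)) / j * ((k + 1) * (j : ℝ) / (n + j)) ^ (R + 1) := by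
    positivity
  unfold dl
  rw [coeff_X_pow_mul']
  rcases lt_trichotomy n (k * j) with hn | hn | hn
  · rw [if_neg (by omega), if_neg (by omega), sub_zero, add_zero, abs_of_pos hh]
    have h1 : 1 ≤ (k + 1) * (j : ℝ) / (n + j) := by
      rw [le_div_iff₀ (by positivity), one_mul]
      have : (n : ℝ) ≤ k * j := by exact_mod_cast hn.le
      linarith
    calc h j ≤ 1 / j := hh'
      _ ≤ (KR R + 2 ^ (R + 1)) / j * 1 ^ (R + 1) := by
        rw [one_pow, mul_one]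
        gcongr
        have : (1 : ℝ) ≤ 2 ^ (R + 1) := one_le_pow₀ (by norm_num)
        linarith
      _ ≤ _ := by gcongr
  · rw [if_pos hn.ge, if_pos hn, hn, Nat.sub_self, coeff_Q, q_zero]
    have h1 : h j ≤ 1 := by
      refine (h_le j).trans ?_
      rw [div_le_one (by positivity)]; linarith
    have : |h j - 1| ≤ 1 := by rw [abs_le]; constructor <;> linarith
    rw [hn] at hmain
    linarith
  · rw [if_pos hn.le, if_neg (by omega), add_zero, coeff_Q]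
    have hnm : ((n - k * j : ℕ) : ℝ) = n - k * j := by
      rw [Nat.cast_sub hn.le]; push_cast; ring
    have hpos : (k : ℝ) * j < n := by exact_mod_cast hn
    rcases Nat.lt_or_ge (n - k * j) (j + 1) with h1 | h1
    · -- small index: q = 0
      rw [q_eq_zero (by omega) (by omega), sub_zero, abs_of_pos hh]
      have h2 : 1 ≤ 2 * ((k + 1) * (j : ℝ) / (n + j)) := by
        rw [mul_div_assoc', le_div_iff₀ (by positivity), one_mul]
        have : n ≤ k * j + j := by omega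
        have : (n : ℝ) ≤ k * j + j := by exact_mod_cast this
        have : (0 : ℝ) ≤ k * j := by positivity
        nlinarith
      calc h j ≤ 1 / j := hh'
        _ ≤ 1 / j * (2 * ((k + 1) * (j : ℝ) / (n + j))) ^ (R + 1) := by
          apply le_mul_of_one_le_right (by positivity)
          exact one_le_pow₀ h2
        _ = 2 ^ (R + 1) / j * ((k + 1) * (j : ℝ) / (n + j)) ^ (R + 1) := by
          rw [mul_pow]; ring
        _ ≤ _ := by gcongr; linarith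
    · refine (abs_h_sub_q_le R hj h1).trans ?_
      rw [hnm]
      have h2 : (j : ℝ) / (n - k * j + j) ≤ (k + 1) * (j : ℝ) / (n + j) := by
        rw [div_le_div_iff₀ (by linarith) (by positivity)]
        have h3 : 0 ≤ (k : ℝ) * (n - k * j) := mul_nonneg (by positivity) (by linarith)
        nlinarith
      have h4 : 0 ≤ (j : ℝ) / (n - k * j + j) := div_nonneg hj'.le (by linarith)
      gcongr
      have : (0 : ℝ) ≤ 2 ^ (R + 1) := by positivity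
      linarith

end Pool.Agent.Lib.MP_493311_pr
end

section

section

open Finset PowerSeries Filter
open scoped Topology

namespace Pool.Agent.Lib.MP_493311_pr

/-- `log (1/(1-X))` -/
noncomputable def Lg : ℝ⟦X⟧ := PowerSeries.mk fun n => 1 / (n : ℝ)

lemma coeff_Lg (n : ℕ) : coeff n Lg = 1 / (n : ℝ) := coeff_mk _ _

lemma deriv_Lg : d⁄dX ℝ Lg = GG := by
  ext n
  rw [coeff_derivative, coeff_Lg, coeff_GG]
  push_cast
  have : (n : ℝ) + 1 ≠ 0 := by positivity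
  field_simp

/-- coefficients of `(1-X)^Λ log(1/(1-X))` -/
lemma coeff_pow_mul_Lg (Λ n : ℕ) (hn : Λ < n) :
    coeff n ((1 - X) ^ Λ * Lg) = (-1) ^ Λ * Λ.factorial / (n.descFactorial (Λ + 1) : ℝ) := by
  induction Λ generalizing n with
  | zero => rw [pow_zero, one_mul, coeff_Lg]; simp
  | succ Λ ih =>
    obtain ⟨m, rfl⟩ : ∃ m, n = m + 1 := ⟨n - 1, by omega⟩
    rw [pow_succ', mul_assoc, coeff_one_sub_X_mul, ih _ (by omega), ih _ (by omega)]
    have h1 : (m + 1).descFactorial (Λ + 1) = (m + 1) * m.descFactorial Λ :=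
      Nat.succ_descFactorial_succ m Λ
    have h2 : m.descFactorial (Λ + 1) = (m - Λ) * m.descFactorial Λ := Nat.descFactorial_succ m Λ
    have h3 : (m + 1).descFactorial (Λ + 1 + 1) = (m + 1) * m.descFactorial (Λ + 1) :=
      Nat.succ_descFactorial_succ m (Λ + 1)
    have h4 : (0 : ℝ) < m.descFactorial Λ := by
      exact_mod_cast Nat.descFactorial_pos.mpr (by omega)
    have h5 : ((m - Λ : ℕ) : ℝ) = m - Λ := by rw [Nat.cast_sub (by omega)]
    have h6 : (0 : ℝ) < (m : ℝ) - Λ := by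
      have : ((Λ : ℕ) : ℝ) < m := by exact_mod_cast (by omega : Λ < m)
      linarith
    rw [h3, h2, h1, Nat.factorial_succ]
    push_cast
    rw [h5]
    have h7 : (0 : ℝ) < (m : ℝ) + 1 := by positivity
    field_simp
    ring

lemma descFactorial_lower (Λ n : ℕ) (hn : Λ < n) :
    (((n : ℝ) + 1) / (Λ + 2)) ^ (Λ + 1) ≤ (n.descFactorial (Λ + 1) : ℝ) := by
  have h1 : ∀ k, k ≤ Λ + 1 → (((n : ℝ) + 1) / (Λ + 2)) ^ k ≤ (n.descFactorial k : ℝ) := by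
    intro k hk
    induction k with
    | zero => simp
    | succ k ih =>
      have ih' := ih (by omega)
      rw [Nat.descFactorial_succ, pow_succ, mul_comm]
      push_cast
      have h2 : ((n : ℝ) + 1) / (Λ + 2) ≤ ((n - k : ℕ) : ℝ) := by
        rw [Nat.cast_sub (by omega), div_le_iff₀ (by positivity)]
        have h3 : (k : ℝ) ≤ Λ := by exact_mod_cast (by omega : k ≤ Λ)
        have h4 : (Λ : ℝ) + 1 ≤ n := by exact_mod_cast hn
        nlinarith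
      gcongr
  exact h1 (Λ + 1) le_rfl

lemma bigO_pow_mul_Lg (Λ : ℕ) : BigO (Λ + 1) ((1 - X) ^ Λ * Lg) := by
  apply bigO_of_eventually (N := Λ + 1) (C := Λ.factorial * ((Λ : ℝ) + 2) ^ (Λ + 1))
  intro n hn
  rw [coeff_pow_mul_Lg Λ n (by omega), Real.norm_eq_abs, abs_div, abs_mul, abs_pow, abs_neg,
    abs_one, one_pow, one_mul, Nat.abs_cast, Nat.abs_cast]
  have h1 := descFactorial_lower Λ n (by omega)
  have h2 : (0 : ℝ) < (((n : ℝ) + 1) / (Λ + 2)) ^ (Λ + 1) := by positivity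
  calc (Λ.factorial : ℝ) / (n.descFactorial (Λ + 1) : ℝ)
      ≤ (Λ.factorial : ℝ) / (((n : ℝ) + 1) / (Λ + 2)) ^ (Λ + 1) := by gcongr
    _ = _ := by rw [div_pow]; field_simp

lemma eq_zero_of_bigO_pow_mul_Lg {Λ : ℕ} {c : ℝ} (h : BigO (Λ + 2) (C c * ((1 - X) ^ Λ * Lg))) :
    c = 0 := by
  obtain ⟨D, hD0, hD⟩ := h.nonneg
  by_contra hc
  have hc' : 0 < |c| := abs_pos.mpr hc
  have h1 : ∀ n : ℕ, Λ < n → |c| * Λ.factorial ≤ D / ((n : ℝ) + 1) := by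
    intro n hn
    have h2 := hD n
    rw [coeff_C_mul, coeff_pow_mul_Lg Λ n hn, Real.norm_eq_abs, abs_mul, abs_div, abs_mul, abs_pow,
      abs_neg, abs_one, one_pow, one_mul, Nat.abs_cast, Nat.abs_cast] at h2
    have h3 : (n.descFactorial (Λ + 1) : ℝ) ≤ ((n : ℝ) + 1) ^ (Λ + 1) := by
      have : n.descFactorial (Λ + 1) ≤ n ^ (Λ + 1) := Nat.descFactorial_le_pow n (Λ + 1)
      calc (n.descFactorial (Λ + 1) : ℝ) ≤ (n : ℝ) ^ (Λ + 1) := by exact_mod_cast this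
        _ ≤ _ := by gcongr; linarith
    have h4 : (0 : ℝ) < n.descFactorial (Λ + 1) := by
      exact_mod_cast Nat.descFactorial_pos.mpr (by omega)
    rw [mul_div_assoc', div_le_div_iff₀ h4 (by positivity)] at h2
    rw [le_div_iff₀ (by positivity)]
    have h5 : |c| * (Λ.factorial : ℝ) * ((n : ℝ) + 1) ^ (Λ + 2) ≤ D * ((n : ℝ) + 1) ^ (Λ + 1) := by
      refine h2.trans ?_
      gcongr
    have h6 : (0 : ℝ) < ((n : ℝ) + 1) ^ (Λ + 1) := by positivity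
    have h7 : |c| * (Λ.factorial : ℝ) * ((n : ℝ) + 1) * ((n : ℝ) + 1) ^ (Λ + 1) ≤
        D * ((n : ℝ) + 1) ^ (Λ + 1) := by
      calc _ = |c| * (Λ.factorial : ℝ) * ((n : ℝ) + 1) ^ (Λ + 2) := by ring
        _ ≤ _ := h5
    exact le_of_mul_le_mul_right h7 h6
  have h2 : Tendsto (fun n : ℕ => D / ((n : ℝ) + 1)) atTop (𝓝 0) :=
    (tendsto_const_nhds (x := D)).div_atTop
      (tendsto_atTop_add_const_right _ _ tendsto_natCast_atTop_atTop)
  have h3 : |c| * Λ.factorial ≤ 0 := by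
    apply ge_of_tendsto h2
    filter_upwards [eventually_gt_atTop Λ] with n hn
    exact h1 n hn
  have h4 : 0 < |c| * (Λ.factorial : ℝ) := by positivity
  linarith

/-- solution of the first order recursion -/
lemma BigO.ode {Λ s : ℕ} {y : ℝ⟦X⟧}
    (h : BigO (Λ + 2 + s) ((1 - X) * d⁄dX ℝ y + C (Λ : ℝ) * y)) :
    ∃ c : ℝ, BigO (Λ + 2 + s) (y - C c * ((1 - X) ^ Λ * Lg)) := by
  obtain ⟨D, hD0, hD⟩ := h.nonneg
  set z : ℕ → ℝ := fun n => (n.descFactorial (Λ + 1) : ℝ) * coeff n y with hz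
  have hdiff : ∀ n : ℕ, |z (n + 1) - z n| ≤ D / ((n : ℝ) + 1) ^ (s + 2) := by
    intro n
    have h1 : z (n + 1) - z n = (n.descFactorial Λ : ℝ) *
        coeff n ((1 - X) * d⁄dX ℝ y + C (Λ : ℝ) * y) := by
      rw [map_add, coeff_one_sub_X_mul_deriv, coeff_C_mul, hz]
      simp only
      rw [Nat.succ_descFactorial_succ, Nat.descFactorial_succ]
      push_cast
      rcases Nat.lt_or_ge n Λ with hn | hn
      · have : n.descFactorial Λ = 0 := Nat.descFactorial_eq_zero_iff_lt.mpr hn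
        rw [this]; simp
      · rw [Nat.cast_sub hn]; ring
    rw [h1, abs_mul, Nat.abs_cast]
    have h2 : (n.descFactorial Λ : ℝ) ≤ ((n : ℝ) + 1) ^ Λ := by
      have : n.descFactorial Λ ≤ n ^ Λ := Nat.descFactorial_le_pow n Λ
      calc (n.descFactorial Λ : ℝ) ≤ (n : ℝ) ^ Λ := by exact_mod_cast this
        _ ≤ _ := by gcongr; linarith
    calc (n.descFactorial Λ : ℝ) * |coeff n ((1 - X) * d⁄dX ℝ y + C (Λ : ℝ) * y)|
        ≤ ((n : ℝ) + 1) ^ Λ * (D / ((n : ℝ) + 1) ^ (Λ + 2 + s)) := by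
          gcongr
          exact hD n
      _ = _ := by
          rw [show Λ + 2 + s = Λ + (s + 2) by ring, pow_add]
          field_simp
  obtain ⟨c, hc, _⟩ := limit_of_diff s hdiff
  refine ⟨c * ((-1) ^ Λ / Λ.factorial), ?_⟩
  apply bigO_of_eventually (N := Λ + 1) (C := 2 * D * ((Λ : ℝ) + 2) ^ (Λ + 1))
  intro n hn
  have h1 := descFactorial_lower Λ n (by omega)
  have h2 : (0 : ℝ) < (((n : ℝ) + 1) / (Λ + 2)) ^ (Λ + 1) := by positivity
  have h3 : (0 : ℝ) < n.descFactorial (Λ + 1) := lt_of_lt_of_le h2 h1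
  have h4 : (0 : ℝ) < Λ.factorial := by positivity
  have h5 : coeff n (y - C (c * ((-1) ^ Λ / Λ.factorial)) * ((1 - X) ^ Λ * Lg)) =
      (z n - c) / (n.descFactorial (Λ + 1) : ℝ) := by
    rw [map_sub, coeff_C_mul, coeff_pow_mul_Lg Λ n (by omega), hz]
    simp only
    have h6 : ((-1 : ℝ) ^ Λ) * (-1) ^ Λ = 1 := by
      rw [← mul_pow]; norm_num
    field_simp
    linear_combination (-c) * h6
  rw [h5, Real.norm_eq_abs, abs_div, Nat.abs_cast]
  calc |z n - c| / (n.descFactorial (Λ + 1) : ℝ)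
      ≤ (2 * D / ((n : ℝ) + 1) ^ (s + 1)) / (((n : ℝ) + 1) / (Λ + 2)) ^ (Λ + 1) := by
        gcongr
        exact hc n
    _ = _ := by
        rw [div_pow, show Λ + 2 + s = (s + 1) + (Λ + 1) by ring, pow_add _ (s + 1)]
        field_simp

end Pool.Agent.Lib.MP_493311_pr
end

section

open Finset PowerSeries Filter
open scoped Topology

namespace Pool.Agent.Lib.MP_493311_pr

/-- small near `1`, at order `p` -/
def Neg (p : ℕ) (f : ℝ⟦X⟧) : Prop :=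
  ∃ P : Polynomial ℝ, P.eval 1 ≠ 0 ∧ BigO p ((P : ℝ⟦X⟧) * f)

/-- symbols near `1` -/
def Sym (p : ℕ) (f : ℝ⟦X⟧) : Prop := ∀ i : ℕ, Neg (p + i) ((1 - X) ^ i * f)

lemma BigO.toNeg {p : ℕ} {f : ℝ⟦X⟧} (h : BigO p f) : Neg p f :=
  ⟨1, by simp, by simpa using h⟩

lemma Neg.poly_mul {p : ℕ} {f : ℝ⟦X⟧} (h : Neg p f) (P : Polynomial ℝ) :
    Neg p ((P : ℝ⟦X⟧) * f) := by
  obtain ⟨Q, hQ, hb⟩ := h
  refine ⟨Q, hQ, ?_⟩
  have := hb.poly_mul P
  have e : (Q : ℝ⟦X⟧) * ((P : ℝ⟦X⟧) * f) = (P : ℝ⟦X⟧) * ((Q : ℝ⟦X⟧) * f) := by ring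
  rwa [e]

lemma Neg.of_poly_mul {p : ℕ} {f : ℝ⟦X⟧} {P : Polynomial ℝ} (hP : P.eval 1 ≠ 0)
    (h : Neg p ((P : ℝ⟦X⟧) * f)) : Neg p f := by
  obtain ⟨Q, hQ, hb⟩ := h
  refine ⟨Q * P, by rw [Polynomial.eval_mul]; exact mul_ne_zero hQ hP, ?_⟩
  rw [Polynomial.coe_mul, mul_assoc]
  exact hb

lemma Neg.common {p q : ℕ} {f g : ℝ⟦X⟧} (hf : Neg p f) (hg : Neg q g) :
    ∃ P : Polynomial ℝ, P.eval 1 ≠ 0 ∧ BigO p ((P : ℝ⟦X⟧) * f) ∧ BigO q ((P : ℝ⟦X⟧) * g) := by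
  obtain ⟨P, hP, hfP⟩ := hf
  obtain ⟨Q, hQ, hgQ⟩ := hg
  refine ⟨P * Q, by rw [Polynomial.eval_mul]; exact mul_ne_zero hP hQ, ?_, ?_⟩
  · have e : ((P * Q : Polynomial ℝ) : ℝ⟦X⟧) * f = (Q : ℝ⟦X⟧) * ((P : ℝ⟦X⟧) * f) := by
      rw [Polynomial.coe_mul]; ring
    rw [e]; exact hfP.poly_mul Q
  · rw [Polynomial.coe_mul, mul_assoc]; exact hgQ.poly_mul P

lemma Neg.add {p : ℕ} {f g : ℝ⟦X⟧} (hf : Neg p f) (hg : Neg p g) : Neg p (f + g) := by
  obtain ⟨P, hP, h1, h2⟩ := hf.common hg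
  exact ⟨P, hP, by rw [mul_add]; exact h1.add h2⟩

lemma Neg.neg {p : ℕ} {f : ℝ⟦X⟧} (hf : Neg p f) : Neg p (-f) := by
  obtain ⟨P, hP, h1⟩ := hf
  exact ⟨P, hP, by rw [mul_neg]; exact h1.neg⟩

lemma Neg.sub {p : ℕ} {f g : ℝ⟦X⟧} (hf : Neg p f) (hg : Neg p g) : Neg p (f - g) := by
  rw [sub_eq_add_neg]; exact hf.add hg.neg

lemma Neg.mono {p p' : ℕ} (h : p' ≤ p) {f : ℝ⟦X⟧} (hf : Neg p f) : Neg p' f := by
  obtain ⟨P, hP, h1⟩ := hf
  exact ⟨P, hP, h1.mono h⟩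

lemma Neg.poly (p : ℕ) (P : Polynomial ℝ) : Neg p (P : ℝ⟦X⟧) := (BigO.poly p P).toNeg

lemma Neg.C_mul {p : ℕ} {f : ℝ⟦X⟧} (hf : Neg p f) (c : ℝ) : Neg p (C c * f) := by
  have := hf.poly_mul (Polynomial.C c)
  rwa [Polynomial.coe_C] at this

lemma coe_one_sub_X_pow (i : ℕ) :
    (((1 - Polynomial.X : Polynomial ℝ) ^ i : Polynomial ℝ) : ℝ⟦X⟧) = (1 - X) ^ i := by
  simp

lemma Sym.toNeg {p : ℕ} {f : ℝ⟦X⟧} (h : Sym p f) : Neg p f := by simpa using h 0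

lemma Sym.add {p : ℕ} {f g : ℝ⟦X⟧} (hf : Sym p f) (hg : Sym p g) : Sym p (f + g) := by
  intro i; rw [mul_add]; exact (hf i).add (hg i)

lemma Sym.neg {p : ℕ} {f : ℝ⟦X⟧} (hf : Sym p f) : Sym p (-f) := by
  intro i; rw [mul_neg]; exact (hf i).neg

lemma Sym.sub {p : ℕ} {f g : ℝ⟦X⟧} (hf : Sym p f) (hg : Sym p g) : Sym p (f - g) := by
  rw [sub_eq_add_neg]; exact hf.add hg.neg

lemma Sym.zero (p : ℕ) : Sym p (0 : ℝ⟦X⟧) := by
  intro i; rw [mul_zero]; exact (BigO.zero _).toNeg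

lemma Sym.sum {ι : Type*} {p : ℕ} (s : Finset ι) {f : ι → ℝ⟦X⟧} (hf : ∀ i ∈ s, Sym p (f i)) :
    Sym p (∑ i ∈ s, f i) := by
  classical
  induction s using Finset.induction_on with
  | empty => simpa using Sym.zero p
  | insert a s ha ih =>
    rw [sum_insert ha]
    exact (hf a (mem_insert_self _ _)).add (ih fun i hi => hf i (mem_insert_of_mem hi))

lemma Sym.mono {p p' : ℕ} (h : p' ≤ p) {f : ℝ⟦X⟧} (hf : Sym p f) : Sym p' f := by
  intro i; exact (hf i).mono (by omega)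

lemma Sym.poly_mul {p : ℕ} {f : ℝ⟦X⟧} (h : Sym p f) (P : Polynomial ℝ) :
    Sym p ((P : ℝ⟦X⟧) * f) := by
  intro i
  have e : (1 - X : ℝ⟦X⟧) ^ i * ((P : ℝ⟦X⟧) * f) = (P : ℝ⟦X⟧) * ((1 - X) ^ i * f) := by ring
  rw [e]; exact (h i).poly_mul P

lemma Sym.of_poly_mul {p : ℕ} {f : ℝ⟦X⟧} {P : Polynomial ℝ} (hP : P.eval 1 ≠ 0)
    (h : Sym p ((P : ℝ⟦X⟧) * f)) : Sym p f := by
  intro i
  have e : (1 - X : ℝ⟦X⟧) ^ i * ((P : ℝ⟦X⟧) * f) = (P : ℝ⟦X⟧) * ((1 - X) ^ i * f) := by ring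
  have := h i
  rw [e] at this
  exact this.of_poly_mul hP

lemma Sym.C_mul {p : ℕ} {f : ℝ⟦X⟧} (hf : Sym p f) (c : ℝ) : Sym p (C c * f) := by
  have := hf.poly_mul (Polynomial.C c)
  rwa [Polynomial.coe_C] at this

lemma Sym.poly (p : ℕ) (P : Polynomial ℝ) : Sym p (P : ℝ⟦X⟧) := by
  intro i
  have : (1 - X : ℝ⟦X⟧) ^ i * (P : ℝ⟦X⟧) =
      (((1 - Polynomial.X : Polynomial ℝ) ^ i * P : Polynomial ℝ) : ℝ⟦X⟧) := by simp
  rw [this]; exact Neg.poly _ _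

lemma Sym.w_pow_mul {p : ℕ} {f : ℝ⟦X⟧} (h : Sym p f) (k : ℕ) : Sym (p + k) ((1 - X) ^ k * f) := by
  intro i
  rw [← mul_assoc, ← pow_add, add_assoc, add_comm k i]
  exact h (i + k)

lemma Sym.w_mul {p : ℕ} {f : ℝ⟦X⟧} (h : Sym p f) : Sym (p + 1) ((1 - X) * f) := by
  simpa using h.w_pow_mul 1

lemma Sym.pow_mul_Lg (Λ : ℕ) : Sym (Λ + 1) ((1 - X) ^ Λ * Lg) := by
  intro i
  rw [← mul_assoc, ← pow_add]
  have := (bigO_pow_mul_Lg (i + Λ)).toNeg
  rwa [show Λ + 1 + i = i + Λ + 1 by ring]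

/-- decomposition `P = P(1) + (1-X) R` -/
lemma poly_decomp (P : Polynomial ℝ) : ∃ R : Polynomial ℝ,
    (P : ℝ⟦X⟧) = C (P.eval 1) + (1 - X) * (R : ℝ⟦X⟧) := by
  obtain ⟨R, hR⟩ := Polynomial.X_sub_C_dvd_sub_C_eval (p := P) (a := 1)
  refine ⟨-R, ?_⟩
  have h1 : P = Polynomial.C (P.eval 1) + (1 - Polynomial.X) * (-R) := by
    have : P = Polynomial.C (P.eval 1) + (Polynomial.X - Polynomial.C 1) * R := by
      rw [← hR]; ring
    rw [Polynomial.C_1] at this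
    calc P = Polynomial.C (P.eval 1) + (Polynomial.X - 1) * R := this
      _ = _ := by ring
  have h2 := congrArg (fun p : Polynomial ℝ => (p : ℝ⟦X⟧)) h1
  simp only [Polynomial.coe_add, Polynomial.coe_mul, Polynomial.coe_C, Polynomial.coe_sub,
    Polynomial.coe_one, Polynomial.coe_X] at h2
  exact h2

lemma eq_zero_of_neg_Lg {Λ : ℕ} {c : ℝ} (h : Neg (Λ + 2) (C c * ((1 - X) ^ Λ * Lg))) : c = 0 := by
  obtain ⟨P, hP, hb⟩ := h
  obtain ⟨R, hR⟩ := poly_decomp P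
  have h1 : BigO (Λ + 2) (C (P.eval 1 * c) * ((1 - X) ^ Λ * Lg)) := by
    have e : C (P.eval 1 * c) * ((1 - X) ^ Λ * Lg) =
        (P : ℝ⟦X⟧) * (C c * ((1 - X) ^ Λ * Lg)) -
          C c * ((R : ℝ⟦X⟧) * ((1 - X) ^ (Λ + 1) * Lg)) := by
      rw [hR, map_mul]; ring
    rw [e]
    exact hb.sub ((((bigO_pow_mul_Lg (Λ + 1)).poly_mul R)).C_mul c)
  have h2 := eq_zero_of_bigO_pow_mul_Lg h1
  exact (mul_eq_zero.mp h2).resolve_left hP

lemma eq_zero_of_neg_GG {c : ℝ} (h : Neg 1 (C c * GG)) : c = 0 := by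
  obtain ⟨P, hP, hb⟩ := h
  obtain ⟨R, hR⟩ := poly_decomp P
  have h1 : BigO (0 + 1) (C (P.eval 1 * c) * GG) := by
    have e : C (P.eval 1 * c) * GG = (P : ℝ⟦X⟧) * (C c * GG) - C c * (R : ℝ⟦X⟧) := by
      rw [hR, map_mul]
      have := one_sub_X_mul_GG
      linear_combination (-(C c) * (R : ℝ⟦X⟧)) * this
    rw [e]
    exact hb.sub ((BigO.poly 1 R).C_mul c)
  have h2 := h1.tendsto
  have h3 : Tendsto (fun n : ℕ => coeff n (C (P.eval 1 * c) * GG)) atTop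
      (𝓝 (P.eval 1 * c)) := by
    have : (fun n : ℕ => coeff n (C (P.eval 1 * c) * GG)) = fun _ => P.eval 1 * c := by
      ext n; rw [coeff_C_mul, coeff_GG, mul_one]
    rw [this]; exact tendsto_const_nhds
  have h4 := tendsto_nhds_unique h3 h2
  exact (mul_eq_zero.mp h4).resolve_left hP

lemma deriv_coe (P : Polynomial ℝ) : d⁄dX ℝ (P : ℝ⟦X⟧) = ((Polynomial.derivative P : Polynomial ℝ) : ℝ⟦X⟧) :=
  PowerSeries.derivative_coe P

/-- derivative of a symbol -/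
lemma Neg.w_deriv {p : ℕ} {g : ℝ⟦X⟧} (h0 : Neg p g) (h1 : Neg (p + 1) ((1 - X) * g)) :
    Neg p ((1 - X) * d⁄dX ℝ g) := by
  obtain ⟨P, hP, hb0, hb1⟩ := h0.common h1
  refine ⟨P ^ 2, by rw [Polynomial.eval_pow]; exact pow_ne_zero 2 hP, ?_⟩
  have hd : d⁄dX ℝ ((P : ℝ⟦X⟧) * ((1 - X) * g)) =
      (P : ℝ⟦X⟧) * ((1 - X) * d⁄dX ℝ g) - (P : ℝ⟦X⟧) * g +
        ((Polynomial.derivative P : Polynomial ℝ) : ℝ⟦X⟧) * ((1 - X) * g) := by
    rw [Derivation.leibniz, Derivation.leibniz, smul_eq_mul, smul_eq_mul, smul_eq_mul,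
      smul_eq_mul, deriv_coe]
    have : d⁄dX ℝ (1 - X : ℝ⟦X⟧) = -1 := by
      rw [map_sub, Derivation.map_one_eq_zero, derivative_X, zero_sub]
    rw [this]; ring
  have e : ((P ^ 2 : Polynomial ℝ) : ℝ⟦X⟧) * ((1 - X) * d⁄dX ℝ g) =
      (P : ℝ⟦X⟧) * d⁄dX ℝ ((P : ℝ⟦X⟧) * ((1 - X) * g)) + (P : ℝ⟦X⟧) * ((P : ℝ⟦X⟧) * g) -
        ((Polynomial.derivative P : Polynomial ℝ) : ℝ⟦X⟧) * ((P : ℝ⟦X⟧) * ((1 - X) * g)) := by
    rw [hd, Polynomial.coe_pow]; ring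
  rw [e]
  refine BigO.sub (BigO.add ?_ ?_) ?_
  · exact (hb1.deriv).poly_mul P
  · exact hb0.poly_mul P
  · exact (hb1.mono (Nat.le_succ p)).poly_mul _

lemma w_pow_deriv (i : ℕ) (f : ℝ⟦X⟧) : (1 - X) * d⁄dX ℝ ((1 - X) ^ i * f) =
    (1 - X) ^ i * ((1 - X) * d⁄dX ℝ f) - C (i : ℝ) * ((1 - X) ^ i * f) := by
  rw [Derivation.leibniz, smul_eq_mul, smul_eq_mul]
  rcases i with _ | i
  · simp
  · rw [derivative_one_sub_X_pow]
    have : (((i + 1 : ℕ) : ℝ⟦X⟧)) = C (((i + 1 : ℕ) : ℝ)) := by simp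
    rw [this, pow_succ]
    ring

lemma Sym.w_deriv {p : ℕ} {f : ℝ⟦X⟧} (h : Sym p f) : Sym p ((1 - X) * d⁄dX ℝ f) := by
  intro i
  have h1 : Neg (p + i) ((1 - X) * d⁄dX ℝ ((1 - X) ^ i * f)) := by
    apply Neg.w_deriv (h i)
    have := h (i + 1)
    rw [pow_succ', mul_assoc] at this
    exact this
  have e : (1 - X) ^ i * ((1 - X) * d⁄dX ℝ f) =
      (1 - X) * d⁄dX ℝ ((1 - X) ^ i * f) + C (i : ℝ) * ((1 - X) ^ i * f) := by
    rw [w_pow_deriv]; ring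
  rw [e]
  exact h1.add ((h i).C_mul _)

/-- core of the ODE lemma -/
lemma ode_core {Λ s : ℕ} {g : ℝ⟦X⟧}
    (h1 : Neg (Λ + 2 + s) ((1 - X) * d⁄dX ℝ g + C (Λ : ℝ) * g))
    (h2 : Neg (Λ + 2 + s) ((1 - X) * g)) :
    ∃ c : ℝ, ∃ P : Polynomial ℝ, P.eval 1 ≠ 0 ∧
      BigO (Λ + 2 + s) ((P : ℝ⟦X⟧) * g - C c * ((1 - X) ^ Λ * Lg)) := by
  obtain ⟨P, hP, hb1, hb2⟩ := h1.common h2
  have h3 : BigO (Λ + 2 + s) ((1 - X) * d⁄dX ℝ (((P ^ 2 : Polynomial ℝ) : ℝ⟦X⟧) * g) +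
      C (Λ : ℝ) * (((P ^ 2 : Polynomial ℝ) : ℝ⟦X⟧) * g)) := by
    have e : (1 - X) * d⁄dX ℝ (((P ^ 2 : Polynomial ℝ) : ℝ⟦X⟧) * g) +
      C (Λ : ℝ) * (((P ^ 2 : Polynomial ℝ) : ℝ⟦X⟧) * g) =
      (P : ℝ⟦X⟧) * ((P : ℝ⟦X⟧) * ((1 - X) * d⁄dX ℝ g + C (Λ : ℝ) * g)) +
      ((2 * Polynomial.derivative P : Polynomial ℝ) : ℝ⟦X⟧) * ((P : ℝ⟦X⟧) * ((1 - X) * g)) := by
      rw [Polynomial.coe_pow, Derivation.leibniz, Derivation.leibniz_pow, smul_eq_mul, smul_eq_mul,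
        deriv_coe, Polynomial.coe_mul]
      have : ((2 : Polynomial ℝ) : ℝ⟦X⟧) = 2 := by
        exact map_ofNat (Polynomial.coeToPowerSeries.ringHom (R := ℝ)) 2
      rw [this]
      simp only [Nat.add_one_sub_one, pow_one, smul_eq_mul, nsmul_eq_mul, Nat.cast_ofNat]
      ring
    rw [e]
    exact (hb1.poly_mul P).add (hb2.poly_mul _)
  obtain ⟨c, hc⟩ := h3.ode
  exact ⟨c, P ^ 2, by rw [Polynomial.eval_pow]; exact pow_ne_zero 2 hP, hc⟩

/-- ODE lemma, non-resonant case -/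
lemma Sym.ode_nonres {Λ t : ℕ} {f : ℝ⟦X⟧} (hf : Sym (Λ + 2 + t) f)
    (hg : Sym (Λ + 3 + t) ((1 - X) * d⁄dX ℝ f + C (Λ : ℝ) * f)) : Sym (Λ + 3 + t) f := by
  intro i
  have e1 : (1 - X) * d⁄dX ℝ ((1 - X) ^ i * f) + C (((Λ + i : ℕ) : ℝ)) * ((1 - X) ^ i * f) =
      (1 - X) ^ i * ((1 - X) * d⁄dX ℝ f + C (Λ : ℝ) * f) := by
    rw [w_pow_deriv]
    push_cast
    rw [map_add]
    ring
  have h1 : Neg ((Λ + i) + 2 + (t + 1)) ((1 - X) * d⁄dX ℝ ((1 - X) ^ i * f) +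
      C (((Λ + i : ℕ) : ℝ)) * ((1 - X) ^ i * f)) := by
    rw [e1]; exact (hg i).mono (by omega)
  have h2 : Neg ((Λ + i) + 2 + (t + 1)) ((1 - X) * ((1 - X) ^ i * f)) := by
    have := hf (i + 1)
    rw [pow_succ', mul_assoc] at this
    exact this.mono (by omega)
  obtain ⟨c, P, hP, hc⟩ := ode_core h1 h2
  obtain ⟨P3, hP3, hb3⟩ := hf i
  have hc0 : c = 0 := by
    apply eq_zero_of_neg_Lg (Λ := Λ + i)
    have h4 : BigO (Λ + i + 2) ((P3 : ℝ⟦X⟧) * (C c * ((1 - X) ^ (Λ + i) * Lg))) := by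
      have e2 : (P3 : ℝ⟦X⟧) * (C c * ((1 - X) ^ (Λ + i) * Lg)) =
          (P : ℝ⟦X⟧) * ((P3 : ℝ⟦X⟧) * ((1 - X) ^ i * f)) -
          (P3 : ℝ⟦X⟧) * ((P : ℝ⟦X⟧) * ((1 - X) ^ i * f) - C c * ((1 - X) ^ (Λ + i) * Lg)) := by
        ring
      rw [e2]
      exact ((hb3.mono (by omega)).poly_mul P).sub ((hc.mono (by omega)).poly_mul P3)
    exact ⟨P3, hP3, h4⟩
  rw [hc0, map_zero, zero_mul, sub_zero] at hc
  exact ⟨P, hP, hc.mono (by omega)⟩

/-- ODE lemma, resonant case -/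
lemma Sym.ode_res {Λ : ℕ} {f : ℝ⟦X⟧} (hf : Sym (Λ + 1) f)
    (hg : Sym (Λ + 2) ((1 - X) * d⁄dX ℝ f + C (Λ : ℝ) * f)) :
    ∃ c : ℝ, Sym (Λ + 2) (f - C c * ((1 - X) ^ Λ * Lg)) := by
  have hcore : ∀ i : ℕ, ∃ c : ℝ, Neg (Λ + 2 + i) ((1 - X) ^ i * (f - C c * ((1 - X) ^ Λ * Lg))) := by
    intro i
    have e1 : (1 - X) * d⁄dX ℝ ((1 - X) ^ i * f) + C (((Λ + i : ℕ) : ℝ)) * ((1 - X) ^ i * f) =
        (1 - X) ^ i * ((1 - X) * d⁄dX ℝ f + C (Λ : ℝ) * f) := by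
      rw [w_pow_deriv]
      push_cast
      rw [map_add]
      ring
    have h1 : Neg ((Λ + i) + 2 + 0) ((1 - X) * d⁄dX ℝ ((1 - X) ^ i * f) +
        C (((Λ + i : ℕ) : ℝ)) * ((1 - X) ^ i * f)) := by
      rw [e1]; exact (hg i).mono (by omega)
    have h2 : Neg ((Λ + i) + 2 + 0) ((1 - X) * ((1 - X) ^ i * f)) := by
      have := hf (i + 1)
      rw [pow_succ', mul_assoc] at this
      exact this.mono (by omega)
    obtain ⟨c, P, hP, hc⟩ := ode_core h1 h2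
    obtain ⟨R, hR⟩ := poly_decomp P
    refine ⟨c / P.eval 1, P, hP, ?_⟩
    have hcc : (C (P.eval 1) : ℝ⟦X⟧) * C (c / P.eval 1) = C c := by
      rw [← map_mul]; congr 1; field_simp
    have e2 : (P : ℝ⟦X⟧) * ((1 - X) ^ i * (f - C (c / P.eval 1) * ((1 - X) ^ Λ * Lg))) =
        ((P : ℝ⟦X⟧) * ((1 - X) ^ i * f) - C c * ((1 - X) ^ (Λ + i) * Lg)) -
        C (c / P.eval 1) * ((R : ℝ⟦X⟧) * ((1 - X) ^ (Λ + i + 1) * Lg)) := by
      rw [← hcc]
      nth_rewrite 2 [hR]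
      rw [hR]
      ring
    rw [e2]
    have hb := bigO_pow_mul_Lg (Λ + i + 1)
    exact (hc.mono (by omega)).sub (((hb.mono (by omega)).poly_mul R).C_mul _)
  obtain ⟨c0, hc0⟩ := hcore 0
  simp only [pow_zero, one_mul, add_zero] at hc0
  refine ⟨c0, ?_⟩
  intro i
  obtain ⟨c, hc⟩ := hcore i
  have hcc : c - c0 = 0 := by
    obtain ⟨P, hP, hb0, hb1⟩ := hc0.common hc
    set v : ℝ⟦X⟧ := (P : ℝ⟦X⟧) * (f - C c * ((1 - X) ^ Λ * Lg)) with hv
    have e3 : v = (P : ℝ⟦X⟧) * (f - C c0 * ((1 - X) ^ Λ * Lg)) -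
        C (c - c0) * ((P : ℝ⟦X⟧) * ((1 - X) ^ Λ * Lg)) := by
      rw [hv, map_sub]; ring
    have hv1 : BigO (Λ + 1) v := by
      rw [e3]
      exact (hb0.mono (by omega)).sub (((bigO_pow_mul_Lg Λ).poly_mul P).C_mul _)
    have hv2 : BigO (Λ + 1 + 1) v := by
      apply BigO.of_pow_mul hv1.tendsto i
      have e4 : (1 - X) ^ i * v =
          (P : ℝ⟦X⟧) * ((1 - X) ^ i * (f - C c * ((1 - X) ^ Λ * Lg))) := by
        rw [hv]; ring
      rw [e4]
      exact hb1.mono (by omega)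
    apply eq_zero_of_neg_Lg (Λ := Λ)
    refine ⟨P, hP, ?_⟩
    have e5 : (P : ℝ⟦X⟧) * (C (c - c0) * ((1 - X) ^ Λ * Lg)) =
        (P : ℝ⟦X⟧) * (f - C c0 * ((1 - X) ^ Λ * Lg)) - v := by
      rw [hv, map_sub]; ring
    rw [e5]
    exact hb0.sub (hv2.mono (by omega))
  have hc' : c = c0 := by linarith
  rw [hc'] at hc
  exact hc

end Pool.Agent.Lib.MP_493311_pr
end

section

open Finset PowerSeries

namespace Pool.Agent.Lib.MP_493311_pr

/-- families whose `j`-th member has no terms of order `< j` -/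
def Adm (F : ℕ → ℝ⟦X⟧) : Prop := ∀ j n, n < j → coeff n (F j) = 0

/-- the sum over `j ≥ 1` of a family -/
noncomputable def SJ (F : ℕ → ℝ⟦X⟧) : ℝ⟦X⟧ :=
  PowerSeries.mk fun n => ∑ j ∈ Icc 1 n, coeff n (F j)

lemma coeff_SJ (F : ℕ → ℝ⟦X⟧) (n : ℕ) : coeff n (SJ F) = ∑ j ∈ Icc 1 n, coeff n (F j) :=
  coeff_mk _ _

lemma coeff_SJ_of_le {F : ℕ → ℝ⟦X⟧} (hF : Adm F) {n N : ℕ} (h : n ≤ N) :
    coeff n (SJ F) = ∑ j ∈ Icc 1 N, coeff n (F j) := by
  rw [coeff_SJ]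
  apply sum_subset (Icc_subset_Icc le_rfl h)
  intro j hj hj'
  rw [mem_Icc] at hj hj'
  exact hF j n (by omega)

lemma SJ_congr {F G : ℕ → ℝ⟦X⟧} (h : ∀ j, 0 < j → F j = G j) : SJ F = SJ G := by
  ext n
  rw [coeff_SJ, coeff_SJ]
  refine sum_congr rfl fun j hj => ?_
  rw [h j (mem_Icc.mp hj).1]

lemma SJ_add (F G : ℕ → ℝ⟦X⟧) : SJ (fun j => F j + G j) = SJ F + SJ G := by
  ext n
  rw [map_add, coeff_SJ, coeff_SJ, coeff_SJ, ← sum_add_distrib]
  simp only [map_add]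

lemma SJ_sub (F G : ℕ → ℝ⟦X⟧) : SJ (fun j => F j - G j) = SJ F - SJ G := by
  ext n
  rw [map_sub, coeff_SJ, coeff_SJ, coeff_SJ, ← sum_sub_distrib]
  simp only [map_sub]

lemma SJ_zero : SJ (fun _ => 0) = 0 := by
  ext n
  rw [coeff_SJ]
  simp

lemma SJ_sum {ι : Type*} (s : Finset ι) (F : ι → ℕ → ℝ⟦X⟧) :
    SJ (fun j => ∑ i ∈ s, F i j) = ∑ i ∈ s, SJ (F i) := by
  ext n
  rw [map_sum, coeff_SJ]
  simp only [coeff_SJ, map_sum]
  exact sum_comm

lemma mul_SJ (A : ℝ⟦X⟧) {F : ℕ → ℝ⟦X⟧} (hF : Adm F) : A * SJ F = SJ (fun j => A * F j) := by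
  ext n
  rw [coeff_SJ, coeff_mul]
  have h1 : ∀ x ∈ antidiagonal n, coeff x.1 A * coeff x.2 (SJ F) =
      ∑ j ∈ Icc 1 n, coeff x.1 A * coeff x.2 (F j) := by
    intro x hx
    have hx' : x.2 ≤ n := by have := mem_antidiagonal.mp hx; omega
    rw [coeff_SJ_of_le hF hx', mul_sum]
  rw [sum_congr rfl h1, sum_comm]
  refine sum_congr rfl fun j _ => ?_
  rw [coeff_mul]

lemma C_mul_SJ (c : ℝ) (F : ℕ → ℝ⟦X⟧) : C c * SJ F = SJ (fun j => C c * F j) := by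
  ext n
  rw [coeff_C_mul, coeff_SJ, coeff_SJ, mul_sum]
  refine sum_congr rfl fun j _ => ?_
  rw [coeff_C_mul]

lemma SJ_X_deriv (F : ℕ → ℝ⟦X⟧) : X * d⁄dX ℝ (SJ F) = SJ (fun j => X * d⁄dX ℝ (F j)) := by
  have key : ∀ (f : ℝ⟦X⟧) (n : ℕ), coeff n (X * d⁄dX ℝ f) = n * coeff n f := by
    intro f n
    rcases n with _ | n
    · simp
    · rw [coeff_succ_X_mul, coeff_derivative]; push_cast; ring
  ext n
  rw [key, coeff_SJ, coeff_SJ, mul_sum]
  refine sum_congr rfl fun j _ => ?_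
  rw [key]

lemma Adm.mul {F : ℕ → ℝ⟦X⟧} (hF : Adm F) (A : ℕ → ℝ⟦X⟧) : Adm (fun j => A j * F j) := by
  intro j n hn
  rw [coeff_mul]
  apply sum_eq_zero
  intro x hx
  rw [hF j x.2 (by have := mem_antidiagonal.mp hx; omega), mul_zero]

lemma Adm.add {F G : ℕ → ℝ⟦X⟧} (hF : Adm F) (hG : Adm G) : Adm (fun j => F j + G j) := by
  intro j n hn
  rw [map_add, hF j n hn, hG j n hn, add_zero]

lemma Adm.sub {F G : ℕ → ℝ⟦X⟧} (hF : Adm F) (hG : Adm G) : Adm (fun j => F j - G j) := by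
  intro j n hn
  rw [map_sub, hF j n hn, hG j n hn, sub_zero]

lemma Adm.X_pow {k : ℕ} (hk : 1 ≤ k) : Adm (fun j => X ^ (k * j)) := by
  intro j n hn
  rw [coeff_X_pow, if_neg]
  have : 1 * j ≤ k * j := Nat.mul_le_mul_right _ hk
  omega

lemma Adm.X_pow_mul {k : ℕ} (hk : 1 ≤ k) (A : ℕ → ℝ⟦X⟧) : Adm (fun j => X ^ (k * j) * A j) := by
  intro j n hn
  rw [coeff_X_pow_mul', if_neg]
  have : 1 * j ≤ k * j := Nat.mul_le_mul_right _ hk
  omega

lemma Adm.congr {F G : ℕ → ℝ⟦X⟧} (hF : Adm F) (h : ∀ j, 0 < j → F j = G j) : Adm G := by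
  intro j n hn
  rw [← h j (by omega)]
  exact hF j n hn

lemma Adm.Q_sub_one : Adm (fun j => Q j - 1) := by
  intro j n hn
  rw [map_sub, coeff_Q, coeff_one]
  split_ifs with h
  · rw [h, q_zero, sub_self]
  · rw [q_eq_zero (Nat.pos_of_ne_zero h) hn.le, sub_self]

lemma SJ_shift {F : ℕ → ℝ⟦X⟧} (hF : Adm F) : SJ F = F 1 + SJ (fun j => F (j + 1)) := by
  ext n
  rw [map_add, coeff_SJ_of_le hF (Nat.le_succ n), coeff_SJ]
  have h1 : Icc 1 (n + 1) = insert 1 (Icc 2 (n + 1)) := by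
    ext x; simp only [mem_Icc, mem_insert]; omega
  rw [h1, sum_insert (by simp)]
  congr 1
  have h2 : Icc 2 (n + 1) = (Icc 1 n).map (addRightEmbedding 1) := by
    ext x
    simp only [mem_Icc, mem_map, addRightEmbedding_apply]
    constructor
    · intro h; exact ⟨x - 1, by omega, by omega⟩
    · rintro ⟨a, ha, rfl⟩; omega
  rw [h2, sum_map]
  rfl

/-- the family `∑_j g(j) X^{kj} Q_j` -/
noncomputable def W (k : ℕ) (g : ℕ → ℝ) : ℝ⟦X⟧ := SJ fun j => C (g j) * (X ^ (k * j) * Q j)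

/-- the remainder `∑_j g(j) X^{kj} (j (Q_{j-1} - Q_j) - X^j Q_j)` -/
noncomputable def T (k : ℕ) (g : ℕ → ℝ) : ℝ⟦X⟧ :=
  SJ fun j => C (g j) * (X ^ (k * j) * (C (j : ℝ) * (Q (j - 1) - Q j) - X ^ j * Q j))

lemma W_adm {k : ℕ} (hk : 1 ≤ k) (g : ℕ → ℝ) : Adm fun j => C (g j) * (X ^ (k * j) * Q j) :=
  (Adm.X_pow_mul hk _).mul _

lemma W_congr {k : ℕ} {g g' : ℕ → ℝ} (h : ∀ j, 0 < j → g j = g' j) : W k g = W k g' :=
  SJ_congr fun j hj => by rw [h j hj]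

lemma W_add (k : ℕ) (g g' : ℕ → ℝ) : W k (fun j => g j + g' j) = W k g + W k g' := by
  unfold W
  rw [← SJ_add]
  congr 1; ext1 j
  rw [map_add]; ring

lemma W_sub (k : ℕ) (g g' : ℕ → ℝ) : W k (fun j => g j - g' j) = W k g - W k g' := by
  unfold W
  rw [← SJ_sub]
  congr 1; ext1 j
  rw [map_sub]; ring

lemma W_C_mul (k : ℕ) (c : ℝ) (g : ℕ → ℝ) : W k (fun j => c * g j) = C c * W k g := by
  unfold W
  rw [C_mul_SJ]
  congr 1; ext1 j
  rw [map_mul]; ring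

/-- (R1) -/
lemma W_deriv {k : ℕ} (hk : 1 ≤ k) (g : ℕ → ℝ) :
    X * ((1 - X) * d⁄dX ℝ (W k g)) =
      C (k : ℝ) * (1 - X) * W k (fun j => j * g j) + X * W (k + 1) g := by
  have h1 : X * ((1 - X) * d⁄dX ℝ (W k g)) = (1 - X) * (X * d⁄dX ℝ (W k g)) := by ring
  have hadm : Adm fun j => X * d⁄dX ℝ (C (g j) * (X ^ (k * j) * Q j)) := by
    intro j n hn
    rcases n with _ | n
    · simp
    · rw [coeff_succ_X_mul, coeff_derivative, W_adm hk g j (n + 1) hn, zero_mul]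
  rw [h1]
  unfold W
  rw [SJ_X_deriv, mul_SJ _ hadm, mul_SJ _ (W_adm hk _), mul_SJ _ (W_adm (by omega) _), ← SJ_add]
  apply SJ_congr
  intro j hj
  have h2 : X * d⁄dX ℝ ((X : ℝ⟦X⟧) ^ (k * j)) = ((k * j : ℕ) : ℝ⟦X⟧) * X ^ (k * j) := by
    rcases hkj : k * j with _ | e
    · simp
    · rw [Derivation.leibniz_pow, derivative_X]
      simp only [Nat.add_sub_cancel, nsmul_eq_mul, smul_eq_mul, mul_one]
      rw [pow_succ]; ring
  have h3 : d⁄dX ℝ (C (g j) * (X ^ (k * j) * Q j)) = C (g j) * d⁄dX ℝ (X ^ (k * j) * Q j) := by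
    rw [← smul_eq_C_mul, ← smul_eq_C_mul, Derivation.map_smul]
  have h4 : (C (j * g j) : ℝ⟦X⟧) = (j : ℝ⟦X⟧) * C (g j) := by
    rw [map_mul]; simp
  have h5 : (C (k : ℝ) : ℝ⟦X⟧) = (k : ℝ⟦X⟧) := by simp
  have hQ := Q_ode j
  rw [h3, Derivation.leibniz, smul_eq_mul, smul_eq_mul, h4, h5]
  calc (1 - X) * (X * (C (g j) * (X ^ (k * j) * d⁄dX ℝ (Q j) + Q j * d⁄dX ℝ (X ^ (k * j)))))
      = X * C (g j) * X ^ (k * j) * ((1 - X) * d⁄dX ℝ (Q j)) +
        (1 - X) * C (g j) * Q j * (X * d⁄dX ℝ (X ^ (k * j))) := by ring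
    _ = _ := by
      rw [hQ, h2]
      push_cast
      rw [add_mul, one_mul, pow_add]
      ring

lemma T_adm (k : ℕ) (g : ℕ → ℝ) : Adm fun j => C (g j) * (X ^ (k * j) *
    (C (j : ℝ) * (Q (j - 1) - Q j) - X ^ j * Q j)) := by
  refine Adm.mul (Adm.mul ?_ _) _
  refine Adm.sub (Adm.mul ?_ _) ?_
  · intro j n hn
    rcases j with _ | j
    · omega
    · have h1 : Q (j + 1 - 1) - Q (j + 1) = (Q j - 1) - (Q (j + 1) - 1) := by
        rw [Nat.add_sub_cancel]; ring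
      change coeff n (Q (j + 1 - 1) - Q (j + 1)) = 0
      rw [h1, map_sub, Adm.Q_sub_one (j + 1) n hn, sub_zero]
      rcases Nat.lt_or_ge n j with h | h
      · exact Adm.Q_sub_one j n h
      · have h2 : n = j := by omega
        subst h2
        rw [map_sub, coeff_Q, coeff_one]
        split_ifs with h3
        · rw [h3, q_zero, sub_self]
        · rw [q_eq_zero (Nat.pos_of_ne_zero h3) le_rfl, sub_self]
  · have := Adm.X_pow_mul (k := 1) le_rfl Q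
    simpa using this

lemma Q_zero' : Q 0 = GG := by rw [Q_zero]; rfl

/-- (R2) -/
lemma W_succ_add_T {k : ℕ} (hk : 1 ≤ k) (g : ℕ → ℝ) :
    W (k + 1) g + T k g = C (g 1) * (X ^ k * GG) +
      X ^ k * W k (fun j => ((j + 1 : ℕ) : ℝ) * g (j + 1) - j * g j) -
      (1 - X ^ k) * W k (fun j => j * g j) := by
  have h1 : W (k + 1) g + T k g = SJ (fun j => C (j * g j) * (X ^ (k * j) * Q (j - 1))) -
      W k (fun j => j * g j) := by
    unfold W T
    rw [← SJ_add, ← SJ_sub]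
    apply SJ_congr
    intro j _
    rw [map_mul, add_mul, one_mul, pow_add]
    ring
  have h2 : SJ (fun j => C (j * g j) * (X ^ (k * j) * Q (j - 1))) = C (g 1) * (X ^ k * GG) +
      X ^ k * W k (fun j => ((j + 1 : ℕ) : ℝ) * g (j + 1)) := by
    rw [SJ_shift ((Adm.X_pow_mul hk _).mul _)]
    unfold W
    rw [mul_SJ _ (W_adm hk _)]
    congr 1
    · rw [Nat.cast_one, one_mul, mul_one, Nat.sub_self, Q_zero']
    · apply SJ_congr
      intro j _
      rw [Nat.add_sub_cancel, mul_add, mul_one, pow_add]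
      ring
  rw [h1, h2, W_sub]
  ring

/-- the series of the means -/
noncomputable def Es : ℝ⟦X⟧ := (Q 0 - 1) + SJ fun j => Q j - 1

lemma coeff_Es {n : ℕ} (hn : 0 < n) : coeff n Es = ∑ j ∈ range n, q j n := by
  unfold Es
  rw [map_add, coeff_SJ, map_sub, coeff_Q, coeff_one, if_neg (by omega), sub_zero]
  have h1 : ∀ j ∈ Icc 1 n, coeff n (Q j - 1) = q j n := by
    intro j _
    rw [map_sub, coeff_Q, coeff_one, if_neg (by omega), sub_zero]
  rw [sum_congr rfl h1]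
  obtain ⟨m, rfl⟩ := Nat.exists_eq_succ_of_ne_zero (by omega : n ≠ 0)
  rw [Nat.succ_eq_add_one, sum_range_succ', add_comm]
  congr 1
  have h2 : Icc 1 (m + 1) = insert (m + 1) (Icc 1 m) := by
    ext x; simp only [mem_Icc, mem_insert]; omega
  rw [h2, sum_insert (by simp), q_eq_zero (Nat.succ_pos m) le_rfl, zero_add]
  rw [range_eq_Ico, sum_Ico_add' (fun j => q j (m + 1)) 0 m 1]
  apply sum_congr _ (fun _ _ => rfl)
  ext x; simp only [mem_Icc, mem_Ico]; omega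

/-- (DE) -/
lemma Es_ode : (1 - X) * d⁄dX ℝ Es = GG + Es - T 0 (fun _ => 1) := by
  have hadm : Adm fun j => X * d⁄dX ℝ (Q j - 1) := by
    intro j n hn
    rcases n with _ | n
    · simp
    · rw [coeff_succ_X_mul, coeff_derivative, Adm.Q_sub_one j (n + 1) hn, zero_mul]
  have hadm2 : Adm fun j => X ^ j * Q j := by
    have := Adm.X_pow_mul (k := 1) le_rfl Q
    simpa using this
  have h1 : (1 - X) * d⁄dX ℝ (SJ fun j => Q j - 1) = SJ fun j => X ^ j * Q j := by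
    have h2 : X * ((1 - X) * d⁄dX ℝ (SJ fun j => Q j - 1)) = X * SJ fun j => X ^ j * Q j := by
      have h3 : X * ((1 - X) * d⁄dX ℝ (SJ fun j => Q j - 1)) =
          (1 - X) * (X * d⁄dX ℝ (SJ fun j => Q j - 1)) := by ring
      rw [h3, SJ_X_deriv, mul_SJ _ hadm, mul_SJ _ hadm2]
      apply SJ_congr
      intro j _
      have h4 : d⁄dX ℝ (Q j - 1) = d⁄dX ℝ (Q j) := by
        rw [map_sub, Derivation.map_one_eq_zero, sub_zero]
      rw [h4, ← Q_ode j]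
      ring
    exact mul_left_cancel₀ X_ne_zero h2
  have h2 : (1 - X) * d⁄dX ℝ (Q 0 - 1) = GG := by
    rw [map_sub, Derivation.map_one_eq_zero, sub_zero, Q_ode, pow_zero, one_mul, Q_zero']
  have h3 : T 0 (fun _ => 1) = SJ (fun j => C (j : ℝ) * (Q (j - 1) - 1)) -
      SJ (fun j => C (j : ℝ) * (Q j - 1)) - SJ fun j => X ^ j * Q j := by
    unfold T
    rw [← SJ_sub, ← SJ_sub]
    apply SJ_congr
    intro j _
    rw [zero_mul, pow_zero, map_one]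
    ring
  have h4 : SJ (fun j => C (j : ℝ) * (Q (j - 1) - 1)) = (Q 0 - 1) +
      (SJ (fun j => C (j : ℝ) * (Q j - 1)) + SJ fun j => Q j - 1) := by
    rw [SJ_shift, ← SJ_add]
    · congr 1
      · simp
      · apply SJ_congr
        intro j _
        rw [Nat.add_sub_cancel]
        push_cast
        rw [map_add, map_one]
        ring
    · refine Adm.mul ?_ _
      intro j n hn
      rcases j with _ | j
      · omega
      · change coeff n (Q (j + 1 - 1) - 1) = 0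
        rw [Nat.add_sub_cancel]
        rcases Nat.lt_or_ge n j with h | h
        · exact Adm.Q_sub_one j n h
        · have h2 : n = j := by omega
          subst h2
          rw [map_sub, coeff_Q, coeff_one]
          split_ifs with h3
          · rw [h3, q_zero, sub_self]
          · rw [q_eq_zero (Nat.pos_of_ne_zero h3) le_rfl, sub_self]
  rw [h3, h4]
  unfold Es
  rw [map_add, mul_add, h1, h2]
  ring

end Pool.Agent.Lib.MP_493311_pr
end
end
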