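import Mathlib
import Pool.Agent.Lib.MP_493311_pr.SumJ
import Pool.Agent.Lib.MP_493311_pr.Basic

section

open Finset PowerSeries Filter
open scoped Topology

namespace Pool.Agent.Lib.MP_493311_pr

/-- value of a power series at `z` -/
noncomputable def ev (z : ℝ) (f : ℝ⟦X⟧) : ℝ := ∑' n, coeff n f * z ^ n

/-- absolute convergence at `z` -/
def Sm (z : ℝ) (f : ℝ⟦X⟧) : Prop := Summable fun n => ‖coeff n f * z ^ n‖

lemma Sm.add {z : ℝ} {f g : ℝ⟦X⟧} (hf : Sm z f) (hg : Sm z g) : Sm z (f + g) := by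
  have h : Summable fun n => ‖coeff n f * z ^ n‖ + ‖coeff n g * z ^ n‖ := Summable.add hf hg
  refine Summable.of_nonneg_of_le (fun n => norm_nonneg _) (fun n => ?_) h
  rw [map_add, add_mul]
  exact norm_add_le _ _

lemma ev_add {z : ℝ} {f g : ℝ⟦X⟧} (hf : Sm z f) (hg : Sm z g) : ev z (f + g) = ev z f + ev z g := by
  unfold ev
  rw [← hf.of_norm.tsum_add hg.of_norm]
  congr 1; ext n
  rw [map_add, add_mul]

lemma Sm.neg {z : ℝ} {f : ℝ⟦X⟧} (hf : Sm z f) : Sm z (-f) := by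
  refine Summable.of_nonneg_of_le (fun n => norm_nonneg _) (fun n => ?_) hf
  rw [map_neg, neg_mul, norm_neg]

lemma ev_neg {z : ℝ} (f : ℝ⟦X⟧) : ev z (-f) = - ev z f := by
  unfold ev
  rw [← tsum_neg]
  congr 1; ext n
  rw [map_neg, neg_mul]

lemma Sm.sub {z : ℝ} {f g : ℝ⟦X⟧} (hf : Sm z f) (hg : Sm z g) : Sm z (f - g) := by
  rw [sub_eq_add_neg]; exact hf.add hg.neg

lemma ev_sub {z : ℝ} {f g : ℝ⟦X⟧} (hf : Sm z f) (hg : Sm z g) : ev z (f - g) = ev z f - ev z g := by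
  rw [sub_eq_add_neg, ev_add hf hg.neg, ev_neg, sub_eq_add_neg]

lemma antidiag_term (z : ℝ) (f g : ℝ⟦X⟧) (n : ℕ) : coeff n (f * g) * z ^ n =
    ∑ kl ∈ antidiagonal n, (coeff kl.1 f * z ^ kl.1) * (coeff kl.2 g * z ^ kl.2) := by
  rw [coeff_mul, sum_mul]
  apply sum_congr rfl
  intro x hx
  rw [← mem_antidiagonal.mp hx, pow_add]
  ring

lemma Sm.mul {z : ℝ} {f g : ℝ⟦X⟧} (hf : Sm z f) (hg : Sm z g) : Sm z (f * g) := by
  have := summable_norm_sum_mul_antidiagonal_of_summable_norm hf hg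
  refine this.congr fun n => ?_
  rw [antidiag_term]

lemma ev_mul {z : ℝ} {f g : ℝ⟦X⟧} (hf : Sm z f) (hg : Sm z g) : ev z (f * g) = ev z f * ev z g := by
  unfold ev
  rw [tsum_mul_tsum_eq_tsum_sum_antidiagonal_of_summable_norm hf hg]
  congr 1; ext n
  rw [antidiag_term]

lemma Sm.poly (z : ℝ) (P : Polynomial ℝ) : Sm z (P : ℝ⟦X⟧) := by
  apply summable_of_ne_finset_zero (s := range (P.natDegree + 1))
  intro n hn
  rw [Polynomial.coeff_coe, Polynomial.coeff_eq_zero_of_natDegree_lt, zero_mul, norm_zero]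
  simpa using hn

lemma ev_poly (z : ℝ) (P : Polynomial ℝ) : ev z (P : ℝ⟦X⟧) = P.eval z := by
  unfold ev
  rw [Polynomial.eval_eq_sum_range, tsum_eq_sum (s := range (P.natDegree + 1))]
  · apply sum_congr rfl
    intro n _
    rw [Polynomial.coeff_coe]
  · intro n hn
    rw [Polynomial.coeff_coe, Polynomial.coeff_eq_zero_of_natDegree_lt, zero_mul]
    simpa using hn

lemma Sm_C (z c : ℝ) : Sm z (C c) := by
  have := Sm.poly z (Polynomial.C c)
  rwa [Polynomial.coe_C] at this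

lemma ev_C (z c : ℝ) : ev z (C c) = c := by
  have := ev_poly z (Polynomial.C c)
  rwa [Polynomial.coe_C, Polynomial.eval_C] at this

lemma Sm_X (z : ℝ) : Sm z X := by
  have := Sm.poly z Polynomial.X
  rwa [Polynomial.coe_X] at this

lemma ev_X (z : ℝ) : ev z X = z := by
  have := ev_poly z Polynomial.X
  rwa [Polynomial.coe_X, Polynomial.eval_X] at this

lemma Sm_one (z : ℝ) : Sm z 1 := by simpa using Sm_C z 1

lemma ev_one (z : ℝ) : ev z 1 = 1 := by simpa using ev_C z 1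

/-- polynomially bounded coefficients give absolute convergence -/
lemma Sm_of_bound {z : ℝ} (hz : 0 ≤ z) (hz1 : z < 1) {f : ℝ⟦X⟧} {C : ℝ} {k : ℕ}
    (h : ∀ n, |coeff n f| ≤ C * ((n : ℝ) + 1) ^ k) : Sm z f := by
  have h1 : Summable fun n : ℕ => ((n : ℝ)) ^ k * z ^ n :=
    summable_pow_mul_geometric_of_norm_lt_one k (by rwa [Real.norm_eq_abs, abs_of_nonneg hz])
  have hC : 0 ≤ C := by
    have := (abs_nonneg _).trans (h 0)
    simpa using this
  have h2 : Summable fun n : ℕ => C * (2 ^ k * (((n : ℝ)) ^ k * z ^ n)) :=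
    (h1.mul_left _).mul_left _
  rcases eq_or_lt_of_le hz with rfl | hz0
  · apply summable_of_ne_finset_zero (s := {0})
    intro n hn
    rw [mem_singleton] at hn
    simp [hn]
  rw [Sm, ← summable_nat_add_iff 1]
  refine Summable.of_nonneg_of_le (fun n => norm_nonneg _) (fun n => ?_)
    ((summable_nat_add_iff 1).mpr h2)
  rw [norm_mul, Real.norm_eq_abs, Real.norm_eq_abs, abs_pow, abs_of_nonneg hz]
  have h3 := h (n + 1)
  have h4 : (((n + 1 : ℕ) : ℝ) + 1) ^ k ≤ 2 ^ k * ((n + 1 : ℕ) : ℝ) ^ k := by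
    rw [← mul_pow]
    apply pow_le_pow_left₀ (by positivity)
    push_cast
    have : (0 : ℝ) ≤ n := Nat.cast_nonneg n
    linarith
  have h5 : 0 ≤ z ^ (n + 1) := by positivity
  calc _ ≤ (C * (((n + 1 : ℕ) : ℝ) + 1) ^ k) * z ^ (n + 1) := by gcongr
    _ ≤ (C * (2 ^ k * ((n + 1 : ℕ) : ℝ) ^ k)) * z ^ (n + 1) := by gcongr
    _ = _ := by ring

lemma Sm_GG {z : ℝ} (hz : 0 ≤ z) (hz1 : z < 1) : Sm z GG :=
  Sm_of_bound (C := 1) (k := 0) hz hz1 fun n => by rw [coeff_GG]; simp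

lemma ev_GG {z : ℝ} (hz : 0 ≤ z) (hz1 : z < 1) : ev z GG = 1 / (1 - z) := by
  unfold ev
  have : (fun n => coeff n GG * z ^ n) = fun n => z ^ n := by ext n; rw [coeff_GG, one_mul]
  rw [this, tsum_geometric_of_lt_one hz hz1, one_div]

lemma Sm_Lg {z : ℝ} (hz : 0 ≤ z) (hz1 : z < 1) : Sm z Lg :=
  Sm_of_bound (C := 1) (k := 0) hz hz1 fun n => by
    rw [coeff_Lg, abs_of_nonneg (by positivity)]
    simp only [pow_zero, mul_one]
    rcases n with _ | n
    · simp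
    · rw [div_le_one (by positivity)]; push_cast; linarith [(Nat.cast_nonneg n : (0 : ℝ) ≤ n)]

lemma ev_Lg {z : ℝ} (hz : 0 ≤ z) (hz1 : z < 1) : ev z Lg = -Real.log (1 - z) := by
  have h := Real.hasSum_pow_div_log_of_abs_lt_one (x := z) (by rwa [abs_of_nonneg hz])
  unfold ev
  rw [(Sm_Lg hz hz1).of_norm.tsum_eq_zero_add, ← h.tsum_eq]
  simp only [coeff_Lg, Nat.cast_zero, div_zero, zero_mul, zero_add]
  congr 1; ext n
  push_cast
  ring

lemma Sm_Q {z : ℝ} (hz : 0 ≤ z) (hz1 : z < 1) (j : ℕ) : Sm z (Q j) :=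
  Sm_of_bound (C := 1) (k := 0) hz hz1 fun n => by
    rw [coeff_Q, abs_of_nonneg (q_nonneg j n)]
    simpa using q_le_one j n

lemma Ex_Sm_ev {j : ℕ} (hj : 0 < j) {z : ℝ} (hz : 0 ≤ z) :
    Sm z (Ex j) ∧ ev z (Ex j) = Real.exp (z ^ j / j) := by
  have hj' : (0 : ℝ) < j := by exact_mod_cast hj
  have hinj : Function.Injective (fun m : ℕ => j * m) := fun a b h => Nat.eq_of_mul_eq_mul_left hj h
  have h1 : ∀ m : ℕ, coeff (j * m) (Ex j) * z ^ (j * m) = (z ^ j / j) ^ m / m.factorial := by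
    intro m
    unfold Ex
    rw [coeff_mk, if_pos (dvd_mul_right _ _), Nat.mul_div_cancel_left _ hj, div_pow, pow_mul]
    field_simp
  have h2 : ∀ n : ℕ, n ∉ Set.range (fun m : ℕ => j * m) → coeff n (Ex j) * z ^ n = 0 := by
    intro n hn
    unfold Ex
    rw [coeff_mk, if_neg, zero_mul]
    rintro ⟨m, rfl⟩
    exact hn ⟨m, rfl⟩
  have h3 : HasSum (fun m : ℕ => (z ^ j / j) ^ m / m.factorial) (Real.exp (z ^ j / j)) := by
    rw [Real.exp_eq_exp_ℝ]
    exact NormedSpace.expSeries_div_hasSum_exp (z ^ j / j)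
  have h4 : HasSum (fun n : ℕ => coeff n (Ex j) * z ^ n) (Real.exp (z ^ j / j)) := by
    rw [← hinj.hasSum_iff h2]
    convert h3 using 1
    ext m
    exact h1 m
  refine ⟨?_, h4.tsum_eq⟩
  have h5 : ∀ n, 0 ≤ coeff n (Ex j) * z ^ n := by
    intro n
    apply mul_nonneg _ (pow_nonneg hz n)
    unfold Ex
    rw [coeff_mk]
    split_ifs
    · positivity
    · exact le_rfl
  unfold Sm
  simp only [Real.norm_eq_abs, abs_of_nonneg (h5 _)]
  exact h4.summable

/-- value of `Q j` -/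
lemma ev_Q {z : ℝ} (hz : 0 ≤ z) (hz1 : z < 1) (j : ℕ) :
    ev z (Q j) = Real.exp (-∑ i ∈ range j, z ^ (i + 1) / ((i : ℝ) + 1)) / (1 - z) := by
  induction j with
  | zero => rw [Q_zero', ev_GG hz hz1]; simp
  | succ j ih =>
    obtain ⟨hS, hE⟩ := Ex_Sm_ev (Nat.succ_pos j) hz
    rw [Q_pred, ev_mul hS (Sm_Q hz hz1 _), hE] at ih
    rw [sum_range_succ, neg_add, Real.exp_add]
    have h1 : Real.exp (z ^ (j + 1) / ((j + 1 : ℕ) : ℝ)) ≠ 0 := (Real.exp_pos _).ne'
    have h2 : Real.exp (-(z ^ (j + 1) / ((j : ℝ) + 1))) *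
        Real.exp (z ^ (j + 1) / ((j + 1 : ℕ) : ℝ)) = 1 := by
      rw [← Real.exp_add]; push_cast; simp
    apply mul_left_cancel₀ h1
    rw [ih]
    rw [show Real.exp (z ^ (j + 1) / ((j + 1 : ℕ) : ℝ)) *
      (Real.exp (-∑ i ∈ range j, z ^ (i + 1) / ((i : ℝ) + 1)) *
        Real.exp (-(z ^ (j + 1) / ((j : ℝ) + 1))) / (1 - z)) =
      (Real.exp (-(z ^ (j + 1) / ((j : ℝ) + 1))) *
        Real.exp (z ^ (j + 1) / ((j + 1 : ℕ) : ℝ))) *
      (Real.exp (-∑ i ∈ range j, z ^ (i + 1) / ((i : ℝ) + 1)) / (1 - z)) by ring]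
    rw [h2, one_mul]

/-- the tail `∑_{i > j} z^i / i` -/
noncomputable def rt (z : ℝ) (j : ℕ) : ℝ := ∑' i : ℕ, z ^ (i + j + 1) / ((i : ℝ) + j + 1)

lemma rt_eq {z : ℝ} (hz : 0 ≤ z) (hz1 : z < 1) (j : ℕ) :
    rt z j = -Real.log (1 - z) - ∑ i ∈ range j, z ^ (i + 1) / ((i : ℝ) + 1) := by
  have h := Real.hasSum_pow_div_log_of_abs_lt_one (x := z) (by rwa [abs_of_nonneg hz])
  have h2 := h.summable.sum_add_tsum_nat_add j
  rw [h.tsum_eq] at h2
  have h3 : rt z j = ∑' i : ℕ, z ^ (i + j + 1) / (((i + j : ℕ) : ℝ) + 1) := by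
    unfold rt
    congr 1; ext i
    push_cast
    ring
  rw [h3, ← h2]
  ring

lemma ev_Q_eq_exp_rt {z : ℝ} (hz : 0 ≤ z) (hz1 : z < 1) (j : ℕ) :
    ev z (Q j) = Real.exp (rt z j) := by
  rw [ev_Q hz hz1, rt_eq hz hz1, Real.exp_sub, Real.exp_neg (Real.log _),
    Real.exp_log (by linarith), Real.exp_neg]
  field_simp

lemma coeff_Es' (n : ℕ) : coeff n Es = ∑ j ∈ range n, q j n := by
  rcases Nat.eq_zero_or_pos n with rfl | hn
  · unfold Es
    rw [map_add, coeff_SJ, map_sub, coeff_Q, q_zero]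
    simp
  · exact coeff_Es hn

lemma Es_bound (n : ℕ) : |coeff n Es| ≤ 1 * ((n : ℝ) + 1) ^ 1 := by
  rw [coeff_Es', abs_of_nonneg (sum_nonneg fun j _ => q_nonneg j n), one_mul, pow_one]
  calc ∑ j ∈ range n, q j n ≤ ∑ j ∈ range n, (1 : ℝ) := sum_le_sum fun j _ => q_le_one j n
    _ = n := by simp
    _ ≤ n + 1 := by linarith

lemma Sm_Es {z : ℝ} (hz : 0 ≤ z) (hz1 : z < 1) : Sm z Es := Sm_of_bound hz hz1 Es_bound

/-- `E(z) = ∑_j (Q_j(z) - 1)` -/
lemma ev_Es {z : ℝ} (hz : 0 ≤ z) (hz1 : z < 1) :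
    HasSum (fun j : ℕ => Real.exp (rt z j) - 1) (ev z Es) := by
  set a : ℕ × ℕ → ℝ := fun p => if p.2 < p.1 then q p.2 p.1 * z ^ p.1 else 0 with ha
  have ha0 : ∀ p, 0 ≤ a p := by
    intro p
    rw [ha]
    simp only
    split_ifs
    · exact mul_nonneg (q_nonneg _ _) (pow_nonneg hz _)
    · exact le_rfl
  have hrow : ∀ n, HasSum (fun j => a (n, j)) (coeff n Es * z ^ n) := by
    intro n
    rw [coeff_Es', sum_mul]
    have : ∑ j ∈ range n, q j n * z ^ n = ∑ j ∈ range n, a (n, j) := by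
      apply sum_congr rfl
      intro j hj
      rw [ha]
      simp only
      rw [if_pos (mem_range.mp hj)]
    rw [this]
    apply hasSum_sum_of_ne_finset_zero
    intro j hj
    rw [ha]
    simp only
    rw [if_neg (by simpa using hj)]
  have hcol : ∀ j, HasSum (fun n => a (n, j)) (Real.exp (rt z j) - 1) := by
    intro j
    have h1 : HasSum (fun n => coeff n (Q j - 1) * z ^ n) (ev z (Q j - 1)) :=
      ((Sm_Q hz hz1 j).sub (Sm_one z)).of_norm.hasSum
    rw [ev_sub (Sm_Q hz hz1 j) (Sm_one z), ev_one, ev_Q_eq_exp_rt hz hz1] at h1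
    convert h1 using 1
    ext n
    rw [ha]
    simp only
    rw [map_sub, coeff_Q, coeff_one]
    rcases Nat.eq_zero_or_pos n with rfl | hn
    · simp [q_zero]
    · rw [if_neg (by omega : ¬ n = 0), sub_zero]
      split_ifs with h
      · rfl
      · rw [q_eq_zero hn (by omega), zero_mul]
  have hsum : Summable a := by
    rw [summable_prod_of_nonneg (fun p => ha0 p)]
    refine ⟨fun n => (hrow n).summable, ?_⟩
    have : (fun n => ∑' j, a (n, j)) = fun n => coeff n Es * z ^ n := by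
      ext n; exact (hrow n).tsum_eq
    rw [this]
    exact (Sm_Es hz hz1).of_norm
  have h2 : HasSum a (ev z Es) := by
    have h3 := hsum.hasSum
    have h4 := h3.prod_fiberwise hrow
    have h5 := (Sm_Es hz hz1).of_norm.hasSum
    have h6 := h4.unique h5
    rw [h6] at h3
    exact h3
  have h7 : HasSum (fun p : ℕ × ℕ => a (p.2, p.1)) (ev z Es) := by
    have := (Equiv.prodComm ℕ ℕ).hasSum_iff (f := a) (a := ev z Es)
    exact this.mpr h2
  exact h7.prod_fiberwise hcol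

/-- Abel: if `u` is small near `1` then `(1-z) u(z) → 0` -/
lemma abel {u : ℝ⟦X⟧} (hu : Neg 1 u) (hS : ∀ z : ℝ, 0 ≤ z → z < 1 → Sm z u) :
    Tendsto (fun z => (1 - z) * ev z u) (𝓝[<] 1) (𝓝 0) := by
  obtain ⟨P, hP, hb⟩ := hu
  have h1 : Tendsto (fun n => ∑ i ∈ range n, coeff i ((1 - X) * ((P : ℝ⟦X⟧) * u))) atTop (𝓝 0) := by
    have h2 : ∀ n, ∑ i ∈ range (n + 1), coeff i ((1 - X) * ((P : ℝ⟦X⟧) * u)) =
        coeff n ((P : ℝ⟦X⟧) * u) := by
      intro n
      induction n with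
      | zero => rw [sum_range_one, coeff_one_sub_X_mul_zero]
      | succ n ih => rw [sum_range_succ, ih, coeff_one_sub_X_mul]; ring
    rw [← tendsto_add_atTop_iff_nat 1]
    simp only [h2]
    exact (show BigO (0 + 1) _ from hb).tendsto
  have h3 := Real.tendsto_tsum_powerSeries_nhdsWithin_lt h1
  have h4 : Tendsto (fun z : ℝ => P.eval z) (𝓝[<] 1) (𝓝 (P.eval 1)) :=
    (P.continuous.tendsto 1).mono_left nhdsWithin_le_nhds
  have h5 := h3.div h4 hP
  rw [zero_div] at h5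
  refine h5.congr' ?_
  have hP' : ∀ᶠ z : ℝ in 𝓝[<] 1, P.eval z ≠ 0 :=
    h4.eventually_ne hP
  have h01 : ∀ᶠ z : ℝ in 𝓝[<] 1, 0 < z ∧ z < 1 := by
    have := Ioo_mem_nhdsLT (zero_lt_one (α := ℝ))
    filter_upwards [this] with z hz using hz
  filter_upwards [hP', h01] with z hz hz01
  have e1 : ∑' n, coeff n ((1 - X) * ((P : ℝ⟦X⟧) * u)) * z ^ n =
      (1 - z) * (P.eval z * ev z u) := by
    have hSu := hS z hz01.1.le hz01.2
    have h6 := ev_mul ((Sm_one z).sub (Sm_X z)) ((Sm.poly z P).mul hSu)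
    rw [ev_sub (Sm_one z) (Sm_X z), ev_one, ev_X, ev_mul (Sm.poly z P) hSu, ev_poly] at h6
    exact h6
  simp only [Pi.div_apply]
  rw [e1]
  field_simp

end Pool.Agent.Lib.MP_493311_pr
end

section

section

open Finset

namespace Pool.Agent.Lib.MP_493311_pr

/-- `g` is a combination of `j^{-l}, ..., j^{-(l+N-1)}` up to `O(j^{-(l+N)})` -/
def App : ℕ → ℕ → (ℕ → ℝ) → Prop
  | l, 0, g => ∃ C : ℝ, ∀ j : ℕ, 0 < j → |g j| ≤ C / (j : ℝ) ^ l
  | l, N + 1, g => ∃ c : ℝ, App (l + 1) N (fun j => g j - c / (j : ℝ) ^ l)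

/-- classical symbols of order `l` -/
def Cl (l : ℕ) (g : ℕ → ℝ) : Prop := ∀ N, App l N g

lemma App.zero (l N : ℕ) : App l N (fun _ => 0) := by
  induction N generalizing l with
  | zero => exact ⟨0, fun j _ => by simp⟩
  | succ N ih => exact ⟨0, by simpa using ih (l + 1)⟩

lemma App.add {l N : ℕ} {f g : ℕ → ℝ} (hf : App l N f) (hg : App l N g) :
    App l N (fun j => f j + g j) := by
  induction N generalizing l f g with
  | zero =>
    obtain ⟨C, hC⟩ := hf
    obtain ⟨D, hD⟩ := hg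
    refine ⟨C + D, fun j hj => ?_⟩
    rw [add_div]
    exact (abs_add_le _ _).trans (add_le_add (hC j hj) (hD j hj))
  | succ N ih =>
    obtain ⟨c, hc⟩ := hf
    obtain ⟨d, hd⟩ := hg
    refine ⟨c + d, ?_⟩
    have := ih hc hd
    convert this using 2
    ring

lemma App.const_mul {l N : ℕ} {f : ℕ → ℝ} (hf : App l N f) (a : ℝ) :
    App l N (fun j => a * f j) := by
  induction N generalizing l f with
  | zero =>
    obtain ⟨C, hC⟩ := hf
    refine ⟨|a| * C, fun j hj => ?_⟩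
    rw [abs_mul, mul_div_assoc]
    exact mul_le_mul_of_nonneg_left (hC j hj) (abs_nonneg _)
  | succ N ih =>
    obtain ⟨c, hc⟩ := hf
    refine ⟨a * c, ?_⟩
    have := ih hc
    convert this using 2
    ring

lemma App.congr {l N : ℕ} {f g : ℕ → ℝ} (hf : App l N f) (h : ∀ j, 0 < j → f j = g j) :
    App l N g := by
  induction N generalizing l f g with
  | zero =>
    obtain ⟨C, hC⟩ := hf
    exact ⟨C, fun j hj => by rw [← h j hj]; exact hC j hj⟩
  | succ N ih =>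
    obtain ⟨c, hc⟩ := hf
    exact ⟨c, ih hc fun j hj => by rw [h j hj]⟩

lemma App.bound {l : ℕ} {f : ℕ → ℝ} (hf : App l 0 f) :
    ∃ C : ℝ, 0 ≤ C ∧ ∀ j : ℕ, 0 < j → |f j| ≤ C / (j : ℝ) ^ l := by
  obtain ⟨C, hC⟩ := hf
  refine ⟨C, ?_, hC⟩
  have := (abs_nonneg _).trans (hC 1 one_pos)
  simpa using this

lemma App.up {l N : ℕ} {f : ℕ → ℝ} (hf : App (l + 1) N f) : App l (N + 1) f :=
  ⟨0, by simpa using hf⟩

lemma App.down {l N : ℕ} {f : ℕ → ℝ} (hf : App l (N + 1) f) : App l N f := by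
  induction N generalizing l f with
  | zero =>
    obtain ⟨c, hc⟩ := hf
    obtain ⟨C, hC0, hC⟩ := App.bound hc
    refine ⟨C + |c|, fun j hj => ?_⟩
    have hj' : (1 : ℝ) ≤ j := by exact_mod_cast hj
    have h1 := hC j hj
    have h2 : |f j| ≤ |f j - c / (j : ℝ) ^ l| + |c / (j : ℝ) ^ l| := by
      calc |f j| = |(f j - c / (j : ℝ) ^ l) + c / (j : ℝ) ^ l| := by ring_nf
        _ ≤ _ := abs_add_le _ _
    have h3 : C / (j : ℝ) ^ (l + 1) ≤ C / (j : ℝ) ^ l := by
      gcongr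
      omega
    have h4 : |c / (j : ℝ) ^ l| = |c| / (j : ℝ) ^ l := by
      rw [abs_div, abs_of_pos (by positivity : (0 : ℝ) < (j : ℝ) ^ l)]
    rw [h4] at h2
    rw [add_div]
    linarith
  | succ N ih =>
    obtain ⟨c, hc⟩ := hf
    exact ⟨c, ih hc⟩

lemma App.weaken {l N : ℕ} {f : ℕ → ℝ} (hf : App (l + 1) N f) : App l N f := hf.up.down

lemma App.weaken' {l l' N : ℕ} (h : l' ≤ l) {f : ℕ → ℝ} (hf : App l N f) : App l' N f := by
  obtain ⟨d, rfl⟩ := Nat.exists_eq_add_of_le h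
  induction d with
  | zero => exact hf
  | succ d ih => exact ih (Nat.le_add_right _ _) (App.weaken hf)

lemma App.div_j {l N : ℕ} {f : ℕ → ℝ} (hf : App l N f) : App (l + 1) N (fun j => f j / j) := by
  induction N generalizing l f with
  | zero =>
    obtain ⟨C, hC⟩ := hf
    refine ⟨C, fun j hj => ?_⟩
    have hj' : (0 : ℝ) < j := by exact_mod_cast hj
    rw [abs_div, Nat.abs_cast, pow_succ, ← div_div]
    exact div_le_div_of_nonneg_right (hC j hj) hj'.le
  | succ N ih =>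
    obtain ⟨c, hc⟩ := hf
    refine ⟨c, ?_⟩
    refine (ih hc).congr fun j hj => ?_
    have hj' : (0 : ℝ) < j := by exact_mod_cast hj
    rw [pow_succ]
    field_simp

lemma App.mul_j {l N : ℕ} {f : ℕ → ℝ} (hf : App (l + 1) N f) : App l N (fun j => j * f j) := by
  induction N generalizing l f with
  | zero =>
    obtain ⟨C, hC⟩ := hf
    refine ⟨C, fun j hj => ?_⟩
    have hj' : (0 : ℝ) < j := by exact_mod_cast hj
    rw [abs_mul, Nat.abs_cast]
    calc (j : ℝ) * |f j| ≤ j * (C / (j : ℝ) ^ (l + 1)) := by gcongr; exact hC j hj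
      _ = _ := by rw [pow_succ]; field_simp
  | succ N ih =>
    obtain ⟨c, hc⟩ := hf
    refine ⟨c, ?_⟩
    refine (ih hc).congr fun j hj => ?_
    have hj' : (0 : ℝ) < j := by exact_mod_cast hj
    rw [pow_succ]
    field_simp

lemma App.div_pow {l N : ℕ} {f : ℕ → ℝ} (hf : App l N f) (i : ℕ) :
    App (l + i) N (fun j => f j / (j : ℝ) ^ i) := by
  induction i with
  | zero => simpa using hf
  | succ i ih =>
    refine (App.div_j ih).congr fun j hj => ?_
    rw [pow_succ, div_div]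

lemma App.pow_inv (l N : ℕ) : App l N (fun j => 1 / (j : ℝ) ^ l) := by
  rcases N with _ | N
  · refine ⟨1, fun j hj => ?_⟩
    rw [abs_of_nonneg (by positivity)]
  · exact ⟨1, by simpa using App.zero (l + 1) N⟩

lemma App.mul {l l' N : ℕ} {f g : ℕ → ℝ} (hf : App l N f) (hg : App l' N g) :
    App (l + l') N (fun j => f j * g j) := by
  induction N generalizing l l' f g with
  | zero =>
    obtain ⟨C, hC0, hC⟩ := App.bound hf
    obtain ⟨D, hD0, hD⟩ := App.bound hg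
    refine ⟨C * D, fun j hj => ?_⟩
    rw [abs_mul, pow_add, ← div_mul_div_comm]
    exact mul_le_mul (hC j hj) (hD j hj) (abs_nonneg _) (by positivity)
  | succ N ih =>
    obtain ⟨c, hc⟩ := hf
    obtain ⟨d, hd⟩ := hg
    refine ⟨c * d, ?_⟩
    have h1 : App (l + l' + 1) N (fun j => c * ((g j - d / (j : ℝ) ^ l') / (j : ℝ) ^ l)) := by
      have := (hd.div_pow l).const_mul c
      rwa [show l' + 1 + l = l + l' + 1 by ring] at this
    have h2 : App (l + l' + 1) N (fun j => d * ((f j - c / (j : ℝ) ^ l) / (j : ℝ) ^ l')) := by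
      have := (hc.div_pow l').const_mul d
      rwa [show l + 1 + l' = l + l' + 1 by ring] at this
    have h3 : App (l + l' + 1) N
        (fun j => (f j - c / (j : ℝ) ^ l) * (g j - d / (j : ℝ) ^ l')) := by
      have := ih hc hd
      rw [show l + 1 + (l' + 1) = (l + l' + 1) + 1 by ring] at this
      exact this.weaken
    refine ((h1.add h2).add h3).congr fun j hj => ?_
    have hj' : (0 : ℝ) < j := by exact_mod_cast hj
    rw [pow_add]
    field_simp
    ring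

/-- `1 / (j + 1)` -/
lemma App.inv_succ (N : ℕ) : App 1 N (fun j => 1 / ((j : ℝ) + 1)) := by
  induction N with
  | zero =>
    refine ⟨1, fun j hj => ?_⟩
    have hj' : (0 : ℝ) < j := by exact_mod_cast hj
    rw [abs_of_pos (by positivity), pow_one]
    exact one_div_le_one_div_of_le hj' (by linarith)
  | succ N ih =>
    refine ⟨1, ?_⟩
    refine ((App.div_j ih).const_mul (-1)).congr fun j hj => ?_
    have hj' : (0 : ℝ) < j := by exact_mod_cast hj
    have : (0 : ℝ) < (j : ℝ) + 1 := by linarith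
    field_simp
    ring

lemma App.inv_succ_pow (l N : ℕ) : App l N (fun j => 1 / ((j : ℝ) + 1) ^ l) := by
  induction l with
  | zero => simpa using App.pow_inv 0 N
  | succ l ih =>
    refine (ih.mul (App.inv_succ N)).congr fun j _ => ?_
    rw [pow_succ]
    field_simp

lemma App.shift {l N : ℕ} {f : ℕ → ℝ} (hf : App l N f) : App l N (fun j => f (j + 1)) := by
  induction N generalizing l f with
  | zero =>
    obtain ⟨C, hC0, hC⟩ := App.bound hf
    refine ⟨C, fun j hj => (hC (j + 1) (Nat.succ_pos j)).trans ?_⟩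
    have hj' : (0 : ℝ) < j := by exact_mod_cast hj
    gcongr
    push_cast; linarith
  | succ N ih =>
    obtain ⟨c, hc⟩ := hf
    have h1 := (ih hc).up
    have h2 := (App.inv_succ_pow l (N + 1)).const_mul c
    refine (h1.add h2).congr fun j _ => ?_
    rw [Nat.cast_add, Nat.cast_one]
    ring

/-- first order differences of powers -/
lemma App.diff_pow (l N : ℕ) :
    App (l + 1) N (fun j => 1 / ((j : ℝ) + 1) ^ l - 1 / (j : ℝ) ^ l) := by
  induction l with
  | zero => simpa using App.zero 1 N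
  | succ l ih =>
    have h1 : App (l + 1 + 1) N (fun j => (1 / ((j : ℝ) + 1) ^ l - 1 / (j : ℝ) ^ l) *
        (1 / ((j : ℝ) + 1))) := ih.mul (App.inv_succ N)
    have h2 : App (1 + 1) N (fun j => (-1) * ((1 / ((j : ℝ) + 1)) / j)) :=
      (App.div_j (App.inv_succ N)).const_mul (-1)
    have h3 : App (l + 1 + 1) N (fun j => (-1) * ((1 / ((j : ℝ) + 1)) / j) / (j : ℝ) ^ l) := by
      have := h2.div_pow l
      rwa [show 1 + 1 + l = l + 1 + 1 by ring] at this
    refine (h1.add h3).congr fun j hj => ?_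
    have hj' : (0 : ℝ) < j := by exact_mod_cast hj
    have : (0 : ℝ) < (j : ℝ) + 1 := by linarith
    rw [pow_succ, pow_succ]
    field_simp
    ring

lemma App.diff {l N : ℕ} {f : ℕ → ℝ} (hf : App l (N + 1) f) :
    App (l + 1) N (fun j => f (j + 1) - f j) := by
  obtain ⟨c, hc⟩ := hf
  have h1 := (App.diff_pow l N).const_mul c
  have h2 := (App.shift hc).add (hc.const_mul (-1))
  refine (h1.add h2).congr fun j _ => ?_
  push_cast
  ring

/-- second order differences of powers -/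
lemma App.diff2_pow (l N : ℕ) :
    App (l + 2) N (fun j => 1 / ((j : ℝ) + 1) ^ l - 1 / (j : ℝ) ^ l + l / (j : ℝ) ^ (l + 1)) := by
  induction l with
  | zero => simpa using App.zero 2 N
  | succ l ih =>
    -- D_{l+1} = u D_l + l j^{-l-3} + u j^{-2} (j^{-l} - l j^{-l-1})
    have h1 := ih.mul (App.inv_succ N)
    have h2 := (App.pow_inv (l + 3) N).const_mul (l : ℝ)
    have h3 : App (l + 3) N (fun j => (1 / ((j : ℝ) + 1)) / (j : ℝ) ^ (l + 2)) := by
      have := (App.inv_succ N).div_pow (l + 2)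
      rwa [show 1 + (l + 2) = l + 3 by ring] at this
    have h4 : App (l + 3) N (fun j => (-(l : ℝ)) * ((1 / ((j : ℝ) + 1)) / (j : ℝ) ^ (l + 3))) := by
      have := ((App.inv_succ N).div_pow (l + 3)).const_mul (-(l : ℝ))
      rw [show 1 + (l + 3) = (l + 3) + 1 by ring] at this
      exact this.weaken
    have h5 : App (l + 3) N (fun j => (1 / ((j : ℝ) + 1) ^ l - 1 / (j : ℝ) ^ l +
        l / (j : ℝ) ^ (l + 1)) * (1 / ((j : ℝ) + 1))) := by
      rwa [show l + 2 + 1 = l + 3 by ring] at h1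
    rw [show l + 1 + 2 = l + 3 by ring]
    refine (((h5.add h2).add h3).add h4).congr fun j hj => ?_
    have hj' : (0 : ℝ) < j := by exact_mod_cast hj
    have : (0 : ℝ) < (j : ℝ) + 1 := by linarith
    push_cast
    rw [pow_succ ((j : ℝ) + 1) l, pow_succ (j : ℝ) (l + 1), pow_succ (j : ℝ) (l + 2),
      pow_succ (j : ℝ) (l + 1), pow_succ (j : ℝ) l]
    field_simp
    ring

lemma App.scale {l N : ℕ} {f : ℕ → ℝ} (hf : App (l + 1) (N + 2) f) :
    App (l + 2) N (fun j => ((j + 1 : ℕ) : ℝ) * f (j + 1) - j * f j + l * f j) := by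
  obtain ⟨c, hc⟩ := hf
  have h1 := (App.diff2_pow l N).const_mul c
  -- remainder
  have h2 : App (l + 1 + 1) N (fun j => (((j + 1 : ℕ) : ℝ) * (f (j + 1) - c / ((j + 1 : ℕ) : ℝ) ^
      (l + 1))) - (j : ℝ) * (f j - c / (j : ℝ) ^ (l + 1))) := (App.mul_j hc).diff
  have h3 : App (l + 2) N (fun j => l * (f j - c / (j : ℝ) ^ (l + 1))) :=
    (App.down hc).const_mul _
  refine ((h1.add h2).add h3).congr fun j hj => ?_
  have hj' : (0 : ℝ) < j := by exact_mod_cast hj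
  have : (0 : ℝ) < (j : ℝ) + 1 := by linarith
  push_cast
  rw [pow_succ ((j : ℝ) + 1) l, pow_succ (j : ℝ) l]
  field_simp
  ring

section ClLemmas

variable {l l' : ℕ} {f g : ℕ → ℝ}

lemma Cl.add (hf : Cl l f) (hg : Cl l g) : Cl l (fun j => f j + g j) := fun N => (hf N).add (hg N)

lemma Cl.const_mul (hf : Cl l f) (a : ℝ) : Cl l (fun j => a * f j) := fun N => (hf N).const_mul a

lemma Cl.congr (hf : Cl l f) (h : ∀ j, 0 < j → f j = g j) : Cl l g := fun N => (hf N).congr h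

lemma Cl.bound (hf : Cl l f) : ∃ C : ℝ, 0 ≤ C ∧ ∀ j : ℕ, 0 < j → |f j| ≤ C / (j : ℝ) ^ l :=
  App.bound (hf 0)

lemma Cl.weaken' (h : l' ≤ l) (hf : Cl l f) : Cl l' f := fun N => (hf N).weaken' h

lemma Cl.div_pow (hf : Cl l f) (i : ℕ) : Cl (l + i) (fun j => f j / (j : ℝ) ^ i) :=
  fun N => (hf N).div_pow i

lemma Cl.mul_j (hf : Cl (l + 1) f) : Cl l (fun j => j * f j) := fun N => (hf N).mul_j

lemma Cl.mul (hf : Cl l f) (hg : Cl l' g) : Cl (l + l') (fun j => f j * g j) :=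
  fun N => (hf N).mul (hg N)

lemma Cl.diff (hf : Cl l f) : Cl (l + 1) (fun j => f (j + 1) - f j) := fun N => (hf (N + 1)).diff

lemma Cl.scale (hf : Cl (l + 1) f) :
    Cl (l + 2) (fun j => ((j + 1 : ℕ) : ℝ) * f (j + 1) - j * f j + l * f j) :=
  fun N => (hf (N + 2)).scale

lemma Cl.jdiff (hf : Cl (l + 1) f) :
    Cl (l + 1) (fun j => ((j + 1 : ℕ) : ℝ) * f (j + 1) - j * f j) := by
  have h1 : Cl (l + 1) (fun j => ((j + 1 : ℕ) : ℝ) * f (j + 1) - j * f j + l * f j) :=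
    hf.scale.weaken' (by omega)
  refine (h1.add (hf.const_mul (-(l : ℝ)))).congr fun j _ => ?_
  ring

lemma Cl.pow_inv (l : ℕ) : Cl l (fun j => 1 / (j : ℝ) ^ l) := fun N => App.pow_inv l N

lemma Cl.one : Cl 0 (fun _ => 1) := by simpa using Cl.pow_inv 0

end ClLemmas

end Pool.Agent.Lib.MP_493311_pr
end

section

open Finset PowerSeries

namespace Pool.Agent.Lib.MP_493311_pr

open Polynomial in
/-- numerator polynomials: `sum_i i^m X^i = A m / (1 - X)^(m+1)` -/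
noncomputable def Apol : ℕ → Polynomial ℝ
  | 0 => Polynomial.X
  | m + 1 => Polynomial.X * (1 - Polynomial.X) * derivative (Apol m) +
      ((m + 1 : ℕ) : Polynomial ℝ) * Polynomial.X * Apol m

/-- `sum_m (-1)^m A_m Y^(m+1)` -/
noncomputable def TT : (Polynomial ℝ)⟦X⟧ :=
  PowerSeries.mk fun b => match b with
    | 0 => 0
    | m + 1 => (-1) ^ m * Apol m

/-- the derivation `z (1 - z) d/dz + z Y d/dY` -/
noncomputable def DD (f : (Polynomial ℝ)⟦X⟧) : (Polynomial ℝ)⟦X⟧ :=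
  PowerSeries.mk fun b => Polynomial.X * (1 - Polynomial.X) * Polynomial.derivative (coeff b f) +
    (b : Polynomial ℝ) * Polynomial.X * coeff b f

lemma coeff_DD (f : (Polynomial ℝ)⟦X⟧) (b : ℕ) : coeff b (DD f) =
    Polynomial.X * (1 - Polynomial.X) * Polynomial.derivative (coeff b f) +
    (b : Polynomial ℝ) * Polynomial.X * coeff b f := coeff_mk _ _

lemma DD_mul (f g : (Polynomial ℝ)⟦X⟧) : DD (f * g) = DD f * g + f * DD g := by
  ext1 b
  rw [map_add, coeff_DD, coeff_mul, coeff_mul, coeff_mul, Polynomial.derivative_sum, mul_sum,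
    mul_sum, ← sum_add_distrib, ← sum_add_distrib]
  apply sum_congr rfl
  intro p hp
  rw [coeff_DD, coeff_DD, Polynomial.derivative_mul]
  have h1 : (b : Polynomial ℝ) = (p.1 : Polynomial ℝ) + (p.2 : Polynomial ℝ) := by
    rw [← mem_antidiagonal.mp hp]; push_cast; ring
  rw [h1]
  ring

lemma DD_one : DD 1 = 0 := by
  ext1 b
  rw [coeff_DD]
  rcases b with _ | b
  · simp
  · simp [coeff_one]

lemma DD_pow (f : (Polynomial ℝ)⟦X⟧) (a : ℕ) :
    DD (f ^ (a + 1)) = ((a + 1 : ℕ) : (Polynomial ℝ)⟦X⟧) * f ^ a * DD f := by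
  induction a with
  | zero => simp
  | succ a ih =>
    rw [pow_succ, DD_mul, ih]
    push_cast
    ring

lemma X_mul_DD_TT : (X : (Polynomial ℝ)⟦X⟧) * DD TT = -TT + PowerSeries.C Polynomial.X * X := by
  ext1 b
  rcases b with _ | b
  · simp [TT]
  · rw [coeff_succ_X_mul, map_add, map_neg, coeff_C_mul, coeff_DD]
    rcases b with _ | b
    · simp [TT, Apol]
    · have h1 : coeff (b + 1 + 1) (X : (Polynomial ℝ)⟦X⟧) = 0 := by
        rw [coeff_X, if_neg (by omega)]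
      rw [h1, mul_zero, add_zero]
      unfold TT
      simp only [coeff_mk]
      have h2 : Polynomial.derivative ((-1 : Polynomial ℝ) ^ b * Apol b) =
          (-1 : Polynomial ℝ) ^ b * Polynomial.derivative (Apol b) := by
        have : ((-1 : Polynomial ℝ) ^ b) = Polynomial.C ((-1 : ℝ) ^ b) := by simp
        rw [this, Polynomial.derivative_C_mul]
      rw [h2]
      simp only [Apol]
      ring

/-- `[Y^b] TT^a / a!` -/
noncomputable def theta (a b : ℕ) : Polynomial ℝ :=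
  Polynomial.C (1 / (a.factorial : ℝ)) * coeff b (TT ^ a)

lemma theta_zero_left (b : ℕ) : theta 0 b = if b = 0 then 1 else 0 := by
  unfold theta
  rw [pow_zero, coeff_one]
  split_ifs <;> simp

lemma theta_rec (a b : ℕ) :
    Polynomial.X * (1 - Polynomial.X) * Polynomial.derivative (theta (a + 1) b) +
      (b : Polynomial ℝ) * Polynomial.X * theta (a + 1) b =
      -((a + 1 : ℕ) : Polynomial ℝ) * theta (a + 1) (b + 1) + Polynomial.X * theta a b := by
  have h1 : (X : (Polynomial ℝ)⟦X⟧) * DD (TT ^ (a + 1)) =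
      ((a + 1 : ℕ) : (Polynomial ℝ)⟦X⟧) * (-(TT ^ (a + 1)) +
        PowerSeries.C Polynomial.X * (X * TT ^ a)) := by
    rw [DD_pow]
    have : X * (((a + 1 : ℕ) : (Polynomial ℝ)⟦X⟧) * TT ^ a * DD TT) =
        ((a + 1 : ℕ) : (Polynomial ℝ)⟦X⟧) * TT ^ a * (X * DD TT) := by ring
    rw [this, X_mul_DD_TT]
    ring
  have h2 := congrArg (coeff (b + 1)) h1
  rw [coeff_succ_X_mul, coeff_DD] at h2
  have h3 : coeff (b + 1) (((a + 1 : ℕ) : (Polynomial ℝ)⟦X⟧) * (-(TT ^ (a + 1)) +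
        PowerSeries.C Polynomial.X * (X * TT ^ a))) =
      ((a + 1 : ℕ) : Polynomial ℝ) * (-(coeff (b + 1) (TT ^ (a + 1))) +
        Polynomial.X * coeff b (TT ^ a)) := by
    rw [← nsmul_eq_mul, map_nsmul, nsmul_eq_mul, map_add, map_neg, coeff_C_mul, coeff_succ_X_mul]
  rw [h3] at h2
  unfold theta
  rw [Polynomial.derivative_C_mul]
  have h4 : (Polynomial.C (1 / ((a + 1).factorial : ℝ))) * ((a + 1 : ℕ) : Polynomial ℝ) =
      Polynomial.C (1 / (a.factorial : ℝ)) := by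
    rw [← Polynomial.C_eq_natCast, ← Polynomial.C_mul]
    congr 1
    rw [Nat.factorial_succ]
    push_cast
    have : (a.factorial : ℝ) ≠ 0 := by positivity
    have : (a : ℝ) + 1 ≠ 0 := by positivity
    field_simp
  calc Polynomial.X * (1 - Polynomial.X) * (Polynomial.C (1 / ((a + 1).factorial : ℝ)) *
        Polynomial.derivative (coeff b (TT ^ (a + 1)))) +
      (b : Polynomial ℝ) * Polynomial.X * (Polynomial.C (1 / ((a + 1).factorial : ℝ)) *
        coeff b (TT ^ (a + 1)))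
      = Polynomial.C (1 / ((a + 1).factorial : ℝ)) *
        (Polynomial.X * (1 - Polynomial.X) * Polynomial.derivative (coeff b (TT ^ (a + 1))) +
        (b : Polynomial ℝ) * Polynomial.X * coeff b (TT ^ (a + 1))) := by ring
    _ = Polynomial.C (1 / ((a + 1).factorial : ℝ)) * (((a + 1 : ℕ) : Polynomial ℝ) *
        (-(coeff (b + 1) (TT ^ (a + 1))) + Polynomial.X * coeff b (TT ^ a))) := by rw [h2]
    _ = -((a + 1 : ℕ) : Polynomial ℝ) * (Polynomial.C (1 / ((a + 1).factorial : ℝ)) *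
        coeff (b + 1) (TT ^ (a + 1))) + Polynomial.X *
        ((Polynomial.C (1 / ((a + 1).factorial : ℝ)) * ((a + 1 : ℕ) : Polynomial ℝ)) *
          coeff b (TT ^ a)) := by ring
    _ = _ := by rw [h4]

lemma theta_eq_zero {a b : ℕ} (hab : b < a) : theta a b = 0 := by
  unfold theta
  have h1 : (X : (Polynomial ℝ)⟦X⟧) ∣ TT := by
    rw [X_dvd_iff]
    simp [TT]
  obtain ⟨U, hU⟩ := h1
  rw [hU, mul_pow, coeff_X_pow_mul', if_neg (by omega), mul_zero]

end Pool.Agent.Lib.MP_493311_pr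
end

section

open Finset PowerSeries Filter
open scoped Topology

namespace Pool.Agent.Lib.MP_493311_pr

/-- the explicit part of `(1-X)^M Q_j` -/
noncomputable def SS (j M : ℕ) : ℝ⟦X⟧ :=
  ∑ a ∈ range (M + 2), ∑ b ∈ range (M + 1),
    C ((1 / (j : ℝ)) ^ b) * ((1 - X) ^ (M - b) * (X ^ (a * j) * (theta a b : ℝ⟦X⟧)))

/-- the error term of the ODE -/
noncomputable def EE (j M : ℕ) : ℝ⟦X⟧ :=
  C ((1 / (j : ℝ)) ^ M) * ∑ a ∈ range (M + 2),
    ((a : ℕ) : ℝ⟦X⟧) * (X ^ (a * j) * (theta a (M + 1) : ℝ⟦X⟧))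

lemma derivative_one_sub_X_pow' (e : ℕ) :
    (1 - X) * d⁄dX ℝ ((1 - X : ℝ⟦X⟧) ^ e) = -((e : ℝ⟦X⟧) * (1 - X) ^ e) := by
  rcases e with _ | e
  · simp
  · rw [derivative_one_sub_X_pow, pow_succ]; ring

lemma X_mul_derivative_X_pow (e : ℕ) :
    X * d⁄dX ℝ ((X : ℝ⟦X⟧) ^ e) = (e : ℝ⟦X⟧) * X ^ e := by
  rcases e with _ | e
  · simp
  · rw [Derivation.leibniz_pow, derivative_X]
    simp only [Nat.add_sub_cancel, nsmul_eq_mul, smul_eq_mul, mul_one]
    rw [pow_succ]; ring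

lemma term_ode (j M a b : ℕ) (hb : b ≤ M) :
    X * ((1 - X) * d⁄dX ℝ ((1 - X) ^ (M - b) * (X ^ (a * j) * (theta a b : ℝ⟦X⟧)))) =
      (a : ℝ⟦X⟧) * (j : ℝ⟦X⟧) * ((1 - X) ^ (M + 1 - b) * (X ^ (a * j) * (theta a b : ℝ⟦X⟧)))
      - (M : ℝ⟦X⟧) * X * ((1 - X) ^ (M - b) * (X ^ (a * j) * (theta a b : ℝ⟦X⟧)))
      - (a : ℝ⟦X⟧) * ((1 - X) ^ (M - b) * (X ^ (a * j) * (theta a (b + 1) : ℝ⟦X⟧)))
      + X ^ (j + 1) * (if a = 0 then 0 else
        ((1 - X) ^ (M - b) * (X ^ ((a - 1) * j) * (theta (a - 1) b : ℝ⟦X⟧)))) := by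
  rw [Derivation.leibniz, Derivation.leibniz, smul_eq_mul, smul_eq_mul, smul_eq_mul, smul_eq_mul]
  set θ : ℝ⟦X⟧ := (theta a b : ℝ⟦X⟧) with hθ
  set W : ℝ⟦X⟧ := (1 - X) ^ (M - b) with hW
  have h1 : (1 - X) * d⁄dX ℝ W = -(((M - b : ℕ) : ℝ⟦X⟧) * W) := derivative_one_sub_X_pow' _
  have h2 : X * d⁄dX ℝ ((X : ℝ⟦X⟧) ^ (a * j)) = ((a * j : ℕ) : ℝ⟦X⟧) * X ^ (a * j) :=
    X_mul_derivative_X_pow _
  have h3 : X * (1 - X) * d⁄dX ℝ θ + (b : ℝ⟦X⟧) * X * θ =
      -((a : ℝ⟦X⟧) * (theta a (b + 1) : ℝ⟦X⟧)) +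
        (if a = 0 then 0 else X * (theta (a - 1) b : ℝ⟦X⟧)) := by
    rcases a with _ | a
    · rw [if_pos rfl]
      by_cases hb0 : b = 0
      · subst hb0; rw [hθ, theta_zero_left, if_pos rfl]; simp
      · rw [hθ, theta_zero_left, if_neg hb0]; simp
    · have := congrArg (fun p : Polynomial ℝ => (p : ℝ⟦X⟧)) (theta_rec a b)
      simp only [Polynomial.coe_add, Polynomial.coe_mul, Polynomial.coe_neg, Polynomial.coe_sub,
        Polynomial.coe_X, Polynomial.coe_one] at this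
      rw [hθ, PowerSeries.derivative_coe]
      rw [if_neg (Nat.succ_ne_zero a), Nat.add_sub_cancel]
      have hc : ∀ n : ℕ, (((n : ℕ) : Polynomial ℝ) : ℝ⟦X⟧) = (n : ℝ⟦X⟧) := by
        intro n
        exact map_natCast (Polynomial.coeToPowerSeries.ringHom (R := ℝ)) n
      rw [hc, hc] at this
      rw [this]; ring
  have h4 : (1 - X : ℝ⟦X⟧) ^ (M + 1 - b) = (1 - X) * W := by
    rw [hW, ← pow_succ']; congr 1; omega
  have h5 : ((M - b : ℕ) : ℝ⟦X⟧) = (M : ℝ⟦X⟧) - (b : ℝ⟦X⟧) := by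
    rw [Nat.cast_sub hb]
  rw [h4]
  have e1 : X * ((1 - X) * (W * (X ^ (a * j) * d⁄dX ℝ θ + θ * d⁄dX ℝ (X ^ (a * j))) +
      X ^ (a * j) * θ * d⁄dX ℝ W)) =
      W * X ^ (a * j) * (X * (1 - X) * d⁄dX ℝ θ) +
      W * θ * (1 - X) * (X * d⁄dX ℝ ((X : ℝ⟦X⟧) ^ (a * j))) +
      X * X ^ (a * j) * θ * ((1 - X) * d⁄dX ℝ W) := by ring
  rw [e1, h1, h2, h5]
  have h6 : X * (1 - X) * d⁄dX ℝ θ = -((a : ℝ⟦X⟧) * (theta a (b + 1) : ℝ⟦X⟧)) +
        (if a = 0 then 0 else X * (theta (a - 1) b : ℝ⟦X⟧)) - (b : ℝ⟦X⟧) * X * θ := by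
    rw [← h3]; ring
  rw [h6]
  rcases a with _ | a
  · simp only [if_true]
    push_cast
    ring
  · rw [if_neg (Nat.succ_ne_zero a), if_neg (Nat.succ_ne_zero a), Nat.add_sub_cancel]
    have h7 : (X : ℝ⟦X⟧) ^ ((a + 1) * j) = X ^ j * X ^ (a * j) := by
      rw [← pow_add]; congr 1; ring
    rw [h7]
    push_cast
    ring

lemma C_one_div_pow_succ {j : ℕ} (hj : 0 < j) (b : ℕ) :
    (j : ℝ⟦X⟧) * C ((1 / (j : ℝ)) ^ (b + 1)) = C ((1 / (j : ℝ)) ^ b) := by
  have hj' : (j : ℝ) ≠ 0 := by positivity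
  have : (j : ℝ⟦X⟧) = C (j : ℝ) := by simp
  rw [this, ← map_mul]
  congr 1
  rw [pow_succ]
  field_simp

lemma SS_ode {j : ℕ} (hj : 0 < j) (M : ℕ) :
    X * ((1 - X) * d⁄dX ℝ (SS j M)) = X * ((X ^ j - (M : ℝ⟦X⟧)) * SS j M) - EE j M := by
  -- abbreviations
  set U : ℕ → ℕ → ℝ⟦X⟧ := fun a b => (1 - X) ^ (M - b) * (X ^ (a * j) * (theta a b : ℝ⟦X⟧))
    with hU
  set V : ℕ → ℕ → ℝ⟦X⟧ := fun a b =>
    (1 - X) ^ (M + 1 - b) * (X ^ (a * j) * (theta a b : ℝ⟦X⟧)) with hV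
  set c : ℕ → ℝ⟦X⟧ := fun b => C ((1 / (j : ℝ)) ^ b) with hc
  have hcD : ∀ b (f : ℝ⟦X⟧), d⁄dX ℝ (c b * f) = c b * d⁄dX ℝ f := by
    intro b f
    rw [hc]
    simp only
    rw [← smul_eq_C_mul, ← smul_eq_C_mul, Derivation.map_smul]
  have hS : SS j M = ∑ a ∈ range (M + 2), ∑ b ∈ range (M + 1), c b * U a b := rfl
  -- telescoping part
  have htel : ∀ a : ℕ, ∑ b ∈ range (M + 1), c b * ((a : ℝ⟦X⟧) * (j : ℝ⟦X⟧) * V a b -
      (a : ℝ⟦X⟧) * V a (b + 1)) = - (c M * ((a : ℝ⟦X⟧) * (X ^ (a * j) *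
        (theta a (M + 1) : ℝ⟦X⟧)))) := by
    intro a
    have h1 : ∀ b : ℕ, c b * ((a : ℝ⟦X⟧) * (j : ℝ⟦X⟧) * V a b - (a : ℝ⟦X⟧) * V a (b + 1)) =
        (fun b => (j : ℝ⟦X⟧) * c b * ((a : ℝ⟦X⟧) * V a b)) b -
        (fun b => (j : ℝ⟦X⟧) * c b * ((a : ℝ⟦X⟧) * V a b)) (b + 1) := by
      intro b
      simp only
      have h2 : (j : ℝ⟦X⟧) * c (b + 1) = c b := C_one_div_pow_succ hj b
      rw [h2]; ring
    rw [sum_congr rfl fun b _ => h1 b, sum_range_sub']
    have h3 : (a : ℝ⟦X⟧) * V a 0 = 0 := by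
      rcases a with _ | a
      · simp
      · simp only [hV]
        rw [theta_eq_zero (Nat.succ_pos a)]; simp
    have h4 : (j : ℝ⟦X⟧) * c (M + 1) = c M := C_one_div_pow_succ hj M
    rw [h3, h4]
    simp only [hV, Nat.sub_self, pow_zero, one_mul]
    ring
  -- shifted part
  have hshift : ∑ a ∈ range (M + 2), ∑ b ∈ range (M + 1), c b * (X ^ (j + 1) *
      (if a = 0 then 0 else U (a - 1) b)) = X ^ (j + 1) * SS j M := by
    rw [sum_range_succ']
    simp only [if_true, mul_zero, sum_const_zero, add_zero, Nat.add_eq_zero_iff, one_ne_zero,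
      and_false, if_false, Nat.add_sub_cancel]
    have h5 : SS j M = ∑ a ∈ range (M + 1), ∑ b ∈ range (M + 1), c b * U a b := by
      rw [hS, sum_range_succ]
      have : ∑ b ∈ range (M + 1), c b * U (M + 1) b = 0 := by
        apply sum_eq_zero
        intro b hb
        simp only [hU]
        rw [theta_eq_zero (mem_range.mp hb)]; simp
      rw [this, add_zero]
    rw [h5, mul_sum]
    apply sum_congr rfl
    intro a _
    rw [mul_sum]
    apply sum_congr rfl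
    intro b _
    ring
  have hmain : X * ((1 - X) * d⁄dX ℝ (SS j M)) =
      ∑ a ∈ range (M + 2), ∑ b ∈ range (M + 1),
        (c b * ((a : ℝ⟦X⟧) * (j : ℝ⟦X⟧) * V a b - (a : ℝ⟦X⟧) * V a (b + 1)) +
         (c b * (X ^ (j + 1) * (if a = 0 then 0 else U (a - 1) b)) -
          (M : ℝ⟦X⟧) * X * (c b * U a b))) := by
    rw [hS, map_sum, mul_sum, mul_sum]
    apply sum_congr rfl
    intro a _
    rw [map_sum, mul_sum, mul_sum]
    apply sum_congr rfl
    intro b hb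
    have hb' : b ≤ M := by have := mem_range.mp hb; omega
    rw [hcD]
    have h6 := term_ode j M a b hb'
    have h7 : X * ((1 - X) * (c b * d⁄dX ℝ (U a b))) =
        c b * (X * ((1 - X) * d⁄dX ℝ (U a b))) := by ring
    rw [h7]
    simp only [hU] at h6 ⊢
    rw [h6]
    have h8 : V a (b + 1) = (1 - X) ^ (M - b) * (X ^ (a * j) * (theta a (b + 1) : ℝ⟦X⟧)) := by
      simp only [hV]
      congr 2
      omega
    rw [h8]
    simp only [hV]
    ring
  rw [hmain]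
  simp_rw [sum_add_distrib, sum_sub_distrib]
  rw [hshift, sum_congr rfl fun a _ => htel a]
  have h9 : ∑ a ∈ range (M + 2), ∑ b ∈ range (M + 1), (M : ℝ⟦X⟧) * X * (c b * U a b) =
      (M : ℝ⟦X⟧) * X * SS j M := by
    rw [hS, mul_sum]
    apply sum_congr rfl
    intro a _
    rw [mul_sum]
  rw [h9]
  unfold EE
  rw [mul_sum, sum_neg_distrib]
  simp only [hc]
  ring

end Pool.Agent.Lib.MP_493311_pr
end

section

open Finset PowerSeries Filter
open scoped Topology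

namespace Pool.Agent.Lib.MP_493311_pr

/-- partial `l^1` seminorm -/
noncomputable def nrm (n : ℕ) (f : ℝ⟦X⟧) : ℝ := ∑ i ∈ range n, |coeff i f|

lemma nrm_nonneg (n : ℕ) (f : ℝ⟦X⟧) : 0 ≤ nrm n f := sum_nonneg fun _ _ => abs_nonneg _

lemma nrm_mono {n m : ℕ} (h : n ≤ m) (f : ℝ⟦X⟧) : nrm n f ≤ nrm m f :=
  sum_le_sum_of_subset_of_nonneg (range_mono h) fun _ _ _ => abs_nonneg _

lemma nrm_add_le (n : ℕ) (f g : ℝ⟦X⟧) : nrm n (f + g) ≤ nrm n f + nrm n g := by
  unfold nrm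
  rw [← sum_add_distrib]
  apply sum_le_sum
  intro i _
  rw [map_add]
  exact abs_add_le _ _

lemma nrm_sum_le {ι : Type*} (s : Finset ι) (n : ℕ) (f : ι → ℝ⟦X⟧) :
    nrm n (∑ a ∈ s, f a) ≤ ∑ a ∈ s, nrm n (f a) := by
  classical
  induction s using Finset.induction_on with
  | empty => simp [nrm]
  | insert a s ha ih =>
    rw [sum_insert ha, sum_insert ha]
    exact (nrm_add_le _ _ _).trans (by linarith)

lemma nrm_C_mul (n : ℕ) (c : ℝ) (f : ℝ⟦X⟧) : nrm n (C c * f) = |c| * nrm n f := by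
  unfold nrm
  rw [mul_sum]
  apply sum_congr rfl
  intro i _
  rw [coeff_C_mul, abs_mul]

lemma nrm_natCast_mul (n a : ℕ) (f : ℝ⟦X⟧) : nrm n ((a : ℝ⟦X⟧) * f) = a * nrm n f := by
  have : (a : ℝ⟦X⟧) = C (a : ℝ) := by simp
  rw [this, nrm_C_mul, abs_of_nonneg (by positivity)]

lemma nrm_X_mul_le (n : ℕ) (f : ℝ⟦X⟧) : nrm n (X * f) ≤ nrm n f := by
  rcases n with _ | n
  · simp [nrm]
  · unfold nrm
    rw [sum_range_succ', coeff_zero_X_mul, abs_zero, add_zero]
    simp only [coeff_succ_X_mul]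
    exact sum_le_sum_of_subset_of_nonneg (range_mono (Nat.le_succ n)) fun _ _ _ => abs_nonneg _

lemma nrm_X_pow_mul_le (n K : ℕ) (f : ℝ⟦X⟧) : nrm n (X ^ K * f) ≤ nrm n f := by
  induction K with
  | zero => simp
  | succ K ih =>
    rw [pow_succ', mul_assoc]
    exact (nrm_X_mul_le _ _).trans ih

/-- `l^1` norm of a polynomial -/
noncomputable def l1 (p : Polynomial ℝ) : ℝ := ∑ i ∈ range (p.natDegree + 1), |p.coeff i|

lemma l1_nonneg (p : Polynomial ℝ) : 0 ≤ l1 p := sum_nonneg fun _ _ => abs_nonneg _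

lemma nrm_coe_le (n : ℕ) (p : Polynomial ℝ) : nrm n (p : ℝ⟦X⟧) ≤ l1 p := by
  unfold nrm l1
  simp only [Polynomial.coeff_coe]
  rcases le_or_gt n (p.natDegree + 1) with h | h
  · exact sum_le_sum_of_subset_of_nonneg (range_mono h) fun _ _ _ => abs_nonneg _
  · apply le_of_eq
    symm
    apply sum_subset (range_mono h.le)
    intro i _ hi
    rw [mem_range, not_lt] at hi
    rw [Polynomial.coeff_eq_zero_of_natDegree_lt (by omega), abs_zero]

/-- constant in the bound of the error term -/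
noncomputable def CE (M : ℕ) : ℝ := ∑ a ∈ range (M + 2), (a : ℝ) * l1 (theta a (M + 1))

lemma CE_nonneg (M : ℕ) : 0 ≤ CE M :=
  sum_nonneg fun _ _ => mul_nonneg (by positivity) (l1_nonneg _)

lemma nrm_EE_le (n j M : ℕ) : nrm n (EE j M) ≤ (1 / (j : ℝ)) ^ M * CE M := by
  unfold EE CE
  rw [nrm_C_mul, abs_of_nonneg (by positivity)]
  apply mul_le_mul_of_nonneg_left _ (by positivity)
  refine (nrm_sum_le _ _ _).trans ?_
  apply sum_le_sum
  intro a _
  rw [nrm_natCast_mul]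
  apply mul_le_mul_of_nonneg_left _ (by positivity)
  exact (nrm_X_pow_mul_le _ _ _).trans (nrm_coe_le _ _)

lemma coeff_EE_small {j M n : ℕ} (hn : n < j) : coeff n (EE j M) = 0 := by
  unfold EE
  rw [coeff_C_mul, map_sum]
  rw [sum_eq_zero, mul_zero]
  intro a _
  have : (a : ℝ⟦X⟧) = C (a : ℝ) := by simp
  rw [this, coeff_C_mul, coeff_X_pow_mul']
  rcases a with _ | a
  · simp
  · rw [if_neg, mul_zero]
    have : (a + 1) * j = a * j + j := by ring
    rw [this]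
    omega

lemma FM_ode (j M : ℕ) : (1 - X) * d⁄dX ℝ (FM j M) = (X ^ j - (M : ℝ⟦X⟧)) * FM j M := by
  unfold FM
  rw [Derivation.leibniz, smul_eq_mul, smul_eq_mul]
  have h1 := derivative_one_sub_X_pow' M
  have h2 := Q_ode j
  have : (1 - X) * ((1 - X) ^ M * d⁄dX ℝ (Q j) + Q j * d⁄dX ℝ ((1 - X : ℝ⟦X⟧) ^ M)) =
      (1 - X) ^ M * ((1 - X) * d⁄dX ℝ (Q j)) + Q j * ((1 - X) * d⁄dX ℝ ((1 - X : ℝ⟦X⟧) ^ M)) := by
    ring
  rw [this, h1, h2]
  ring

/-- remainder -/
noncomputable def RR (j M : ℕ) : ℝ⟦X⟧ := FM j M - SS j M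

lemma RR_ode {j : ℕ} (hj : 0 < j) (M : ℕ) :
    X * ((1 - X) * d⁄dX ℝ (RR j M)) = X * ((X ^ j - (M : ℝ⟦X⟧)) * RR j M) + EE j M := by
  unfold RR
  rw [map_sub, mul_sub, mul_sub, FM_ode, SS_ode hj]
  ring

lemma RR_rec {j : ℕ} (hj : 0 < j) (M n : ℕ) :
    ((n : ℝ) + 1) * coeff (n + 1) (RR j M) = n * coeff n (RR j M) - M * coeff n (RR j M) +
      (if j ≤ n then coeff (n - j) (RR j M) else 0) + coeff (n + 1) (EE j M) := by
  have h := congrArg (coeff (n + 1)) (RR_ode hj M)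
  rw [coeff_succ_X_mul, map_add, coeff_succ_X_mul, coeff_one_sub_X_mul_deriv, sub_mul, map_sub,
    coeff_X_pow_mul'] at h
  have h2 : coeff n ((M : ℝ⟦X⟧) * RR j M) = M * coeff n (RR j M) := by
    rw [← nsmul_eq_mul, map_nsmul, nsmul_eq_mul]
  rw [h2] at h
  linarith

lemma coeff_zero_SS {j : ℕ} (hj : 0 < j) (M : ℕ) : coeff 0 (SS j M) = 1 := by
  unfold SS
  rw [sum_range_succ', map_add, map_sum]
  rw [sum_eq_zero, zero_add, map_sum, sum_range_succ']
  · rw [sum_eq_zero, zero_add]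
    · rw [theta_zero_left, if_pos rfl]
      simp
    · intro b _
      rw [theta_zero_left, if_neg (Nat.succ_ne_zero b)]
      simp
  · intro a _
    rw [map_sum]
    apply sum_eq_zero
    intro b _
    have h0 : (a + 1) * j ≠ 0 := (Nat.mul_pos (Nat.succ_pos a) hj).ne'
    rw [coeff_C_mul, coeff_zero_eq_constantCoeff_apply, map_mul, map_mul, map_pow (constantCoeff)
      X ((a + 1) * j), constantCoeff_X, zero_pow h0]
    ring

lemma coeff_zero_RR {j : ℕ} (hj : 0 < j) (M : ℕ) : coeff 0 (RR j M) = 0 := by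
  unfold RR
  rw [map_sub, coeff_zero_SS hj]
  unfold FM
  rw [coeff_mul]
  simp [q_zero]

lemma RR_small {j : ℕ} (hj : 0 < j) (M : ℕ) {n : ℕ} (hn : n < j) : coeff n (RR j M) = 0 := by
  induction n with
  | zero => exact coeff_zero_RR hj M
  | succ n ih =>
    have h := RR_rec hj M n
    rw [ih (by omega), if_neg (by omega), coeff_EE_small hn] at h
    have h3 : (n : ℝ) + 1 ≠ 0 := by positivity
    have : ((n : ℝ) + 1) * coeff (n + 1) (RR j M) = 0 := by rw [h]; ring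
    exact (mul_eq_zero.mp this).resolve_left h3

lemma RR_gronwall {j : ℕ} (hj : 0 < j) (M n : ℕ) :
    |coeff n (RR j M)| ≤ (1 + (M + 1) / (j : ℝ)) ^ n * (1 / j) * nrm (n + 1) (EE j M) := by
  induction n using Nat.strong_induction_on with
  | _ n ih =>
    have hj' : (0 : ℝ) < j := by exact_mod_cast hj
    rcases n with _ | n
    · rw [coeff_zero_RR hj, abs_zero]
      have := nrm_nonneg (0 + 1) (EE j M)
      positivity
    · rcases Nat.lt_or_ge (n + 1) j with hn | hn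
      · rw [RR_small hj M hn, abs_zero]
        have := nrm_nonneg (n + 1 + 1) (EE j M)
        positivity
      · have h := RR_rec hj M n
        set r : ℝ := 1 + (M + 1) / (j : ℝ) with hr
        have hr1 : 1 ≤ r := by
          rw [hr]
          have : 0 ≤ ((M : ℝ) + 1) / j := by positivity
          linarith
        set β : ℝ := r ^ n * (1 / j) * nrm (n + 1) (EE j M) with hβ
        have hβ0 : 0 ≤ β := by
          have := nrm_nonneg (n + 1) (EE j M)
          positivity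
        have h1 : |coeff n (RR j M)| ≤ β := ih n (Nat.lt_succ_self n)
        have h2 : |if j ≤ n then coeff (n - j) (RR j M) else 0| ≤ β := by
          split_ifs with hjn
          · refine (ih (n - j) (by omega)).trans ?_
            rw [hβ]
            have h3 := nrm_nonneg (n - j + 1) (EE j M)
            exact mul_le_mul (mul_le_mul_of_nonneg_right (pow_le_pow_right₀ hr1 (by omega))
              (by positivity)) (nrm_mono (by omega) _) h3 (by positivity)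
          · rw [abs_zero]; exact hβ0
        have hnj : (j : ℝ) ≤ (n : ℝ) + 1 := by exact_mod_cast hn
        have hn1 : (0 : ℝ) < (n : ℝ) + 1 := by positivity
        have h4 : ((n : ℝ) + 1) * |coeff (n + 1) (RR j M)| ≤
            (n + M) * β + β + |coeff (n + 1) (EE j M)| := by
          have h5 : ((n : ℝ) + 1) * |coeff (n + 1) (RR j M)| =
              |((n : ℝ) + 1) * coeff (n + 1) (RR j M)| := by
            rw [abs_mul, abs_of_pos hn1]
          rw [h5, h]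
          have h6 : |(n : ℝ) * coeff n (RR j M) - M * coeff n (RR j M)| ≤ (n + M) * β := by
            rw [← sub_mul, abs_mul]
            have : |(n : ℝ) - M| ≤ n + M := by
              rw [abs_le]; constructor <;> linarith [Nat.cast_nonneg (α := ℝ) n,
                Nat.cast_nonneg (α := ℝ) M]
            gcongr
          calc _ ≤ |(n : ℝ) * coeff n (RR j M) - M * coeff n (RR j M)| +
                |if j ≤ n then coeff (n - j) (RR j M) else 0| + |coeff (n + 1) (EE j M)| :=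
                abs_add_three _ _ _
            _ ≤ _ := by gcongr
        have h7 : |coeff (n + 1) (RR j M)| ≤ r * β + |coeff (n + 1) (EE j M)| * (1 / j) := by
          have h8 : |coeff (n + 1) (RR j M)| ≤
              ((n + M) * β + β + |coeff (n + 1) (EE j M)|) / ((n : ℝ) + 1) := by
            rw [le_div_iff₀ hn1]; linarith
          refine h8.trans ?_
          have h9 : ((n + M) * β + β + |coeff (n + 1) (EE j M)|) / ((n : ℝ) + 1) =
              β + M * β / (n + 1) + |coeff (n + 1) (EE j M)| / (n + 1) := by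
            field_simp; ring
          rw [h9]
          have h10 : M * β / (n + 1) ≤ M * β / j := by gcongr
          have h11 : |coeff (n + 1) (EE j M)| / ((n : ℝ) + 1) ≤
              |coeff (n + 1) (EE j M)| * (1 / j) := by
            rw [mul_one_div]; gcongr
          have h12 : r * β = β + M * β / j + β / j := by
            rw [hr]; field_simp; ring
          have h13 : 0 ≤ β / j := by positivity
          linarith
        refine h7.trans ?_
        have h14 : nrm (n + 1 + 1) (EE j M) = nrm (n + 1) (EE j M) + |coeff (n + 1) (EE j M)| := by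
          unfold nrm
          rw [sum_range_succ]
        rw [h14, hβ]
        have h15 : 1 ≤ r ^ (n + 1) := one_le_pow₀ hr1
        have h16 : |coeff (n + 1) (EE j M)| * (1 / j) ≤
            r ^ (n + 1) * (|coeff (n + 1) (EE j M)| * (1 / j)) :=
          le_mul_of_one_le_left (by positivity) h15
        calc r * (r ^ n * (1 / ↑j) * nrm (n + 1) (EE j M)) + |coeff (n + 1) (EE j M)| * (1 / ↑j)
            ≤ r * (r ^ n * (1 / ↑j) * nrm (n + 1) (EE j M)) +
              r ^ (n + 1) * (|coeff (n + 1) (EE j M)| * (1 / j)) := by gcongr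
          _ = _ := by ring

/-- near field bound -/
lemma near_bound (M K : ℕ) : ∃ C : ℝ, 0 ≤ C ∧ ∀ j : ℕ, 0 < j → ∀ n : ℕ, n ≤ K * j →
    |coeff n (RR j M)| ≤ C * (1 / (j : ℝ)) ^ (M + 1) := by
  refine ⟨Real.exp ((M + 1) * K) * CE M, by have := CE_nonneg M; positivity, ?_⟩
  intro j hj n hn
  have hj' : (0 : ℝ) < j := by exact_mod_cast hj
  refine (RR_gronwall hj M n).trans ?_
  have h1 : (1 + (M + 1) / (j : ℝ)) ^ n ≤ Real.exp ((M + 1) * K) := by
    calc (1 + (M + 1) / (j : ℝ)) ^ n ≤ (Real.exp ((M + 1) / (j : ℝ))) ^ n := by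
          gcongr
          have := Real.add_one_le_exp (((M : ℝ) + 1) / j)
          linarith
      _ = Real.exp (n * ((M + 1) / (j : ℝ))) := by rw [← Real.exp_nat_mul]
      _ ≤ _ := by
          apply Real.exp_le_exp.mpr
          have : (n : ℝ) ≤ K * j := by exact_mod_cast hn
          calc (n : ℝ) * ((M + 1) / (j : ℝ)) ≤ (K * j) * ((M + 1) / (j : ℝ)) := by gcongr
            _ = _ := by field_simp
  have h2 := nrm_EE_le (n + 1) j M
  have h3 := nrm_nonneg (n + 1) (EE j M)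
  calc (1 + (M + 1) / (j : ℝ)) ^ n * (1 / j) * nrm (n + 1) (EE j M)
      ≤ Real.exp ((M + 1) * K) * (1 / j) * ((1 / (j : ℝ)) ^ M * CE M) := by gcongr
    _ = _ := by rw [pow_succ]; ring

/-- far field bound -/
lemma far_bound (M R : ℕ) : ∃ C : ℝ, 0 ≤ C ∧ ∀ j : ℕ, 0 < j → ∀ n : ℕ,
    (M + 1) * (j + 1) + 1 ≤ n →
    |coeff n (FM j (M + 1))| ≤ C * (1 / (j : ℝ)) ^ (M + 2) * ((j : ℝ) / (n + j)) ^ R := by
  induction M with
  | zero =>
    refine ⟨((2 : ℝ) ^ (R + 2) + 1) ^ R, by positivity, ?_⟩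
    intro j hj n hn
    refine (abs_c_decay R hj (by omega)).trans (le_of_eq ?_)
    rw [one_div, inv_pow]
    ring
  | succ M ih =>
    obtain ⟨C, hC, ih⟩ := ih
    refine ⟨C * 2 ^ R * (M + 3), by positivity, ?_⟩
    intro j hj n hn
    have hj' : (0 : ℝ) < j := by exact_mod_cast hj
    obtain ⟨m, rfl⟩ : ∃ m, n = m + 1 := ⟨n - 1, by omega⟩
    have hexp : (M + 1 + 1) * (j + 1) = (M + 1) * (j + 1) + (j + 1) := by ring
    have hjm : j + 1 ≤ m := by
      have : 0 ≤ (M + 1) * (j + 1) := Nat.zero_le _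
      omega
    have h := FM_rec j (M + 1) m
    rw [if_pos (by omega)] at h
    have h1 := ih j hj (m - j) (by omega)
    have h2 := ih j hj m (by omega)
    have hm' : (j : ℝ) ≤ (m : ℝ) := by
      have : j ≤ m := by omega
      exact_mod_cast this
    have hm1 : (j : ℝ) + 1 ≤ (m : ℝ) := by exact_mod_cast hjm
    have hcast : ((m - j : ℕ) : ℝ) = m - j := by rw [Nat.cast_sub (by omega)]
    set D : ℝ := C * (1 / (j : ℝ)) ^ (M + 2) with hD
    have hD0 : 0 ≤ D := by positivity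
    set y : ℝ := (j : ℝ) / (((m + 1 : ℕ) : ℝ) + j) with hy
    have hy0 : 0 ≤ y := by positivity
    have h3 : |coeff (m - j) (FM j (M + 1))| ≤ D * (2 * y) ^ R := by
      refine h1.trans ?_
      rw [hcast, sub_add_cancel]
      have h31 : (j : ℝ) / m ≤ 2 * y := by
        rw [hy, mul_div_assoc', div_le_div_iff₀ (by linarith) (by positivity)]
        push_cast
        nlinarith
      gcongr
    have h4 : |coeff m (FM j (M + 1))| ≤ D * (2 * y) ^ R := by
      refine h2.trans ?_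
      gcongr
      rw [hy, mul_div_assoc', div_le_div_iff₀ (by positivity) (by positivity)]
      push_cast
      nlinarith
    have hm2 : (0 : ℝ) < (m : ℝ) + 1 := by positivity
    have h5 : ((m : ℝ) + 1) * |coeff (m + 1) (FM j (M + 1 + 1))| ≤ (M + 3) * (D * (2 * y) ^ R) := by
      have h6 : ((m : ℝ) + 1) * |coeff (m + 1) (FM j (M + 1 + 1))| =
          |((m : ℝ) + 1) * coeff (m + 1) (FM j (M + 1 + 1))| := by
        rw [abs_mul, abs_of_pos hm2]
      rw [h6, h]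
      calc |coeff (m - j) (FM j (M + 1)) - (((M + 1 : ℕ) : ℝ) + 1) * coeff m (FM j (M + 1))|
          ≤ |coeff (m - j) (FM j (M + 1))| +
            |(((M + 1 : ℕ) : ℝ) + 1) * coeff m (FM j (M + 1))| := abs_sub _ _
        _ ≤ D * (2 * y) ^ R + (((M + 1 : ℕ) : ℝ) + 1) * (D * (2 * y) ^ R) := by
            rw [abs_mul, abs_of_pos (by positivity : (0 : ℝ) < ((M + 1 : ℕ) : ℝ) + 1)]
            gcongr
        _ = _ := by push_cast; ring
    have h7 : (j : ℝ) * |coeff (m + 1) (FM j (M + 1 + 1))| ≤ (M + 3) * (D * (2 * y) ^ R) := by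
      refine le_trans ?_ h5
      gcongr
      linarith
    calc |coeff (m + 1) (FM j (M + 1 + 1))|
        ≤ (M + 3) * (D * (2 * y) ^ R) / j := by rw [le_div_iff₀ hj']; linarith
      _ = _ := by
        rw [hD, mul_pow, pow_succ (1 / (j : ℝ)) (M + 2)]
        ring

end Pool.Agent.Lib.MP_493311_pr
end

section

open Finset PowerSeries Filter
open scoped Topology

namespace Pool.Agent.Lib.MP_493311_pr

lemma coeff_poly_zero (e K n : ℕ) (p : Polynomial ℝ) (hn : e + K + p.natDegree < n) :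
    coeff n ((1 - X : ℝ⟦X⟧) ^ e * (X ^ K * (p : ℝ⟦X⟧))) = 0 := by
  have h1 : ((1 - X : ℝ⟦X⟧) ^ e * (X ^ K * (p : ℝ⟦X⟧))) =
      (((1 - Polynomial.X : Polynomial ℝ) ^ e * (Polynomial.X ^ K * p) : Polynomial ℝ) :
        ℝ⟦X⟧) := by
    simp
  rw [h1, Polynomial.coeff_coe]
  apply Polynomial.coeff_eq_zero_of_natDegree_lt
  refine lt_of_le_of_lt ?_ hn
  refine Polynomial.natDegree_mul_le.trans ?_
  have h2 : ((1 - Polynomial.X : Polynomial ℝ) ^ e).natDegree ≤ e := by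
    refine Polynomial.natDegree_pow_le.trans ?_
    have : (1 - Polynomial.X : Polynomial ℝ).natDegree ≤ 1 := by
      refine (Polynomial.natDegree_sub_le _ _).trans ?_
      simp
    nlinarith
  have h3 : (Polynomial.X ^ K * p : Polynomial ℝ).natDegree ≤ K + p.natDegree := by
    refine Polynomial.natDegree_mul_le.trans ?_
    simp
  omega

lemma SS_degree (M : ℕ) : ∃ D : ℕ, ∀ j n : ℕ, M * j + D < n → coeff n (SS j M) = 0 := by
  set D : ℕ := M + ∑ a ∈ range (M + 2), ∑ b ∈ range (M + 1), (theta a b).natDegree with hD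
  refine ⟨D, ?_⟩
  intro j n hn
  unfold SS
  rw [map_sum]
  apply sum_eq_zero
  intro a ha
  rw [map_sum]
  apply sum_eq_zero
  intro b hb
  rw [coeff_C_mul]
  rcases Nat.lt_or_ge M a with h | h
  · have hb' := mem_range.mp hb
    rw [theta_eq_zero (by omega)]
    simp
  · rw [coeff_poly_zero, mul_zero]
    have h1 : (theta a b).natDegree ≤
        ∑ a ∈ range (M + 2), ∑ b ∈ range (M + 1), (theta a b).natDegree := by
      calc (theta a b).natDegree ≤ ∑ b ∈ range (M + 1), (theta a b).natDegree :=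
            single_le_sum (f := fun b => (theta a b).natDegree) (fun _ _ => Nat.zero_le _) hb
        _ ≤ _ := single_le_sum (f := fun a => ∑ b ∈ range (M + 1), (theta a b).natDegree)
            (fun _ _ => Nat.zero_le _) ha
    have h2 : a * j ≤ M * j := Nat.mul_le_mul_right _ h
    omega

/-- Expansion of `(1-X)^M Q_j`, all coefficients. -/
theorem lemX (M R : ℕ) : ∃ C : ℝ, 0 ≤ C ∧ ∀ j : ℕ, 0 < j → ∀ n : ℕ,
    |coeff n (RR j (M + 1))| ≤ C * (1 / (j : ℝ)) ^ (M + 2) * ((j : ℝ) / (n + j)) ^ R := by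
  obtain ⟨D, hD⟩ := SS_degree (M + 1)
  set K : ℕ := (M + 1) + D + (M + 1) + 1 with hK
  obtain ⟨C1, hC1, h1⟩ := near_bound (M + 1) K
  obtain ⟨C2, hC2, h2⟩ := far_bound M R
  refine ⟨C1 * (K + 1) ^ R + C2, by positivity, ?_⟩
  intro j hj n
  have hj' : (0 : ℝ) < j := by exact_mod_cast hj
  rcases le_or_gt n (K * j) with h | h
  · refine (h1 j hj n h).trans ?_
    have h3 : 1 ≤ ((K : ℝ) + 1) * ((j : ℝ) / (n + j)) := by
      rw [mul_div_assoc', le_div_iff₀ (by positivity), one_mul]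
      have : (n : ℝ) ≤ K * j := by exact_mod_cast h
      linarith
    have h4 : 1 ≤ ((K : ℝ) + 1) ^ R * ((j : ℝ) / (n + j)) ^ R := by
      rw [← mul_pow]; exact one_le_pow₀ h3
    have h5 : 0 ≤ C1 * (1 / (j : ℝ)) ^ (M + 2) := by positivity
    have h6 : 0 ≤ C2 * (1 / (j : ℝ)) ^ (M + 2) * ((j : ℝ) / (n + j)) ^ R := by positivity
    calc C1 * (1 / (j : ℝ)) ^ (M + 1 + 1) = C1 * (1 / (j : ℝ)) ^ (M + 2) * 1 := by ring
      _ ≤ C1 * (1 / (j : ℝ)) ^ (M + 2) * (((K : ℝ) + 1) ^ R * ((j : ℝ) / (n + j)) ^ R) := by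
        gcongr
      _ ≤ C1 * (1 / (j : ℝ)) ^ (M + 2) * (((K : ℝ) + 1) ^ R * ((j : ℝ) / (n + j)) ^ R) +
          C2 * (1 / (j : ℝ)) ^ (M + 2) * ((j : ℝ) / (n + j)) ^ R := by linarith
      _ = _ := by ring
  · have h3 : coeff n (RR j (M + 1)) = coeff n (FM j (M + 1)) := by
      unfold RR
      rw [map_sub, hD j n, sub_zero]
      have h5 : K * j = (M + 1) * j + D * j + (M + 1) * j + j := by rw [hK]; ring
      have h6 : D ≤ D * j := Nat.le_mul_of_pos_right _ hj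
      have h7 : 0 ≤ (M + 1) * j := Nat.zero_le _
      omega
    rw [h3]
    have h4 : (M + 1) * (j + 1) + 1 ≤ n := by
      have h5 : K * j = (M + 1) * j + D * j + (M + 1) * j + j := by rw [hK]; ring
      have h6 : (M + 1) * (j + 1) = (M + 1) * j + (M + 1) := by ring
      have h7 : M + 1 ≤ (M + 1) * j := Nat.le_mul_of_pos_right _ hj
      omega
    refine (h2 j hj n h4).trans ?_
    gcongr
    have : 0 ≤ C1 * ((K : ℝ) + 1) ^ R := by positivity
    linarith

end Pool.Agent.Lib.MP_493311_pr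
end

section

open Finset PowerSeries Filter
open scoped Topology

namespace Pool.Agent.Lib.MP_493311_pr

lemma tail_sum_aux {B : ℝ} (hB : 0 ≤ B) {a : ℕ → ℝ} {l n : ℕ}
    (ha : ∀ j : ℕ, |a j| ≤ B / ((n : ℝ) + j + 1) ^ (l + 2)) (N : ℕ) :
    ∑ j ∈ range N, |a j| ≤ B * 2 ^ (l + 2) *
      (1 / ((n : ℝ) + 1) ^ (l + 1) - 1 / ((n : ℝ) + N + 1) ^ (l + 1)) := by
  induction N with
  | zero => simp
  | succ N ih =>
    rw [sum_range_succ]
    have h1 := telescope_pow (x := (n : ℝ) + N + 1) (by positivity) l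
    have h2 : |a N| ≤ B * 2 ^ (l + 2) * (1 / ((n : ℝ) + N + 1 + 1) ^ (l + 2)) := by
      refine (ha N).trans ?_
      rw [mul_one_div, div_le_div_iff₀ (by positivity) (by positivity), mul_assoc, ← mul_pow]
      have h0 : (0 : ℝ) ≤ n := by positivity
      have h0' : (0 : ℝ) ≤ N := by positivity
      gcongr
      linarith
    have h3 : B * 2 ^ (l + 2) * (1 / ((n : ℝ) + N + 1 + 1) ^ (l + 2)) ≤ B * 2 ^ (l + 2) *
        (1 / ((n : ℝ) + N + 1) ^ (l + 1) - 1 / ((n : ℝ) + N + 1 + 1) ^ (l + 1)) :=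
      mul_le_mul_of_nonneg_left h1 (by positivity)
    have h4 : ((n : ℝ) + (N + 1 : ℕ) + 1) = (n : ℝ) + N + 1 + 1 := by push_cast; ring
    rw [h4]
    calc _ ≤ B * 2 ^ (l + 2) * (1 / ((n : ℝ) + 1) ^ (l + 1) - 1 / ((n : ℝ) + N + 1) ^ (l + 1)) +
          B * 2 ^ (l + 2) *
        (1 / ((n : ℝ) + N + 1) ^ (l + 1) - 1 / ((n : ℝ) + N + 1 + 1) ^ (l + 1)) :=
          add_le_add ih (h2.trans h3)
      _ = _ := by ring

lemma tail_sum {B : ℝ} (hB : 0 ≤ B) {a : ℕ → ℝ} {l n : ℕ}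
    (ha : ∀ j : ℕ, |a j| ≤ B / ((n : ℝ) + j + 1) ^ (l + 2)) :
    Summable a ∧ |∑' j, a j| ≤ B * 2 ^ (l + 2) / ((n : ℝ) + 1) ^ (l + 1) := by
  have h1 : ∀ N, ∑ j ∈ range N, |a j| ≤ B * 2 ^ (l + 2) / ((n : ℝ) + 1) ^ (l + 1) := by
    intro N
    refine (tail_sum_aux hB ha N).trans ?_
    rw [mul_sub, mul_one_div]
    have : 0 ≤ B * 2 ^ (l + 2) * (1 / ((n : ℝ) + N + 1) ^ (l + 1)) := by positivity
    linarith
  have h2 : Summable fun j => |a j| :=
    summable_of_sum_range_le (fun _ => abs_nonneg _) h1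
  refine ⟨h2.of_abs, ?_⟩
  have h3 : |∑' j, a j| ≤ ∑' j, |a j| := by
    have := norm_tsum_le_tsum_norm (f := a) (by simpa using h2)
    simpa using this
  exact h3.trans (Real.tsum_le_of_sum_range_le (fun _ => abs_nonneg _) h1)

/-- the series `∑_j φ(j) X^{mj}` -/
noncomputable def Lam (m : ℕ) (φ : ℕ → ℝ) : ℝ⟦X⟧ := SJ fun j => C (φ j) * X ^ (m * j)

lemma coeff_Lam {m : ℕ} (φ : ℕ → ℝ) (n : ℕ) :
    coeff n (Lam m φ) = ∑ j ∈ Icc 1 n, if n = m * j then φ j else 0 := by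
  unfold Lam
  rw [coeff_SJ]
  refine sum_congr rfl fun j _ => ?_
  rw [coeff_C_mul, coeff_X_pow]
  split_ifs <;> simp

lemma coeff_Lam_mul {m : ℕ} (hm : 1 ≤ m) (φ : ℕ → ℝ) {j : ℕ} (hj : 0 < j) :
    coeff (m * j) (Lam m φ) = φ j := by
  rw [coeff_Lam, sum_eq_single j]
  · rw [if_pos rfl]
  · intro i _ hi
    rw [if_neg]
    intro h
    exact hi (Nat.eq_of_mul_eq_mul_left (by omega) h.symm)
  · intro h
    exfalso
    apply h
    rw [mem_Icc]
    exact ⟨hj, by nlinarith⟩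

lemma coeff_Lam_zero {m : ℕ} (φ : ℕ → ℝ) {n : ℕ} (h : ∀ j, 0 < j → n ≠ m * j) :
    coeff n (Lam m φ) = 0 := by
  rw [coeff_Lam]
  apply sum_eq_zero
  intro j hj
  rw [if_neg (h j (mem_Icc.mp hj).1)]

lemma abs_coeff_Lam_le {m l : ℕ} (hm : 1 ≤ m) {φ : ℕ → ℝ} {B : ℝ} (hB : 0 ≤ B)
    (hφ : ∀ j : ℕ, 0 < j → |φ j| ≤ B / (j : ℝ) ^ l) (n : ℕ) :
    |coeff n (Lam m φ)| ≤ B * (2 * m) ^ l / ((n : ℝ) + 1) ^ l := by
  by_cases h : ∃ j, 0 < j ∧ n = m * j
  · obtain ⟨j, hj, rfl⟩ := h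
    rw [coeff_Lam_mul hm φ hj]
    refine (hφ j hj).trans ?_
    have hj' : (1 : ℝ) ≤ j := by exact_mod_cast hj
    have hm' : (1 : ℝ) ≤ m := by exact_mod_cast hm
    rw [div_le_div_iff₀ (by positivity) (by positivity), mul_assoc, ← mul_pow]
    gcongr
    push_cast
    nlinarith
  · push Not at h
    rw [coeff_Lam_zero φ h, abs_zero]
    positivity

lemma Lam_bigO {m l : ℕ} (hm : 1 ≤ m) {φ : ℕ → ℝ} (hφ : Cl l φ) : BigO l (Lam m φ) := by
  obtain ⟨B, hB0, hB⟩ := hφ.bound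
  exact ⟨B * (2 * m) ^ l, fun n => by
    rw [Real.norm_eq_abs]; exact abs_coeff_Lam_le hm hB0 hB n⟩

lemma Lam_adm {m : ℕ} (hm : 1 ≤ m) (φ : ℕ → ℝ) : Adm fun j => C (φ j) * X ^ (m * j) :=
  (Adm.X_pow hm).mul _

lemma Lam_rec {m : ℕ} (hm : 1 ≤ m) (φ : ℕ → ℝ) :
    (1 - X ^ m) * Lam m φ = C (φ 1) * X ^ m + X ^ m * Lam m (fun j => φ (j + 1) - φ j) := by
  have h1 : Lam m φ = C (φ 1) * X ^ m + X ^ m * Lam m (fun j => φ (j + 1)) := by
    unfold Lam
    rw [SJ_shift (Lam_adm hm φ), mul_SJ _ (Lam_adm hm _), mul_one]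
    congr 1
    apply SJ_congr
    intro j _
    rw [mul_add, mul_one, pow_add]; ring
  have h2 : Lam m (fun j => φ (j + 1) - φ j) = Lam m (fun j => φ (j + 1)) - Lam m φ := by
    unfold Lam
    rw [← SJ_sub]
    apply SJ_congr
    intro j _
    rw [map_sub]; ring
  rw [h2]
  linear_combination h1

/-- geometric polynomial -/
noncomputable def Pk (k : ℕ) : Polynomial ℝ := ∑ i ∈ range k, Polynomial.X ^ i

lemma Pk_eval (k : ℕ) : (Pk k).eval 1 = k := by
  unfold Pk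
  rw [Polynomial.eval_finsetSum]
  simp

lemma Pk_mul (k : ℕ) : (Pk k : ℝ⟦X⟧) * (1 - X) = 1 - X ^ k := by
  have h : Pk k * (1 - Polynomial.X) = 1 - Polynomial.X ^ k := by
    unfold Pk
    have := geom_sum_mul_neg (Polynomial.X : Polynomial ℝ) k
    exact this
  have h2 := congrArg (fun p : Polynomial ℝ => (p : ℝ⟦X⟧)) h
  simpa using h2

lemma Lam_sym_aux {m : ℕ} (hm : 1 ≤ m) (i : ℕ) : ∀ {l : ℕ} {φ : ℕ → ℝ}, Cl l φ →
    Neg (l + i) ((1 - X) ^ i * Lam m φ) := by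
  induction i with
  | zero =>
    intro l φ hφ
    simpa using (Lam_bigO hm hφ).toNeg
  | succ i ih =>
    intro l φ hφ
    have h1 : (Pk m : ℝ⟦X⟧) * ((1 - X) ^ (i + 1) * Lam m φ) =
        ((Polynomial.C (φ 1) * ((1 - Polynomial.X) ^ i * Polynomial.X ^ m) : Polynomial ℝ) : ℝ⟦X⟧) +
        ((Polynomial.X ^ m : Polynomial ℝ) : ℝ⟦X⟧) *
          ((1 - X) ^ i * Lam m (fun j => φ (j + 1) - φ j)) := by
      have h2 := Lam_rec hm φ
      rw [← Pk_mul] at h2
      push_cast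
      rw [pow_succ]
      linear_combination (1 - X) ^ i * h2
    apply Neg.of_poly_mul (P := Pk m)
    · rw [Pk_eval]; positivity
    · rw [h1]
      apply Neg.add (Neg.poly _ _)
      apply Neg.poly_mul
      have := ih hφ.diff
      rwa [show l + 1 + i = l + (i + 1) by ring] at this

lemma Lam_sym {m l : ℕ} (hm : 1 ≤ m) {φ : ℕ → ℝ} (hφ : Cl l φ) : Sym l (Lam m φ) :=
  fun i => Lam_sym_aux hm i hφ

/-- `κ` -/
noncomputable def kap (g : ℕ → ℝ) : ℝ := ∑' j : ℕ, g (j + 1) * h (j + 1)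

/-- bounded version of `dl` -/
lemma abs_dq_le (R : ℕ) {j : ℕ} (hj : 0 < j) (k n : ℕ) :
    |h j - coeff n (X ^ (k * j) * (Q j - 1))| ≤
      (KR R + 2 ^ (R + 1)) / j * ((k + 1) * (j : ℝ) / (n + j)) ^ (R + 1) := by
  have hj' : (0 : ℝ) < j := by exact_mod_cast hj
  have h0 : h j - coeff n (X ^ (k * j) * (Q j - 1)) =
      dl j (k * j) n + (if n = k * j then 1 else 0) := by
    unfold dl
    rw [mul_sub, mul_one, map_sub, coeff_X_pow]
    ring
  rw [h0]
  by_cases hn : n = k * j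
  · rw [if_pos hn]
    unfold dl
    rw [hn, coeff_X_pow_mul', if_pos le_rfl, Nat.sub_self, coeff_Q, q_zero]
    rw [sub_add_cancel, abs_of_pos (h_pos j)]
    have h1 : (k + 1) * (j : ℝ) / (((k * j : ℕ) : ℝ) + j) = 1 := by
      rw [div_eq_one_iff_eq (by positivity)]
      push_cast; ring
    rw [h1, one_pow, mul_one]
    refine (h_le' hj).trans ?_
    have h2 : (1 : ℝ) ≤ 2 ^ (R + 1) := one_le_pow₀ (by norm_num)
    have h3 := KR_pos R
    gcongr
    linarith
  · rw [if_neg hn, add_zero]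
    have := abs_dl_le R hj k n
    rwa [if_neg hn, add_zero] at this

lemma kap_summable {φ : ℕ → ℝ} {B : ℝ} {l : ℕ} (hB : 0 ≤ B)
    (hφ : ∀ j : ℕ, 0 < j → |φ j| ≤ B / (j : ℝ) ^ (l + 1)) :
    Summable fun j : ℕ => φ (j + 1) * h (j + 1) := by
  refine (tail_sum (l := l) (n := 0) hB fun j => ?_).1
  rw [abs_mul, abs_of_pos (h_pos _)]
  have h1 := hφ (j + 1) (Nat.succ_pos j)
  have h2 := h_le' (Nat.succ_pos j)
  calc |φ (j + 1)| * h (j + 1) ≤ B / ((j + 1 : ℕ) : ℝ) ^ (l + 1) * (1 / ((j + 1 : ℕ) : ℝ)) :=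
        mul_le_mul h1 h2 (h_pos _).le (by positivity)
    _ = _ := by push_cast; rw [pow_succ _ (l + 1)]; field_simp; ring

/-- crude estimate, uniform in `K` -/
lemma crude_W (L : ℕ) : ∃ A : ℝ, 0 ≤ A ∧ ∀ K : ℕ, 1 ≤ K → ∀ φ : ℕ → ℝ, ∀ B : ℝ, 0 ≤ B →
    (∀ j : ℕ, 0 < j → |φ j| ≤ B / (j : ℝ) ^ (L + 1)) → ∀ n : ℕ,
    |coeff n (W K φ) - kap φ| ≤ A * B * ((K : ℝ) + 1) ^ (L + 2) / ((n : ℝ) + 1) ^ (L + 1) := by
  set A0 : ℝ := KR (L + 1) + 2 ^ (L + 2) with hA0
  have hA0' : 0 ≤ A0 := by have := KR_pos (L + 1); positivity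
  refine ⟨A0 * 2 ^ (L + 2) + 2 ^ (L + 1), by positivity, ?_⟩
  intro K hK φ B hB hφ n
  have hK' : (1 : ℝ) ≤ K := by exact_mod_cast hK
  have h1 : W K φ = Lam K φ + SJ fun j => C (φ j) * (X ^ (K * j) * (Q j - 1)) := by
    unfold W Lam
    rw [← SJ_add]
    apply SJ_congr
    intro j _
    ring
  set b : ℕ → ℝ := fun j => φ (j + 1) * coeff n (X ^ (K * (j + 1)) * (Q (j + 1) - 1)) with hb
  have hb0 : ∀ j ∉ range n, b j = 0 := by
    intro j hj
    rw [hb]
    simp only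
    rw [coeff_X_pow_mul', if_neg, mul_zero]
    rw [mem_range, not_lt] at hj
    have : 1 * (j + 1) ≤ K * (j + 1) := Nat.mul_le_mul_right _ hK
    omega
  have h2 : coeff n (SJ fun j => C (φ j) * (X ^ (K * j) * (Q j - 1))) = ∑' j, b j := by
    rw [tsum_eq_sum hb0, coeff_SJ]
    rw [range_eq_Ico]
    have h3 : Icc 1 n = Ico (0 + 1) (n + 1) := by
      ext x; simp only [mem_Icc, mem_Ico]; omega
    rw [h3, ← sum_Ico_add' _ 0 n 1]
    refine sum_congr rfl fun j _ => ?_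
    rw [coeff_C_mul]
  have hsb : Summable b := summable_of_ne_finset_zero hb0
  have hsk := kap_summable hB hφ
  have h3 : coeff n (W K φ) - kap φ = coeff n (Lam K φ) - ∑' j, (φ (j + 1) * h (j + 1) - b j) := by
    rw [h1, map_add, h2, hsk.tsum_sub hsb]
    unfold kap
    ring
  have h4 : |∑' j, (φ (j + 1) * h (j + 1) - b j)| ≤
      (B * A0 * ((K : ℝ) + 1) ^ (L + 2)) * 2 ^ (L + 2) / ((n : ℝ) + 1) ^ (L + 1) := by
    refine (tail_sum (by positivity) fun j => ?_).2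
    have h5 : φ (j + 1) * h (j + 1) - b j = φ (j + 1) * (h (j + 1) -
        coeff n (X ^ (K * (j + 1)) * (Q (j + 1) - 1))) := by rw [hb]; ring
    rw [h5, abs_mul]
    have h6 := abs_dq_le (L + 1) (Nat.succ_pos j) K n
    have h7 := hφ (j + 1) (Nat.succ_pos j)
    calc _ ≤ B / ((j + 1 : ℕ) : ℝ) ^ (L + 1) * (A0 / ((j + 1 : ℕ) : ℝ) *
          ((K + 1) * ((j + 1 : ℕ) : ℝ) / (n + ((j + 1 : ℕ) : ℝ))) ^ (L + 1 + 1)) :=
          mul_le_mul h7 h6 (abs_nonneg _) (by positivity)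
      _ = _ := by
        push_cast
        rw [div_pow, mul_pow, ← add_assoc]
        field_simp
        ring
  have h5 := abs_coeff_Lam_le hK hB hφ n
  have h6 : B * (2 * (K : ℝ)) ^ (L + 1) ≤ B * (2 ^ (L + 1) * ((K : ℝ) + 1) ^ (L + 2)) := by
    rw [mul_pow]
    have : (K : ℝ) ^ (L + 1) ≤ ((K : ℝ) + 1) ^ (L + 2) := by
      calc (K : ℝ) ^ (L + 1) ≤ ((K : ℝ) + 1) ^ (L + 1) := by gcongr; linarith
        _ ≤ ((K : ℝ) + 1) ^ (L + 2) := by
          apply pow_le_pow_right₀ (by linarith); omega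
    gcongr
  rw [h3]
  calc _ ≤ |coeff n (Lam K φ)| + |∑' j, (φ (j + 1) * h (j + 1) - b j)| := abs_sub _ _
    _ ≤ B * (2 ^ (L + 1) * ((K : ℝ) + 1) ^ (L + 2)) / ((n : ℝ) + 1) ^ (L + 1) +
        (B * A0 * ((K : ℝ) + 1) ^ (L + 2)) * 2 ^ (L + 2) / ((n : ℝ) + 1) ^ (L + 1) := by
        refine add_le_add (h5.trans ?_) h4
        gcongr
    _ = _ := by ring

lemma W_crude {l k : ℕ} (hl : 1 ≤ l) (hk : 1 ≤ k) {g : ℕ → ℝ} (hg : Cl l g) :
    BigO l (W k g - C (kap g) * GG) := by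
  obtain ⟨L, rfl⟩ := Nat.exists_eq_add_of_le' hl
  obtain ⟨A, hA, h1⟩ := crude_W L
  obtain ⟨B, hB0, hB⟩ := hg.bound
  refine ⟨A * B * ((k : ℝ) + 1) ^ (L + 2), fun n => ?_⟩
  rw [map_sub, coeff_C_mul, coeff_GG, mul_one, Real.norm_eq_abs]
  exact h1 k hk g B hB0 hB n

end Pool.Agent.Lib.MP_493311_pr
end
end
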