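import Mathlib
import Pool.Agent.Lib.MP_493311_pr.Crude

section

open Finset Filter
open scoped Topology

namespace Pool.Agent.Lib.MP_493311_pr

lemma App.toZero {l N : ℕ} {f : ℕ → ℝ} (hf : App l N f) : App l 0 f := by
  induction N with
  | zero => exact hf
  | succ N ih => exact ih hf.down

/-- only the size matters at high order -/
lemma App.of_bound {l N : ℕ} {f : ℕ → ℝ} {C : ℝ}
    (h : ∀ j : ℕ, 0 < j → |f j| ≤ C / (j : ℝ) ^ (l + N)) : App l N f := by
  induction N generalizing l with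
  | zero => exact ⟨C, h⟩
  | succ N ih =>
    apply App.up
    apply ih
    intro j hj
    rw [show l + 1 + N = l + (N + 1) by ring]
    exact h j hj

lemma App.of_sum {l N : ℕ} {f : ℕ → ℝ} (c : ℕ → ℝ) {C : ℝ}
    (h : ∀ j : ℕ, 0 < j → |f j - ∑ m ∈ range N, c m / (j : ℝ) ^ (l + m)| ≤
      C / (j : ℝ) ^ (l + N)) : App l N f := by
  have h1 : App l N (fun j => f j - ∑ m ∈ range N, c m / (j : ℝ) ^ (l + m)) :=
    App.of_bound (C := C) h
  have h2 : ∀ M, App l N (fun j => ∑ m ∈ range M, c m / (j : ℝ) ^ (l + m)) := by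
    intro M
    induction M with
    | zero => simpa using App.zero l N
    | succ M ih =>
      have h3 : App l N (fun j => c M * (1 / (j : ℝ) ^ (l + M))) :=
        ((App.pow_inv (l + M) N).const_mul (c M)).weaken' (Nat.le_add_right _ _)
      refine (ih.add h3).congr fun j _ => ?_
      rw [sum_range_succ]
      ring
  refine (h1.add (h2 N)).congr fun j _ => ?_
  ring

/-- tail sums -/
noncomputable def tl (f : ℕ → ℝ) (j : ℕ) : ℝ := ∑' i : ℕ, f (j + 1 + i)

lemma tl_summable {l : ℕ} {f : ℕ → ℝ} (hf : App (l + 2) 0 f) (j : ℕ) :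
    Summable fun i : ℕ => f (j + 1 + i) := by
  obtain ⟨C, hC0, hC⟩ := hf.bound
  refine (tail_sum (l := l) (n := j) hC0 fun i => ?_).1
  have := hC (j + 1 + i) (by omega)
  push_cast at this
  rwa [show (j : ℝ) + 1 + i = j + i + 1 by ring] at this

lemma tl_add {l l' : ℕ} {f g : ℕ → ℝ} (hf : App (l + 2) 0 f) (hg : App (l' + 2) 0 g) (j : ℕ) :
    tl (fun j => f j + g j) j = tl f j + tl g j :=
  (tl_summable hf j).tsum_add (tl_summable hg j)

lemma tl_const_mul (c : ℝ) (f : ℕ → ℝ) (j : ℕ) : tl (fun j => c * f j) j = c * tl f j :=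
  tsum_mul_left

lemma tl_telescope {u : ℕ → ℝ} (hu : Tendsto u atTop (𝓝 0)) (j : ℕ)
    (hs : Summable fun i : ℕ => u (j + 1 + i) - u (j + 1 + i + 1)) :
    tl (fun i => u i - u (i + 1)) j = u (j + 1) := by
  have h1 := hs.hasSum.tendsto_sum_nat
  have h2 : ∀ n : ℕ, ∑ i ∈ range n, (u (j + 1 + i) - u (j + 1 + i + 1)) =
      u (j + 1) - u (j + 1 + n) := by
    intro n
    induction n with
    | zero => simp
    | succ n ih => rw [sum_range_succ, ih, ← add_assoc]; ring
  simp only [h2] at h1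
  have h3 : Tendsto (fun n : ℕ => u (j + 1) - u (j + 1 + n)) atTop (𝓝 (u (j + 1) - 0)) := by
    apply Tendsto.const_sub
    have := hu.comp (tendsto_add_atTop_nat (j + 1))
    refine this.congr fun i => ?_
    simp only [Function.comp_apply]
    rw [add_comm i (j + 1)]
  rw [sub_zero] at h3
  exact tendsto_nhds_unique h1 h3

lemma tendsto_of_App {l : ℕ} {f : ℕ → ℝ} (hf : App (l + 1) 0 f) : Tendsto f atTop (𝓝 0) := by
  obtain ⟨C, hC0, hC⟩ := hf.bound
  apply squeeze_zero_norm' (a := fun j : ℕ => C / (j : ℝ))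
  · filter_upwards [eventually_gt_atTop 0] with j hj
    rw [Real.norm_eq_abs]
    refine (hC j hj).trans ?_
    have hj' : (1 : ℝ) ≤ j := by exact_mod_cast hj
    apply div_le_div_of_nonneg_left hC0 (by positivity)
    calc (j : ℝ) = (j : ℝ) ^ 1 := (pow_one _).symm
      _ ≤ (j : ℝ) ^ (l + 1) := pow_le_pow_right₀ hj' (by omega)
  · exact tendsto_const_div_atTop_nhds_zero_nat C

lemma App.tail {l N : ℕ} {f : ℕ → ℝ} (hf : App (l + 2) N f) : App (l + 1) N (tl f) := by
  induction N generalizing l f with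
  | zero =>
    obtain ⟨C, hC0, hC⟩ := hf.bound
    refine ⟨C * 2 ^ (l + 2), fun j hj => ?_⟩
    have h1 := (tail_sum (a := fun i => f (j + 1 + i)) (l := l) (n := j) hC0 fun i => ?_).2
    · refine h1.trans ?_
      have hj' : (0 : ℝ) < j := by exact_mod_cast hj
      gcongr
      linarith
    · have := hC (j + 1 + i) (by omega)
      push_cast at this
      rwa [show (j : ℝ) + 1 + i = j + i + 1 by ring] at this
  | succ N ih =>
    obtain ⟨c, hc⟩ := hf
    -- the model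
    have hd : App (l + 3) N (fun j => 1 / ((j : ℝ) + 1) ^ (l + 1) - 1 / (j : ℝ) ^ (l + 1) +
        ((l + 1 : ℕ) : ℝ) / (j : ℝ) ^ (l + 1 + 1)) := App.diff2_pow (l + 1) N
    set d : ℕ → ℝ := fun j => 1 / ((j : ℝ) + 1) ^ (l + 1) - 1 / (j : ℝ) ^ (l + 1) +
        ((l + 1 : ℕ) : ℝ) / (j : ℝ) ^ (l + 1 + 1) with hd'
    set u : ℕ → ℝ := fun j => 1 / (j : ℝ) ^ (l + 1) with hu
    have hu1 : App (l + 1) 0 u := App.pow_inv (l + 1) 0
    have hdiff : App (l + 2) 0 (fun i => u i - u (i + 1)) := by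
      have h1 := (App.diff_pow (l + 1) 0).const_mul (-1)
      refine h1.congr fun j _ => ?_
      rw [hu]
      push_cast
      ring
    have hmodel : ∀ j : ℕ, ((l : ℝ) + 1) * tl (fun j => 1 / (j : ℝ) ^ (l + 2)) j =
        1 / ((j : ℝ) + 1) ^ (l + 1) + tl d j := by
      intro j
      have h1 := tl_telescope (tendsto_of_App hu1) j (tl_summable hdiff j)
      have h2 : (fun i => u i - u (i + 1)) =
          fun i : ℕ => ((l : ℝ) + 1) * (1 / (i : ℝ) ^ (l + 2)) + (-1) * d i := by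
        funext i
        rw [hu, hd']
        push_cast
        ring
      rw [h2, tl_add (l := l) (l' := l + 1) ((App.pow_inv (l + 2) 0).const_mul _)
        (hd.toZero.const_mul _), tl_const_mul, tl_const_mul] at h1
      rw [hu] at h1
      push_cast at h1
      linarith
    refine ⟨c / (l + 1), ?_⟩
    have h1 : App (l + 2) N (tl d) := ih hd
    have h2 : App (l + 2) N (tl (fun j => f j - c / (j : ℝ) ^ (l + 2))) := ih hc
    have h3 := App.diff_pow (l + 1) N
    refine ((h1.const_mul (c / (l + 1))).add (h2.add (h3.const_mul (c / (l + 1))))).congr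
      fun j hj => ?_
    have h4 : tl f j = tl (fun j => f j - c / (j : ℝ) ^ (l + 2)) j +
        c * tl (fun j => 1 / (j : ℝ) ^ (l + 2)) j := by
      rw [← tl_const_mul, ← tl_add (l := l + 1) (l' := l) hc.toZero
        ((App.pow_inv (l + 2) 0).const_mul _)]
      congr 1
      funext i
      ring
    have h5 := hmodel j
    have h6 : (l : ℝ) + 1 ≠ 0 := by positivity
    have h7 : tl (fun j => 1 / (j : ℝ) ^ (l + 2)) j =
        (1 / ((j : ℝ) + 1) ^ (l + 1) + tl d j) / (l + 1) := by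
      rw [← h5]; field_simp
    rw [h4, h7]
    ring

lemma Cl.tail {l : ℕ} {f : ℕ → ℝ} (hf : Cl (l + 2) f) : Cl (l + 1) (tl f) :=
  fun N => (hf N).tail

lemma Cl.pow {f : ℕ → ℝ} (hf : Cl 1 f) (m : ℕ) : Cl m (fun j => f j ^ m) := by
  induction m with
  | zero => simpa using Cl.one
  | succ m ih =>
    refine (ih.mul hf).congr fun j _ => ?_
    rw [pow_succ]

lemma Cl.zero (l : ℕ) : Cl l (fun _ => 0) := fun N => App.zero l N

lemma Cl.sum {ι : Type*} (s : Finset ι) {l : ℕ} {f : ι → ℕ → ℝ} (hf : ∀ i ∈ s, Cl l (f i)) :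
    Cl l (fun j => ∑ i ∈ s, f i j) := by
  classical
  induction s using Finset.induction_on with
  | empty => simpa using Cl.zero l
  | insert a s ha ih =>
    refine ((hf a (mem_insert_self _ _)).add (ih fun i hi =>
      hf i (mem_insert_of_mem hi))).congr fun j _ => ?_
    rw [sum_insert ha]

lemma exp_taylor_bound (x : ℝ) (n : ℕ) :
    |Real.exp x - ∑ m ∈ range n, x ^ m / m.factorial| ≤ |x| ^ n * Real.exp |x| := by
  have h1 := Complex.norm_exp_sub_sum_le_norm_mul_exp (x : ℂ) n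
  rw [Complex.norm_real, Real.norm_eq_abs] at h1
  have h2 : (Complex.exp (x : ℂ) - ∑ m ∈ range n, (x : ℂ) ^ m / m.factorial) =
      ((Real.exp x - ∑ m ∈ range n, x ^ m / m.factorial : ℝ) : ℂ) := by
    push_cast
    rfl
  rw [h2, Complex.norm_real, Real.norm_eq_abs] at h1
  exact h1

lemma Cl.exp {f : ℕ → ℝ} (hf : Cl 1 f) : Cl 0 (fun j => Real.exp (f j)) := by
  intro N
  obtain ⟨C, hC0, hC⟩ := hf.bound
  have h1 : App 0 N (fun j => Real.exp (f j) - ∑ m ∈ range N, f j ^ m / m.factorial) := by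
    apply App.of_bound (C := C ^ N * Real.exp C)
    intro j hj
    have hj' : (1 : ℝ) ≤ j := by exact_mod_cast hj
    have h2 := hC j hj
    rw [pow_one] at h2
    refine (exp_taylor_bound _ _).trans ?_
    rw [zero_add]
    have h3 : |f j| ≤ C := h2.trans (div_le_self hC0 hj')
    calc |f j| ^ N * Real.exp |f j| ≤ (C / j) ^ N * Real.exp C := by gcongr
      _ = _ := by rw [_root_.div_pow]; ring
  have h2 : Cl 0 (fun j => ∑ m ∈ range N, f j ^ m / m.factorial) := by
    apply Cl.sum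
    intro m _
    refine (((Cl.pow hf m).weaken' (Nat.zero_le m)).const_mul (1 / m.factorial)).congr
      fun j _ => ?_
    ring
  refine (h1.add (h2 N)).congr fun j _ => ?_
  ring

/-- `-1/i - log(1 - 1/i)` -/
noncomputable def phiL (i : ℕ) : ℝ := -(1 / (i : ℝ)) - Real.log (1 - 1 / (i : ℝ))

lemma phiL_Cl : Cl 2 phiL := by
  intro N
  have key : ∀ j : ℕ, 2 ≤ j → |phiL j - ∑ m ∈ range N, (1 / ((m : ℝ) + 2)) / (j : ℝ) ^ (2 + m)| ≤
      2 / (j : ℝ) ^ (2 + N) := by
    intro j hj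
    have hj' : (2 : ℝ) ≤ j := by exact_mod_cast hj
    have hj0 : (0 : ℝ) < j := by linarith
    have h1 : |1 / (j : ℝ)| < 1 := by
      rw [abs_of_pos (by positivity), div_lt_one hj0]; linarith
    have h2 := Real.abs_log_sub_add_sum_range_le h1 (N + 1)
    rw [sum_range_succ'] at h2
    have h3 : phiL j - ∑ m ∈ range N, (1 / ((m : ℝ) + 2)) / (j : ℝ) ^ (2 + m) =
        -((∑ k ∈ range N, (1 / (j : ℝ)) ^ (k + 1 + 1) / (((k + 1 : ℕ) : ℝ) + 1) +
          (1 / (j : ℝ)) ^ (0 + 1) / (((0 : ℕ) : ℝ) + 1)) + Real.log (1 - 1 / (j : ℝ))) := by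
      have h4 : ∑ k ∈ range N, (1 / (j : ℝ)) ^ (k + 1 + 1) / (((k + 1 : ℕ) : ℝ) + 1) =
          ∑ m ∈ range N, (1 / ((m : ℝ) + 2)) / (j : ℝ) ^ (2 + m) := by
        apply sum_congr rfl
        intro m _
        push_cast
        rw [one_div_pow, show m + 1 + 1 = 2 + m by ring, show (m : ℝ) + 1 + 1 = m + 2 by ring]
        field_simp
      rw [h4]
      unfold phiL
      push_cast
      ring
    rw [h3, abs_neg]
    refine h2.trans ?_
    rw [abs_of_pos (by positivity)]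
    have h5 : (1 : ℝ) / 2 ≤ 1 - 1 / j := by
      have : 1 / (j : ℝ) ≤ 1 / 2 := one_div_le_one_div_of_le (by norm_num) hj'
      linarith
    rw [div_le_iff₀ (by linarith), one_div_pow, show N + 1 + 1 = 2 + N by ring]
    have h6 : 0 < 1 / (j : ℝ) ^ (2 + N) := by positivity
    rw [div_mul_eq_mul_div]
    rw [div_le_div_iff_of_pos_right (by positivity)]
    linarith
  apply App.of_sum (fun m => 1 / ((m : ℝ) + 2)) (C := 2 +
    |phiL 1 - ∑ m ∈ range N, (1 / ((m : ℝ) + 2)) / ((1 : ℕ) : ℝ) ^ (2 + m)|)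
  intro j hj
  rcases Nat.lt_or_ge j 2 with h | h
  · have h1 : j = 1 := by omega
    subst h1
    have : (0 : ℝ) ≤ 2 := by norm_num
    rw [Nat.cast_one, one_pow, div_one]
    linarith
  · refine (key j h).trans ?_
    gcongr
    have := abs_nonneg (phiL 1 - ∑ m ∈ range N, (1 / ((m : ℝ) + 2)) / ((1 : ℕ) : ℝ) ^ (2 + m))
    linarith

/-- `log (j h_j)` -/
lemma log_h_succ {j : ℕ} (hj : 0 < j) : Real.log (((j + 1 : ℕ) : ℝ) * h (j + 1)) -
    Real.log (j * h j) = phiL (j + 1) := by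
  have hj' : (0 : ℝ) < j := by exact_mod_cast hj
  have hj1 : (0 : ℝ) < ((j + 1 : ℕ) : ℝ) := by positivity
  have h1 := h_succ j
  rw [h1, Real.log_mul hj1.ne' (h_pos _).ne', Real.log_mul hj'.ne' (by
    have := h_pos (j + 1); positivity), Real.log_mul (Real.exp_pos _).ne' (h_pos _).ne',
    Real.log_exp]
  unfold phiL
  have h2 : 1 - 1 / ((j + 1 : ℕ) : ℝ) = j / ((j + 1 : ℕ) : ℝ) := by
    push_cast; field_simp; ring
  rw [h2, Real.log_div hj'.ne' hj1.ne']
  ring

lemma tendsto_log_h : Tendsto (fun j : ℕ => Real.log (j * h j)) atTop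
    (𝓝 (-Real.eulerMascheroniConstant)) := by
  have h1 := Real.tendsto_harmonic_sub_log.neg
  refine h1.congr' ?_
  filter_upwards [eventually_gt_atTop 0] with j hj
  have hj' : (0 : ℝ) < j := by exact_mod_cast hj
  rw [Real.log_mul hj'.ne' (h_pos _).ne']
  unfold h
  rw [Real.log_exp, harmonic]
  push_cast
  simp only [one_div]
  ring

lemma log_h_eq {j : ℕ} (hj : 0 < j) : Real.log (j * h j) =
    -Real.eulerMascheroniConstant - tl phiL j := by
  have h1 := (tl_summable (phiL_Cl 0) j).hasSum.tendsto_sum_nat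
  have h2 : ∀ n : ℕ, ∑ i ∈ range n, phiL (j + 1 + i) =
      Real.log (((j + n : ℕ) : ℝ) * h (j + n)) - Real.log (j * h j) := by
    intro n
    induction n with
    | zero => simp
    | succ n ih =>
      rw [sum_range_succ, ih, show j + 1 + n = j + n + 1 by ring, ← log_h_succ (by omega)]
      rw [add_assoc]
      ring
  simp only [h2] at h1
  have h3 : Tendsto (fun n : ℕ => Real.log (((j + n : ℕ) : ℝ) * h (j + n)) -
      Real.log (j * h j)) atTop (𝓝 (-Real.eulerMascheroniConstant - Real.log (j * h j))) := by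
    apply Tendsto.sub_const
    have := tendsto_log_h.comp (tendsto_add_atTop_nat j)
    refine this.congr fun n => ?_
    simp only [Function.comp_apply]
    rw [add_comm n j]
  have h4 := tendsto_nhds_unique h1 h3
  unfold tl
  linarith

lemma h_eq {j : ℕ} (hj : 0 < j) : h j =
    Real.exp (-Real.eulerMascheroniConstant) * (Real.exp (-tl phiL j) * (1 / j)) := by
  have hj' : (0 : ℝ) < j := by exact_mod_cast hj
  have h1 := log_h_eq hj
  have h2 : (j : ℝ) * h j = Real.exp (-Real.eulerMascheroniConstant - tl phiL j) := by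
    rw [← h1, Real.exp_log (mul_pos hj' (h_pos j))]
  have h3 : h j = Real.exp (-Real.eulerMascheroniConstant - tl phiL j) / j := by
    rw [← h2]; field_simp
  rw [h3, sub_eq_add_neg, Real.exp_add]
  ring

/-- `e^{-H_j}` is a classical symbol of order 1 -/
theorem h_Cl : Cl 1 h := by
  have h1 : Cl 1 (fun j => -tl phiL j) := by
    refine (phiL_Cl.tail.const_mul (-1)).congr fun j _ => ?_
    ring
  have h2 := (h1.exp.mul (Cl.pow_inv 1)).const_mul (Real.exp (-Real.eulerMascheroniConstant))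
  refine h2.congr fun j hj => ?_
  rw [h_eq hj, pow_one]

end Pool.Agent.Lib.MP_493311_pr
end

section

open Finset PowerSeries Filter
open scoped Topology

namespace Pool.Agent.Lib.MP_493311_pr

/-- `f = polynomial + c/j + O(j^{-2})` -/
def HasRes (f : ℕ → ℝ) (c : ℝ) : Prop :=
  ∃ P : Polynomial ℝ, ∃ C : ℝ, ∀ j : ℕ, 0 < j → |f j - P.eval (j : ℝ) - c / j| ≤ C / (j : ℝ) ^ 2

lemma HasRes.congr {f g : ℕ → ℝ} {c : ℝ} (hf : HasRes f c) (h : ∀ j, 0 < j → f j = g j) :
    HasRes g c := by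
  obtain ⟨P, C, hC⟩ := hf
  exact ⟨P, C, fun j hj => by rw [← h j hj]; exact hC j hj⟩

lemma HasRes.add {f g : ℕ → ℝ} {c d : ℝ} (hf : HasRes f c) (hg : HasRes g d) :
    HasRes (fun j => f j + g j) (c + d) := by
  obtain ⟨P, C, hC⟩ := hf
  obtain ⟨Q, D, hD⟩ := hg
  refine ⟨P + Q, C + D, fun j hj => ?_⟩
  rw [add_div, Polynomial.eval_add, add_div C D]
  refine le_trans ?_ (add_le_add (hC j hj) (hD j hj))
  refine le_trans (le_of_eq ?_) (abs_add_le _ _)
  ring_nf

lemma HasRes.const_mul {f : ℕ → ℝ} {c : ℝ} (hf : HasRes f c) (a : ℝ) :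
    HasRes (fun j => a * f j) (a * c) := by
  obtain ⟨P, C, hC⟩ := hf
  refine ⟨Polynomial.C a * P, |a| * C, fun j hj => ?_⟩
  rw [Polynomial.eval_mul, Polynomial.eval_C]
  have h1 : a * f j - a * P.eval (j : ℝ) - a * c / j = a * (f j - P.eval (j : ℝ) - c / j) := by
    ring
  rw [h1, abs_mul, mul_div_assoc]
  exact mul_le_mul_of_nonneg_left (hC j hj) (abs_nonneg _)

lemma HasRes.small {f : ℕ → ℝ} {C : ℝ} (h : ∀ j : ℕ, 0 < j → |f j| ≤ C / (j : ℝ) ^ 2) :
    HasRes f 0 := ⟨0, C, fun j hj => by simpa using h j hj⟩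

lemma HasRes.poly (P : Polynomial ℝ) : HasRes (fun j => P.eval (j : ℝ)) 0 :=
  ⟨P, 0, fun j _ => by simp⟩

lemma HasRes.shift {f : ℕ → ℝ} {c : ℝ} (hf : HasRes f c) : HasRes (fun j => f (j + 1)) c := by
  obtain ⟨P, C, hC⟩ := hf
  have hC0 : 0 ≤ C := by
    have := (abs_nonneg _).trans (hC 1 one_pos)
    simpa using this
  refine ⟨P.comp (Polynomial.X + 1), C + |c|, fun j hj => ?_⟩
  have hj' : (0 : ℝ) < j := by exact_mod_cast hj
  have h1 := hC (j + 1) (Nat.succ_pos j)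
  have h2 : (P.comp (Polynomial.X + 1)).eval (j : ℝ) = P.eval ((j + 1 : ℕ) : ℝ) := by
    rw [Polynomial.eval_comp]; simp
  have h3 : C / ((j + 1 : ℕ) : ℝ) ^ 2 ≤ C / (j : ℝ) ^ 2 := by
    gcongr
    linarith
  have h4 : |c / ((j + 1 : ℕ) : ℝ) - c / j| ≤ |c| / (j : ℝ) ^ 2 := by
    have : c / ((j + 1 : ℕ) : ℝ) - c / j = -(c / (j * (j + 1))) := by
      push_cast; field_simp; ring
    rw [this, abs_neg, abs_div, abs_of_pos (by positivity : (0 : ℝ) < (j : ℝ) * (j + 1))]
    apply div_le_div_of_nonneg_left (abs_nonneg _) (by positivity)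
    nlinarith
  rw [h2, add_div]
  calc |f (j + 1) - P.eval ((j + 1 : ℕ) : ℝ) - c / j|
      = |(f (j + 1) - P.eval ((j + 1 : ℕ) : ℝ) - c / ((j + 1 : ℕ) : ℝ)) +
          (c / ((j + 1 : ℕ) : ℝ) - c / j)| := by ring_nf
    _ ≤ _ := abs_add_le _ _
    _ ≤ _ := add_le_add (h1.trans h3) h4

lemma poly_eq_zero_of_small {E : Polynomial ℝ} {C : ℝ}
    (h : ∀ j : ℕ, 0 < j → |E.eval (j : ℝ)| ≤ C / j) : E = 0 := by
  have ht : Tendsto (fun j : ℕ => |E.eval (j : ℝ)|) atTop (𝓝 0) := by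
    apply squeeze_zero' (Eventually.of_forall fun _ => abs_nonneg _) _
      (tendsto_const_div_atTop_nhds_zero_nat C)
    filter_upwards [eventually_gt_atTop 0] with j hj using h j hj
  rcases lt_or_ge 0 E.degree with hd | hd
  · exfalso
    have h1 := (Polynomial.abs_tendsto_atTop E hd).comp tendsto_natCast_atTop_atTop
    exact not_tendsto_nhds_of_tendsto_atTop h1 0 ht
  · rw [Polynomial.eq_C_of_degree_le_zero hd] at ht ⊢
    simp only [Polynomial.eval_C] at ht
    have := tendsto_nhds_unique ht tendsto_const_nhds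
    rw [eq_comm, abs_eq_zero] at this
    rw [this, map_zero]

lemma HasRes.unique {f : ℕ → ℝ} {c d : ℝ} (hc : HasRes f c) (hd : HasRes f d) : c = d := by
  have h1 := hc.add (hd.const_mul (-1))
  obtain ⟨P, C, hC⟩ := h1
  have h2 : Polynomial.X * P + Polynomial.C (c - d) = 0 := by
    apply poly_eq_zero_of_small (C := C)
    intro j hj
    have hj' : (0 : ℝ) < j := by exact_mod_cast hj
    have h3 := hC j hj
    simp only [Polynomial.eval_add, Polynomial.eval_mul, Polynomial.eval_X, Polynomial.eval_C]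
    have h4 : (j : ℝ) * P.eval (j : ℝ) + (c - d) =
        -(j * (f j + -1 * f j - P.eval (j : ℝ) - (c + -1 * d) / j)) := by
      field_simp; ring
    rw [h4, abs_neg, abs_mul, Nat.abs_cast]
    calc (j : ℝ) * _ ≤ j * (C / (j : ℝ) ^ 2) := by gcongr
      _ = _ := by field_simp
  have h3 := congrArg (fun p => Polynomial.coeff p 0) h2
  simp at h3
  linarith

/-- has a residue -/
def HR (f : ℕ → ℝ) : Prop := ∃ c, HasRes f c

open Classical in
/-- the residue at infinity (coefficient of `1/j`) -/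
noncomputable def res (f : ℕ → ℝ) : ℝ := if h : HR f then h.choose else 0

lemma HasRes.eq {f : ℕ → ℝ} {c : ℝ} (hf : HasRes f c) : res f = c := by
  unfold res
  have h : HR f := ⟨c, hf⟩
  rw [dif_pos h]
  exact h.choose_spec.unique hf

lemma HR.hasRes {f : ℕ → ℝ} (hf : HR f) : HasRes f (res f) := by
  obtain ⟨c, hc⟩ := hf
  rwa [hc.eq]

lemma HR.add {f g : ℕ → ℝ} (hf : HR f) (hg : HR g) : HR (fun j => f j + g j) :=
  ⟨_, hf.hasRes.add hg.hasRes⟩

lemma HR.const_mul {f : ℕ → ℝ} (hf : HR f) (a : ℝ) : HR (fun j => a * f j) :=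
  ⟨_, hf.hasRes.const_mul a⟩

lemma HR.congr {f g : ℕ → ℝ} (hf : HR f) (h : ∀ j, 0 < j → f j = g j) : HR g :=
  ⟨_, hf.hasRes.congr h⟩

lemma HR.sub {f g : ℕ → ℝ} (hf : HR f) (hg : HR g) : HR (fun j => f j - g j) :=
  (hf.add (hg.const_mul (-1))).congr fun j _ => by ring

lemma HR.zero : HR (fun _ => 0) := ⟨0, by simpa using HasRes.poly 0⟩

lemma HR.sum {ι : Type*} (s : Finset ι) {f : ι → ℕ → ℝ} (hf : ∀ i ∈ s, HR (f i)) :
    HR (fun j => ∑ i ∈ s, f i j) := by
  classical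
  induction s using Finset.induction_on with
  | empty => simpa using HR.zero
  | insert a s ha ih =>
    refine ((hf a (mem_insert_self _ _)).add (ih fun i hi =>
      hf i (mem_insert_of_mem hi))).congr fun j _ => ?_
    rw [sum_insert ha]

lemma res_congr {f g : ℕ → ℝ} (h : ∀ j, 0 < j → f j = g j) : res f = res g := by
  by_cases hf : HR f
  · exact (((hf.hasRes).congr h).eq).symm
  · have hg : ¬ HR g := fun hg => hf (hg.congr fun j hj => (h j hj).symm)
    unfold res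
    rw [dif_neg hf, dif_neg hg]

lemma res_add {f g : ℕ → ℝ} (hf : HR f) (hg : HR g) : res (fun j => f j + g j) = res f + res g :=
  (hf.hasRes.add hg.hasRes).eq

lemma res_const_mul {f : ℕ → ℝ} (hf : HR f) (a : ℝ) : res (fun j => a * f j) = a * res f :=
  (hf.hasRes.const_mul a).eq

lemma res_sub {f g : ℕ → ℝ} (hf : HR f) (hg : HR g) : res (fun j => f j - g j) = res f - res g := by
  have h1 : res (fun j => f j - g j) = res (fun j => f j + (-1) * g j) :=
    res_congr fun j _ => by ring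
  rw [h1, res_add hf (hg.const_mul _), res_const_mul hg]
  ring

lemma res_zero : res (fun _ => 0) = 0 := by
  have : HasRes (fun _ => 0) 0 := by simpa using HasRes.poly 0
  exact this.eq

lemma res_sum {ι : Type*} (s : Finset ι) {f : ι → ℕ → ℝ} (hf : ∀ i ∈ s, HR (f i)) :
    res (fun j => ∑ i ∈ s, f i j) = ∑ i ∈ s, res (f i) := by
  classical
  induction s using Finset.induction_on with
  | empty => simpa using res_zero
  | insert a s ha ih =>
    rw [sum_insert ha, ← ih fun i hi => hf i (mem_insert_of_mem hi),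
      ← res_add (hf a (mem_insert_self _ _)) (HR.sum s fun i hi => hf i (mem_insert_of_mem hi))]
    apply res_congr
    intro j _
    rw [sum_insert ha]

lemma HR.shift {f : ℕ → ℝ} (hf : HR f) : HR (fun j => f (j + 1)) := ⟨_, hf.hasRes.shift⟩

lemma res_shift {f : ℕ → ℝ} (hf : HR f) : res (fun j => f (j + 1)) = res f := hf.hasRes.shift.eq

/-- symbols times powers have residues -/
lemma HR_pow_mul (e : ℕ) : ∀ {f : ℕ → ℝ}, Cl 0 f → HR (fun j => (j : ℝ) ^ e * f j) := by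
  induction e with
  | zero =>
    intro f hf
    obtain ⟨c0, c1, C, hC⟩ := hf 2
    refine ⟨c1, Polynomial.C c0, C, fun j hj => ?_⟩
    have := hC j hj
    simpa using this
  | succ e ih =>
    intro f hf
    obtain ⟨c0, h0⟩ := hf 1
    have h1 : Cl 1 (fun j => f j - c0) := by
      intro N
      obtain ⟨c, hc⟩ := hf (N + 1)
      have h2 : c = c0 := by
        obtain ⟨C, hC0, hC⟩ := h0.bound
        obtain ⟨D, hD0, hD⟩ := hc.toZero.bound
        have h3 : ∀ j : ℕ, 0 < j → |(Polynomial.C (c - c0) : Polynomial ℝ).eval (j : ℝ)| ≤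
            (C + D) / j := by
          intro j hj
          have h4 := hC j hj
          have h5 := hD j hj
          simp only [pow_zero, div_one, zero_add, pow_one] at h4 h5
          rw [Polynomial.eval_C, add_div]
          calc |c - c0| = |(f j - c0) - (f j - c)| := by ring_nf
            _ ≤ |f j - c0| + |f j - c| := abs_sub _ _
            _ ≤ _ := add_le_add h4 h5
        have h4 := poly_eq_zero_of_small h3
        rw [Polynomial.C_eq_zero] at h4
        linarith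
      rw [h2] at hc
      simpa using hc
    have h2 := ih h1.mul_j
    have h3 : HR (fun j : ℕ => (Polynomial.C c0 * Polynomial.X ^ (e + 1) : Polynomial ℝ).eval
      (j : ℝ)) := ⟨0, HasRes.poly _⟩
    refine (h2.add h3).congr fun j _ => ?_
    simp only [Polynomial.eval_mul, Polynomial.eval_C, Polynomial.eval_pow, Polynomial.eval_X]
    ring

lemma HR_poly_mul {f : ℕ → ℝ} (hf : Cl 0 f) (P : Polynomial ℝ) :
    HR (fun j => f j * P.eval (j : ℝ)) := by
  have h1 : HR (fun j => ∑ i ∈ range (P.natDegree + 1), P.coeff i * ((j : ℝ) ^ i * f j)) :=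
    HR.sum _ fun i _ => (HR_pow_mul i hf).const_mul _
  refine h1.congr fun j _ => ?_
  rw [Polynomial.eval_eq_sum_range, mul_sum]
  apply sum_congr rfl
  intro i _
  ring

/-- sum of absolute values of coefficients -/
noncomputable def ab (P : Polynomial ℝ) : ℝ := ∑ i ∈ range (P.natDegree + 1), |P.coeff i|

lemma ab_nonneg (P : Polynomial ℝ) : 0 ≤ ab P := sum_nonneg fun _ _ => abs_nonneg _

lemma abs_eval_le {P : Polynomial ℝ} {d : ℕ} (hd : P.natDegree ≤ d) {j : ℕ} (hj : 0 < j) :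
    |P.eval (j : ℝ)| ≤ ab P * (j : ℝ) ^ d := by
  have hj' : (1 : ℝ) ≤ j := by exact_mod_cast hj
  rw [Polynomial.eval_eq_sum_range]
  unfold ab
  rw [sum_mul]
  refine (abs_sum_le_sum_abs _ _).trans (sum_le_sum fun i hi => ?_)
  rw [abs_mul, abs_pow, Nat.abs_cast]
  have : i ≤ d := by have := mem_range.mp hi; omega
  gcongr

lemma HasRes_small_poly {l d : ℕ} {f : ℕ → ℝ} (hf : Cl l f) {P : Polynomial ℝ}
    (hd : P.natDegree ≤ d) (hl : d + 2 ≤ l) : HasRes (fun j => f j * P.eval (j : ℝ)) 0 := by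
  obtain ⟨B, hB0, hB⟩ := (hf.weaken' hl).bound
  apply HasRes.small (C := B * ab P)
  intro j hj
  have hj' : (0 : ℝ) < j := by exact_mod_cast hj
  rw [abs_mul]
  calc |f j| * |P.eval (j : ℝ)| ≤ B / (j : ℝ) ^ (d + 2) * (ab P * (j : ℝ) ^ d) :=
        mul_le_mul (hB j hj) (abs_eval_le hd hj) (abs_nonneg _) (by positivity)
    _ = _ := by rw [pow_add]; field_simp

/-- families all of whose coefficients have residues -/
def HRF (F : ℕ → ℝ⟦X⟧) : Prop := ∀ m, HR (fun j => coeff m (F j))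

/-- coefficientwise residue -/
noncomputable def RS (F : ℕ → ℝ⟦X⟧) : ℝ⟦X⟧ := PowerSeries.mk fun m => res (fun j => coeff m (F j))

lemma coeff_RS (F : ℕ → ℝ⟦X⟧) (m : ℕ) : coeff m (RS F) = res (fun j => coeff m (F j)) :=
  coeff_mk _ _

lemma RS_congr {F G : ℕ → ℝ⟦X⟧} (h : ∀ j, 0 < j → F j = G j) : RS F = RS G := by
  ext m
  rw [coeff_RS, coeff_RS]
  exact res_congr fun j hj => by rw [h j hj]

lemma HRF.congr {F G : ℕ → ℝ⟦X⟧} (hF : HRF F) (h : ∀ j, 0 < j → F j = G j) : HRF G :=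
  fun m => (hF m).congr fun j hj => by rw [h j hj]

lemma HRF.add {F G : ℕ → ℝ⟦X⟧} (hF : HRF F) (hG : HRF G) : HRF (fun j => F j + G j) :=
  fun m => ((hF m).add (hG m)).congr fun j _ => by rw [map_add]

lemma HRF.sub {F G : ℕ → ℝ⟦X⟧} (hF : HRF F) (hG : HRF G) : HRF (fun j => F j - G j) :=
  fun m => ((hF m).sub (hG m)).congr fun j _ => by rw [map_sub]

lemma RS_add {F G : ℕ → ℝ⟦X⟧} (hF : HRF F) (hG : HRF G) :
    RS (fun j => F j + G j) = RS F + RS G := by
  ext m
  rw [map_add, coeff_RS, coeff_RS, coeff_RS, ← res_add (hF m) (hG m)]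
  simp only [map_add]

lemma RS_sub {F G : ℕ → ℝ⟦X⟧} (hF : HRF F) (hG : HRF G) :
    RS (fun j => F j - G j) = RS F - RS G := by
  ext m
  rw [map_sub, coeff_RS, coeff_RS, coeff_RS, ← res_sub (hF m) (hG m)]
  simp only [map_sub]

lemma HRF.mul {F : ℕ → ℝ⟦X⟧} (hF : HRF F) (A : ℝ⟦X⟧) : HRF (fun j => A * F j) := by
  intro m
  have h1 : HR (fun j => ∑ x ∈ antidiagonal m, coeff x.1 A * coeff x.2 (F j)) :=
    HR.sum _ fun x _ => (hF x.2).const_mul _
  exact h1.congr fun j _ => (coeff_mul _ _ _).symm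

lemma mul_RS {F : ℕ → ℝ⟦X⟧} (hF : HRF F) (A : ℝ⟦X⟧) : A * RS F = RS (fun j => A * F j) := by
  ext m
  rw [coeff_mul, coeff_RS]
  have h1 : res (fun j => coeff m (A * F j)) =
      res (fun j => ∑ x ∈ antidiagonal m, coeff x.1 A * coeff x.2 (F j)) :=
    res_congr fun j _ => coeff_mul _ _ _
  rw [h1, res_sum _ fun x _ => (hF x.2).const_mul _]
  apply sum_congr rfl
  intro x _
  rw [coeff_RS, res_const_mul (hF x.2)]

lemma coeff_X_mul_deriv (f : ℝ⟦X⟧) (n : ℕ) : coeff n (X * d⁄dX ℝ f) = n * coeff n f := by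
  rcases n with _ | n
  · simp
  · rw [coeff_succ_X_mul, coeff_derivative]; push_cast; ring

lemma RS_X_deriv {F : ℕ → ℝ⟦X⟧} (hF : HRF F) :
    X * d⁄dX ℝ (RS F) = RS (fun j => X * d⁄dX ℝ (F j)) := by
  ext m
  rw [coeff_X_mul_deriv, coeff_RS, coeff_RS, ← res_const_mul (hF m)]
  exact res_congr fun j _ => (coeff_X_mul_deriv _ _).symm

lemma HRF.shift {F : ℕ → ℝ⟦X⟧} (hF : HRF F) : HRF (fun j => F (j + 1)) := fun m => (hF m).shift

lemma RS_shift {F : ℕ → ℝ⟦X⟧} (hF : HRF F) : RS (fun j => F (j + 1)) = RS F := by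
  ext m
  rw [coeff_RS, coeff_RS]
  exact res_shift (hF m)

end Pool.Agent.Lib.MP_493311_pr
end

section

open Finset PowerSeries Filter
open scoped Topology

namespace Pool.Agent.Lib.MP_493311_pr

/-- the remainder part is small -/
lemma RR_sum_bigO (m : ℕ) {l k : ℕ} {g : ℕ → ℝ} (hg : Cl l g) :
    BigO (l + m + 1) (SJ fun j => C (g j) * (X ^ (k * j) * RR j (m + 1))) := by
  obtain ⟨C0, hC0, hC⟩ := lemX m (l + m + 2)
  obtain ⟨B, hB0, hB⟩ := hg.bound
  refine ⟨B * C0 * ((k : ℝ) + 1) ^ (l + m + 2), fun n => ?_⟩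
  rw [coeff_SJ, Real.norm_eq_abs]
  have hterm : ∀ j ∈ Icc 1 n, |coeff n (C (g j) * (X ^ (k * j) * RR j (m + 1)))| ≤
      B * C0 * ((k : ℝ) + 1) ^ (l + m + 2) / ((n : ℝ) + 1) ^ (l + m + 2) := by
    intro j hj
    have hj0 : 0 < j := (mem_Icc.mp hj).1
    have hj' : (1 : ℝ) ≤ j := by exact_mod_cast hj0
    rw [coeff_C_mul, abs_mul, coeff_X_pow_mul']
    split_ifs with h
    · have h1 := hC j hj0 (n - k * j)
      have h2 := hB j hj0
      have hnm : ((n - k * j : ℕ) : ℝ) = n - k * j := by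
        rw [Nat.cast_sub h]; push_cast; ring
      have hpos : (k : ℝ) * j ≤ n := by exact_mod_cast h
      have h3 : (j : ℝ) / (((n - k * j : ℕ) : ℝ) + j) ≤ ((k : ℝ) + 1) * j / (n + 1) := by
        rw [hnm, div_le_div_iff₀ (by linarith) (by positivity)]
        have h4 : 0 ≤ (k : ℝ) * (n - k * j) := mul_nonneg (by positivity) (by linarith)
        nlinarith
      have h5 : 0 ≤ (j : ℝ) / (((n - k * j : ℕ) : ℝ) + j) := by positivity
      calc |g j| * |coeff (n - k * j) (RR j (m + 1))| ≤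
          (B / (j : ℝ) ^ l) * (C0 * (1 / (j : ℝ)) ^ (m + 2) *
            (((k : ℝ) + 1) * j / (n + 1)) ^ (l + m + 2)) := by
            apply mul_le_mul h2 _ (abs_nonneg _) (by positivity)
            refine h1.trans ?_
            gcongr
        _ = _ := by
            rw [div_pow (((k : ℝ) + 1) * j), mul_pow, one_div_pow, show (j : ℝ) ^ (l + m + 2) =
              (j : ℝ) ^ l * (j : ℝ) ^ (m + 2) by rw [← pow_add, add_assoc]]
            field_simp
    · rw [abs_zero, mul_zero]; positivity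
  calc |∑ j ∈ Icc 1 n, coeff n (C (g j) * (X ^ (k * j) * RR j (m + 1)))| ≤
      ∑ j ∈ Icc 1 n, |coeff n (C (g j) * (X ^ (k * j) * RR j (m + 1)))| := abs_sum_le_sum_abs _ _
    _ ≤ ∑ j ∈ Icc 1 n, B * C0 * ((k : ℝ) + 1) ^ (l + m + 2) / ((n : ℝ) + 1) ^ (l + m + 2) :=
        sum_le_sum hterm
    _ = n * (B * C0 * ((k : ℝ) + 1) ^ (l + m + 2) / ((n : ℝ) + 1) ^ (l + m + 2)) := by
        rw [sum_const, Nat.card_Icc, nsmul_eq_mul, Nat.add_sub_cancel]
    _ ≤ ((n : ℝ) + 1) * (B * C0 * ((k : ℝ) + 1) ^ (l + m + 2) / ((n : ℝ) + 1) ^ (l + m + 2)) := by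
        gcongr; linarith
    _ = _ := by
        rw [show ((n : ℝ) + 1) ^ (l + m + 2) = ((n : ℝ) + 1) ^ (l + m + 1) * (n + 1) by
          rw [← pow_succ]]
        field_simp

lemma SS_sum (k M : ℕ) (g : ℕ → ℝ) (A : ℕ) (hk : ∀ a, A ≤ a → 1 ≤ k + a) :
    SJ (fun j => C (g j) * (X ^ (k * j) * ∑ a ∈ Ico A (M + 2), ∑ b ∈ range (M + 1),
      C ((1 / (j : ℝ)) ^ b) * ((1 - X) ^ (M - b) * (X ^ (a * j) * (theta a b : ℝ⟦X⟧))))) =
    ∑ a ∈ Ico A (M + 2), ∑ b ∈ range (M + 1), (1 - X) ^ (M - b) * ((theta a b : ℝ⟦X⟧) *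
      Lam (k + a) (fun j => g j * (1 / (j : ℝ)) ^ b)) := by
  have h1 : ∀ a ∈ Ico A (M + 2), ∀ b ∈ range (M + 1), (1 - X) ^ (M - b) * ((theta a b : ℝ⟦X⟧) *
      Lam (k + a) (fun j => g j * (1 / (j : ℝ)) ^ b)) = SJ (fun j => C (g j) * (X ^ (k * j) *
      (C ((1 / (j : ℝ)) ^ b) * ((1 - X) ^ (M - b) * (X ^ (a * j) * (theta a b : ℝ⟦X⟧)))))) := by
    intro a ha b _
    unfold Lam
    rw [mul_SJ _ (Lam_adm (hk a (mem_Ico.mp ha).1) _),
      mul_SJ _ ((Lam_adm (hk a (mem_Ico.mp ha).1) _).mul _)]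
    apply SJ_congr
    intro j _
    rw [map_mul, add_mul, pow_add]
    ring
  rw [sum_congr rfl fun a ha => sum_congr rfl fun b hb => h1 a ha b hb]
  simp_rw [← SJ_sum]
  apply SJ_congr
  intro j _
  simp_rw [mul_sum]

lemma SS_sym {l k M A : ℕ} (hk : ∀ a, A ≤ a → 1 ≤ k + a) {g : ℕ → ℝ} (hg : Cl l g) :
    Sym (l + M) (∑ a ∈ Ico A (M + 2), ∑ b ∈ range (M + 1), (1 - X) ^ (M - b) *
      ((theta a b : ℝ⟦X⟧) * Lam (k + a) (fun j => g j * (1 / (j : ℝ)) ^ b))) := by
  apply Sym.sum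
  intro a ha
  apply Sym.sum
  intro b hb
  have h1 : Cl (l + b) (fun j => g j * (1 / (j : ℝ)) ^ b) := by
    refine (hg.div_pow b).congr fun j _ => ?_
    rw [one_div_pow]; ring
  have h2 := ((Lam_sym (hk a (mem_Ico.mp ha).1) h1).poly_mul (theta a b)).w_pow_mul (M - b)
  have h3 : b ≤ M := by have := mem_range.mp hb; omega
  rwa [show l + b + (M - b) = l + M by omega] at h2

lemma W_pow (k M : ℕ) (hk : 1 ≤ k) (g : ℕ → ℝ) : (1 - X) ^ M * W k g =
    (∑ a ∈ Ico 0 (M + 2), ∑ b ∈ range (M + 1), (1 - X) ^ (M - b) *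
      ((theta a b : ℝ⟦X⟧) * Lam (k + a) (fun j => g j * (1 / (j : ℝ)) ^ b))) +
    SJ fun j => C (g j) * (X ^ (k * j) * RR j M) := by
  rw [← SS_sum k M g 0 (fun a _ => by omega), ← SJ_add]
  unfold W
  rw [mul_SJ _ (W_adm hk _)]
  apply SJ_congr
  intro j _
  have h1 : FM j M = SS j M + RR j M := by unfold RR; ring
  have h2 : (1 - X) ^ M * (C (g j) * (X ^ (k * j) * Q j)) =
      C (g j) * (X ^ (k * j) * FM j M) := by unfold FM; ring
  rw [h2, h1]
  unfold SS
  rw [range_eq_Ico]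
  ring

/-- base estimate -/
theorem W_sym {l k : ℕ} (hl : 1 ≤ l) (hk : 1 ≤ k) {g : ℕ → ℝ} (hg : Cl l g) :
    Sym l (W k g - C (kap g) * GG) := by
  intro i
  rcases i with _ | m
  · simpa using (W_crude hl hk hg).toNeg
  · have h1 : (1 - X) ^ (m + 1) * (W k g - C (kap g) * GG) =
        (1 - X) ^ (m + 1) * W k g -
        ((Polynomial.C (kap g) * (1 - Polynomial.X) ^ m : Polynomial ℝ) : ℝ⟦X⟧) := by
      push_cast
      rw [mul_sub, pow_succ]
      linear_combination (-(1 - X) ^ m * C (kap g)) * one_sub_X_mul_GG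
    rw [h1, W_pow k (m + 1) hk g]
    apply Neg.sub _ (Neg.poly _ _)
    apply Neg.add
    · exact (SS_sym (fun a _ => by omega) hg).toNeg
    · have := (RR_sum_bigO m (k := k) hg).toNeg
      rwa [add_assoc] at this

lemma theta_zero_sum (j M : ℕ) : ∑ b ∈ range (M + 1),
      C ((1 / (j : ℝ)) ^ b) * ((1 - X) ^ (M - b) * (X ^ (0 * j) * (theta 0 b : ℝ⟦X⟧))) =
      (1 - X) ^ M := by
  rw [sum_range_succ', sum_eq_zero]
  · rw [theta_zero_left, if_pos rfl]
    simp
  · intro b _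
    rw [theta_zero_left, if_neg (by omega)]
    simp

/-- the mean series, multiplied by powers of `1 - X` -/
lemma Es_pow (m : ℕ) : (1 - X) ^ (m + 1) * Es = (1 - X) ^ m - (1 - X) ^ (m + 1) +
    (∑ a ∈ Ico 1 (m + 1 + 2), ∑ b ∈ range (m + 1 + 1), (1 - X) ^ (m + 1 - b) *
      ((theta a b : ℝ⟦X⟧) * Lam (0 + a) (fun j => 1 * (1 / (j : ℝ)) ^ b))) +
    SJ fun j => C 1 * (X ^ (0 * j) * RR j (m + 1)) := by
  rw [← SS_sum 0 (m + 1) (fun _ => 1) 1 (fun a ha => by omega), add_assoc, ← SJ_add]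
  unfold Es
  rw [mul_add, mul_SJ _ Adm.Q_sub_one]
  congr 1
  · rw [Q_zero', mul_sub, pow_succ]
    linear_combination (1 - X) ^ m * one_sub_X_mul_GG
  · apply SJ_congr
    intro j _
    have h1 : FM j (m + 1) = SS j (m + 1) + RR j (m + 1) := by unfold RR; ring
    have h2 : (1 - X) ^ (m + 1) * (Q j - 1) = FM j (m + 1) - (1 - X) ^ (m + 1) := by
      unfold FM; ring
    rw [h2, h1]
    unfold SS
    rw [range_eq_Ico, sum_eq_sum_Ico_succ_bot (by omega), theta_zero_sum, map_one, zero_mul,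
      pow_zero]
    simp only [zero_add]
    ring

lemma Es_neg (m : ℕ) : Neg (m + 1) ((1 - X) ^ (m + 1) * Es) := by
  rw [Es_pow]
  apply Neg.add
  · apply Neg.add
    · have : ((1 - X) ^ m - (1 - X) ^ (m + 1) : ℝ⟦X⟧) =
        (((1 - Polynomial.X) ^ m - (1 - Polynomial.X) ^ (m + 1) : Polynomial ℝ) : ℝ⟦X⟧) := by
        push_cast; ring
      rw [this]
      exact Neg.poly _ _
    · have h1 : Cl 0 (fun _ : ℕ => (1 : ℝ)) := Cl.one
      have := (SS_sym (k := 0) (M := m + 1) (A := 1) (fun a ha => by omega) h1).toNeg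
      rwa [zero_add] at this
  · have h1 : Cl 0 (fun _ : ℕ => (1 : ℝ)) := Cl.one
    have := (RR_sum_bigO m (k := 0) h1).toNeg
    rwa [zero_add] at this

/-- tails of `T` -/
noncomputable def TI (k I : ℕ) (g : ℕ → ℝ) : ℝ⟦X⟧ :=
  SJ fun j => C (g j) * (X ^ (k * j) * (C (j : ℝ) * ((Ex j - ∑ i ∈ range (I + 1),
    C (1 / (i.factorial * (j : ℝ) ^ i)) * X ^ (j * i)) * Q j)))

lemma T_eq_TI (k : ℕ) (g : ℕ → ℝ) : T k g = TI k 1 g := by
  unfold T TI
  apply SJ_congr
  intro j hj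
  have hj' : (j : ℝ) ≠ 0 := by positivity
  have h1 : Q (j - 1) = Ex j * Q j := by
    have := Q_pred (j - 1)
    rwa [Nat.sub_add_cancel hj] at this
  have h2 : (C (j : ℝ) : ℝ⟦X⟧) * C (1 / ((Nat.factorial 1 : ℕ) * (j : ℝ) ^ 1)) = 1 := by
    rw [← map_mul, Nat.factorial_one, pow_one]
    have : (j : ℝ) * (1 / (((1 : ℕ) : ℝ) * j)) = 1 := by field_simp; simp
    rw [this, map_one]
  have h3 : (C (1 / ((Nat.factorial 0 : ℕ) * (j : ℝ) ^ 0)) : ℝ⟦X⟧) = 1 := by simp
  rw [h1, sum_range_succ, sum_range_one, h3, mul_zero, mul_one, pow_zero, mul_one]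
  congr 2
  linear_combination (X ^ j * Q j) * h2

/-- weights in the expansion of `T` -/
noncomputable def wt (i : ℕ) (g : ℕ → ℝ) : ℕ → ℝ :=
  fun j => g j * j * (1 / (i.factorial * (j : ℝ) ^ i))

lemma TI_succ (k I : ℕ) (g : ℕ → ℝ) :
    TI k I g = W (k + I + 1) (wt (I + 1) g) + TI k (I + 1) g := by
  unfold TI W
  rw [← SJ_add]
  apply SJ_congr
  intro j _
  unfold wt
  rw [sum_range_succ _ (I + 1), map_mul, map_mul]
  have : (X : ℝ⟦X⟧) ^ ((k + I + 1) * j) = X ^ (k * j) * X ^ (j * (I + 1)) := by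
    rw [← pow_add]; ring_nf
  rw [this]
  ring

lemma wt_bound {l : ℕ} {g : ℕ → ℝ} {B : ℝ}
    (hg : ∀ j : ℕ, 0 < j → |g j| ≤ B / (j : ℝ) ^ l) (i : ℕ) {j : ℕ} (hj : 0 < j) :
    |wt (i + 1) g j| ≤ (B / (i + 1).factorial) / (j : ℝ) ^ (l + i) := by
  have hj' : (0 : ℝ) < j := by exact_mod_cast hj
  unfold wt
  rw [abs_mul, abs_mul, Nat.abs_cast, abs_of_nonneg
    (show (0 : ℝ) ≤ 1 / (((i + 1).factorial : ℝ) * (j : ℝ) ^ (i + 1)) by positivity)]
  calc |g j| * j * (1 / ((i + 1).factorial * (j : ℝ) ^ (i + 1))) ≤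
      B / (j : ℝ) ^ l * j * (1 / ((i + 1).factorial * (j : ℝ) ^ (i + 1))) := by
        gcongr
        exact hg j hj
    _ = _ := by
        rw [pow_add (j : ℝ) l i, pow_succ (j : ℝ) i]
        have : ((i + 1).factorial : ℝ) ≠ 0 := by positivity
        field_simp

lemma wt_Cl {l : ℕ} {g : ℕ → ℝ} (hg : Cl l g) (i : ℕ) : Cl (l + i) (wt (i + 1) g) := by
  refine ((hg.div_pow i).const_mul (1 / (i + 1).factorial)).congr fun j hj => ?_
  have hj' : (0 : ℝ) < j := by exact_mod_cast hj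
  unfold wt
  have : ((i + 1).factorial : ℝ) ≠ 0 := by positivity
  rw [pow_succ]
  field_simp

lemma TI_coeff_zero {k I n : ℕ} (hn : n < I + 1) (g : ℕ → ℝ) : coeff n (TI k I g) = 0 := by
  unfold TI
  rw [coeff_SJ]
  apply sum_eq_zero
  intro j hj
  have hj0 : 0 < j := (mem_Icc.mp hj).1
  rw [coeff_C_mul, coeff_X_pow_mul']
  split_ifs with h
  · rw [coeff_C_mul, sub_mul, map_sub]
    have h1 : coeff (n - k * j) ((∑ i ∈ range (I + 1),
        C (1 / (i.factorial * (j : ℝ) ^ i)) * X ^ (j * i)) * Q j) =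
        coeff (n - k * j) (Ex j * Q j) := by
      rw [coeff_Ex_mul hj0 (n - k * j) I (by omega), sum_mul, map_sum]
      apply sum_congr rfl
      intro i _
      rw [mul_assoc, coeff_C_mul]
    rw [h1, sub_self, mul_zero, mul_zero]
  · rw [mul_zero]

lemma coeff_TI (k I : ℕ) (g : ℕ → ℝ) (n : ℕ) (N : ℕ) (hN : n ≤ N) : coeff n (TI k I g) =
    ∑ i ∈ range N, coeff n (W (k + (I + i) + 1) (wt (I + i + 1) g)) := by
  have h1 : ∀ N : ℕ, TI k I g =
      (∑ i ∈ range N, W (k + (I + i) + 1) (wt (I + i + 1) g)) + TI k (I + N) g := by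
    intro N
    induction N with
    | zero => simp
    | succ N ih =>
      rw [sum_range_succ, add_assoc, show I + (N + 1) = I + N + 1 by ring]
      rw [← TI_succ k (I + N) g]
      exact ih
  rw [h1 N, map_add, TI_coeff_zero (by omega), add_zero, map_sum]

lemma summable_pow_div_factorial (k I m : ℕ) :
    Summable fun i : ℕ => ((k : ℝ) + I + i + 2) ^ m / ((I + i + 1).factorial : ℝ) := by
  have h1 : Summable fun i : ℕ => ((i : ℝ) + (k + 1)) ^ m / (i.factorial : ℝ) := by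
    have h2 : Summable fun i : ℕ => (m.factorial * Real.exp (k + 1)) *
        (Real.exp 1 ^ i / (i.factorial : ℝ)) := by
      apply Summable.mul_left
      exact Real.summable_pow_div_factorial _
    refine Summable.of_nonneg_of_le (fun i => by positivity) (fun i => ?_) h2
    have h3 : ((i : ℝ) + (k + 1)) ^ m / (m.factorial : ℝ) ≤ Real.exp (i + (k + 1)) :=
      Real.pow_div_factorial_le_exp _ (by positivity) _
    rw [div_le_iff₀ (by positivity)] at h3
    rw [← mul_div_assoc]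
    apply div_le_div_of_nonneg_right _ (by positivity)
    refine h3.trans (le_of_eq ?_)
    rw [Real.exp_add, ← Real.exp_nat_mul, mul_one]
    ring
  have h2 := (summable_nat_add_iff (I + 1)).mpr h1
  refine h2.congr fun i => ?_
  push_cast
  ring_nf

/-- crude estimate for the tails -/
lemma TI_crude {l k I : ℕ} (hI : 1 ≤ l + I) {g : ℕ → ℝ} (hg : Cl l g) :
    ∃ κ : ℝ, BigO (l + I) (TI k I g - C κ * GG) := by
  obtain ⟨L, hL⟩ := Nat.exists_eq_add_of_le' hI
  obtain ⟨A, hA, h1⟩ := crude_W L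
  obtain ⟨B, hB0, hB⟩ := hg.bound
  set κ : ℕ → ℝ := fun i => kap (wt (I + i + 1) g) with hκ
  have hphi : ∀ i : ℕ, ∀ j : ℕ, 0 < j → |wt (I + i + 1) g j| ≤
      (B / (I + i + 1).factorial) / (j : ℝ) ^ (L + 1) := by
    intro i j hj
    have hj' : (1 : ℝ) ≤ j := by exact_mod_cast hj
    refine (wt_bound hB (I + i) hj).trans ?_
    exact div_le_div_of_nonneg_left (by positivity) (by positivity)
      (pow_le_pow_right₀ hj' (by omega))
  have hbd : ∀ n i : ℕ, |coeff n (W (k + (I + i) + 1) (wt (I + i + 1) g)) - κ i| ≤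
      (A * B / ((n : ℝ) + 1) ^ (L + 1)) *
      (((k : ℝ) + I + i + 2) ^ (L + 2) / ((I + i + 1).factorial : ℝ)) := by
    intro n i
    refine (h1 (k + (I + i) + 1) (by omega) _ _ (by positivity) (hphi i) n).trans (le_of_eq ?_)
    push_cast
    rw [show (k : ℝ) + (I + i) + 1 + 1 = (k : ℝ) + I + i + 2 by ring]
    ring
  have hsum := summable_pow_div_factorial k I (L + 2)
  have hκs : Summable κ := by
    -- use n = 0
    have h2 : Summable fun i => coeff 0 (W (k + (I + i) + 1) (wt (I + i + 1) g)) - κ i :=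
      Summable.of_norm_bounded (hsum.mul_left _) (fun i => by
        rw [Real.norm_eq_abs]; exact hbd 0 i)
    have h3 : ∀ i, coeff 0 (W (k + (I + i) + 1) (wt (I + i + 1) g)) = 0 := by
      intro i; unfold W; rw [coeff_SJ]; simp
    simp only [h3, zero_sub] at h2
    have := h2.neg
    simpa using this
  refine ⟨∑' i, κ i, ?_⟩
  refine ⟨A * B * ∑' i : ℕ, ((k : ℝ) + I + i + 2) ^ (L + 2) / ((I + i + 1).factorial : ℝ),
    fun n => ?_⟩
  have h0 : ∀ i ∉ range n, coeff n (W (k + (I + i) + 1) (wt (I + i + 1) g)) = 0 := by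
    intro i hi
    rw [mem_range, not_lt] at hi
    unfold W
    rw [coeff_SJ]
    apply sum_eq_zero
    intro j hj
    have hj0 : 0 < j := (mem_Icc.mp hj).1
    rw [coeff_C_mul, coeff_X_pow_mul', if_neg, mul_zero]
    have : (k + (I + i) + 1) * 1 ≤ (k + (I + i) + 1) * j := Nat.mul_le_mul_left _ hj0
    omega
  have h2 : coeff n (TI k I g) = ∑' i, coeff n (W (k + (I + i) + 1) (wt (I + i + 1) g)) := by
    rw [tsum_eq_sum h0, coeff_TI k I g n n le_rfl]
  have hs : Summable fun i => coeff n (W (k + (I + i) + 1) (wt (I + i + 1) g)) :=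
    summable_of_ne_finset_zero h0
  rw [map_sub, coeff_C_mul, coeff_GG, mul_one, h2, ← hs.tsum_sub hκs, Real.norm_eq_abs]
  have h3 := hsum.mul_left (A * B / ((n : ℝ) + 1) ^ (L + 1))
  have h4 : |∑' i, (coeff n (W (k + (I + i) + 1) (wt (I + i + 1) g)) - κ i)| ≤
      ∑' i : ℕ, (A * B / ((n : ℝ) + 1) ^ (L + 1)) *
      (((k : ℝ) + I + i + 2) ^ (L + 2) / ((I + i + 1).factorial : ℝ)) := by
    have := tsum_of_norm_bounded h3.hasSum (f := fun i =>
      coeff n (W (k + (I + i) + 1) (wt (I + i + 1) g)) - κ i) (fun i => by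
        rw [Real.norm_eq_abs]; exact hbd n i)
    simpa using this
  refine h4.trans (le_of_eq ?_)
  rw [tsum_mul_left, hL]
  ring

lemma C_GG_eq {a b : ℝ} {f : ℝ⟦X⟧} (ha : Neg 1 (f - C a * GG)) (hb : Neg 1 (f - C b * GG)) :
    a = b := by
  have h1 := hb.sub ha
  have h2 : f - C b * GG - (f - C a * GG) = C (a - b) * GG := by rw [map_sub]; ring
  rw [h2] at h1
  have := eq_zero_of_neg_GG h1
  linarith

lemma TI_sym_aux {l : ℕ} (k : ℕ) {g : ℕ → ℝ} (hg : Cl l g) (i : ℕ) : ∀ (I : ℕ) (κ : ℝ),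
    1 ≤ l + I → Neg 1 (TI k I g - C κ * GG) →
    Neg (l + I + i) ((1 - X) ^ i * (TI k I g - C κ * GG)) := by
  induction i with
  | zero =>
    intro I κ hI hκ
    obtain ⟨κ', h1⟩ := TI_crude (k := k) hI hg
    have h2 : κ' = κ := C_GG_eq (h1.toNeg.mono hI) hκ
    rw [← h2]
    simpa using h1.toNeg
  | succ i ih =>
    intro I κ hI hκ
    obtain ⟨κ', h1⟩ := TI_crude (k := k) (I := I + 1) (l := l) (by omega) hg
    have h2 := W_sym (k := k + I + 1) hI (by omega) (wt_Cl hg I)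
    have h3 := ih (I + 1) κ' (by omega) (h1.toNeg.mono (by omega))
    have h4 : κ = kap (wt (I + 1) g) + κ' := by
      refine C_GG_eq hκ ?_
      have h5 : TI k I g - C (kap (wt (I + 1) g) + κ') * GG =
        (W (k + I + 1) (wt (I + 1) g) - C (kap (wt (I + 1) g)) * GG) +
        (TI k (I + 1) g - C κ' * GG) := by
        rw [TI_succ k I g, map_add]; ring
      rw [h5]
      exact (h2.toNeg.mono hI).add (h1.toNeg.mono (by omega))
    have h6 : (1 - X) ^ (i + 1) * (TI k I g - C κ * GG) =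
        (1 - X) ^ (i + 1) * (W (k + I + 1) (wt (I + 1) g) - C (kap (wt (I + 1) g)) * GG) +
        (((1 - Polynomial.X) ^ 1 : Polynomial ℝ) : ℝ⟦X⟧) *
          ((1 - X) ^ i * (TI k (I + 1) g - C κ' * GG)) := by
      rw [h4, TI_succ k I g, map_add, coe_one_sub_X_pow, pow_succ]; ring
    rw [h6]
    apply Neg.add
    · have := h2 (i + 1)
      exact this
    · apply Neg.poly_mul
      rwa [show l + (I + 1) + i = l + I + (i + 1) by ring] at h3

/-- the tails of `T` are symbols -/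
theorem TI_sym {l k I : ℕ} (hI : 1 ≤ l + I) {g : ℕ → ℝ} (hg : Cl l g) :
    ∃ κ : ℝ, Sym (l + I) (TI k I g - C κ * GG) := by
  obtain ⟨κ, h1⟩ := TI_crude (k := k) hI hg
  exact ⟨κ, fun i => TI_sym_aux k hg i I κ hI (h1.toNeg.mono hI)⟩

end Pool.Agent.Lib.MP_493311_pr
end
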