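import Mathlib
import Pool.Agent.Lib.MP_493311_pr.Base

open Finset PowerSeries Filter
open scoped Topology

namespace Pool.Agent.Lib.MP_493311_pr

/-- the polynomial `x(x-1)...(x-t+1)/t!` -/
noncomputable def bin (t : ℕ) : Polynomial ℝ :=
  Polynomial.C (1 / (t.factorial : ℝ)) * descPochhammer ℝ t

lemma bin_eval (t j : ℕ) : (bin t).eval (j : ℝ) = (j.choose t : ℝ) := by
  unfold bin
  rw [Polynomial.eval_mul, Polynomial.eval_C, descPochhammer_eval_eq_descFactorial,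
    Nat.descFactorial_eq_factorial_mul_choose]
  push_cast
  have : (t.factorial : ℝ) ≠ 0 := by positivity
  field_simp

lemma bin_natDegree (t : ℕ) : (bin t).natDegree ≤ t := by
  unfold bin
  refine (Polynomial.natDegree_C_mul_le _ _).trans ?_
  rw [descPochhammer_natDegree]

/-- `[w^m] exp (∑_t (-1)^(t-1) w^t binom(x,t)/t)`: given by the recursion
`m π_m = ∑_{t=1}^m (-1)^(t-1) binom(x,t) π_{m-t}`. -/
noncomputable def ppi : ℕ → Polynomial ℝ
  | 0 => 1
  | m + 1 => Polynomial.C (1 / ((m : ℝ) + 1)) *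
      ∑ t : Fin (m + 1), (-1) ^ (t : ℕ) * bin (t + 1) * ppi (m - t)
termination_by m => m
decreasing_by omega

lemma ppi_zero : ppi 0 = 1 := by rw [ppi]

lemma ppi_succ (m : ℕ) : ppi (m + 1) = Polynomial.C (1 / ((m : ℝ) + 1)) *
      ∑ t ∈ range (m + 1), (-1) ^ t * bin (t + 1) * ppi (m - t) := by
  rw [ppi, Fin.sum_univ_eq_sum_range (fun t => (-1) ^ t * bin (t + 1) * ppi (m - t))]

lemma natDegree_neg_one_pow_mul (a : ℕ) (P : Polynomial ℝ) :
    ((-1) ^ a * P).natDegree ≤ P.natDegree := by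
  rcases neg_one_pow_eq_or (Polynomial ℝ) a with h | h <;> rw [h] <;> simp

lemma ppi_natDegree (m : ℕ) : (ppi m).natDegree ≤ m := by
  induction m using Nat.strong_induction_on with
  | _ m ih =>
    rcases m with _ | m
    · rw [ppi_zero]; simp
    · rw [ppi_succ]
      refine (Polynomial.natDegree_C_mul_le _ _).trans ?_
      apply Polynomial.natDegree_sum_le_of_forall_le
      intro t ht
      have ht' := mem_range.mp ht
      rw [mul_assoc]
      refine (natDegree_neg_one_pow_mul _ _).trans ?_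
      refine Polynomial.natDegree_mul_le.trans ?_
      have h1 := bin_natDegree (t + 1)
      have h2 := ih (m - t) (by omega)
      omega

/-- polynomial families of power series -/
noncomputable def PF (p : ℕ → Polynomial ℝ) (j : ℕ) : ℝ⟦X⟧ :=
  PowerSeries.mk fun m => (p m).eval (j : ℝ)

lemma coeff_PF (p : ℕ → Polynomial ℝ) (j m : ℕ) : coeff m (PF p j) = (p m).eval (j : ℝ) :=
  coeff_mk _ _

/-- Cauchy product -/
noncomputable def cv (p p' : ℕ → Polynomial ℝ) (m : ℕ) : Polynomial ℝ :=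
  ∑ x ∈ antidiagonal m, p x.1 * p' x.2

lemma PF_mul (p p' : ℕ → Polynomial ℝ) (j : ℕ) : PF p j * PF p' j = PF (cv p p') j := by
  ext m
  rw [coeff_mul, coeff_PF, cv, Polynomial.eval_finsetSum]
  apply sum_congr rfl
  intro x _
  rw [coeff_PF, coeff_PF, Polynomial.eval_mul]

lemma cv_natDegree {p p' : ℕ → Polynomial ℝ} (hp : ∀ m, (p m).natDegree ≤ m)
    (hp' : ∀ m, (p' m).natDegree ≤ m) (m : ℕ) : (cv p p' m).natDegree ≤ m := by
  apply Polynomial.natDegree_sum_le_of_forall_le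
  intro x hx
  refine Polynomial.natDegree_mul_le.trans ?_
  have h1 := hp x.1
  have h2 := hp' x.2
  have h3 := mem_antidiagonal.mp hx
  omega

/-- Taylor series at `z = 1` in `w = 1 - z` of `(1-z) Q_j(z) = exp(-∑_{i≤j} z^i/i)` -/
noncomputable def FF (j : ℕ) : ℝ⟦X⟧ := C (h j) * PF ppi j

lemma coeff_one_sub_X_pow' (n a : ℕ) :
    coeff a ((1 - X : ℝ⟦X⟧) ^ n) = (-1) ^ a * (n.choose a : ℝ) := by
  induction n generalizing a with
  | zero =>
    rcases a with _ | a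
    · simp
    · rw [pow_zero, coeff_one, if_neg (by omega)]; simp
  | succ n ih =>
    rcases a with _ | a
    · rw [pow_succ', coeff_one_sub_X_mul_zero, ih]; simp
    · rw [pow_succ', coeff_one_sub_X_mul, ih, ih, Nat.choose_succ_succ]
      push_cast
      ring

lemma FF_ode (j : ℕ) : X * d⁄dX ℝ (FF j) = (1 - (1 - X) ^ j) * FF j := by
  ext m
  rw [coeff_X_mul_deriv]
  unfold FF
  rcases m with _ | m
  · rw [coeff_zero_eq_constantCoeff_apply, coeff_zero_eq_constantCoeff_apply]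
    simp
  · have h1 : (1 - (1 - X) ^ j) * (C (h j) * PF ppi j) =
        C (h j) * ((1 - (1 - X) ^ j) * PF ppi j) := by ring
    have h2 : coeff 0 (1 - (1 - X) ^ j : ℝ⟦X⟧) = 0 := by
      rw [map_sub, coeff_one_sub_X_pow']; simp
    have h5 : coeff (m + 1) ((1 - (1 - X) ^ j) * PF ppi j) = ∑ t ∈ range (m + 1),
        coeff (t + 1) (1 - (1 - X) ^ j : ℝ⟦X⟧) * coeff (m + 1 - (t + 1)) (PF ppi j) := by
      rw [coeff_mul, Nat.sum_antidiagonal_eq_sum_range_succ_mk, sum_range_succ', h2, zero_mul,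
        add_zero]
    rw [h1, coeff_C_mul, coeff_C_mul, h5, coeff_PF, ppi_succ, Polynomial.eval_mul,
      Polynomial.eval_C, Polynomial.eval_finsetSum]
    have h3 : ∀ t ∈ range (m + 1), coeff (t + 1) (1 - (1 - X) ^ j : ℝ⟦X⟧) *
        coeff (m + 1 - (t + 1)) (PF ppi j) =
        Polynomial.eval (j : ℝ) ((-1) ^ t * bin (t + 1) * ppi (m - t)) := by
      intro t _
      rw [map_sub, coeff_one, if_neg (by omega), coeff_one_sub_X_pow', coeff_PF,
        show m + 1 - (t + 1) = m - t by omega, Polynomial.eval_mul, Polynomial.eval_mul,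
        bin_eval]
      simp only [Polynomial.eval_pow, Polynomial.eval_neg, Polynomial.eval_one]
      rw [pow_succ]
      ring
    rw [sum_congr rfl h3]
    push_cast
    have : (m : ℝ) + 1 ≠ 0 := by positivity
    field_simp

lemma coeff_zero_FF (j : ℕ) : coeff 0 (FF j) = h j := by
  unfold FF
  rw [coeff_C_mul, coeff_PF, ppi_zero]
  simp

/-- polynomials for `(1-X)^{kj}` -/
noncomputable def binp (k a : ℕ) : Polynomial ℝ :=
  (-1) ^ a * (bin a).comp (Polynomial.C (k : ℝ) * Polynomial.X)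

lemma PF_binp (k j : ℕ) : PF (binp k) j = (1 - X) ^ (k * j) := by
  ext a
  rw [coeff_PF, coeff_one_sub_X_pow']
  unfold binp
  rw [Polynomial.eval_mul, Polynomial.eval_comp]
  simp only [Polynomial.eval_pow, Polynomial.eval_neg, Polynomial.eval_one, Polynomial.eval_mul,
    Polynomial.eval_C, Polynomial.eval_X]
  rw [← Nat.cast_mul, bin_eval]

lemma binp_natDegree (k a : ℕ) : (binp k a).natDegree ≤ a := by
  unfold binp
  refine (natDegree_neg_one_pow_mul _ _).trans ?_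
  refine Polynomial.natDegree_comp_le.trans ?_
  calc (bin a).natDegree * (Polynomial.C (k : ℝ) * Polynomial.X).natDegree ≤ a * 1 := by
        apply Nat.mul_le_mul (bin_natDegree a)
        refine (Polynomial.natDegree_C_mul_le _ _).trans ?_
        exact Polynomial.natDegree_X_le
    _ = a := mul_one a

/-- coefficient polynomials of `(1-X)^{kj} FF j / h j` -/
noncomputable def fcp (k : ℕ) : ℕ → Polynomial ℝ := cv (binp k) ppi

lemma fcp_natDegree (k m : ℕ) : (fcp k m).natDegree ≤ m :=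
  cv_natDegree (binp_natDegree k) ppi_natDegree m

lemma pow_mul_FF (k j : ℕ) : (1 - X) ^ (k * j) * FF j = C (h j) * PF (fcp k) j := by
  unfold FF fcp
  rw [← PF_mul, PF_binp]
  ring

/-- families `C(f j) * PF p j` have residues -/
lemma HRF_PF {f : ℕ → ℝ} (hf : Cl 0 f) (p : ℕ → Polynomial ℝ) :
    HRF (fun j => C (f j) * PF p j) := by
  intro m
  refine (HR_poly_mul hf (p m)).congr fun j _ => ?_
  rw [coeff_C_mul, coeff_PF]

lemma gh_Cl {l : ℕ} {g : ℕ → ℝ} (hg : Cl l g) : Cl (l + 1) (fun j => g j * h j) := hg.mul h_Cl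

lemma HRF_fam {g : ℕ → ℝ} (hg : Cl 0 g) (k : ℕ) :
    HRF (fun j => C (g j) * ((1 - X) ^ (k * j) * FF j)) := by
  refine (HRF_PF ((gh_Cl hg).weaken' (Nat.zero_le _)) (fcp k)).congr fun j _ => ?_
  rw [pow_mul_FF, map_mul]; ring

/-- formal counterpart of `(1-z) W k g` -/
noncomputable def AA (k : ℕ) (g : ℕ → ℝ) : ℝ⟦X⟧ :=
  RS (fun j => C (g j) * ((1 - X) ^ (k * j) * FF j))

lemma coeff_AA (k : ℕ) (g : ℕ → ℝ) (m : ℕ) : coeff m (AA k g) =
    res (fun j => g j * h j * (fcp k m).eval (j : ℝ)) := by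
  unfold AA
  rw [coeff_RS]
  apply res_congr
  intro j _
  rw [pow_mul_FF, coeff_C_mul, coeff_C_mul, coeff_PF]
  ring

lemma coeff_AA_eq_zero {l : ℕ} {g : ℕ → ℝ} (hg : Cl l g) {k m : ℕ} (hm : m < l) :
    coeff m (AA k g) = 0 := by
  rw [coeff_AA]
  exact (HasRes_small_poly (gh_Cl hg) (fcp_natDegree k m) (by omega)).eq

lemma AA_congr {g g' : ℕ → ℝ} (k : ℕ) (h : ∀ j, 0 < j → g j = g' j) : AA k g = AA k g' :=
  RS_congr fun j hj => by rw [h j hj]

lemma AA_sub {g g' : ℕ → ℝ} (hg : Cl 0 g) (hg' : Cl 0 g') (k : ℕ) :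
    AA k (fun j => g j - g' j) = AA k g - AA k g' := by
  unfold AA
  rw [← RS_sub (HRF_fam hg k) (HRF_fam hg' k)]
  apply RS_congr
  intro j _
  rw [map_sub]; ring

lemma AA_add {g g' : ℕ → ℝ} (hg : Cl 0 g) (hg' : Cl 0 g') (k : ℕ) :
    AA k (fun j => g j + g' j) = AA k g + AA k g' := by
  unfold AA
  rw [← RS_add (HRF_fam hg k) (HRF_fam hg' k)]
  apply RS_congr
  intro j _
  rw [map_add]; ring

lemma AA_C_mul {g : ℕ → ℝ} (hg : Cl 0 g) (c : ℝ) (k : ℕ) :
    AA k (fun j => c * g j) = C c * AA k g := by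
  unfold AA
  rw [mul_RS (HRF_fam hg k)]
  apply RS_congr
  intro j _
  rw [map_mul]; ring

/-- formal (R1) -/
lemma AA_deriv {g : ℕ → ℝ} (hg : Cl 1 g) (k : ℕ) :
    (1 - X) * (X * d⁄dX ℝ (AA k g)) = (1 - X) * (AA k g - AA (k + 1) g) -
      C (k : ℝ) * X * AA k (fun j => j * g j) := by
  have hg0 : Cl 0 g := hg.weaken' (Nat.zero_le _)
  have hX : HRF (fun j => X * d⁄dX ℝ (C (g j) * ((1 - X) ^ (k * j) * FF j))) := by
    intro m
    refine ((HRF_fam hg0 k m).const_mul m).congr fun j _ => ?_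
    rw [coeff_X_mul_deriv]
  unfold AA
  rw [RS_X_deriv (HRF_fam hg0 k), mul_RS hX, ← RS_sub (HRF_fam hg0 k) (HRF_fam hg0 (k + 1)),
    mul_RS ((HRF_fam hg0 k).sub (HRF_fam hg0 (k + 1))), mul_RS (HRF_fam hg.mul_j k),
    ← RS_sub (((HRF_fam hg0 k).sub (HRF_fam hg0 (k + 1))).mul _) ((HRF_fam hg.mul_j k).mul _)]
  apply RS_congr
  intro j _
  have h3 : d⁄dX ℝ (C (g j) * ((1 - X) ^ (k * j) * FF j)) =
      C (g j) * d⁄dX ℝ ((1 - X) ^ (k * j) * FF j) := by
    rw [← smul_eq_C_mul, ← smul_eq_C_mul, Derivation.map_smul]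
  have h4 : (C (j * g j) : ℝ⟦X⟧) = (j : ℝ⟦X⟧) * C (g j) := by
    rw [map_mul]; simp
  have h5 : (C (k : ℝ) : ℝ⟦X⟧) = (k : ℝ⟦X⟧) := by simp
  have h6 := derivative_one_sub_X_pow' (k * j)
  have h7 := FF_ode j
  rw [h3, Derivation.leibniz, smul_eq_mul, smul_eq_mul, h4, h5]
  have h8 : (1 - X : ℝ⟦X⟧) ^ ((k + 1) * j) = (1 - X) ^ (k * j) * (1 - X) ^ j := by
    rw [← pow_add]; ring_nf
  rw [h8]
  push_cast at h6
  linear_combination (C (g j) * (1 - X) ^ (k * j) * (1 - X)) * h7 + (C (g j) * X * FF j) * h6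

/-- remainders of the expansion of `FF (j-1)` -/
noncomputable def Rm (I j : ℕ) : ℝ⟦X⟧ := FF (j - 1) - ∑ i ∈ range (I + 1),
    C (1 / (i.factorial * (j : ℝ) ^ i)) * ((1 - X) ^ (j * i) * FF j)

/-- formal counterpart of `TI` -/
noncomputable def TIp (k I : ℕ) (g : ℕ → ℝ) : ℝ⟦X⟧ :=
  RS (fun j => C (g j) * ((1 - X) ^ (k * j) * (C (j : ℝ) * Rm I j)))

lemma h_pred {j : ℕ} (hj : 0 < j) : h (j - 1) = Real.exp (1 / (j : ℝ)) * h j := by
  have := h_succ (j - 1)
  rwa [Nat.sub_add_cancel hj] at this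

/-- `FF (j-1)` as a polynomial family -/
lemma FF_pred {j : ℕ} (hj : 0 < j) : FF (j - 1) = C (Real.exp (1 / (j : ℝ)) * h j) *
    PF (fun m => (ppi m).comp (Polynomial.X - 1)) j := by
  unfold FF
  rw [h_pred hj]
  congr 1
  ext m
  rw [coeff_PF, coeff_PF, Polynomial.eval_comp]
  have : ((j - 1 : ℕ) : ℝ) = (j : ℝ) - 1 := by
    rw [Nat.cast_sub hj]; simp
  rw [this]
  simp

lemma exp_inv_Cl : Cl 0 (fun j : ℕ => Real.exp (1 / (j : ℝ))) := by
  have := (Cl.pow_inv 1).exp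
  refine this.congr fun j _ => ?_
  rw [pow_one]

lemma HRF_pred {f : ℕ → ℝ} (hf : Cl 0 f) (k : ℕ) :
    HRF (fun j => C (f j) * ((1 - X) ^ (k * j) * FF (j - 1))) := by
  have h1 : Cl 0 (fun j => f j * (Real.exp (1 / (j : ℝ)) * h j)) := by
    have := hf.mul (exp_inv_Cl.mul (h_Cl.weaken' (Nat.zero_le 1)))
    simpa using this
  refine (HRF_PF h1 (cv (binp k) (fun m => (ppi m).comp (Polynomial.X - 1)))).congr
    fun j hj => ?_
  rw [← PF_mul, PF_binp, FF_pred hj, map_mul]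
  ring

lemma HRF_Rm {g : ℕ → ℝ} (hg : Cl 1 g) (k I : ℕ) :
    HRF (fun j => C (g j) * ((1 - X) ^ (k * j) * (C (j : ℝ) * Rm I j))) := by
  induction I with
  | zero =>
    refine ((HRF_pred hg.mul_j k).sub (HRF_fam hg.mul_j k)).congr fun j _ => ?_
    unfold Rm
    rw [sum_range_one, Nat.factorial_zero, pow_zero, mul_zero, pow_zero, Nat.cast_one, mul_one,
      div_one, map_one, map_mul]
    ring
  | succ I ih =>
    have h1 : Cl 0 (wt (I + 1) g) := (wt_Cl hg I).weaken' (Nat.zero_le _)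
    refine (ih.sub (HRF_fam h1 (k + I + 1))).congr fun j _ => ?_
    unfold Rm wt
    rw [sum_range_succ _ (I + 1), map_mul, map_mul]
    have : (1 - X : ℝ⟦X⟧) ^ ((k + I + 1) * j) = (1 - X) ^ (k * j) * (1 - X) ^ (j * (I + 1)) := by
      rw [← pow_add]; ring_nf
    rw [this]
    ring

lemma TIp_succ {g : ℕ → ℝ} (hg : Cl 1 g) (k I : ℕ) :
    TIp k I g = AA (k + I + 1) (wt (I + 1) g) + TIp k (I + 1) g := by
  have h1 : Cl 0 (wt (I + 1) g) := (wt_Cl hg I).weaken' (Nat.zero_le _)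
  unfold TIp AA
  rw [← RS_add (HRF_fam h1 (k + I + 1)) (HRF_Rm hg k (I + 1))]
  apply RS_congr
  intro j _
  unfold Rm wt
  rw [sum_range_succ _ (I + 1), map_mul, map_mul]
  have : (1 - X : ℝ⟦X⟧) ^ ((k + I + 1) * j) = (1 - X) ^ (k * j) * (1 - X) ^ (j * (I + 1)) := by
    rw [← pow_add]; ring_nf
  rw [this]
  ring

lemma Cl.shift {l : ℕ} {f : ℕ → ℝ} (hf : Cl l f) : Cl l (fun j => f (j + 1)) :=
  fun N => (hf N).shift

/-- formal (R2) -/
lemma AA_succ_add {g : ℕ → ℝ} (hg : Cl 1 g) (k : ℕ) :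
    AA (k + 1) g + TIp k 1 g =
      (1 - X) ^ k * AA k (fun j => ((j + 1 : ℕ) : ℝ) * g (j + 1)) - AA k (fun j => j * g j) := by
  have hg0 : Cl 0 g := hg.weaken' (Nat.zero_le _)
  have hjg : Cl 0 (fun j => j * g j) := hg.mul_j
  have hsh : Cl 0 (fun j => ((j + 1 : ℕ) : ℝ) * g (j + 1)) := hjg.shift
  have h1 : AA (k + 1) g + TIp k 1 g = RS (fun j => C (j * g j) *
      ((1 - X) ^ (k * j) * FF (j - 1))) - AA k (fun j => j * g j) := by
    unfold AA TIp
    rw [← RS_add (HRF_fam hg0 (k + 1)) (HRF_Rm hg k 1), ← RS_sub (HRF_pred hjg k) (HRF_fam hjg k)]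
    apply RS_congr
    intro j hj
    have hj' : (j : ℝ) ≠ 0 := by positivity
    unfold Rm
    rw [sum_range_succ, sum_range_one]
    have h2 : (C (j : ℝ) : ℝ⟦X⟧) * C (1 / ((Nat.factorial 1 : ℕ) * (j : ℝ) ^ 1)) = 1 := by
      rw [← map_mul, Nat.factorial_one, pow_one]
      have : (j : ℝ) * (1 / (((1 : ℕ) : ℝ) * j)) = 1 := by field_simp; simp
      rw [this, map_one]
    have h3 : (C (1 / ((Nat.factorial 0 : ℕ) * (j : ℝ) ^ 0)) : ℝ⟦X⟧) = 1 := by simp
    have h4 : (1 - X : ℝ⟦X⟧) ^ ((k + 1) * j) = (1 - X) ^ (k * j) * (1 - X) ^ j := by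
      rw [← pow_add]; ring_nf
    rw [h3, h4, map_mul, mul_zero, mul_one, pow_zero, one_mul, one_mul]
    linear_combination (-(C (g j) * (1 - X) ^ (k * j) * (1 - X) ^ j * FF j)) * h2
  rw [h1]
  congr 1
  rw [← RS_shift (HRF_pred hjg k)]
  unfold AA
  rw [mul_RS (HRF_fam hsh k)]
  apply RS_congr
  intro j _
  rw [Nat.add_sub_cancel]
  have h4 : (1 - X : ℝ⟦X⟧) ^ (k * (j + 1)) = (1 - X) ^ (k * j) * (1 - X) ^ k := by
    rw [← pow_add]; ring_nf
  rw [h4]
  ring

lemma Rm_ode {j : ℕ} (hj : 0 < j) (I : ℕ) : X * d⁄dX ℝ (Rm I j) =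
    (1 - (1 - X) ^ (j - 1)) * Rm I j - X * ((1 - X) ^ (j - 1) *
      (C (1 / (I.factorial * (j : ℝ) ^ I)) * ((1 - X) ^ (j * I) * FF j))) := by
  have hj' : (j : ℝ) ≠ 0 := by positivity
  have hw : (1 - X : ℝ⟦X⟧) ^ j = (1 - X) ^ (j - 1) * (1 - X) := by
    rw [← pow_succ, Nat.sub_add_cancel hj]
  have hFFj := FF_ode j
  have hFFp := FF_ode (j - 1)
  have hdC : ∀ (c : ℝ) (f : ℝ⟦X⟧), d⁄dX ℝ (C c * f) = C c * d⁄dX ℝ f := by
    intro c f
    rw [← smul_eq_C_mul, ← smul_eq_C_mul, Derivation.map_smul]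
  have hwne : (1 - X : ℝ⟦X⟧) ≠ 0 := by
    intro h
    have := congrArg (coeff 0) h
    simp at this
  -- derivative of a power, divided form
  have hpow : ∀ e : ℕ, X * d⁄dX ℝ ((1 - X : ℝ⟦X⟧) ^ (j * e)) * (1 - X) =
      -(X * ((j * e : ℕ) : ℝ⟦X⟧) * (1 - X) ^ (j * e)) := by
    intro e
    have := derivative_one_sub_X_pow' (j * e)
    linear_combination X * this
  induction I with
  | zero =>
    have h0 : Rm 0 j = FF (j - 1) - FF j := by
      unfold Rm
      rw [sum_range_one]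
      simp
    rw [h0, map_sub, Nat.factorial_zero, pow_zero, Nat.cast_one, mul_one, div_one, map_one,
      mul_zero, pow_zero]
    rw [hw] at hFFj
    linear_combination hFFp - hFFj
  | succ I ih =>
    have h1 : Rm (I + 1) j = Rm I j - C (1 / ((I + 1).factorial * (j : ℝ) ^ (I + 1))) *
        ((1 - X) ^ (j * (I + 1)) * FF j) := by
      unfold Rm
      rw [sum_range_succ _ (I + 1)]
      ring
    have h2 : (C (1 / (I.factorial * (j : ℝ) ^ I)) : ℝ⟦X⟧) =
        ((j * (I + 1) : ℕ) : ℝ⟦X⟧) * C (1 / ((I + 1).factorial * (j : ℝ) ^ (I + 1))) := by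
      have : (((j * (I + 1) : ℕ) : ℝ⟦X⟧)) = C ((j * (I + 1) : ℕ) : ℝ) := by simp
      rw [this, ← map_mul]
      congr 1
      rw [Nat.factorial_succ, pow_succ]
      have hf : (I.factorial : ℝ) ≠ 0 := by positivity
      have hI : ((I : ℝ) + 1) ≠ 0 := by positivity
      push_cast
      field_simp
    have h3 : (1 - X : ℝ⟦X⟧) ^ (j * (I + 1)) = (1 - X) ^ (j * I) * ((1 - X) ^ (j - 1) * (1 - X)) := by
      rw [← hw, ← pow_add]; ring_nf
    apply mul_right_cancel₀ hwne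
    rw [h1, map_sub, hdC, Derivation.leibniz, smul_eq_mul, smul_eq_mul]
    have h4 := hpow (I + 1)
    rw [h2] at ih
    rw [hw] at hFFj
    rw [h3] at h4 ⊢
    linear_combination (1 - X) * ih + (-(C (1 / ((I + 1).factorial * (j : ℝ) ^ (I + 1))) * FF j)) * h4 -
      (C (1 / ((I + 1).factorial * (j : ℝ) ^ (I + 1))) * ((1 - X) ^ (j * I) *
        ((1 - X) ^ (j - 1) * (1 - X))) * (1 - X)) * hFFj

end Pool.Agent.Lib.MP_493311_pr
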