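import Mathlib
import Pool.Agent.Lib.MP_493311_pr.Formal

section

section

open Finset PowerSeries Filter
open scoped Topology

namespace Pool.Agent.Lib.MP_493311_pr

lemma choose_le_pow' {n a : ℕ} {x : ℝ} (hx : (n : ℝ) ≤ x) : ((n.choose a : ℕ) : ℝ) ≤ x ^ a := by
  have h1 : n.choose a ≤ n ^ a := Nat.choose_le_pow n a
  calc ((n.choose a : ℕ) : ℝ) ≤ ((n ^ a : ℕ) : ℝ) := by exact_mod_cast h1
    _ = (n : ℝ) ^ a := by push_cast; rfl
    _ ≤ x ^ a := by gcongr

lemma coeff_pow_mul_FF_bound (c m : ℕ) : ∃ C : ℝ, 0 ≤ C ∧ ∀ j : ℕ, 0 < j → ∀ n : ℕ,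
    n ≤ c * j → |coeff m ((1 - X) ^ n * FF j)| ≤ C * (j : ℝ) ^ m / j := by
  refine ⟨∑ x ∈ antidiagonal m, (c : ℝ) ^ x.1 * ab (ppi x.2), ?_, ?_⟩
  · apply sum_nonneg
    intro x _
    exact mul_nonneg (by positivity) (ab_nonneg _)
  · intro j hj n hn
    have hj' : (0 : ℝ) < j := by exact_mod_cast hj
    rw [coeff_mul, sum_mul, sum_div]
    refine (abs_sum_le_sum_abs _ _).trans (sum_le_sum fun x hx => ?_)
    rw [abs_mul, coeff_one_sub_X_pow', abs_mul, abs_pow, abs_neg, abs_one, one_pow, one_mul,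
      Nat.abs_cast]
    unfold FF
    rw [coeff_C_mul, coeff_PF, abs_mul, abs_of_pos (h_pos j)]
    have hx' := mem_antidiagonal.mp hx
    have hn' : (n : ℝ) ≤ c * j := by exact_mod_cast hn
    have h1 := choose_le_pow' (a := x.1) hn'
    have h2 := abs_eval_le (ppi_natDegree x.2) hj
    have h3 := h_le' hj
    have h0 := ab_nonneg (ppi x.2)
    calc ((n.choose x.1 : ℕ) : ℝ) * (h j * |Polynomial.eval (j : ℝ) (ppi x.2)|)
        ≤ ((c : ℝ) * j) ^ x.1 * (1 / j * (ab (ppi x.2) * (j : ℝ) ^ x.2)) := by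
          apply mul_le_mul h1 _ (mul_nonneg (h_pos j).le (abs_nonneg _)) (by positivity)
          exact mul_le_mul h3 h2 (abs_nonneg _) (by positivity)
      _ = _ := by
          rw [← hx', pow_add, mul_pow]
          field_simp

lemma Rm_bound (I m : ℕ) : ∃ C : ℝ, 0 ≤ C ∧ ∀ j : ℕ, 0 < j →
    |coeff m (Rm I j)| ≤ C * (j : ℝ) ^ m / (j : ℝ) ^ (I + 2) := by
  induction m using Nat.strong_induction_on with
  | _ m ih =>
    rcases m with _ | m
    · refine ⟨Real.exp 1, (Real.exp_pos _).le, fun j hj => ?_⟩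
      have hj' : (1 : ℝ) ≤ j := by exact_mod_cast hj
      have h1 : coeff 0 (Rm I j) = h j * (Real.exp (1 / (j : ℝ)) -
          ∑ i ∈ range (I + 1), (1 / (j : ℝ)) ^ i / i.factorial) := by
        unfold Rm
        rw [map_sub, map_sum, coeff_zero_FF, h_pred hj, mul_sub, mul_sum]
        congr 1
        · ring
        · apply sum_congr rfl
          intro i _
          rw [coeff_C_mul, coeff_zero_eq_constantCoeff_apply, map_mul,
            ← coeff_zero_eq_constantCoeff_apply, ← coeff_zero_eq_constantCoeff_apply,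
            coeff_one_sub_X_pow', coeff_zero_FF]
          simp only [pow_zero, Nat.choose_zero_right, Nat.cast_one, one_mul]
          rw [one_div_pow]
          field_simp
      rw [h1, abs_mul, abs_of_pos (h_pos j), pow_zero, mul_one]
      have h2 := exp_taylor_bound (1 / (j : ℝ)) (I + 1)
      rw [abs_of_pos (by positivity : (0 : ℝ) < 1 / j)] at h2
      have h3 : Real.exp (1 / (j : ℝ)) ≤ Real.exp 1 := by
        apply Real.exp_le_exp.mpr
        rw [div_le_one (by linarith)]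
        exact hj'
      calc h j * |Real.exp (1 / (j : ℝ)) - ∑ i ∈ range (I + 1), (1 / (j : ℝ)) ^ i / i.factorial|
          ≤ 1 / j * ((1 / (j : ℝ)) ^ (I + 1) * Real.exp 1) := by
            apply mul_le_mul (h_le' hj) _ (abs_nonneg _) (by positivity)
            refine h2.trans ?_
            gcongr
        _ = _ := by
            rw [one_div_pow, pow_succ (j : ℝ) (I + 1)]
            field_simp
    · choose! C hC0 hC using ih
      obtain ⟨D, hD0, hD⟩ := coeff_pow_mul_FF_bound (I + 1) m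
      refine ⟨∑ t ∈ range (m + 1), C (m - t) + D, ?_, ?_⟩
      · apply add_nonneg _ hD0
        apply sum_nonneg
        intro t _
        exact hC0 _ (by omega)
      · intro j hj
        have hj' : (1 : ℝ) ≤ j := by exact_mod_cast hj
        have h1 := congrArg (coeff (m + 1)) (Rm_ode hj I)
        have h2 : coeff 0 (1 - (1 - X) ^ (j - 1) : ℝ⟦X⟧) = 0 := by
          rw [map_sub, coeff_one_sub_X_pow']; simp
        have h5 : coeff (m + 1) ((1 - (1 - X) ^ (j - 1)) * Rm I j) = ∑ t ∈ range (m + 1),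
            coeff (t + 1) (1 - (1 - X) ^ (j - 1) : ℝ⟦X⟧) * coeff (m + 1 - (t + 1)) (Rm I j) := by
          rw [coeff_mul, Nat.sum_antidiagonal_eq_sum_range_succ_mk, sum_range_succ', h2, zero_mul,
            add_zero]
        have h6 : (1 - X : ℝ⟦X⟧) ^ (j - 1) * (PowerSeries.C (1 / (I.factorial * (j : ℝ) ^ I)) *
            ((1 - X) ^ (j * I) * FF j)) = PowerSeries.C (1 / (I.factorial * (j : ℝ) ^ I)) *
            ((1 - X) ^ (j - 1 + j * I) * FF j) := by
          rw [pow_add]; ring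
        rw [coeff_X_mul_deriv, map_sub, h5, coeff_succ_X_mul, h6, coeff_C_mul] at h1
        have h7 : ∀ t ∈ range (m + 1), |coeff (t + 1) (1 - (1 - X) ^ (j - 1) : ℝ⟦X⟧) *
            coeff (m + 1 - (t + 1)) (Rm I j)| ≤
            C (m - t) * ((j : ℝ) ^ (m + 1) / (j : ℝ) ^ (I + 2)) := by
          intro t ht
          have ht' := mem_range.mp ht
          rw [abs_mul, map_sub, coeff_one, if_neg (by omega), coeff_one_sub_X_pow', zero_sub,
            abs_neg, abs_mul, abs_pow, abs_neg, abs_one, one_pow, one_mul, Nat.abs_cast,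
            show m + 1 - (t + 1) = m - t by omega]
          have h8 : ((j - 1 : ℕ) : ℝ) ≤ j := by exact_mod_cast Nat.sub_le j 1
          have h9 := choose_le_pow' (a := t + 1) h8
          calc _ ≤ (j : ℝ) ^ (t + 1) * (C (m - t) * (j : ℝ) ^ (m - t) / (j : ℝ) ^ (I + 2)) :=
                mul_le_mul h9 (hC (m - t) (by omega) j hj) (abs_nonneg _) (by positivity)
            _ = _ := by
                rw [show m + 1 = (t + 1) + (m - t) by omega, pow_add]
                ring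
        have h8 : |1 / (I.factorial * (j : ℝ) ^ I) * coeff m ((1 - X) ^ (j - 1 + j * I) * FF j)| ≤
            D * ((j : ℝ) ^ (m + 1) / (j : ℝ) ^ (I + 2)) := by
          rw [abs_mul, abs_of_pos (by positivity)]
          have h9 := hD j hj (j - 1 + j * I) (by
            have : (I + 1) * j = j * I + j := by ring
            omega)
          have h10 : (1 : ℝ) ≤ I.factorial := by exact_mod_cast Nat.factorial_pos I
          calc 1 / (I.factorial * (j : ℝ) ^ I) * |coeff m ((1 - X) ^ (j - 1 + j * I) * FF j)|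
              ≤ 1 / (1 * (j : ℝ) ^ I) * (D * (j : ℝ) ^ m / j) := by
                apply mul_le_mul _ h9 (abs_nonneg _) (by positivity)
                gcongr
            _ = _ := by
                rw [show I + 2 = I + 1 + 1 by ring, pow_succ (j : ℝ) m, pow_succ (j : ℝ) (I + 1),
                  pow_succ (j : ℝ) I]
                field_simp
        have h9 : |coeff (m + 1) (Rm I j)| ≤ |((m + 1 : ℕ) : ℝ) * coeff (m + 1) (Rm I j)| := by
          rw [abs_mul, Nat.abs_cast]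
          apply le_mul_of_one_le_left (abs_nonneg _)
          exact_mod_cast Nat.succ_pos m
        refine h9.trans ?_
        rw [h1]
        refine (abs_sub _ _).trans ?_
        rw [mul_div_assoc, add_mul, sum_mul]
        exact add_le_add ((abs_sum_le_sum_abs _ _).trans (sum_le_sum h7)) h8

lemma coeff_TIp_eq_zero {l k I m : ℕ} {g : ℕ → ℝ} (hg : Cl l g) (hm : m + 1 ≤ l + I) :
    coeff m (TIp k I g) = 0 := by
  unfold TIp
  rw [coeff_RS]
  obtain ⟨B, hB0, hB⟩ := hg.bound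
  have hbd := fun b => Rm_bound I b
  choose C hC0 hC using hbd
  apply HasRes.eq
  apply HasRes.small (C := B * ∑ x ∈ antidiagonal m, (k : ℝ) ^ x.1 * C x.2)
  intro j hj
  have hj' : (1 : ℝ) ≤ j := by exact_mod_cast hj
  have h1 : (1 - X : ℝ⟦X⟧) ^ (k * j) * (PowerSeries.C (j : ℝ) * Rm I j) =
      PowerSeries.C (j : ℝ) * ((1 - X) ^ (k * j) * Rm I j) := by ring
  rw [h1, coeff_C_mul, coeff_C_mul, coeff_mul, abs_mul, abs_mul, Nat.abs_cast]
  have h2 : |∑ x ∈ antidiagonal m, coeff x.1 ((1 - X : ℝ⟦X⟧) ^ (k * j)) * coeff x.2 (Rm I j)| ≤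
      (∑ x ∈ antidiagonal m, (k : ℝ) ^ x.1 * C x.2) * ((j : ℝ) ^ m / (j : ℝ) ^ (I + 2)) := by
    rw [sum_mul]
    refine (abs_sum_le_sum_abs _ _).trans (sum_le_sum fun x hx => ?_)
    have hx' := mem_antidiagonal.mp hx
    rw [abs_mul, coeff_one_sub_X_pow', abs_mul, abs_pow, abs_neg, abs_one, one_pow, one_mul,
      Nat.abs_cast]
    have h3 : (((k * j : ℕ)) : ℝ) ≤ k * j := by push_cast; exact le_rfl
    have h4 := choose_le_pow' (a := x.1) h3
    calc _ ≤ ((k : ℝ) * j) ^ x.1 * (C x.2 * (j : ℝ) ^ x.2 / (j : ℝ) ^ (I + 2)) :=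
          mul_le_mul h4 (hC x.2 j hj) (abs_nonneg _) (by positivity)
      _ = _ := by
          rw [← hx', pow_add, mul_pow]
          ring
  have hS : 0 ≤ ∑ x ∈ antidiagonal m, (k : ℝ) ^ x.1 * C x.2 :=
    sum_nonneg fun x _ => mul_nonneg (by positivity) (hC0 _)
  calc |g j| * ((j : ℝ) * |∑ x ∈ antidiagonal m, coeff x.1 ((1 - X : ℝ⟦X⟧) ^ (k * j)) *
        coeff x.2 (Rm I j)|)
      ≤ B / (j : ℝ) ^ l * (j * ((∑ x ∈ antidiagonal m, (k : ℝ) ^ x.1 * C x.2) *
        ((j : ℝ) ^ m / (j : ℝ) ^ (I + 2)))) := by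
        apply mul_le_mul (hB j hj) _ (by positivity) (by positivity)
        exact mul_le_mul_of_nonneg_left h2 (by positivity)
    _ = (B * ∑ x ∈ antidiagonal m, (k : ℝ) ^ x.1 * C x.2) *
        ((j : ℝ) ^ (m + 1) / (j : ℝ) ^ (l + I + 2)) := by
        rw [pow_succ (j : ℝ) m, show l + I + 2 = l + (I + 2) by ring, pow_add (j : ℝ) l]
        ring
    _ ≤ (B * ∑ x ∈ antidiagonal m, (k : ℝ) ^ x.1 * C x.2) * (1 / (j : ℝ) ^ 2) := by
        apply mul_le_mul_of_nonneg_left _ (mul_nonneg hB0 hS)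
        rw [div_le_div_iff₀ (by positivity) (by positivity), one_mul, ← pow_add]
        exact pow_le_pow_right₀ hj' (by omega)
    _ = _ := by ring

/-- shifting down -/
noncomputable def SD (A : ℝ⟦X⟧) : ℝ⟦X⟧ := PowerSeries.mk fun i => coeff (i + 1) A

lemma coeff_SD (A : ℝ⟦X⟧) (i : ℕ) : coeff i (SD A) = coeff (i + 1) A := coeff_mk _ _

lemma X_mul_SD {A : ℝ⟦X⟧} (h : coeff 0 A = 0) : X * SD A = A := by
  ext i
  rcases i with _ | i
  · rw [h]; simp
  · rw [coeff_succ_X_mul, coeff_SD]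

/-- formal coefficient series of `W k g` in front of the logarithm -/
noncomputable def BB (k : ℕ) (g : ℕ → ℝ) : ℝ⟦X⟧ := SD (AA k g)

lemma X_mul_BB {l : ℕ} (hl : 1 ≤ l) {g : ℕ → ℝ} (hg : Cl l g) (k : ℕ) :
    X * BB k g = AA k g := X_mul_SD (coeff_AA_eq_zero hg (by omega))

lemma coeff_BB_eq_zero {l : ℕ} {g : ℕ → ℝ} (hg : Cl l g) {k i : ℕ} (hi : i + 1 < l) :
    coeff i (BB k g) = 0 := by
  unfold BB
  rw [coeff_SD]
  exact coeff_AA_eq_zero hg hi

/-- substitution `z = 1 - w` for polynomials -/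
noncomputable def tld (P : Polynomial ℝ) : ℝ⟦X⟧ := ((P.comp (1 - Polynomial.X) : Polynomial ℝ) : ℝ⟦X⟧)

lemma tld_mul (P Q : Polynomial ℝ) : tld (P * Q) = tld P * tld Q := by
  unfold tld; rw [Polynomial.mul_comp, Polynomial.coe_mul]

lemma tld_sub (P Q : Polynomial ℝ) : tld (P - Q) = tld P - tld Q := by
  unfold tld; rw [Polynomial.sub_comp, Polynomial.coe_sub]

lemma tld_add (P Q : Polynomial ℝ) : tld (P + Q) = tld P + tld Q := by
  unfold tld; rw [Polynomial.add_comp, Polynomial.coe_add]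

lemma tld_C (c : ℝ) : tld (Polynomial.C c) = C c := by
  unfold tld; rw [Polynomial.C_comp, Polynomial.coe_C]

lemma tld_one : tld 1 = 1 := by
  unfold tld; simp

lemma tld_X : tld Polynomial.X = 1 - X := by
  unfold tld; simp

lemma tld_X_pow (k : ℕ) : tld (Polynomial.X ^ k) = (1 - X) ^ k := by
  unfold tld; simp

/-- auxiliary polynomial -/
noncomputable def Uk (k : ℕ) : Polynomial ℝ := ∑ i ∈ range k, Pk (i + 1)

/-- auxiliary polynomial -/
noncomputable def Vk (k : ℕ) : Polynomial ℝ := Polynomial.C (k : ℝ) * Pk k - Uk k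

lemma Pk_mul' (k : ℕ) : Pk k * (1 - Polynomial.X) = 1 - Polynomial.X ^ k := by
  unfold Pk
  exact geom_sum_mul_neg (Polynomial.X : Polynomial ℝ) k

lemma Uk_spec (k : ℕ) : Polynomial.C (k : ℝ) - Polynomial.X * Pk k = (1 - Polynomial.X) * Uk k := by
  induction k with
  | zero => simp [Uk, Pk]
  | succ k ih =>
    have h1 : Uk (k + 1) = Uk k + Pk (k + 1) := by unfold Uk; rw [sum_range_succ]
    have h2 : Pk (k + 1) = Pk k + Polynomial.X ^ k := by unfold Pk; rw [sum_range_succ]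
    have h3 := Pk_mul' (k + 1)
    rw [h1]
    have h4 : (Polynomial.C ((k + 1 : ℕ) : ℝ) : Polynomial ℝ) = Polynomial.C (k : ℝ) + 1 := by
      push_cast; rw [map_add, map_one]
    rw [h4]
    have h5 : Polynomial.X * Pk (k + 1) = Polynomial.X * Pk k + Polynomial.X ^ (k + 1) := by
      rw [h2, pow_succ]; ring
    rw [h5]
    linear_combination ih - h3

lemma Vk_spec (k : ℕ) : Polynomial.X * Pk k - Polynomial.C (k : ℝ) * Polynomial.X ^ k =
    (1 - Polynomial.X) * Vk k := by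
  unfold Vk
  have h1 := Uk_spec k
  have h2 := Pk_mul' k
  linear_combination (-1) * h1 - Polynomial.C (k : ℝ) * h2

/-- iterated (formal) expansion of the tail -/
lemma TIp_expand {g : ℕ → ℝ} (hg : Cl 1 g) (k I N : ℕ) : TIp k I g =
    (∑ i ∈ range N, AA (k + (I + i) + 1) (wt (I + i + 1) g)) + TIp k (I + N) g := by
  induction N with
  | zero => simp
  | succ N ih =>
    rw [sum_range_succ, add_assoc, show I + (N + 1) = I + N + 1 by ring]
    rw [← TIp_succ hg k (I + N)]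
    exact ih

lemma TI_expand (g : ℕ → ℝ) (k I N : ℕ) : TI k I g =
    (∑ i ∈ range N, W (k + (I + i) + 1) (wt (I + i + 1) g)) + TI k (I + N) g := by
  induction N with
  | zero => simp
  | succ N ih =>
    rw [sum_range_succ, add_assoc, show I + (N + 1) = I + N + 1 by ring]
    rw [← TI_succ k (I + N)]
    exact ih

/-- the weight `Δ(jg) + (l-1) g` -/
noncomputable def gD (Λ : ℕ) (g : ℕ → ℝ) : ℕ → ℝ :=
  fun j => ((j + 1 : ℕ) : ℝ) * g (j + 1) - j * g j + Λ * g j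

lemma gD_Cl {Λ : ℕ} {g : ℕ → ℝ} (hg : Cl (Λ + 1) g) : Cl (Λ + 2) (gD Λ g) := hg.scale

/-- formal (R3) -/
lemma formal_R3 {Λ : ℕ} {g : ℕ → ℝ} (hg : Cl (Λ + 1) g) (k N : ℕ) :
    tld (Pk k) * ((1 - X) * (C (Λ : ℝ) * BB k g - X * d⁄dX ℝ (BB k g))) =
      -(X * (tld (Uk k) * BB (k + 1) g)) + C (k : ℝ) * ((1 - X) ^ k * BB k (gD Λ g)) +
      C (Λ : ℝ) * (X * (tld (Vk k) * BB k g)) -
      C (k : ℝ) * ((∑ i ∈ range N, BB (k + (1 + i) + 1) (wt (1 + i + 1) g)) +
        SD (TIp k (1 + N) g)) := by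
  have hg1 : Cl 1 g := hg.weaken' (by omega)
  have hg0 : Cl 0 g := hg.weaken' (by omega)
  have hjg : Cl 0 (fun j => j * g j) := hg1.mul_j
  have hsh : Cl 0 (fun j => ((j + 1 : ℕ) : ℝ) * g (j + 1)) := hjg.shift
  have hXne : (X : ℝ⟦X⟧) ≠ 0 := X_ne_zero
  apply mul_left_cancel₀ hXne
  -- formal relations
  have hR1 := AA_deriv hg1 k
  have hR2 := AA_succ_add hg1 k
  rw [TIp_expand hg1 k 1 N] at hR2
  have hP := congrArg tld (Pk_mul' k)
  have hU := congrArg tld (Uk_spec k)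
  have hV := congrArg tld (Vk_spec k)
  simp only [tld_mul, tld_sub, tld_C, tld_X, tld_one, tld_X_pow] at hP hU hV
  -- `AA` of gD
  have hgD : AA k (gD Λ g) = AA k (fun j => ((j + 1 : ℕ) : ℝ) * g (j + 1)) -
      AA k (fun j => j * g j) + C (Λ : ℝ) * AA k g := by
    rw [← AA_sub hsh hjg, ← AA_C_mul hg0, ← AA_add _ _]
    · rfl
    · have := hsh.add (hjg.const_mul (-1))
      exact this.congr fun j _ => by ring
    · exact hg0.const_mul _
  have e1 : X * BB k g = AA k g := X_mul_BB (by omega) hg k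
  have e2 : X * BB (k + 1) g = AA (k + 1) g := X_mul_BB (by omega) hg _
  have e3 : X * BB k (gD Λ g) = AA k (gD Λ g) := X_mul_BB (by omega) (gD_Cl hg) k
  have e4 : X * (∑ i ∈ range N, BB (k + (1 + i) + 1) (wt (1 + i + 1) g)) =
      ∑ i ∈ range N, AA (k + (1 + i) + 1) (wt (1 + i + 1) g) := by
    rw [mul_sum]
    apply sum_congr rfl
    intro i _
    exact X_mul_BB (l := Λ + 1 + (1 + i)) (by omega) (wt_Cl hg (1 + i)) _
  have e5 : X * SD (TIp k (1 + N) g) = TIp k (1 + N) g :=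
    X_mul_SD (coeff_TIp_eq_zero (l := Λ + 1) hg (by omega))
  have e6 : X * d⁄dX ℝ (AA k g) = AA k g + X * (X * d⁄dX ℝ (BB k g)) := by
    rw [← e1, Derivation.leibniz, smul_eq_mul, smul_eq_mul, derivative_X]
    ring
  rw [e6] at hR1
  rw [hgD] at e3
  linear_combination (C (Λ : ℝ) * tld (Pk k) * (1 - X)) * e1 - tld (Pk k) * hR1 -
    (-C (k : ℝ)) * hR2 + (tld (Uk k) * X) * e2 - C (k : ℝ) * (1 - X) ^ k * e3 -
    C (Λ : ℝ) * X * tld (Vk k) * e1 + C (k : ℝ) * e4 + C (k : ℝ) * e5 +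
    C (Λ : ℝ) * AA k g * hV - AA (k + 1) g * hU + C (k : ℝ) * AA k (fun j => j * g j) * hP

end Pool.Agent.Lib.MP_493311_pr
end

section

open Finset PowerSeries Filter
open scoped Topology

namespace Pool.Agent.Lib.MP_493311_pr

/-- rapidly decreasing coefficients -/
def RD (f : ℝ⟦X⟧) : Prop := ∀ R, BigO R f

lemma RD.sub {f g : ℝ⟦X⟧} (hf : RD f) (hg : RD g) : RD (f - g) := fun R => (hf R).sub (hg R)

lemma RD.X_mul {f : ℝ⟦X⟧} (hf : RD f) : RD (X * f) := fun R => (hf R).X_mul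

lemma RD.X_pow_mul {f : ℝ⟦X⟧} (hf : RD f) (k : ℕ) : RD (X ^ k * f) :=
  fun R => (hf R).X_pow_mul k

lemma RD.const (c : ℝ) : RD (PowerSeries.C c) := fun R => by
  have := BigO.poly R (Polynomial.C c)
  rwa [Polynomial.coe_C] at this

lemma RD.deriv {f : ℝ⟦X⟧} (hf : RD f) : RD (d⁄dX ℝ f) := fun R => (hf (R + 1)).deriv

lemma RD.one_sub_X_mul {f : ℝ⟦X⟧} (hf : RD f) : RD ((1 - X) * f) := by
  rw [sub_mul, one_mul]; exact hf.sub hf.X_mul

lemma RD.summable {f : ℝ⟦X⟧} (hf : RD f) (m : ℕ) :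
    Summable fun n : ℕ => ((n.choose m : ℕ) : ℝ) * coeff n f := by
  obtain ⟨C, hC0, hC⟩ := (hf (m + 2)).nonneg
  refine (tail_sum (l := 0) (n := 0) hC0 fun n => ?_).1
  rw [abs_mul, Nat.abs_cast]
  have h1 : ((n.choose m : ℕ) : ℝ) ≤ ((n : ℝ) + 1) ^ m := choose_le_pow' (by linarith)
  have h2 := hC n
  rw [Real.norm_eq_abs] at h2
  calc ((n.choose m : ℕ) : ℝ) * |coeff n f| ≤ ((n : ℝ) + 1) ^ m * (C / ((n : ℝ) + 1) ^ (m + 2)) :=
        mul_le_mul h1 h2 (abs_nonneg _) (by positivity)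
    _ = _ := by
        rw [pow_add]
        push_cast
        rw [zero_add]
        field_simp

/-- moments -/
noncomputable def mo (m : ℕ) (f : ℝ⟦X⟧) : ℝ := ∑' n : ℕ, ((n.choose m : ℕ) : ℝ) * coeff n f

/-- the Taylor series at `1`, as a formal series in `w = 1 - z` -/
noncomputable def Tm (f : ℝ⟦X⟧) : ℝ⟦X⟧ := PowerSeries.mk fun m => (-1) ^ m * mo m f

lemma coeff_Tm (f : ℝ⟦X⟧) (m : ℕ) : coeff m (Tm f) = (-1) ^ m * mo m f := coeff_mk _ _

lemma Tm_sub {f g : ℝ⟦X⟧} (hf : RD f) (hg : RD g) : Tm (f - g) = Tm f - Tm g := by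
  ext m
  rw [map_sub, coeff_Tm, coeff_Tm, coeff_Tm, ← mul_sub]
  congr 1
  unfold mo
  rw [← (hf.summable m).tsum_sub (hg.summable m)]
  congr 1
  funext n
  rw [map_sub]; ring

lemma Tm_C (c : ℝ) : Tm (PowerSeries.C c) = PowerSeries.C c := by
  ext m
  rw [coeff_Tm]
  unfold mo
  rw [tsum_eq_single 0]
  · rw [coeff_zero_C, coeff_C]
    rcases m with _ | m
    · simp
    · simp
  · intro n hn
    rw [coeff_C, if_neg hn, mul_zero]

lemma mo_X_mul {f : ℝ⟦X⟧} (hf : RD f) (m : ℕ) : mo (m + 1) (X * f) = mo (m + 1) f + mo m f := by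
  unfold mo
  rw [(hf.X_mul.summable (m + 1)).tsum_eq_zero_add, ← (hf.summable (m + 1)).tsum_add
    (hf.summable m)]
  rw [coeff_zero_X_mul, mul_zero, zero_add]
  congr 1
  funext n
  rw [coeff_succ_X_mul, Nat.choose_succ_succ]
  push_cast
  ring

lemma mo_X_mul_zero {f : ℝ⟦X⟧} (hf : RD f) : mo 0 (X * f) = mo 0 f := by
  unfold mo
  rw [(hf.X_mul.summable 0).tsum_eq_zero_add, coeff_zero_X_mul, mul_zero, zero_add]
  congr 1
  funext n
  rw [coeff_succ_X_mul, Nat.choose_zero_right, Nat.choose_zero_right]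

lemma Tm_X_mul {f : ℝ⟦X⟧} (hf : RD f) : Tm (X * f) = (1 - X) * Tm f := by
  ext m
  rcases m with _ | m
  · rw [coeff_one_sub_X_mul_zero, coeff_Tm, coeff_Tm, mo_X_mul_zero hf]
  · rw [coeff_one_sub_X_mul, coeff_Tm, coeff_Tm, coeff_Tm, mo_X_mul hf, pow_succ]
    ring

lemma Tm_X_pow_mul {f : ℝ⟦X⟧} (hf : RD f) (k : ℕ) : Tm (X ^ k * f) = (1 - X) ^ k * Tm f := by
  induction k with
  | zero => simp
  | succ k ih =>
    rw [pow_succ', mul_assoc, Tm_X_mul (hf.X_pow_mul k), ih, pow_succ']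
    ring

lemma Tm_one_sub_X_mul {f : ℝ⟦X⟧} (hf : RD f) : Tm ((1 - X) * f) = X * Tm f := by
  rw [sub_mul, one_mul, Tm_sub hf hf.X_mul, Tm_X_mul hf]
  ring

lemma Tm_deriv {f : ℝ⟦X⟧} (hf : RD f) : Tm (d⁄dX ℝ f) = -d⁄dX ℝ (Tm f) := by
  ext m
  rw [map_neg, coeff_derivative, coeff_Tm, coeff_Tm]
  have h1 : mo m (d⁄dX ℝ f) = (m + 1) * mo (m + 1) f := by
    unfold mo
    rw [(hf.summable (m + 1)).tsum_eq_zero_add, Nat.choose_zero_succ, Nat.cast_zero, zero_mul,
      zero_add, ← tsum_mul_left]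
    congr 1
    funext n
    rw [coeff_derivative]
    have h2 : (n + 1) * n.choose m = (n + 1).choose (m + 1) * (m + 1) := Nat.add_one_mul_choose_eq n m
    have h3 : ((n : ℝ) + 1) * ((n.choose m : ℕ) : ℝ) =
        (((n + 1).choose (m + 1) : ℕ) : ℝ) * (m + 1) := by exact_mod_cast h2
    linear_combination (coeff (n + 1) f) * h3
  rw [h1, pow_succ]
  ring

/-- `h_j/(1-z) - z^K Q_j` -/
noncomputable def dls (j K : ℕ) : ℝ⟦X⟧ := C (h j) * GG - X ^ K * Q j

lemma coeff_dls (j K n : ℕ) : coeff n (dls j K) = dl j K n := by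
  unfold dls dl
  rw [map_sub, coeff_C_mul, coeff_GG, mul_one]

lemma dls_RD {j : ℕ} (hj : 0 < j) (k : ℕ) : RD (dls j (k * j)) := by
  intro R
  have hj' : (1 : ℝ) ≤ j := by exact_mod_cast hj
  apply bigO_of_eventually (C := (KR R + 2 ^ (R + 1)) / j * ((k + 1) * (j : ℝ)) ^ (R + 1))
    (N := k * j + 1)
  intro n hn
  rw [Real.norm_eq_abs, coeff_dls]
  have h1 := abs_dl_le R hj k n
  rw [if_neg (by omega), add_zero, div_pow] at h1
  refine h1.trans ?_
  have hK := KR_pos R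
  rw [mul_div_assoc]
  gcongr
  calc ((n : ℝ) + 1) ^ R ≤ ((n : ℝ) + j) ^ R := by gcongr
    _ ≤ ((n : ℝ) + j) ^ (R + 1) := by
      apply pow_le_pow_right₀ _ (by omega)
      have : (0 : ℝ) ≤ n := by positivity
      linarith

lemma FM_one_RD {j : ℕ} (hj : 0 < j) : RD (FM j 1) := by
  have h1 : FM j 1 = C (h j) - (1 - X) * dls j (0 * j) := by
    unfold FM dls
    rw [zero_mul, pow_zero, pow_one]
    linear_combination (C (h j)) * one_sub_X_mul_GG
  rw [h1]
  exact (RD.const _).sub (dls_RD hj 0).one_sub_X_mul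

/-- Taylor series at `1` of `(1-z) Q_j` -/
lemma Tm_FM {j : ℕ} (hj : 0 < j) : Tm (FM j 1) = FF j := by
  have hRD := FM_one_RD hj
  have hode : (1 - X) * d⁄dX ℝ (FM j 1) = (X ^ j - 1) * FM j 1 := by
    have := FM_ode j 1
    simpa using this
  have h1 : X * d⁄dX ℝ (Tm (FM j 1)) = (1 - (1 - X) ^ j) * Tm (FM j 1) := by
    have h2 := congrArg Tm hode
    rw [Tm_one_sub_X_mul hRD.deriv, Tm_deriv hRD, sub_mul, one_mul,
      Tm_sub (hRD.X_pow_mul j) hRD, Tm_X_pow_mul hRD] at h2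
    linear_combination -h2
  have h0 : coeff 0 (Tm (FM j 1)) = h j := by
    rw [coeff_Tm, pow_zero, one_mul]
    unfold mo
    have h3 := (hRD.summable 0).hasSum.tendsto_sum_nat
    have h4 : ∀ n : ℕ, ∑ i ∈ range n, ((i.choose 0 : ℕ) : ℝ) * coeff i (FM j 1) =
        if n = 0 then 0 else q j (n - 1) := by
      intro n
      induction n with
      | zero => simp
      | succ n ih =>
        rw [sum_range_succ, ih, Nat.choose_zero_right, Nat.cast_one, one_mul]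
        rcases n with _ | n
        · rw [if_pos rfl, if_neg (by omega), zero_add]
          unfold FM
          rw [pow_one, coeff_one_sub_X_mul_zero, coeff_Q]
        · rw [if_neg (by omega), if_neg (by omega), Nat.add_sub_cancel, Nat.add_sub_cancel,
            coeff_FM_one]
          ring
    simp only [h4] at h3
    have h5 : Tendsto (fun n : ℕ => if n = 0 then 0 else q j (n - 1)) atTop (𝓝 (h j)) := by
      have h6 := (tendsto_q j).comp (tendsto_sub_atTop_nat 1)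
      refine h6.congr' ?_
      filter_upwards [eventually_gt_atTop 0] with n hn
      rw [if_neg (by omega)]
      rfl
    exact tendsto_nhds_unique h3 h5
  -- uniqueness
  have h7 := FF_ode j
  ext m
  induction m using Nat.strong_induction_on with
  | _ m ih =>
    rcases m with _ | m
    · rw [h0, coeff_zero_FF]
    · have h8 := congrArg (coeff (m + 1)) h1
      have h9 := congrArg (coeff (m + 1)) h7
      have h2 : coeff 0 (1 - (1 - X) ^ j : ℝ⟦X⟧) = 0 := by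
        rw [map_sub, coeff_one_sub_X_pow']; simp
      rw [coeff_X_mul_deriv, coeff_mul, Nat.sum_antidiagonal_eq_sum_range_succ_mk,
        sum_range_succ', h2, zero_mul, add_zero] at h8 h9
      have h10 : ∑ t ∈ range (m + 1), coeff (t + 1) (1 - (1 - X) ^ j : ℝ⟦X⟧) *
          coeff (m + 1 - (t + 1)) (Tm (FM j 1)) =
          ∑ t ∈ range (m + 1), coeff (t + 1) (1 - (1 - X) ^ j : ℝ⟦X⟧) *
          coeff (m + 1 - (t + 1)) (FF j) := by
        apply sum_congr rfl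
        intro t _
        rw [ih (m + 1 - (t + 1)) (by omega)]
      rw [h10, ← h9] at h8
      have h11 : ((m + 1 : ℕ) : ℝ) ≠ 0 := by positivity
      exact mul_left_cancel₀ h11 h8

/-- moments of `dl` -/
lemma mo_dls {j : ℕ} (hj : 0 < j) (k m : ℕ) :
    (-1) ^ m * mo m (dls j (k * j)) = -coeff (m + 1) ((1 - X) ^ (k * j) * FF j) := by
  have hRD := dls_RD hj k
  have h1 : (1 - X) * dls j (k * j) = C (h j) - X ^ (k * j) * FM j 1 := by
    unfold FM dls
    rw [pow_one]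
    linear_combination (C (h j)) * one_sub_X_mul_GG
  have h2 := congrArg Tm h1
  rw [Tm_one_sub_X_mul hRD, Tm_sub (RD.const _) ((FM_one_RD hj).X_pow_mul _), Tm_C,
    Tm_X_pow_mul (FM_one_RD hj), Tm_FM hj] at h2
  have h3 := congrArg (coeff (m + 1)) h2
  rw [coeff_succ_X_mul, coeff_Tm, map_sub, coeff_C, if_neg (by omega), zero_sub] at h3
  exact h3

end Pool.Agent.Lib.MP_493311_pr
end
end

section

section

open Finset PowerSeries Filter
open scoped Topology

namespace Pool.Agent.Lib.MP_493311_pr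

/-- weighted partial sums -/
noncomputable def SN (Λ N : ℕ) (f : ℝ⟦X⟧) : ℝ :=
  ∑ n ∈ range N, ((n.choose Λ : ℕ) : ℝ) * coeff n f

lemma SN_add (Λ N : ℕ) (f g : ℝ⟦X⟧) : SN Λ N (f + g) = SN Λ N f + SN Λ N g := by
  unfold SN
  rw [← sum_add_distrib]
  apply sum_congr rfl
  intro n _
  rw [map_add]; ring

lemma SN_sub (Λ N : ℕ) (f g : ℝ⟦X⟧) : SN Λ N (f - g) = SN Λ N f - SN Λ N g := by
  unfold SN
  rw [← sum_sub_distrib]
  apply sum_congr rfl
  intro n _
  rw [map_sub]; ring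

lemma SN_C_mul (Λ N : ℕ) (c : ℝ) (f : ℝ⟦X⟧) : SN Λ N (C c * f) = c * SN Λ N f := by
  unfold SN
  rw [mul_sum]
  apply sum_congr rfl
  intro n _
  rw [coeff_C_mul]; ring

lemma sum_bdd {a : ℕ → ℝ} {B : ℝ} (hB : 0 ≤ B) (ha : ∀ n : ℕ, |a n| ≤ B / ((n : ℝ) + 1) ^ 2)
    (N : ℕ) : |∑ n ∈ range N, a n| ≤ 4 * B := by
  have h1 := tail_sum_aux (a := a) (l := 0) (n := 0) hB (fun j => by simpa using ha j) N
  refine (abs_sum_le_sum_abs _ _).trans (h1.trans ?_)
  have h2 : (0 : ℝ) ≤ 1 / (((0 : ℕ) : ℝ) + N + 1) ^ (0 + 1) := by positivity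
  have h3 : B * 2 ^ (0 + 2) * (1 / (((0 : ℕ) : ℝ) + 1) ^ (0 + 1) -
      1 / (((0 : ℕ) : ℝ) + N + 1) ^ (0 + 1)) ≤ B * 2 ^ (0 + 2) * (1 / (((0 : ℕ) : ℝ) + 1) ^ (0 + 1)) :=
    mul_le_mul_of_nonneg_left (by linarith) (by positivity)
  refine h3.trans (le_of_eq ?_)
  norm_num
  ring

lemma choose_le_succ_pow (n a : ℕ) : ((n.choose a : ℕ) : ℝ) ≤ ((n : ℝ) + 1) ^ a :=
  choose_le_pow' (by linarith)

lemma SN_small {Λ : ℕ} {f : ℝ⟦X⟧} (hf : BigO (Λ + 2) f) : ∃ C : ℝ, ∀ N, |SN Λ N f| ≤ C := by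
  obtain ⟨C, hC0, hC⟩ := hf.nonneg
  refine ⟨4 * C, fun N => sum_bdd hC0 (fun n => ?_) N⟩
  have h2 := hC n
  rw [Real.norm_eq_abs] at h2
  rw [abs_mul, Nat.abs_cast]
  calc ((n.choose Λ : ℕ) : ℝ) * |coeff n f| ≤ ((n : ℝ) + 1) ^ Λ * (C / ((n : ℝ) + 1) ^ (Λ + 2)) :=
        mul_le_mul (choose_le_succ_pow n Λ) h2 (abs_nonneg _) (by positivity)
    _ = _ := by rw [pow_add]; field_simp

lemma SN_X {Λ : ℕ} {f : ℝ⟦X⟧} (hf : BigO (Λ + 1) f) :
    ∃ C : ℝ, ∀ N, |SN Λ N (X * f) - SN Λ N f| ≤ C := by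
  obtain ⟨C, hC0, hC⟩ := hf.nonneg
  refine ⟨4 * C + C, fun N => ?_⟩
  rcases N with _ | N
  · unfold SN; simp; positivity
  · have h1 : SN Λ (N + 1) (X * f) - SN Λ (N + 1) f = ∑ n ∈ range N,
        ((((n + 1).choose Λ : ℕ) : ℝ) - ((n.choose Λ : ℕ) : ℝ)) * coeff n f -
        ((N.choose Λ : ℕ) : ℝ) * coeff N f := by
      unfold SN
      rw [sum_range_succ' _ N, sum_range_succ _ N, coeff_zero_X_mul, mul_zero, add_zero]
      simp only [coeff_succ_X_mul, sub_mul, sum_sub_distrib]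
      ring
    rw [h1]
    refine (abs_sub _ _).trans (add_le_add ?_ ?_)
    · apply sum_bdd hC0
      intro n
      have h2 := hC n
      rw [Real.norm_eq_abs] at h2
      rw [abs_mul]
      rcases Λ with _ | Λ
      · rw [Nat.choose_zero_right, Nat.choose_zero_right, sub_self, abs_zero, zero_mul]
        positivity
      · rw [Nat.choose_succ_succ]
        push_cast
        rw [add_sub_cancel_right, Nat.abs_cast]
        calc ((n.choose Λ : ℕ) : ℝ) * |coeff n f| ≤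
            ((n : ℝ) + 1) ^ Λ * (C / ((n : ℝ) + 1) ^ (Λ + 1 + 1)) :=
              mul_le_mul (choose_le_succ_pow n Λ) h2 (abs_nonneg _) (by positivity)
          _ = _ := by
              rw [show Λ + 1 + 1 = Λ + 2 by ring, pow_add]
              field_simp
    · have h2 := hC N
      rw [Real.norm_eq_abs] at h2
      rw [abs_mul, Nat.abs_cast]
      calc ((N.choose Λ : ℕ) : ℝ) * |coeff N f| ≤
          ((N : ℝ) + 1) ^ Λ * (C / ((N : ℝ) + 1) ^ (Λ + 1)) :=
            mul_le_mul (choose_le_succ_pow N Λ) h2 (abs_nonneg _) (by positivity)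
        _ = C / ((N : ℝ) + 1) := by rw [pow_succ]; field_simp
        _ ≤ C := div_le_self hC0 (by
            have : (0 : ℝ) ≤ N := by positivity
            linarith)

lemma SN_X_pow {Λ : ℕ} {f : ℝ⟦X⟧} (hf : BigO (Λ + 1) f) (k : ℕ) :
    ∃ C : ℝ, ∀ N, |SN Λ N (X ^ k * f) - SN Λ N f| ≤ C := by
  induction k with
  | zero => exact ⟨0, fun N => by simp⟩
  | succ k ih =>
    obtain ⟨C, hC⟩ := ih
    obtain ⟨D, hD⟩ := SN_X (hf.X_pow_mul k)
    refine ⟨D + C, fun N => ?_⟩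
    rw [pow_succ', mul_assoc]
    calc _ = |(SN Λ N (X * (X ^ k * f)) - SN Λ N (X ^ k * f)) +
          (SN Λ N (X ^ k * f) - SN Λ N f)| := by ring_nf
      _ ≤ _ := (abs_add_le _ _).trans (add_le_add (hD N) (hC N))

lemma SN_poly {Λ : ℕ} {f : ℝ⟦X⟧} (hf : BigO (Λ + 1) f) (P : Polynomial ℝ) :
    ∃ C : ℝ, ∀ N, |SN Λ N ((P : ℝ⟦X⟧) * f) - P.eval 1 * SN Λ N f| ≤ C := by
  induction P using Polynomial.induction_on' with
  | add p q hp hq =>
    obtain ⟨C, hC⟩ := hp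
    obtain ⟨D, hD⟩ := hq
    refine ⟨C + D, fun N => ?_⟩
    rw [Polynomial.coe_add, add_mul, SN_add, Polynomial.eval_add]
    calc _ = |(SN Λ N ((p : ℝ⟦X⟧) * f) - p.eval 1 * SN Λ N f) +
          (SN Λ N ((q : ℝ⟦X⟧) * f) - q.eval 1 * SN Λ N f)| := by ring_nf
      _ ≤ _ := (abs_add_le _ _).trans (add_le_add (hC N) (hD N))
  | monomial n a =>
    obtain ⟨C, hC⟩ := SN_X_pow hf n
    refine ⟨|a| * C, fun N => ?_⟩
    have h1 : ((Polynomial.monomial n a : Polynomial ℝ) : ℝ⟦X⟧) * f =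
        PowerSeries.C a * (X ^ n * f) := by
      rw [← Polynomial.C_mul_X_pow_eq_monomial]
      push_cast
      ring
    rw [h1, SN_C_mul, Polynomial.eval_monomial, one_pow, mul_one, ← mul_sub, abs_mul]
    exact mul_le_mul_of_nonneg_left (hC N) (abs_nonneg _)

/-- harmonic numbers -/
noncomputable def Hn (N : ℕ) : ℝ := ∑ n ∈ range N, 1 / ((n : ℝ) + 1)

lemma Hn_unbounded {a C : ℝ} (h : ∀ N, |a * Hn N| ≤ C) : a = 0 := by
  by_contra ha
  have h1 : Tendsto Hn atTop atTop := Real.tendsto_sum_range_one_div_nat_succ_atTop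
  obtain ⟨N, hN⟩ := (h1.eventually_gt_atTop (C / |a|)).exists
  have h2 := h N
  rw [abs_mul] at h2
  have h3 : 0 < |a| := abs_pos.mpr ha
  have h4 : Hn N ≤ |Hn N| := le_abs_self _
  rw [div_lt_iff₀ h3] at hN
  nlinarith

lemma SN_Lg (Λ : ℕ) : ∃ C : ℝ, ∀ N, |SN Λ N ((1 - X) ^ Λ * Lg) - (-1) ^ Λ * Hn N| ≤ C := by
  set d : ℝ⟦X⟧ := PowerSeries.mk fun n => ((n.choose Λ : ℕ) : ℝ) *
    coeff n ((1 - X) ^ Λ * Lg) - (-1) ^ Λ * (1 / ((n : ℝ) + 1)) with hd
  have h1 : BigO 2 d := by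
    apply bigO_of_eventually (N := Λ + 1) (C := ((Λ : ℝ) + 1) * (Λ + 2))
    intro n hn
    rw [hd, coeff_mk, coeff_pow_mul_Lg Λ n (by omega), Real.norm_eq_abs]
    have h2 : (n.descFactorial (Λ + 1) : ℝ) = (n - Λ) * n.descFactorial Λ := by
      rw [Nat.descFactorial_succ]
      push_cast
      rw [Nat.cast_sub (by omega)]
    have h3 : (n.descFactorial Λ : ℝ) = Λ.factorial * n.choose Λ := by
      rw [Nat.descFactorial_eq_factorial_mul_choose]; push_cast; ring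
    have h4 : (0 : ℝ) < n.choose Λ := by exact_mod_cast Nat.choose_pos (by omega)
    have h5 : (0 : ℝ) < Λ.factorial := by positivity
    have h6 : (Λ : ℝ) + 1 ≤ n := by exact_mod_cast hn
    have h7 : (0 : ℝ) < (n : ℝ) - Λ := by linarith
    have h8 : ((n.choose Λ : ℕ) : ℝ) * ((-1) ^ Λ * Λ.factorial / (n.descFactorial (Λ + 1) : ℝ)) -
        (-1) ^ Λ * (1 / ((n : ℝ) + 1)) = (-1) ^ Λ * ((Λ + 1) / ((n - Λ) * (n + 1))) := by
      rw [h2, h3]
      field_simp
      ring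
    rw [h8, abs_mul, abs_pow, abs_neg, abs_one, one_pow, one_mul, abs_of_pos (by positivity)]
    rw [div_le_div_iff₀ (by positivity) (by positivity)]
    have h9 : (n : ℝ) + 1 ≤ (Λ + 2) * (n - Λ) := by nlinarith
    have h10 : (0 : ℝ) < (n : ℝ) + 1 := by positivity
    calc ((Λ : ℝ) + 1) * ((n : ℝ) + 1) ^ 2 = (Λ + 1) * ((n : ℝ) + 1) * (n + 1) := by ring
      _ ≤ (Λ + 1) * ((Λ + 2) * (n - Λ)) * (n + 1) := by gcongr
      _ = _ := by ring
  obtain ⟨C, hC0, hC⟩ := h1.nonneg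
  refine ⟨4 * C, fun N => ?_⟩
  have h2 : SN Λ N ((1 - X) ^ Λ * Lg) - (-1) ^ Λ * Hn N = ∑ n ∈ range N, coeff n d := by
    unfold SN Hn
    rw [mul_sum, ← sum_sub_distrib]
    apply sum_congr rfl
    intro n _
    rw [hd, coeff_mk]
  rw [h2]
  exact sum_bdd hC0 (fun n => by rw [← Real.norm_eq_abs]; exact hC n) N

/-- `h_j - [z^n] z^{K}(Q_j - 1)` -/
noncomputable def dq (j K n : ℕ) : ℝ := h j - coeff n (X ^ K * (Q j - 1))

lemma coeff_W_sub_kap {L K : ℕ} (hK : 1 ≤ K) {φ : ℕ → ℝ} {B : ℝ} (hB : 0 ≤ B)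
    (hφ : ∀ j : ℕ, 0 < j → |φ j| ≤ B / (j : ℝ) ^ (L + 1)) (n : ℕ) :
    (Summable fun j => φ (j + 1) * dq (j + 1) (K * (j + 1)) n) ∧
    coeff n (W K φ) - kap φ = coeff n (Lam K φ) -
      ∑' j, φ (j + 1) * dq (j + 1) (K * (j + 1)) n := by
  have h1 : W K φ = Lam K φ + SJ fun j => C (φ j) * (X ^ (K * j) * (Q j - 1)) := by
    unfold W Lam
    rw [← SJ_add]
    apply SJ_congr
    intro j _
    ring
  set b : ℕ → ℝ := fun j => φ (j + 1) * coeff n (X ^ (K * (j + 1)) * (Q (j + 1) - 1)) with hb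
  have hb0 : ∀ j ∉ range n, b j = 0 := by
    intro j hj
    rw [hb]
    simp only
    rw [coeff_X_pow_mul', if_neg, mul_zero]
    rw [mem_range, not_lt] at hj
    have : 1 * (j + 1) ≤ K * (j + 1) := Nat.mul_le_mul_right _ hK
    omega
  have h2 : coeff n (SJ fun j => C (φ j) * (X ^ (K * j) * (Q j - 1))) = ∑' j, b j := by
    rw [tsum_eq_sum hb0, coeff_SJ]
    rw [range_eq_Ico]
    have h3 : Icc 1 n = Ico (0 + 1) (n + 1) := by
      ext x; simp only [mem_Icc, mem_Ico]; omega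
    rw [h3, ← sum_Ico_add' _ 0 n 1]
    refine sum_congr rfl fun j _ => ?_
    rw [coeff_C_mul]
  have hsb : Summable b := summable_of_ne_finset_zero hb0
  have hsk := kap_summable hB hφ
  have h4 : ∀ j, φ (j + 1) * dq (j + 1) (K * (j + 1)) n = φ (j + 1) * h (j + 1) - b j := by
    intro j
    rw [hb]
    unfold dq
    ring
  simp only [h4]
  refine ⟨hsk.sub hsb, ?_⟩
  rw [h1, map_add, h2, hsk.tsum_sub hsb]
  unfold kap
  ring

/-- series of `dq` -/
noncomputable def dqs (j K : ℕ) : ℝ⟦X⟧ := C (h j) * GG - X ^ K * (Q j - 1)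

lemma coeff_dqs (j K n : ℕ) : coeff n (dqs j K) = dq j K n := by
  unfold dqs dq
  rw [map_sub, coeff_C_mul, coeff_GG, mul_one]

lemma dqs_eq (j K : ℕ) : dqs j K = dls j K + X ^ K := by
  unfold dqs dls; ring

lemma RD.add {f g : ℝ⟦X⟧} (hf : RD f) (hg : RD g) : RD (f + g) := fun R => (hf R).add (hg R)

lemma X_pow_RD (K : ℕ) : RD (X ^ K : ℝ⟦X⟧) := fun R => by
  have := BigO.poly R (Polynomial.X ^ K : Polynomial ℝ)
  rwa [Polynomial.coe_pow, Polynomial.coe_X] at this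

lemma dqs_RD {j : ℕ} (hj : 0 < j) (k : ℕ) : RD (dqs j (k * j)) := by
  rw [dqs_eq]
  exact (dls_RD hj k).add (X_pow_RD _)

lemma mo_add {f g : ℝ⟦X⟧} (hf : RD f) (hg : RD g) (m : ℕ) : mo m (f + g) = mo m f + mo m g := by
  unfold mo
  rw [← (hf.summable m).tsum_add (hg.summable m)]
  congr 1
  funext n
  rw [map_add]; ring

lemma mo_X_pow (K m : ℕ) : mo m (X ^ K : ℝ⟦X⟧) = (K.choose m : ℕ) := by
  unfold mo
  rw [tsum_eq_single K]
  · rw [coeff_X_pow, if_pos rfl, mul_one]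
  · intro n hn
    rw [coeff_X_pow, if_neg hn, mul_zero]

lemma mo_dqs {j : ℕ} (hj : 0 < j) (k m : ℕ) : mo m (dqs j (k * j)) =
    (((k * j).choose m : ℕ) : ℝ) - (-1) ^ m * coeff (m + 1) ((1 - X) ^ (k * j) * FF j) := by
  rw [dqs_eq, mo_add (dls_RD hj k) (X_pow_RD _), mo_X_pow]
  have h1 := mo_dls hj k m
  have h2 : mo m (dls j (k * j)) = (-1) ^ m * ((-1) ^ m * mo m (dls j (k * j))) := by
    rw [← mul_assoc, ← mul_pow]; norm_num
  rw [h2, h1]
  ring

/-- partial moments -/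
lemma partial_mo_dqs (Λ k : ℕ) : ∃ A : ℝ, 0 ≤ A ∧ ∀ j : ℕ, 0 < j → ∀ N : ℕ,
    |mo Λ (dqs j (k * j)) - SN Λ N (dqs j (k * j))| ≤
      A * (j : ℝ) ^ (Λ + 2) / ((N : ℝ) + 1) ^ 2 := by
  set A0 : ℝ := KR (Λ + 2) + 2 ^ (Λ + 3) with hA0
  have hA0' : 0 ≤ A0 := by have := KR_pos (Λ + 2); positivity
  refine ⟨A0 * ((k : ℝ) + 1) ^ (Λ + 3) * 2 ^ 3, by positivity, ?_⟩
  intro j hj N
  have hj' : (1 : ℝ) ≤ j := by exact_mod_cast hj
  have hs := (dqs_RD hj k).summable Λ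
  have h1 : mo Λ (dqs j (k * j)) - SN Λ N (dqs j (k * j)) =
      ∑' i : ℕ, (((i + N).choose Λ : ℕ) : ℝ) * coeff (i + N) (dqs j (k * j)) := by
    unfold mo SN
    rw [← hs.sum_add_tsum_nat_add N]
    ring
  rw [h1]
  have h2 := (tail_sum (a := fun i : ℕ => (((i + N).choose Λ : ℕ) : ℝ) *
    coeff (i + N) (dqs j (k * j))) (B := A0 * ((k : ℝ) + 1) ^ (Λ + 3) * (j : ℝ) ^ (Λ + 2))
    (l := 1) (n := N) (by positivity) fun i => ?_).2
  · refine h2.trans (le_of_eq ?_)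
    norm_num
    ring
  · rw [coeff_dqs, abs_mul, Nat.abs_cast]
    have h3 : |dq j (k * j) (i + N)| ≤ _ := abs_dq_le (Λ + 2) hj k (i + N)
    have h4 := choose_le_succ_pow (i + N) Λ
    push_cast at h3 h4 ⊢
    have h5 : ((k : ℝ) + 1) * j / ((i : ℝ) + N + j) ≤ (k + 1) * j / (N + i + 1) := by
      apply div_le_div_of_nonneg_left (by positivity) (by positivity)
      linarith
    calc (((i + N).choose Λ : ℕ) : ℝ) * |dq j (k * j) (i + N)| ≤
        ((i : ℝ) + N + 1) ^ Λ * (A0 / j * ((k + 1) * j / (N + i + 1)) ^ (Λ + 3)) := by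
          apply mul_le_mul h4 _ (abs_nonneg _) (by positivity)
          refine h3.trans ?_
          rw [show Λ + 2 + 1 = Λ + 3 by ring] at *
          gcongr
      _ = _ := by
          rw [div_pow, mul_pow, show (i : ℝ) + N + 1 = N + i + 1 by ring,
            pow_add _ Λ 3, pow_add (j : ℝ) Λ 3, pow_add _ Λ 3, pow_add (j : ℝ) Λ 2]
          field_simp

end Pool.Agent.Lib.MP_493311_pr
end

section

open Finset PowerSeries Filter
open scoped Topology

namespace Pool.Agent.Lib.MP_493311_pr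

lemma dq_of_lt {j K n : ℕ} (h : n < K) : dq j K n = MP_493311_pr.h j := by
  unfold dq
  rw [coeff_X_pow_mul', if_neg (by omega), sub_zero]

/-- the `T1` term -/
lemma T1_eq {k : ℕ} (hk : 1 ≤ k) (g : ℕ → ℝ) (Λ N : ℕ) : SN Λ N (Lam k g) =
    ∑ j ∈ range N, if k * (j + 1) < N then
      g (j + 1) * (((k * (j + 1)).choose Λ : ℕ) : ℝ) else 0 := by
  unfold SN
  have h1 : ∀ n ∈ range N, ((n.choose Λ : ℕ) : ℝ) * coeff n (Lam k g) =
      ∑ j ∈ range N, if n = k * (j + 1) then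
        ((n.choose Λ : ℕ) : ℝ) * g (j + 1) else 0 := by
    intro n hn
    have hn' := mem_range.mp hn
    unfold Lam
    rw [coeff_SJ_of_le (Lam_adm hk g) hn'.le, mul_sum]
    have h3 : Icc 1 N = Ico (0 + 1) (N + 1) := by
      ext x; simp only [mem_Icc, mem_Ico]; omega
    rw [h3, ← sum_Ico_add' _ 0 N 1, ← range_eq_Ico]
    apply sum_congr rfl
    intro j _
    rw [coeff_C_mul, coeff_X_pow]
    split_ifs <;> ring
  rw [sum_congr rfl h1, sum_comm]
  apply sum_congr rfl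
  intro j _
  rw [sum_ite_eq']
  simp only [mem_range]
  split_ifs <;> ring

lemma SN_main {k Λ : ℕ} (hk : 1 ≤ k) {g : ℕ → ℝ} {B : ℝ} (hB : 0 ≤ B)
    (hg : ∀ j : ℕ, 0 < j → |g j| ≤ B / (j : ℝ) ^ (Λ + 1)) :
    ∃ C : ℝ, ∀ N, |SN Λ N (W k g - PowerSeries.C (kap g) * GG) - (-1) ^ Λ *
      ∑ j ∈ range N, g (j + 1) * coeff (Λ + 1) ((1 - X) ^ (k * (j + 1)) * FF (j + 1))| ≤ C := by
  obtain ⟨A, hA0, hA⟩ := partial_mo_dqs Λ k
  have hk' : (1 : ℝ) ≤ k := by exact_mod_cast hk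
  refine ⟨B * (k : ℝ) ^ (Λ + 1) + B * A + B * 2 ^ (Λ + 2), fun N => ?_⟩
  -- pieces
  set T2 : ℝ := ∑ j ∈ range N, g (j + 1) * SN Λ N (dqs (j + 1) (k * (j + 1))) with hT2
  set T3 : ℝ := ∑ n ∈ range N, ((n.choose Λ : ℕ) : ℝ) *
    ∑' j, g (j + N + 1) * dq (j + N + 1) (k * (j + N + 1)) n with hT3
  have hsplit : SN Λ N (W k g - PowerSeries.C (kap g) * GG) = SN Λ N (Lam k g) - T2 - T3 := by
    have h1 : ∀ n ∈ range N, ((n.choose Λ : ℕ) : ℝ) *
        coeff n (W k g - PowerSeries.C (kap g) * GG) =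
        ((n.choose Λ : ℕ) : ℝ) * coeff n (Lam k g) -
        (∑ j ∈ range N, ((n.choose Λ : ℕ) : ℝ) *
          (g (j + 1) * dq (j + 1) (k * (j + 1)) n)) -
        ((n.choose Λ : ℕ) : ℝ) *
          ∑' j, g (j + N + 1) * dq (j + N + 1) (k * (j + N + 1)) n := by
      intro n _
      obtain ⟨hs, he⟩ := coeff_W_sub_kap hk hB hg n
      rw [map_sub, coeff_C_mul, coeff_GG, mul_one, he, ← hs.sum_add_tsum_nat_add N, ← mul_sum]
      ring
    unfold SN at *
    rw [sum_congr rfl h1, sum_sub_distrib, sum_sub_distrib, sum_comm]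
    congr 2
    rw [hT2]
    apply sum_congr rfl
    intro j _
    rw [mul_sum]
    apply sum_congr rfl
    intro n _
    rw [coeff_dqs]; ring
  -- T3
  have hT3b : |T3| ≤ B * 2 ^ (Λ + 2) := by
    have h1 : ∀ n ∈ range N, |((n.choose Λ : ℕ) : ℝ) *
        ∑' j, g (j + N + 1) * dq (j + N + 1) (k * (j + N + 1)) n| ≤
        ((N : ℝ) + 1) ^ Λ * (B * 2 ^ (Λ + 2) / ((N : ℝ) + 1) ^ (Λ + 1)) := by
      intro n hn
      have hn' := mem_range.mp hn
      rw [abs_mul, Nat.abs_cast]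
      have h2 : ((n.choose Λ : ℕ) : ℝ) ≤ ((N : ℝ) + 1) ^ Λ := by
        refine (choose_le_succ_pow n Λ).trans ?_
        have : (n : ℝ) ≤ N := by exact_mod_cast hn'.le
        gcongr
      apply mul_le_mul h2 _ (abs_nonneg _) (by positivity)
      apply (tail_sum (l := Λ) (n := N) hB fun j => ?_).2
      have h3 : n < k * (j + N + 1) := by
        have : 1 * (j + N + 1) ≤ k * (j + N + 1) := Nat.mul_le_mul_right _ hk
        omega
      rw [dq_of_lt h3, abs_mul, abs_of_pos (h_pos _)]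
      have h4 := hg (j + N + 1) (by omega)
      have h5 := h_le' (j := j + N + 1) (by omega)
      calc |g (j + N + 1)| * h (j + N + 1) ≤
          B / ((j + N + 1 : ℕ) : ℝ) ^ (Λ + 1) * (1 / ((j + N + 1 : ℕ) : ℝ)) :=
            mul_le_mul h4 h5 (h_pos _).le (by positivity)
        _ = _ := by
            push_cast
            rw [pow_succ _ (Λ + 1), show (j : ℝ) + N + 1 = N + j + 1 by ring]
            field_simp
    rw [hT3]
    refine (abs_sum_le_sum_abs _ _).trans ((sum_le_sum h1).trans ?_)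
    rw [sum_const, card_range, nsmul_eq_mul, pow_succ ((N : ℝ) + 1) Λ]
    have h2 : (N : ℝ) * (((N : ℝ) + 1) ^ Λ * (B * 2 ^ (Λ + 2) / (((N : ℝ) + 1) ^ Λ * ((N : ℝ) + 1))))
        = (N / ((N : ℝ) + 1)) * (B * 2 ^ (Λ + 2)) := by field_simp
    rw [h2]
    apply mul_le_of_le_one_left (by positivity)
    rw [div_le_one (by positivity)]
    linarith
  -- T2
  have hT2b : |T2 - ∑ j ∈ range N, g (j + 1) * mo Λ (dqs (j + 1) (k * (j + 1)))| ≤ B * A := by
    rw [hT2, ← sum_sub_distrib]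
    have h1 : ∀ j ∈ range N, |g (j + 1) * SN Λ N (dqs (j + 1) (k * (j + 1))) -
        g (j + 1) * mo Λ (dqs (j + 1) (k * (j + 1)))| ≤ B * A / ((N : ℝ) + 1) := by
      intro j hj
      have hj' := mem_range.mp hj
      rw [← mul_sub, abs_mul]
      have h2 := hA (j + 1) (by omega) N
      rw [abs_sub_comm] at h2
      have h3 := hg (j + 1) (by omega)
      have h4 : ((j + 1 : ℕ) : ℝ) ≤ (N : ℝ) + 1 := by
        have : ((j + 1 : ℕ) : ℝ) ≤ N := by exact_mod_cast hj'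
        linarith
      calc _ ≤ B / ((j + 1 : ℕ) : ℝ) ^ (Λ + 1) *
            (A * ((j + 1 : ℕ) : ℝ) ^ (Λ + 2) / ((N : ℝ) + 1) ^ 2) :=
            mul_le_mul h3 h2 (abs_nonneg _) (by positivity)
        _ = B * A * ((j + 1 : ℕ) : ℝ) / ((N : ℝ) + 1) ^ 2 := by
            rw [show Λ + 2 = Λ + 1 + 1 by ring, pow_succ _ (Λ + 1)]
            field_simp
        _ ≤ B * A * ((N : ℝ) + 1) / ((N : ℝ) + 1) ^ 2 := by gcongr
        _ = _ := by field_simp
    refine (abs_sum_le_sum_abs _ _).trans ((sum_le_sum h1).trans ?_)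
    rw [sum_const, card_range, nsmul_eq_mul]
    have h2 : (N : ℝ) * (B * A / ((N : ℝ) + 1)) = (N / ((N : ℝ) + 1)) * (B * A) := by field_simp
    rw [h2]
    apply mul_le_of_le_one_left (by positivity)
    rw [div_le_one (by positivity)]
    linarith
  -- T1
  have hT1b : |SN Λ N (Lam k g) - ∑ j ∈ range N, g (j + 1) *
      (((k * (j + 1)).choose Λ : ℕ) : ℝ)| ≤ B * (k : ℝ) ^ (Λ + 1) := by
    rw [T1_eq hk, ← sum_sub_distrib]
    rcases Nat.eq_zero_or_pos N with h0 | hN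
    · subst h0; simp; positivity
    · have hN' : (0 : ℝ) < N := by exact_mod_cast hN
      have h1 : ∀ j ∈ range N, |(if k * (j + 1) < N then
          g (j + 1) * (((k * (j + 1)).choose Λ : ℕ) : ℝ) else 0) - g (j + 1) *
          (((k * (j + 1)).choose Λ : ℕ) : ℝ)| ≤ B * (k : ℝ) ^ (Λ + 1) / N := by
        intro j _
        split_ifs with h
        · rw [sub_self, abs_zero]; positivity
        · push Not at h
          rw [zero_sub, abs_neg, abs_mul, Nat.abs_cast]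
          have h2 : (N : ℝ) ≤ k * ((j + 1 : ℕ) : ℝ) := by exact_mod_cast h
          have h3 : ((k * (j + 1) : ℕ) : ℝ) ≤ k * ((j + 1 : ℕ) : ℝ) := by push_cast; exact le_rfl
          have h4 := choose_le_pow' (a := Λ) h3
          have h5 := hg (j + 1) (by omega)
          have h6 : (0 : ℝ) < ((j + 1 : ℕ) : ℝ) := by positivity
          calc _ ≤ B / ((j + 1 : ℕ) : ℝ) ^ (Λ + 1) * ((k : ℝ) * ((j + 1 : ℕ) : ℝ)) ^ Λ :=
                mul_le_mul h5 h4 (by positivity) (by positivity)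
            _ = B * (k : ℝ) ^ Λ * (1 / ((j + 1 : ℕ) : ℝ)) := by
                rw [mul_pow, pow_succ _ Λ]
                field_simp
            _ ≤ B * (k : ℝ) ^ Λ * (k / N) := by
                apply mul_le_mul_of_nonneg_left _ (by positivity)
                rw [div_le_div_iff₀ h6 hN']
                linarith
            _ = _ := by rw [pow_succ]; ring
      refine (abs_sum_le_sum_abs _ _).trans ((sum_le_sum h1).trans (le_of_eq ?_))
      rw [sum_const, card_range, nsmul_eq_mul]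
      field_simp
  -- moments
  have hmo : ∑ j ∈ range N, g (j + 1) * mo Λ (dqs (j + 1) (k * (j + 1))) =
      (∑ j ∈ range N, g (j + 1) * (((k * (j + 1)).choose Λ : ℕ) : ℝ)) - (-1) ^ Λ *
      ∑ j ∈ range N, g (j + 1) * coeff (Λ + 1) ((1 - X) ^ (k * (j + 1)) * FF (j + 1)) := by
    rw [mul_sum, ← sum_sub_distrib]
    apply sum_congr rfl
    intro j _
    rw [mo_dqs (Nat.succ_pos j)]
    ring
  rw [hmo] at hT2b
  rw [hsplit]
  set S1 := ∑ j ∈ range N, g (j + 1) * (((k * (j + 1)).choose Λ : ℕ) : ℝ)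
  set S2 := (-1) ^ Λ *
      ∑ j ∈ range N, g (j + 1) * coeff (Λ + 1) ((1 - X) ^ (k * (j + 1)) * FF (j + 1))
  calc |SN Λ N (Lam k g) - T2 - T3 - S2| =
      |(SN Λ N (Lam k g) - S1) - (T2 - (S1 - S2)) - T3| := by ring_nf
    _ ≤ |(SN Λ N (Lam k g) - S1) - (T2 - (S1 - S2))| + |T3| := abs_sub _ _
    _ ≤ (|SN Λ N (Lam k g) - S1| + |T2 - (S1 - S2)|) + |T3| := by
        gcongr; exact abs_sub _ _
    _ ≤ _ := by gcongr

/-- the leading coefficient -/
theorem lead {k Λ : ℕ} (hk : 1 ≤ k) {g : ℕ → ℝ} (hg : Cl (Λ + 1) g) {c : ℝ}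
    (hc : Neg (Λ + 2) (W k g - PowerSeries.C (kap g) * GG -
      PowerSeries.C c * ((1 - X) ^ Λ * Lg))) : c = coeff Λ (BB k g) := by
  obtain ⟨B, hB0, hB⟩ := hg.bound
  set u := W k g - PowerSeries.C (kap g) * GG with hu
  have hu1 : BigO (Λ + 1) u := W_crude (by omega) hk hg
  have hL1 : BigO (Λ + 1) (PowerSeries.C c * ((1 - X) ^ Λ * Lg)) := (bigO_pow_mul_Lg Λ).C_mul c
  obtain ⟨P, hP1, hP⟩ := hc
  obtain ⟨C1, hC1⟩ := SN_small hP
  obtain ⟨C2, hC2⟩ := SN_poly (hu1.sub hL1) P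
  obtain ⟨C3, hC3⟩ := SN_Lg Λ
  obtain ⟨C4, hC4⟩ := SN_main hk hB0 hB
  -- the residue
  set ρ := coeff Λ (BB k g) with hρ
  have hres : HasRes (fun j => g j * coeff (Λ + 1) ((1 - X) ^ (k * j) * FF j)) ρ := by
    have h1 : ρ = res (fun j => g j * coeff (Λ + 1) ((1 - X) ^ (k * j) * FF j)) := by
      rw [hρ]
      unfold BB AA
      rw [coeff_SD, coeff_RS]
      apply res_congr
      intro j _
      rw [coeff_C_mul]
    rw [h1]
    apply HR.hasRes
    have h2 := HRF_fam (hg.weaken' (Nat.zero_le _)) k (Λ + 1)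
    refine h2.congr fun j _ => ?_
    rw [coeff_C_mul]
  obtain ⟨R, C5, hC5⟩ := hres
  have hfc : ∀ j : ℕ, 0 < j → |g j * coeff (Λ + 1) ((1 - X) ^ (k * j) * FF j)| ≤
      B * ab (fcp k (Λ + 1)) / j := by
    intro j hj
    have hj' : (0 : ℝ) < j := by exact_mod_cast hj
    rw [abs_mul, pow_mul_FF, coeff_C_mul, coeff_PF, abs_mul, abs_of_pos (h_pos j)]
    have h1 := abs_eval_le (fcp_natDegree k (Λ + 1)) hj
    have h0 := ab_nonneg (fcp k (Λ + 1))
    calc |g j| * (h j * |Polynomial.eval (j : ℝ) (fcp k (Λ + 1))|) ≤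
        B / (j : ℝ) ^ (Λ + 1) * (1 / j * (ab (fcp k (Λ + 1)) * (j : ℝ) ^ (Λ + 1))) := by
          apply mul_le_mul (hB j hj) _ (mul_nonneg (h_pos j).le (abs_nonneg _)) (by positivity)
          exact mul_le_mul (h_le' hj) h1 (abs_nonneg _) (by positivity)
      _ = _ := by field_simp
  have hR0 : R = 0 := by
    apply poly_eq_zero_of_small (C := B * ab (fcp k (Λ + 1)) + |ρ| + C5)
    intro j hj
    have hj' : (1 : ℝ) ≤ j := by exact_mod_cast hj
    have hC50 : 0 ≤ C5 := by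
      have := (abs_nonneg _).trans (hC5 1 one_pos)
      simpa using this
    have h1 := hC5 j hj
    have h2 := hfc j hj
    have h3 : C5 / (j : ℝ) ^ 2 ≤ C5 / j := by
      apply div_le_div_of_nonneg_left hC50 (by positivity)
      nlinarith
    have h4 : |ρ / j| = |ρ| / j := by rw [abs_div, Nat.abs_cast]
    rw [add_div, add_div]
    set x := g j * coeff (Λ + 1) ((1 - X) ^ (k * j) * FF j)
    calc |Polynomial.eval (j : ℝ) R| = |x - ρ / j - (x - Polynomial.eval (j : ℝ) R - ρ / j)| := by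
          ring_nf
      _ ≤ |x - ρ / j| + |x - Polynomial.eval (j : ℝ) R - ρ / j| := abs_sub _ _
      _ ≤ (|x| + |ρ / j|) + |x - Polynomial.eval (j : ℝ) R - ρ / j| := by
          gcongr; exact abs_sub _ _
      _ ≤ _ := by
          rw [h4]
          gcongr
          exact h1.trans h3
  subst hR0
  have hC50 : 0 ≤ C5 := by
    have := (abs_nonneg _).trans (hC5 1 one_pos)
    simpa using this
  have hsum : ∀ N, |(∑ j ∈ range N, g (j + 1) * coeff (Λ + 1) ((1 - X) ^ (k * (j + 1)) *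
      FF (j + 1))) - ρ * Hn N| ≤ 4 * C5 := by
    intro N
    unfold Hn
    rw [mul_sum, ← sum_sub_distrib]
    apply sum_bdd hC50
    intro n
    have := hC5 (n + 1) (Nat.succ_pos n)
    rw [Polynomial.eval_zero, sub_zero] at this
    push_cast at this
    rwa [mul_one_div]
  -- combine
  have hP0 : 0 < |P.eval 1| := abs_pos.mpr hP1
  have hfin : ∀ N, |(c - ρ) * Hn N| ≤ (C1 + C2) / |P.eval 1| + |c| * C3 + C4 + 4 * C5 := by
    intro N
    have h1 : |SN Λ N u - c * SN Λ N ((1 - X) ^ Λ * Lg)| ≤ (C1 + C2) / |P.eval 1| := by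
      rw [le_div_iff₀ hP0, mul_comm, ← abs_mul, ← SN_C_mul, ← SN_sub]
      set v := SN Λ N (u - PowerSeries.C c * ((1 - X) ^ Λ * Lg))
      set y := SN Λ N ((P : ℝ⟦X⟧) * (u - PowerSeries.C c * ((1 - X) ^ Λ * Lg))) with hy
      calc |P.eval 1 * v| = |y - (y - P.eval 1 * v)| := by ring_nf
        _ ≤ |y| + |y - P.eval 1 * v| := abs_sub _ _
        _ ≤ _ := add_le_add (hC1 N) (hC2 N)
    have h2 : |c * SN Λ N ((1 - X) ^ Λ * Lg) - c * ((-1) ^ Λ * Hn N)| ≤ |c| * C3 := by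
      rw [← mul_sub, abs_mul]
      exact mul_le_mul_of_nonneg_left (hC3 N) (abs_nonneg _)
    have h3 := hC4 N
    have h4 := hsum N
    set s := SN Λ N u
    set t := c * SN Λ N ((1 - X) ^ Λ * Lg)
    set σ := ∑ j ∈ range N, g (j + 1) * coeff (Λ + 1) ((1 - X) ^ (k * (j + 1)) * FF (j + 1))
    have h5 : |(-1 : ℝ) ^ Λ| = 1 := by rw [abs_pow, abs_neg, abs_one, one_pow]
    have h6 : |(c - ρ) * Hn N| = |(-1 : ℝ) ^ Λ * ((c - ρ) * Hn N)| := by
      rw [abs_mul ((-1 : ℝ) ^ Λ), h5, one_mul]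
    rw [h6]
    have h7 : (-1 : ℝ) ^ Λ * ((c - ρ) * Hn N) =
        -(s - t) - (t - c * ((-1) ^ Λ * Hn N)) + (s - (-1) ^ Λ * σ) +
          (-1) ^ Λ * (σ - ρ * Hn N) := by ring
    rw [h7]
    refine (abs_add_le _ _).trans (add_le_add ?_ ?_)
    · refine (abs_add_le _ _).trans (add_le_add ?_ h3)
      refine (abs_sub _ _).trans (add_le_add ?_ h2)
      rw [abs_neg]; exact h1
    · rw [abs_mul, h5, one_mul]; exact h4
  have := Hn_unbounded hfin
  linarith

end Pool.Agent.Lib.MP_493311_pr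
end

section

open Finset PowerSeries Filter
open scoped Topology

namespace Pool.Agent.Lib.MP_493311_pr

/-- truncated expansion in front of the logarithm -/
noncomputable def EL (p : ℕ) (B : ℝ⟦X⟧) : ℝ⟦X⟧ := tld (trunc p B) * Lg

/-- `f = κ/(1-X) + B(1-X) log(1/(1-X))` up to order `p` near `1` -/
def LE (p : ℕ) (f : ℝ⟦X⟧) (κ : ℝ) (B : ℝ⟦X⟧) : Prop := Sym p (f - C κ * GG - EL p B)

lemma Sym.tld_mul_Lg {p : ℕ} {A : Polynomial ℝ} (h : ∀ i < p, A.coeff i = 0) :
    Sym (p + 1) (tld A * Lg) := by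
  obtain ⟨R, hR⟩ := Polynomial.X_pow_dvd_iff.mpr h
  have h1 : tld A * Lg = ((R.comp (1 - Polynomial.X) : Polynomial ℝ) : ℝ⟦X⟧) *
      ((1 - X) ^ p * Lg) := by
    rw [hR, tld_mul, tld_X_pow]
    unfold tld
    ring
  rw [h1]
  exact (Sym.pow_mul_Lg p).poly_mul _

lemma EL_of_coeff {p : ℕ} {A : Polynomial ℝ} {B : ℝ⟦X⟧} (h : ∀ i < p, A.coeff i = coeff i B) :
    Sym (p + 1) (tld A * Lg - EL p B) := by
  have h1 : tld A * Lg - EL p B = tld (A - trunc p B) * Lg := by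
    unfold EL; rw [tld_sub]; ring
  rw [h1]
  apply Sym.tld_mul_Lg
  intro i hi
  rw [Polynomial.coeff_sub, coeff_trunc, if_pos hi, h i hi, sub_self]

lemma EL_sym {p : ℕ} {B : ℝ⟦X⟧} (h : ∀ i, i + 1 < p → coeff i B = 0) : Sym p (EL p B) := by
  rcases p with _ | p
  · unfold EL
    have : trunc 0 B = 0 := by
      ext i; rw [coeff_trunc, if_neg (by omega), Polynomial.coeff_zero]
    rw [this]
    unfold tld
    simpa using Sym.zero 0
  · apply Sym.tld_mul_Lg
    intro i hi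
    rw [coeff_trunc, if_pos (by omega), h i (by omega)]

lemma EL_congr {p : ℕ} {B B' : ℝ⟦X⟧} (h : ∀ i < p, coeff i B = coeff i B') : EL p B = EL p B' := by
  unfold EL
  congr 2
  ext i
  rw [coeff_trunc, coeff_trunc]
  split_ifs with hi
  · exact h i hi
  · rfl

lemma EL_add (p : ℕ) (B B' : ℝ⟦X⟧) : EL p (B + B') = EL p B + EL p B' := by
  unfold EL
  rw [← add_mul, ← tld_add]
  congr 2
  ext i
  rw [Polynomial.coeff_add, coeff_trunc, coeff_trunc, coeff_trunc]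
  split_ifs <;> simp

lemma EL_zero (p : ℕ) : EL p 0 = 0 := by
  unfold EL
  have : trunc p (0 : ℝ⟦X⟧) = 0 := by
    ext i; rw [coeff_trunc]; simp
  rw [this]
  unfold tld
  simp

lemma LE.congr_B {p : ℕ} {f : ℝ⟦X⟧} {κ : ℝ} {B B' : ℝ⟦X⟧} (hf : LE p f κ B)
    (h : ∀ i < p, coeff i B = coeff i B') : LE p f κ B' := by
  unfold LE
  rw [← EL_congr h]
  exact hf

lemma LE.add {p : ℕ} {f f' : ℝ⟦X⟧} {κ κ' : ℝ} {B B' : ℝ⟦X⟧} (hf : LE p f κ B)
    (hf' : LE p f' κ' B') : LE p (f + f') (κ + κ') (B + B') := by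
  unfold LE at *
  rw [EL_add, map_add]
  have := Sym.add hf hf'
  convert this using 1
  ring

lemma LE.of_model (p : ℕ) (κ : ℝ) (B : ℝ⟦X⟧) : LE p (C κ * GG + EL p B) κ B := by
  unfold LE
  have : C κ * GG + EL p B - C κ * GG - EL p B = 0 := by ring
  rw [this]
  exact Sym.zero p

lemma LE.of_sym {p : ℕ} {f : ℝ⟦X⟧} {κ : ℝ} (h : Sym p (f - C κ * GG)) : LE p f κ 0 := by
  unfold LE
  rw [EL_zero, sub_zero]
  exact h

lemma LE.poly_mul {p : ℕ} {f : ℝ⟦X⟧} {κ : ℝ} {B : ℝ⟦X⟧} (hf : LE p f κ B) (P : Polynomial ℝ) :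
    LE p ((P : ℝ⟦X⟧) * f) (P.eval 1 * κ) (tld P * B) := by
  unfold LE at *
  obtain ⟨R, hR⟩ := poly_decomp P
  have h1 : (P : ℝ⟦X⟧) * EL p B = tld (P.comp (1 - Polynomial.X) * trunc p B) * Lg := by
    unfold EL
    rw [tld_mul]
    have : tld (P.comp (1 - Polynomial.X)) = (P : ℝ⟦X⟧) := by
      unfold tld
      rw [Polynomial.comp_assoc]
      simp
    rw [this]; ring
  have h2 : Sym (p + 1) ((P : ℝ⟦X⟧) * EL p B - EL p (tld P * B)) := by
    rw [h1]
    apply EL_of_coeff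
    intro i hi
    rw [Polynomial.coeff_mul, coeff_mul]
    apply sum_congr rfl
    intro x hx
    have hx' := mem_antidiagonal.mp hx
    rw [coeff_trunc, if_pos (by omega)]
    congr 1
    unfold tld
    rw [Polynomial.coeff_coe]
  have h3 : (P : ℝ⟦X⟧) * f - C (P.eval 1 * κ) * GG - EL p (tld P * B) =
      (P : ℝ⟦X⟧) * (f - C κ * GG - EL p B) + ((P : ℝ⟦X⟧) * EL p B - EL p (tld P * B)) +
      ((Polynomial.C κ * R : Polynomial ℝ) : ℝ⟦X⟧) := by
    rw [map_mul, Polynomial.coe_mul, Polynomial.coe_C]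
    linear_combination (C κ * GG) * hR + (C κ * (R : ℝ⟦X⟧)) * one_sub_X_mul_GG
  rw [h3]
  exact ((hf.poly_mul P).add (h2.mono (by omega))).add (Sym.poly _ _)

lemma LE.C_mul {p : ℕ} {f : ℝ⟦X⟧} {κ : ℝ} {B : ℝ⟦X⟧} (hf : LE p f κ B) (c : ℝ) :
    LE p (C c * f) (c * κ) (C c * B) := by
  have := hf.poly_mul (Polynomial.C c)
  rwa [Polynomial.coe_C, Polynomial.eval_C, tld_C] at this

lemma LE.w_mul {p : ℕ} {f : ℝ⟦X⟧} {κ : ℝ} {B : ℝ⟦X⟧} (hf : LE p f κ B) :
    LE (p + 1) ((1 - X) * f) 0 (X * B) := by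
  unfold LE at *
  have h1 : Sym (p + 1 + 1) ((1 - X) * EL p B - EL (p + 1) (X * B)) := by
    have : (1 - X) * EL p B = tld (Polynomial.X * trunc p B) * Lg := by
      unfold EL; rw [tld_mul, tld_X]; ring
    rw [this]
    apply EL_of_coeff
    intro i hi
    rcases i with _ | i
    · simp
    · rw [coeff_succ_X_mul, Polynomial.coeff_X_mul, coeff_trunc, if_pos (by omega)]
  have h2 : (1 - X) * f - C 0 * GG - EL (p + 1) (X * B) =
      (1 - X) * (f - C κ * GG - EL p B) + ((1 - X) * EL p B - EL (p + 1) (X * B)) +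
      ((Polynomial.C κ : Polynomial ℝ) : ℝ⟦X⟧) := by
    rw [map_zero, Polynomial.coe_C]
    linear_combination (C κ) * one_sub_X_mul_GG
  rw [h2]
  exact (hf.w_mul.add (h1.mono (by omega))).add (Sym.poly _ _)

lemma w_deriv_GG : (1 - X) * d⁄dX ℝ GG = GG := by
  have := Q_ode 0
  rwa [pow_zero, one_mul, Q_zero'] at this

lemma w_deriv_tld (A : Polynomial ℝ) : (1 - X) * d⁄dX ℝ (tld A) =
    tld (-(Polynomial.X * Polynomial.derivative A)) := by
  unfold tld
  rw [deriv_coe, Polynomial.derivative_comp]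
  have h1 : Polynomial.derivative (1 - Polynomial.X : Polynomial ℝ) = -1 := by simp
  rw [h1]
  have h2 : (1 - X : ℝ⟦X⟧) = ((1 - Polynomial.X : Polynomial ℝ) : ℝ⟦X⟧) := by simp
  rw [h2, ← Polynomial.coe_mul]
  congr 1
  simp

lemma LE.deriv {p : ℕ} {f : ℝ⟦X⟧} {κ : ℝ} {B : ℝ⟦X⟧} (hf : LE p f κ B) :
    LE p ((1 - X) * d⁄dX ℝ f) κ (-(X * d⁄dX ℝ B)) := by
  unfold LE at *
  have hdC : ∀ (c : ℝ) (f : ℝ⟦X⟧), d⁄dX ℝ (C c * f) = C c * d⁄dX ℝ f := by
    intro c f
    rw [← smul_eq_C_mul, ← smul_eq_C_mul, Derivation.map_smul]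
  have h1 : (1 - X) * d⁄dX ℝ (EL p B) =
      tld (-(Polynomial.X * Polynomial.derivative (trunc p B))) * Lg + tld (trunc p B) := by
    unfold EL
    rw [Derivation.leibniz, smul_eq_mul, smul_eq_mul, deriv_Lg, ← w_deriv_tld]
    linear_combination (tld (trunc p B)) * one_sub_X_mul_GG
  have h2 : Sym (p + 1) (tld (-(Polynomial.X * Polynomial.derivative (trunc p B))) * Lg -
      EL p (-(X * d⁄dX ℝ B))) := by
    apply EL_of_coeff
    intro i hi
    rw [Polynomial.coeff_neg, map_neg, coeff_X_mul_deriv]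
    congr 1
    rcases i with _ | i
    · simp
    · rw [Polynomial.coeff_X_mul, Polynomial.coeff_derivative, coeff_trunc, if_pos (by omega)]
      push_cast; ring
  have h3 : (1 - X) * d⁄dX ℝ f - C κ * GG - EL p (-(X * d⁄dX ℝ B)) =
      (1 - X) * d⁄dX ℝ (f - C κ * GG - EL p B) +
      (tld (-(Polynomial.X * Polynomial.derivative (trunc p B))) * Lg -
        EL p (-(X * d⁄dX ℝ B))) + (((trunc p B).comp (1 - Polynomial.X) : Polynomial ℝ) : ℝ⟦X⟧) := by
    rw [map_sub, map_sub, hdC]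
    have h4 : (((trunc p B).comp (1 - Polynomial.X) : Polynomial ℝ) : ℝ⟦X⟧) =
      tld (trunc p B) := rfl
    rw [h4]
    linear_combination h1 + (C κ) * w_deriv_GG
  rw [h3]
  exact (hf.w_deriv.add (h2.mono (by omega))).add (Sym.poly _ _)

lemma LE.sum {ι : Type*} (s : Finset ι) {p : ℕ} {f : ι → ℝ⟦X⟧} {κ : ι → ℝ} {B : ι → ℝ⟦X⟧}
    (hf : ∀ i ∈ s, LE p (f i) (κ i) (B i)) :
    LE p (∑ i ∈ s, f i) (∑ i ∈ s, κ i) (∑ i ∈ s, B i) := by
  classical
  induction s using Finset.induction_on with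
  | empty =>
    simp only [sum_empty]
    apply LE.of_sym
    rw [map_zero, zero_mul, sub_zero]
    exact Sym.zero p
  | insert a s ha ih =>
    rw [sum_insert ha, sum_insert ha, sum_insert ha]
    exact (hf a (mem_insert_self _ _)).add (ih fun i hi => hf i (mem_insert_of_mem hi))

/-- base case -/
lemma LE_base {p l k : ℕ} (hl : 1 ≤ l) (hk : 1 ≤ k) (hp : p ≤ l) {g : ℕ → ℝ} (hg : Cl l g) :
    LE p (W k g) (kap g) (BB k g) := by
  unfold LE
  apply ((W_sym hl hk hg).mono hp).sub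
  apply EL_sym
  intro i hi
  exact coeff_BB_eq_zero hg (by omega)

/-- (R3) for the actual series -/
lemma W_R3 {k : ℕ} (hk : 1 ≤ k) (Λ : ℕ) (g : ℕ → ℝ) :
    ((Polynomial.X * Pk k : Polynomial ℝ) : ℝ⟦X⟧) *
      ((1 - X) * d⁄dX ℝ (W k g) + C (Λ : ℝ) * W k g) =
      (C (-1 : ℝ) * ((1 - X) * ((Uk k : ℝ⟦X⟧) * W (k + 1) g))) +
      (C (k : ℝ) * (((Polynomial.C (g 1) * Polynomial.X ^ k : Polynomial ℝ) : ℝ⟦X⟧) * GG)) +
      C (k : ℝ) * (((Polynomial.X ^ k : Polynomial ℝ) : ℝ⟦X⟧) * W k (gD Λ g)) +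
      C (Λ : ℝ) * ((1 - X) * ((Vk k : ℝ⟦X⟧) * W k g)) +
      C (-(k : ℝ)) * T k g := by
  have h1 := W_deriv hk g
  have h2 := W_succ_add_T hk g
  have hcoe := fun (p q : Polynomial ℝ) (h : p = q) =>
    congrArg (fun p : Polynomial ℝ => (p : ℝ⟦X⟧)) h
  have hP := hcoe _ _ (Pk_mul' k)
  have hU := hcoe _ _ (Uk_spec k)
  have hV := hcoe _ _ (Vk_spec k)
  simp only [Polynomial.coe_mul, Polynomial.coe_sub, Polynomial.coe_one, Polynomial.coe_X,
    Polynomial.coe_pow, Polynomial.coe_C] at hP hU hV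
  have hD : W k (gD Λ g) = W k (fun j => ((j + 1 : ℕ) : ℝ) * g (j + 1) - j * g j) +
      C (Λ : ℝ) * W k g := by
    rw [← W_C_mul, ← W_add]
    rfl
  rw [hD]
  simp only [Polynomial.coe_mul, Polynomial.coe_pow, Polynomial.coe_X, Polynomial.coe_C]
  have hm1 : (C (-1 : ℝ) : ℝ⟦X⟧) = -1 := by rw [map_neg, map_one]
  have hmk : (C (-(k : ℝ)) : ℝ⟦X⟧) = -C (k : ℝ) := by rw [map_neg]
  rw [hm1, hmk]
  linear_combination (Pk k : ℝ⟦X⟧) * h1 + (C (k : ℝ)) * h2 + (C (Λ : ℝ) * W k g) * hV -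
    (W (k + 1) g) * hU + (C (k : ℝ) * W k (fun j => j * g j)) * hP

/-- asymptotic expansion near `1` of `T k g` -/
lemma LE_T {p l : ℕ} (k : ℕ) (hk : 1 ≤ k + 1) {g : ℕ → ℝ} (hg : Cl l g)
    (ih : ∀ l', l + 1 ≤ l' → ∀ k', 1 ≤ k' → ∀ g' : ℕ → ℝ, Cl l' g' →
      LE p (W k' g') (kap g') (BB k' g')) (N : ℕ) (hN : p ≤ l + 1 + N) :
    ∃ κ, LE p (T k g) κ (∑ i ∈ range N, BB (k + (1 + i) + 1) (wt (1 + i + 1) g)) := by
  obtain ⟨κ, hκ⟩ := TI_sym (k := k) (I := 1 + N) (l := l) (by omega) hg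
  have h1 : LE p (TI k (1 + N) g) κ 0 := LE.of_sym (hκ.mono (by omega))
  have h2 : LE p (∑ i ∈ range N, W (k + (1 + i) + 1) (wt (1 + i + 1) g))
      (∑ i ∈ range N, kap (wt (1 + i + 1) g))
      (∑ i ∈ range N, BB (k + (1 + i) + 1) (wt (1 + i + 1) g)) := by
    apply LE.sum
    intro i _
    exact ih (l + (1 + i)) (by omega) _ (by omega) _ (wt_Cl hg (1 + i))
  rw [T_eq_TI, TI_expand g k 1 N]
  have := h2.add h1
  rw [add_zero] at this
  exact ⟨_, this⟩

/-- one induction step -/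
lemma LE_step {p Λ k : ℕ} (hk : 1 ≤ k) (hp : Λ + 1 ≤ p) {g : ℕ → ℝ} (hg : Cl (Λ + 1) g)
    (ihp : ∀ l', 1 ≤ l' → ∀ k', 1 ≤ k' → ∀ g' : ℕ → ℝ, Cl l' g' →
      LE p (W k' g') (kap g') (BB k' g'))
    (ihl : ∀ l', Λ + 2 ≤ l' → ∀ k', 1 ≤ k' → ∀ g' : ℕ → ℝ, Cl l' g' →
      LE (p + 1) (W k' g') (kap g') (BB k' g')) :
    LE (p + 1) (W k g) (kap g) (BB k g) := by
  -- expansion of the right hand side
  obtain ⟨κT, hT⟩ := LE_T k (by omega) hg ihl (p + 1) (by omega)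
  have ht1 := ((ihp (Λ + 1) (by omega) (k + 1) (by omega) g hg).poly_mul (Uk k)).w_mul.C_mul (-1)
  have hGG : LE (p + 1) GG 1 0 := LE.of_sym (by
    rw [map_one, one_mul, sub_self]; exact Sym.zero _)
  have ht2 := (hGG.poly_mul (Polynomial.C (g 1) * Polynomial.X ^ k)).C_mul (k : ℝ)
  have ht3 := ((ihl (Λ + 2) le_rfl k hk _ (gD_Cl hg)).poly_mul (Polynomial.X ^ k)).C_mul (k : ℝ)
  have ht4 := ((ihp (Λ + 1) (by omega) k hk g hg).poly_mul (Vk k)).w_mul.C_mul (Λ : ℝ)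
  have ht5 := hT.C_mul (-(k : ℝ))
  have hR := ((((ht1.add ht2).add ht3).add ht4).add ht5)
  rw [← W_R3 hk Λ g] at hR
  -- the formal identity
  have hform : ∀ i < p + 1, coeff i (tld (Pk k) * ((1 - X) * (C (Λ : ℝ) * BB k g -
      X * d⁄dX ℝ (BB k g)))) = coeff i (C (-1 : ℝ) * (X * (tld (Uk k) * BB (k + 1) g)) +
      C (k : ℝ) * (tld (Polynomial.C (g 1) * Polynomial.X ^ k) * 0) +
      C (k : ℝ) * (tld (Polynomial.X ^ k) * BB k (gD Λ g)) +
      C (Λ : ℝ) * (X * (tld (Vk k) * BB k g)) +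
      C (-(k : ℝ)) * ∑ i ∈ range (p + 1), BB (k + (1 + i) + 1) (wt (1 + i + 1) g)) := by
    intro i hi
    have h1 := formal_R3 hg k (p + 1)
    have h2 : coeff i (C (k : ℝ) * SD (TIp k (1 + (p + 1)) g)) = 0 := by
      rw [coeff_C_mul, coeff_SD, coeff_TIp_eq_zero hg (by omega), mul_zero]
    have h3 : (C (-1 : ℝ) : ℝ⟦X⟧) = -1 := by rw [map_neg, map_one]
    have h4 : (C (-(k : ℝ)) : ℝ⟦X⟧) = -C (k : ℝ) := by rw [map_neg]
    have h5 : C (-1 : ℝ) * (X * (tld (Uk k) * BB (k + 1) g)) +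
      C (k : ℝ) * (tld (Polynomial.C (g 1) * Polynomial.X ^ k) * 0) +
      C (k : ℝ) * (tld (Polynomial.X ^ k) * BB k (gD Λ g)) +
      C (Λ : ℝ) * (X * (tld (Vk k) * BB k g)) +
      C (-(k : ℝ)) * ∑ i ∈ range (p + 1), BB (k + (1 + i) + 1) (wt (1 + i + 1) g) =
      tld (Pk k) * ((1 - X) * (C (Λ : ℝ) * BB k g - X * d⁄dX ℝ (BB k g))) +
      C (k : ℝ) * SD (TIp k (1 + (p + 1)) g) := by
      rw [h1, h3, h4, tld_X_pow]
      ring
    rw [h5, map_add, h2, add_zero]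
  obtain ⟨κR, hR'⟩ : ∃ κ, LE (p + 1) (((Polynomial.X * Pk k : Polynomial ℝ) : ℝ⟦X⟧) *
      ((1 - X) * d⁄dX ℝ (W k g) + C (Λ : ℝ) * W k g)) κ
      (tld (Pk k) * ((1 - X) * (C (Λ : ℝ) * BB k g - X * d⁄dX ℝ (BB k g)))) :=
    ⟨_, hR.congr_B (fun i hi => (hform i hi).symm)⟩
  -- the model
  set M : ℝ⟦X⟧ := C (kap g) * GG + EL (p + 1) (BB k g) with hM
  have hML : LE (p + 1) M (kap g) (BB k g) := LE.of_model _ _ _
  have hM1 := (hML.deriv.add (hML.C_mul (Λ : ℝ))).poly_mul (Polynomial.X * Pk k)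
  obtain ⟨κM, hM2⟩ : ∃ κ, LE (p + 1) (((Polynomial.X * Pk k : Polynomial ℝ) : ℝ⟦X⟧) *
      ((1 - X) * d⁄dX ℝ M + C (Λ : ℝ) * M)) κ (tld (Pk k) * ((1 - X) * (C (Λ : ℝ) * BB k g -
      X * d⁄dX ℝ (BB k g)))) := by
    have e1 : tld (Polynomial.X * Pk k) * (-(X * d⁄dX ℝ (BB k g)) + C (Λ : ℝ) * BB k g) =
        tld (Pk k) * ((1 - X) * (C (Λ : ℝ) * BB k g - X * d⁄dX ℝ (BB k g))) := by
      rw [tld_mul, tld_X]; ring
    rw [e1] at hM1
    exact ⟨_, hM1⟩
  -- difference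
  set f' : ℝ⟦X⟧ := W k g - M with hf'
  have hfp : Sym p f' := by
    have h1 := ihp (Λ + 1) (by omega) k hk g hg
    unfold LE at h1
    have h2 : Sym (p + 1) (EL (p + 1) (BB k g) - EL p (BB k g)) := by
      unfold EL
      rw [← sub_mul, ← tld_sub]
      apply Sym.tld_mul_Lg
      intro i hi
      rw [Polynomial.coeff_sub, coeff_trunc, coeff_trunc, if_pos (by omega), if_pos hi, sub_self]
    have h3 : f' = (W k g - C (kap g) * GG - EL p (BB k g)) -
        (EL (p + 1) (BB k g) - EL p (BB k g)) := by rw [hf', hM]; ring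
    rw [h3]
    exact h1.sub (h2.mono (by omega))
  have hdiff := hR'.add (hM2.C_mul (-1))
  set κ2 : ℝ := κR + -1 * κM with hκ2
  have hop : ((Polynomial.X * Pk k : Polynomial ℝ) : ℝ⟦X⟧) *
      ((1 - X) * d⁄dX ℝ (W k g) + C (Λ : ℝ) * W k g) +
      C (-1 : ℝ) * (((Polynomial.X * Pk k : Polynomial ℝ) : ℝ⟦X⟧) *
      ((1 - X) * d⁄dX ℝ M + C (Λ : ℝ) * M)) =
      ((Polynomial.X * Pk k : Polynomial ℝ) : ℝ⟦X⟧) *
      ((1 - X) * d⁄dX ℝ f' + C (Λ : ℝ) * f') := by
    rw [hf', map_sub, map_neg, map_one]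
    ring
  rw [hop] at hdiff
  have hzero : tld (Pk k) * ((1 - X) * (C (Λ : ℝ) * BB k g -
      X * d⁄dX ℝ (BB k g))) + C (-1 : ℝ) * (tld (Pk k) * ((1 - X) * (C (Λ : ℝ) * BB k g -
      X * d⁄dX ℝ (BB k g)))) = 0 := by
    rw [map_neg, map_one]; ring
  rw [hzero] at hdiff
  unfold LE at hdiff
  rw [EL_zero, sub_zero] at hdiff
  have hOp : Sym p (((Polynomial.X * Pk k : Polynomial ℝ) : ℝ⟦X⟧) *
      ((1 - X) * d⁄dX ℝ f' + C (Λ : ℝ) * f')) := (hfp.w_deriv.add (hfp.C_mul _)).poly_mul _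
  have hκ0 : κ2 = 0 := by
    have h1 := (hOp.toNeg.mono (by omega : 1 ≤ p)).sub (hdiff.toNeg.mono (by omega : 1 ≤ p + 1))
    rw [sub_sub_cancel] at h1
    exact eq_zero_of_neg_GG h1
  rw [hκ0, map_zero, zero_mul, sub_zero] at hdiff
  have heval : (Polynomial.X * Pk k : Polynomial ℝ).eval 1 ≠ 0 := by
    rw [Polynomial.eval_mul, Polynomial.eval_X, Pk_eval, one_mul]
    positivity
  have hode := hdiff.of_poly_mul heval
  have hgoal : Sym (p + 1) f' := by
    rcases Nat.eq_or_lt_of_le hp with h | h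
    · -- resonance
      subst h
      obtain ⟨c, hc⟩ := Sym.ode_res hfp hode
      have hc0 : c = 0 := by
        have h1 : BB k g = BB k g := rfl
        have h2 : Sym (Λ + 2) (EL (Λ + 1 + 1) (BB k g) -
            C (coeff Λ (BB k g)) * ((1 - X) ^ Λ * Lg)) := by
          have h3 : C (coeff Λ (BB k g)) * ((1 - X) ^ Λ * Lg) =
              tld (Polynomial.C (coeff Λ (BB k g)) * Polynomial.X ^ Λ) * Lg := by
            rw [tld_mul, tld_C, tld_X_pow]; ring
          unfold EL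
          rw [h3, ← sub_mul, ← tld_sub]
          apply Sym.tld_mul_Lg
          intro i hi
          rw [Polynomial.coeff_sub, coeff_trunc, if_pos (by omega), Polynomial.coeff_C_mul,
            Polynomial.coeff_X_pow]
          split_ifs with h5
          · rw [h5, mul_one, sub_self]
          · rw [mul_zero, sub_zero]
            exact coeff_BB_eq_zero hg (by omega)
        have h6 := hc.add h2
        have h7 : f' - C c * ((1 - X) ^ Λ * Lg) + (EL (Λ + 1 + 1) (BB k g) -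
            C (coeff Λ (BB k g)) * ((1 - X) ^ Λ * Lg)) =
            W k g - C (kap g) * GG - C (c + coeff Λ (BB k g)) * ((1 - X) ^ Λ * Lg) := by
          rw [hf', hM, map_add]; ring
        rw [h7] at h6
        have h8 := lead hk hg h6.toNeg
        linarith
      rw [hc0, map_zero, zero_mul, sub_zero] at hc
      exact hc
    · obtain ⟨t, rfl⟩ := Nat.exists_eq_add_of_le h
      rw [Nat.succ_eq_add_one] at *
      have h1 : Sym (Λ + 2 + t) f' := hfp.mono (by omega)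
      have h2 : Sym (Λ + 3 + t) ((1 - X) * d⁄dX ℝ f' + C (Λ : ℝ) * f') := hode.mono (by omega)
      exact (Sym.ode_nonres h1 h2).mono (by omega)
  unfold LE
  have : W k g - C (kap g) * GG - EL (p + 1) (BB k g) = f' := by rw [hf', hM]; ring
  rw [this]
  exact hgoal

/-- full expansion near `1` -/
theorem LE_W (p : ℕ) : ∀ l, 1 ≤ l → ∀ k, 1 ≤ k → ∀ g : ℕ → ℝ, Cl l g →
    LE p (W k g) (kap g) (BB k g) := by
  induction p with
  | zero => exact fun l hl k hk g hg => LE_base hl hk (Nat.zero_le _) hg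
  | succ p ih =>
    have hd : ∀ d : ℕ, ∀ l, 1 ≤ l → p + 1 ≤ l + d → ∀ k, 1 ≤ k → ∀ g : ℕ → ℝ, Cl l g →
        LE (p + 1) (W k g) (kap g) (BB k g) := by
      intro d
      induction d with
      | zero => exact fun l hl hpl k hk g hg => LE_base hl hk (by omega) hg
      | succ d ihd =>
        intro l hl hpl k hk g hg
        rcases Nat.lt_or_ge (l + d) (p + 1) with h | h
        · obtain ⟨Λ, rfl⟩ := Nat.exists_eq_add_of_le' hl
          apply LE_step hk (by omega) hg ih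
          intro l' hl' k' hk' g' hg'
          exact ihd l' (by omega) (by omega) k' hk' g' hg'
        · exact ihd l hl h k hk g hg
    intro l hl k hk g hg
    exact hd (p + 1) l hl (by omega) k hk g hg

end Pool.Agent.Lib.MP_493311_pr
end

section

open Finset PowerSeries Filter
open scoped Topology

namespace Pool.Agent.Lib.MP_493311_pr

/-- the constant weight -/
def one1 : ℕ → ℝ := fun _ => 1

lemma one1_Cl : Cl 0 one1 := Cl.one

lemma HRF_j_FF : HRF (fun j => C (j : ℝ) * FF j) := by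
  refine (HRF_PF (h_Cl.weaken' (Nat.zero_le 1)) (fun m => Polynomial.X * ppi m)).congr
    fun j _ => ?_
  unfold FF
  ext m
  rw [coeff_C_mul, coeff_C_mul, coeff_C_mul, coeff_PF, coeff_PF, Polynomial.eval_mul,
    Polynomial.eval_X]
  ring

lemma HRF_FF : HRF (fun j => FF j) := by
  refine (HRF_PF (h_Cl.weaken' (Nat.zero_le 1)) ppi).congr fun j _ => ?_
  rfl

lemma HRF_j_pred : HRF (fun j => C (j : ℝ) * FF (j - 1)) := by
  have h1 : Cl 0 (fun j => Real.exp (1 / (j : ℝ)) * h j) := by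
    have := exp_inv_Cl.mul (h_Cl.weaken' (Nat.zero_le 1))
    simpa using this
  refine (HRF_PF h1 (fun m => Polynomial.X * (ppi m).comp (Polynomial.X - 1))).congr
    fun j hj => ?_
  rw [FF_pred hj]
  ext m
  rw [coeff_C_mul, coeff_C_mul, coeff_C_mul, coeff_PF, coeff_PF, Polynomial.eval_mul,
    Polynomial.eval_X]
  ring

lemma HRF_Rm0 (I : ℕ) :
    HRF (fun j => C (one1 j) * ((1 - X) ^ (0 * j) * (C (j : ℝ) * Rm I j))) := by
  induction I with
  | zero =>
    refine (HRF_j_pred.sub HRF_j_FF).congr fun j _ => ?_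
    unfold Rm one1
    rw [sum_range_one, Nat.factorial_zero, pow_zero, mul_zero, pow_zero, Nat.cast_one, mul_one,
      div_one, map_one]
    ring
  | succ I ih =>
    have h1 : Cl 0 (wt (I + 1) one1) := (wt_Cl one1_Cl I).weaken' (Nat.zero_le _)
    refine (ih.sub (HRF_fam h1 (0 + I + 1))).congr fun j _ => ?_
    unfold Rm wt
    rw [sum_range_succ _ (I + 1), map_mul, map_mul]
    have : (1 - X : ℝ⟦X⟧) ^ ((0 + I + 1) * j) = (1 - X) ^ (0 * j) * (1 - X) ^ (j * (I + 1)) := by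
      rw [← pow_add]; ring_nf
    rw [this]
    ring

lemma TIp_succ0 (I : ℕ) :
    TIp 0 I one1 = AA (0 + I + 1) (wt (I + 1) one1) + TIp 0 (I + 1) one1 := by
  have h1 : Cl 0 (wt (I + 1) one1) := (wt_Cl one1_Cl I).weaken' (Nat.zero_le _)
  unfold TIp AA
  rw [← RS_add (HRF_fam h1 (0 + I + 1)) (HRF_Rm0 (I + 1))]
  apply RS_congr
  intro j _
  unfold Rm wt
  rw [sum_range_succ _ (I + 1), map_mul, map_mul]
  have : (1 - X : ℝ⟦X⟧) ^ ((0 + I + 1) * j) = (1 - X) ^ (0 * j) * (1 - X) ^ (j * (I + 1)) := by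
    rw [← pow_add]; ring_nf
  rw [this]
  ring

lemma TIp_expand0 (I N : ℕ) : TIp 0 I one1 =
    (∑ i ∈ range N, AA (0 + (I + i) + 1) (wt (I + i + 1) one1)) + TIp 0 (I + N) one1 := by
  induction N with
  | zero => simp
  | succ N ih =>
    rw [sum_range_succ, add_assoc, show I + (N + 1) = I + N + 1 by ring]
    rw [← TIp_succ0 (I + N)]
    exact ih

/-- formal coefficient series for the means: `[w^m]` is the residue of `e^{-H_j} π_m(j)` -/
noncomputable def AE0 : ℝ⟦X⟧ := RS (fun j => FF j)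

lemma coeff_AE0 (m : ℕ) : coeff m AE0 = res (fun j => h j * (ppi m).eval (j : ℝ)) := by
  unfold AE0
  rw [coeff_RS]
  apply res_congr
  intro j _
  unfold FF
  rw [coeff_C_mul, coeff_PF]

lemma AE0_formal : X * d⁄dX ℝ AE0 = TIp 0 1 one1 := by
  have hF1 : HRF (fun j => (1 - X) ^ (1 * j) * FF j) := by
    refine (HRF_fam one1_Cl 1).congr fun j _ => ?_
    unfold one1; rw [map_one, one_mul]
  have hjs : HRF (fun j => C (((j + 1 : ℕ) : ℝ)) * FF j) := by
    refine (HRF_j_FF.add HRF_FF).congr fun j _ => ?_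
    push_cast
    rw [map_add, map_one]; ring
  have h1 : TIp 0 1 one1 = RS (fun j => C (j : ℝ) * FF (j - 1)) - RS (fun j => C (j : ℝ) * FF j) -
      RS (fun j => (1 - X) ^ (1 * j) * FF j) := by
    unfold TIp
    rw [← RS_sub HRF_j_pred HRF_j_FF, ← RS_sub (HRF_j_pred.sub HRF_j_FF) hF1]
    apply RS_congr
    intro j hj
    have hj' : (j : ℝ) ≠ 0 := by positivity
    unfold Rm one1
    rw [sum_range_succ, sum_range_one]
    have h2 : (C (j : ℝ) : ℝ⟦X⟧) * C (1 / ((Nat.factorial 1 : ℕ) * (j : ℝ) ^ 1)) = 1 := by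
      rw [← map_mul, Nat.factorial_one, pow_one]
      have : (j : ℝ) * (1 / (((1 : ℕ) : ℝ) * j)) = 1 := by field_simp; simp
      rw [this, map_one]
    have h3 : (C (1 / ((Nat.factorial 0 : ℕ) * (j : ℝ) ^ 0)) : ℝ⟦X⟧) = 1 := by simp
    rw [h3, mul_zero, mul_one, pow_zero, one_mul, one_mul, map_one, one_mul, zero_mul, pow_zero]
    linear_combination (-((1 - X) ^ j * FF j)) * h2
  have h2 : RS (fun j => C (j : ℝ) * FF (j - 1)) = RS (fun j => C (j : ℝ) * FF j) +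
      RS (fun j => FF j) := by
    rw [← RS_shift HRF_j_pred, ← RS_add HRF_j_FF HRF_FF]
    apply RS_congr
    intro j _
    rw [Nat.add_sub_cancel]
    push_cast
    rw [map_add, map_one]; ring
  rw [h1, h2]
  unfold AE0
  rw [RS_X_deriv HRF_FF, add_sub_cancel_left, ← RS_sub HRF_FF hF1]
  apply RS_congr
  intro j _
  rw [FF_ode, one_mul]
  ring

/-- the log-part of `(1-X) Es`, without constant term -/
noncomputable def BF : ℝ⟦X⟧ := AE0 - C (coeff 0 AE0)

lemma coeff_zero_BF : coeff 0 BF = 0 := by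
  unfold BF
  rw [map_sub, coeff_zero_C, sub_self]

lemma coeff_succ_BF (i : ℕ) : coeff (i + 1) BF = coeff (i + 1) AE0 := by
  unfold BF
  rw [map_sub, coeff_C, if_neg (by omega), sub_zero]

lemma Es_near (p : ℕ) : ∃ c : ℝ,
    Sym (p + 2) ((1 - X) * Es - C c * Lg - EL (p + 2) BF) := by
  obtain ⟨κT, hT⟩ := LE_T (p := p + 1) (l := 0) 0 (by omega) (g := one1) one1_Cl
    (fun l' hl' k' hk' g' hg' => LE_W (p + 1) l' (by omega) k' hk' g' hg') (p + 2) (by omega)
  set BT : ℝ⟦X⟧ := ∑ i ∈ range (p + 2), BB (0 + (1 + i) + 1) (wt (1 + i + 1) one1) with hBT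
  have hGG : LE (p + 1) GG 1 0 := LE.of_sym (by
    rw [map_one, one_mul, sub_self]; exact Sym.zero _)
  have h1 := (hGG.add (hT.C_mul (-1))).w_mul
  -- coefficients
  have hcoef : ∀ i < p + 2, coeff i (X * BT) = i * coeff i BF := by
    intro i hi
    have e4 : X * BT = ∑ i ∈ range (p + 2), AA (0 + (1 + i) + 1) (wt (1 + i + 1) one1) := by
      rw [hBT, mul_sum]
      apply sum_congr rfl
      intro i _
      exact X_mul_BB (l := 0 + (1 + i)) (by omega) (wt_Cl one1_Cl (1 + i)) _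
    have e5 := congrArg (coeff i) AE0_formal
    rw [TIp_expand0 1 (p + 2), map_add, coeff_TIp_eq_zero one1_Cl (by omega), add_zero, ← e4,
      coeff_X_mul_deriv] at e5
    rw [← e5]
    rcases i with _ | i
    · simp
    · rw [coeff_succ_BF]
  have h2 := (LE.of_model (p + 2) 0 BF).deriv.C_mul (-1)
  have h3 := h1.add h2
  have h4 : Sym (p + 2) ((1 - X) * (GG + C (-1 : ℝ) * T 0 one1) +
      C (-1 : ℝ) * ((1 - X) * d⁄dX ℝ (C 0 * GG + EL (p + 2) BF))) := by
    have h5 := h3.congr_B (B' := 0) (fun i hi => by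
      rw [zero_add, map_add, map_zero, coeff_C_mul]
      have : coeff i (X * (C (-1 : ℝ) * BT)) = -coeff i (X * BT) := by
        have e : X * (C (-1 : ℝ) * BT) = C (-1 : ℝ) * (X * BT) := by ring
        rw [e, coeff_C_mul]; ring
      rw [this, hcoef i hi, map_neg, coeff_X_mul_deriv]
      ring)
    unfold LE at h5
    rw [EL_zero, sub_zero] at h5
    have e : (0 : ℝ) + -1 * 0 = 0 := by norm_num
    rw [e, map_zero, zero_mul, sub_zero] at h5
    rw [map_zero, zero_mul]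
    exact h5
  set F : ℝ⟦X⟧ := (1 - X) * Es with hF
  have hFd : (1 - X) * d⁄dX ℝ F = (1 - X) * (GG + C (-1 : ℝ) * T 0 one1) := by
    rw [hF, Derivation.leibniz, smul_eq_mul, smul_eq_mul, map_neg, map_one]
    have h5 : d⁄dX ℝ (1 - X : ℝ⟦X⟧) = -1 := by
      rw [map_sub, Derivation.map_one_eq_zero, derivative_X, zero_sub]
    rw [h5]
    have h6 := Es_ode
    unfold one1
    linear_combination (1 - X) * h6
  set y : ℝ⟦X⟧ := F - EL (p + 2) BF with hy
  have hyd : Sym (p + 2) ((1 - X) * d⁄dX ℝ y) := by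
    have e : (1 - X) * d⁄dX ℝ y = (1 - X) * (GG + C (-1 : ℝ) * T 0 one1) +
      C (-1 : ℝ) * ((1 - X) * d⁄dX ℝ (C 0 * GG + EL (p + 2) BF)) := by
      rw [hy, map_sub, mul_sub, hFd, map_zero, zero_mul, zero_add, map_neg, map_one]
      ring
    rw [e]
    exact h4
  have hy1 : Sym (0 + 1) y := by
    rw [hy]
    apply Sym.sub
    · intro i
      rw [hF, ← mul_assoc, ← pow_succ]
      have := Es_neg i
      rwa [show 0 + 1 + i = i + 1 by ring]
    · unfold EL
      exact Sym.tld_mul_Lg (fun i hi => by omega)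
  have hode : Sym (0 + 2) ((1 - X) * d⁄dX ℝ y + C (((0 : ℕ) : ℝ)) * y) := by
    rw [Nat.cast_zero, map_zero, zero_mul, add_zero]
    exact hyd.mono (by omega)
  obtain ⟨c, hc⟩ := Sym.ode_res hy1 hode
  rw [pow_zero, one_mul] at hc
  refine ⟨c, ?_⟩
  set y' : ℝ⟦X⟧ := y - C c * Lg with hy'
  have hy'd : Sym (p + 2) ((1 - X) * d⁄dX ℝ y' + C (((0 : ℕ) : ℝ)) * y') := by
    have e : (1 - X) * d⁄dX ℝ y' + C (((0 : ℕ) : ℝ)) * y' =
        (1 - X) * d⁄dX ℝ y - ((Polynomial.C c : Polynomial ℝ) : ℝ⟦X⟧) := by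
      rw [hy', map_sub, Nat.cast_zero, map_zero, zero_mul, add_zero, Polynomial.coe_C]
      have : d⁄dX ℝ (C c * Lg) = C c * GG := by
        rw [← smul_eq_C_mul, ← smul_eq_C_mul, Derivation.map_smul, deriv_Lg]
      rw [this]
      linear_combination (-C c) * one_sub_X_mul_GG
    rw [e]
    exact hyd.sub (Sym.poly _ _)
  have hind : ∀ t, t ≤ p → Sym (0 + 2 + t) y' := by
    intro t ht
    induction t with
    | zero => exact hc
    | succ t ih =>
      have := Sym.ode_nonres (ih (by omega)) (hy'd.mono (by omega : 0 + 3 + t ≤ p + 2))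
      exact this.mono (by omega)
  have h6 := hind p le_rfl
  have e : (1 - X) * Es - C c * Lg - EL (p + 2) BF = y' := by rw [hy', hy, hF]; ring
  rw [e]
  exact h6.mono (by omega)

lemma GG_mul_cancel (f : ℝ⟦X⟧) : (1 - X) * (GG * f) = f := by
  rw [← mul_assoc, one_sub_X_mul_GG, one_mul]

/-- division by `1 - X` -/
lemma Sym.div_w {p : ℕ} {f : ℝ⟦X⟧} (hf : Sym (p + 2) f) :
    ∃ κ : ℝ, Sym (p + 1) (GG * f - C κ * GG) := by
  obtain ⟨P, hP, hb⟩ := hf.toNeg
  have h1 : BigO (p + 2) ((1 - X) * ((P : ℝ⟦X⟧) * (GG * f))) := by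
    have e : (1 - X) * ((P : ℝ⟦X⟧) * (GG * f)) = (P : ℝ⟦X⟧) * f := by
      have := GG_mul_cancel f
      linear_combination (P : ℝ⟦X⟧) * this
    rw [e]; exact hb
  obtain ⟨S, hS⟩ := BigO.sum_series h1
  obtain ⟨R, hR⟩ := poly_decomp P
  refine ⟨S / P.eval 1, ?_⟩
  have hcc : (C (P.eval 1) : ℝ⟦X⟧) * C (S / P.eval 1) = C S := by
    rw [← map_mul]; congr 1; field_simp
  intro i
  rcases i with _ | i
  · rw [pow_zero, one_mul]
    refine ⟨P, hP, ?_⟩
    have e : (P : ℝ⟦X⟧) * (GG * f - C (S / P.eval 1) * GG) =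
        ((P : ℝ⟦X⟧) * (GG * f) - C S * GG) -
        ((Polynomial.C (S / P.eval 1) * R : Polynomial ℝ) : ℝ⟦X⟧) := by
      rw [Polynomial.coe_mul, Polynomial.coe_C, ← hcc]
      linear_combination (-(C (S / P.eval 1) * GG)) * hR -
        (C (S / P.eval 1) * (R : ℝ⟦X⟧)) * one_sub_X_mul_GG
    rw [e]
    exact (hS.mono (by omega)).sub (BigO.poly _ _)
  · have e : (1 - X) ^ (i + 1) * (GG * f - C (S / P.eval 1) * GG) =
        (1 - X) ^ i * f - ((Polynomial.C (S / P.eval 1) * (1 - Polynomial.X) ^ i :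
          Polynomial ℝ) : ℝ⟦X⟧) := by
      have h2 := GG_mul_cancel f
      rw [Polynomial.coe_mul, Polynomial.coe_C, coe_one_sub_X_pow, pow_succ]
      linear_combination (1 - X) ^ i * h2 - ((1 - X) ^ i * C (S / P.eval 1)) * one_sub_X_mul_GG
    rw [e]
    have := hf i
    exact (this.mono (by omega)).sub (Neg.poly _ _)

/-- expansion of the mean series near `1` -/
theorem Es_LE (p : ℕ) : ∃ c κ : ℝ,
    Sym (p + 1) (Es - C κ * GG - C c * (GG * Lg) - EL (p + 1) (SD AE0)) := by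
  obtain ⟨c, hc⟩ := Es_near p
  obtain ⟨κ, hκ⟩ := hc.div_w
  refine ⟨c, κ, ?_⟩
  have e1 : GG * EL (p + 2) BF = EL (p + 1) (SD AE0) := by
    have h1 : trunc (p + 2) BF = Polynomial.X * trunc (p + 1) (SD AE0) := by
      ext i
      rcases i with _ | i
      · rw [coeff_trunc, if_pos (by omega), coeff_zero_BF]; simp
      · rw [coeff_trunc, Polynomial.coeff_X_mul, coeff_trunc, coeff_SD, coeff_succ_BF]
        by_cases h : i < p + 1
        · rw [if_pos (by omega), if_pos h]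
        · rw [if_neg (by omega), if_neg h]
    unfold EL
    rw [h1, tld_mul, tld_X]
    linear_combination (tld (trunc (p + 1) (SD AE0)) * Lg) * one_sub_X_mul_GG
  have e2 : GG * ((1 - X) * Es - C c * Lg - EL (p + 2) BF) - C κ * GG =
      Es - C κ * GG - C c * (GG * Lg) - EL (p + 1) (SD AE0) := by
    rw [← e1]
    linear_combination Es * one_sub_X_mul_GG
  rw [← e2]
  exact hκ

end Pool.Agent.Lib.MP_493311_pr
end
end
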