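import Mathlib
import Pool.Agent.Lib.MP_493311_pr.BigO

open Finset PowerSeries Filter
open scoped Topology

namespace Pool.Agent.Lib.MP_493311_pr

lemma sum_triangle {M : Type*} [AddCommMonoid M] (g : ℕ → ℕ → M) (K : ℕ) :
    ∑ k ∈ range K, ∑ i ∈ range (k + 1), g i (k - i) =
      ∑ i ∈ range K, ∑ r ∈ range (K - i), g i r := by
  induction K with
  | zero => simp
  | succ K ih =>
    rw [sum_range_succ, ih, sum_range_succ _ K, sum_range_succ _ K, Nat.sub_self]
    have h1 : ∀ i ∈ range K, ∑ r ∈ range (K + 1 - i), g i r =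
        (∑ r ∈ range (K - i), g i r) + g i (K - i) := by
      intro i hi
      have := mem_range.mp hi
      rw [show K + 1 - i = (K - i) + 1 by omega, sum_range_succ]
    rw [sum_congr rfl h1, sum_add_distrib]
    have h2 : K + 1 - K = 1 := by omega
    rw [h2, sum_range_one]
    abel

lemma binom_tail_id (i R : ℕ) (x : ℝ) :
    (1 - x) * ∑ r ∈ range R, (((i + 1 + r).choose (i + 1) : ℕ) : ℝ) * x ^ r =
      (∑ r ∈ range R, (((i + r).choose i : ℕ) : ℝ) * x ^ r) -
        (((i + R).choose (i + 1) : ℕ) : ℝ) * x ^ R := by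
  induction R with
  | zero => simp
  | succ R ih =>
    rw [sum_range_succ, mul_add, ih, sum_range_succ]
    have h1 : (i + 1 + R).choose (i + 1) = (i + R).choose i + (i + R).choose (i + 1) := by
      rw [show i + 1 + R = (i + R) + 1 by ring, Nat.choose_succ_succ]
    have h2 : (i + (R + 1)).choose (i + 1) = (i + R).choose i + (i + R).choose (i + 1) := by
      rw [show i + (R + 1) = (i + R) + 1 by ring, Nat.choose_succ_succ]
    rw [h1, h2]
    push_cast
    ring

lemma binom_tail (i R : ℕ) : ∃ C : ℝ, 0 ≤ C ∧ ∀ x : ℝ, 0 ≤ x → x ≤ 1 / 2 →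
    |(1 / (1 - x)) ^ (i + 1) - ∑ r ∈ range R, (((i + r).choose i : ℕ) : ℝ) * x ^ r| ≤
      C * x ^ R := by
  induction i with
  | zero =>
    refine ⟨2, by norm_num, fun x hx hx2 => ?_⟩
    have h1 : 0 < 1 - x := by linarith
    have h2 : ∑ r ∈ range R, (((0 + r).choose 0 : ℕ) : ℝ) * x ^ r = (1 - x ^ R) / (1 - x) := by
      rw [eq_div_iff h1.ne']
      have := geom_sum_mul_neg x R
      rw [← this]
      congr 1
      apply sum_congr rfl
      intro r _
      simp
    rw [h2, zero_add, pow_one, ← sub_div, sub_sub_cancel, abs_of_nonneg (by positivity),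
      div_le_iff₀ h1]
    have : 0 ≤ x ^ R := by positivity
    nlinarith
  | succ i ih =>
    obtain ⟨C, hC0, hC⟩ := ih
    refine ⟨2 * (C + ((i + R).choose (i + 1) : ℕ)), by positivity, fun x hx hx2 => ?_⟩
    have h1 : 0 < 1 - x := by linarith
    have h2 := hC x hx hx2
    set S := ∑ r ∈ range R, (((i + 1 + r).choose (i + 1) : ℕ) : ℝ) * x ^ r with hS
    have h3 := binom_tail_id i R x
    rw [← hS] at h3
    have h4 : (1 / (1 - x)) ^ (i + 1 + 1) - S = (1 / (1 - x)) *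
        (((1 / (1 - x)) ^ (i + 1) - ∑ r ∈ range R, (((i + r).choose i : ℕ) : ℝ) * x ^ r) +
        (((i + R).choose (i + 1) : ℕ) : ℝ) * x ^ R) := by
      have h5 : S = (1 / (1 - x)) * ((∑ r ∈ range R, (((i + r).choose i : ℕ) : ℝ) * x ^ r) -
        (((i + R).choose (i + 1) : ℕ) : ℝ) * x ^ R) := by
        rw [← h3]; field_simp
      rw [h5, pow_succ]
      ring
    rw [h4, abs_mul, abs_of_pos (by positivity)]
    have h5 : 1 / (1 - x) ≤ 2 := by
      rw [div_le_iff₀ h1]; linarith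
    have h6 : |((1 / (1 - x)) ^ (i + 1) - ∑ r ∈ range R, (((i + r).choose i : ℕ) : ℝ) * x ^ r) +
        (((i + R).choose (i + 1) : ℕ) : ℝ) * x ^ R| ≤
        C * x ^ R + (((i + R).choose (i + 1) : ℕ) : ℝ) * x ^ R := by
      refine (abs_add_le _ _).trans (add_le_add h2 ?_)
      rw [abs_of_nonneg (by positivity)]
    calc _ ≤ 2 * (C * x ^ R + (((i + R).choose (i + 1) : ℕ) : ℝ) * x ^ R) :=
          mul_le_mul h5 h6 (abs_nonneg _) (by norm_num)
      _ = _ := by ring

/-- the formal series `e^{-s}` -/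
noncomputable def Ee : ℂ⟦X⟧ := PowerSeries.mk fun r => (-1) ^ r / (r.factorial : ℂ)

/-- `Z = ω e^{-s}` -/
noncomputable def Zs (ω : ℂ) : ℂ⟦X⟧ := C ω * Ee

/-- the sequence `ω^{-n} ∑_{k<K} f_k (-1)^k k! n^{-k-1}` attached to a formal series in `s` -/
noncomputable def sK (K : ℕ) (ω : ℂ) (F : ℂ⟦X⟧) : ℂ⟦X⟧ := PowerSeries.mk fun n =>
  ω⁻¹ ^ n * ∑ k ∈ range K, coeff k F * ((-1) ^ k * (k.factorial : ℂ)) / (n : ℂ) ^ (k + 1)

lemma coeff_sK (K : ℕ) (ω : ℂ) (F : ℂ⟦X⟧) (n : ℕ) : coeff n (sK K ω F) =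
    ω⁻¹ ^ n * ∑ k ∈ range K, coeff k F * ((-1) ^ k * (k.factorial : ℂ)) / (n : ℂ) ^ (k + 1) :=
  coeff_mk _ _

lemma sK_add (K : ℕ) (ω : ℂ) (F G : ℂ⟦X⟧) : sK K ω (F + G) = sK K ω F + sK K ω G := by
  ext n
  rw [map_add, coeff_sK, coeff_sK, coeff_sK, ← mul_add, ← sum_add_distrib]
  congr 1
  apply sum_congr rfl
  intro k _
  rw [map_add]; ring

lemma sK_C_mul (K : ℕ) (ω c : ℂ) (F : ℂ⟦X⟧) : sK K ω (C c * F) = C c * sK K ω F := by
  ext n
  rw [coeff_C_mul, coeff_sK, coeff_sK, mul_left_comm]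
  congr 1
  rw [mul_sum]
  apply sum_congr rfl
  intro k _
  rw [coeff_C_mul]; ring

lemma sK_sub (K : ℕ) (ω : ℂ) (F G : ℂ⟦X⟧) : sK K ω (F - G) = sK K ω F - sK K ω G := by
  have h1 : F - G = F + C (-1) * G := by rw [map_neg, map_one]; ring
  rw [h1, sK_add, sK_C_mul, map_neg, map_one]; ring

lemma sK_sum {ι : Type*} (s : Finset ι) (K : ℕ) (ω : ℂ) (F : ι → ℂ⟦X⟧) :
    sK K ω (∑ i ∈ s, F i) = ∑ i ∈ s, sK K ω (F i) := by
  classical
  induction s using Finset.induction_on with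
  | empty =>
    rw [sum_empty, sum_empty]
    ext n
    rw [coeff_sK]
    simp
  | insert a s ha ih => rw [sum_insert ha, sum_insert ha, sK_add, ih]

lemma sK_congr {K : ℕ} {ω : ℂ} {F G : ℂ⟦X⟧} (h : ∀ k < K, coeff k F = coeff k G) :
    sK K ω F = sK K ω G := by
  ext n
  rw [coeff_sK, coeff_sK]
  congr 1
  apply sum_congr rfl
  intro k hk
  rw [h k (mem_range.mp hk)]

lemma sK_eq_zero {K : ℕ} {ω : ℂ} {F : ℂ⟦X⟧} (h : ∀ k < K, coeff k F = 0) : sK K ω F = 0 := by
  have h1 : sK K ω F = sK K ω 0 := sK_congr fun k hk => by rw [h k hk]; simp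
  rw [h1]
  ext n
  rw [coeff_sK]
  simp

/-- multiplication by `z` corresponds to multiplication by `Z` -/
lemma sK_X_mul (K : ℕ) {ω : ℂ} (hω : ‖ω‖ = 1) (F : ℂ⟦X⟧) :
    BigO (K + 1) (X * sK K ω F - sK K ω (Zs ω * F)) := by
  have hω0 : ω ≠ 0 := by intro h; rw [h, norm_zero] at hω; exact zero_ne_one hω
  choose Cb hCb0 hCb using fun i => binom_tail i (K - i)
  set D : ℝ := ∑ i ∈ range K, ‖coeff i F‖ * (i.factorial : ℝ) * Cb i with hD
  have hD0 : 0 ≤ D := sum_nonneg fun i _ => mul_nonneg (by positivity) (hCb0 i)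
  apply bigO_of_eventually (N := 2) (C := D * 2 ^ (K + 1))
  intro n hn
  obtain ⟨m, rfl⟩ : ∃ m, n = m + 1 := ⟨n - 1, by omega⟩
  have hm : 1 ≤ m := by omega
  have hm' : (1 : ℝ) ≤ m := by exact_mod_cast hm
  set x : ℝ := 1 / ((m : ℝ) + 1) with hx
  have hx0 : 0 < x := by positivity
  have hx2 : x ≤ 1 / 2 := one_div_le_one_div_of_le (by norm_num) (by linarith)
  have hmx : (1 : ℝ) / m = x * (1 / (1 - x)) := by
    rw [hx]
    have : (m : ℝ) ≠ 0 := by positivity
    have h3 : (m : ℝ) + 1 ≠ 0 := by positivity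
    have h4 : 1 - 1 / ((m : ℝ) + 1) = m / (m + 1) := by field_simp; ring
    rw [h4]
    field_simp
  rw [map_sub, coeff_succ_X_mul, coeff_sK, coeff_sK]
  -- rewrite the second one
  have h1 : ω⁻¹ ^ (m + 1) * ∑ k ∈ range K, coeff k (Zs ω * F) * ((-1) ^ k * (k.factorial : ℂ)) /
      ((m + 1 : ℕ) : ℂ) ^ (k + 1) = ω⁻¹ ^ m * ∑ i ∈ range K, coeff i F *
      ((-1) ^ i * (i.factorial : ℂ)) * ((x ^ (i + 1) * ∑ r ∈ range (K - i),
        (((i + r).choose i : ℕ) : ℝ) * x ^ r : ℝ) : ℂ) := by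
    have h2 : ∀ k, coeff k (Zs ω * F) * ((-1) ^ k * (k.factorial : ℂ)) /
        ((m + 1 : ℕ) : ℂ) ^ (k + 1) = ω * ∑ i ∈ range (k + 1), coeff i F *
        ((-1) ^ i * (i.factorial : ℂ)) * ((x ^ (i + 1) *
        ((((i + (k - i)).choose i : ℕ) : ℝ) * x ^ (k - i)) : ℝ) : ℂ) := by
      intro k
      unfold Zs
      rw [mul_assoc, coeff_C_mul, mul_comm Ee F, coeff_mul,
        Nat.sum_antidiagonal_eq_sum_range_succ_mk, Nat.succ_eq_add_one, mul_assoc, mul_div_assoc,
        sum_mul, sum_div]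
      congr 1
      apply sum_congr rfl
      intro i hi
      have hi' : i ≤ k := by have := mem_range.mp hi; omega
      obtain ⟨r, rfl⟩ := Nat.exists_eq_add_of_le hi'
      rw [Nat.add_sub_cancel_left]
      unfold Ee
      rw [coeff_mk]
      have h3 : (((i + r).choose i : ℕ) : ℂ) = ((i + r).factorial : ℂ) /
          ((i.factorial : ℂ) * (r.factorial : ℂ)) := by
        rw [eq_div_iff (mul_ne_zero (by exact_mod_cast i.factorial_ne_zero)
          (by exact_mod_cast r.factorial_ne_zero))]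
        have := Nat.choose_mul_factorial_mul_factorial (Nat.le_add_right i r)
        rw [Nat.add_sub_cancel_left] at this
        have h4 : (((i + r).choose i * i.factorial * r.factorial : ℕ) : ℂ) =
          ((i + r).factorial : ℂ) := by exact_mod_cast this
        push_cast at h4
        rw [← h4]; ring
      rw [hx]
      push_cast
      rw [h3, one_div_pow, one_div_pow]
      have h5 : ((m : ℂ) + 1) ≠ 0 := by exact_mod_cast Nat.succ_ne_zero m
      have h6 : (r.factorial : ℂ) ≠ 0 := by exact_mod_cast r.factorial_ne_zero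
      have h7 : (i.factorial : ℂ) ≠ 0 := by exact_mod_cast i.factorial_ne_zero
      have h8 : ((-1 : ℂ)) ^ r * (-1) ^ (i + r) = (-1) ^ i := by
        rw [pow_add, mul_comm ((-1 : ℂ) ^ i), ← mul_assoc, ← mul_pow]; norm_num
      rw [show i + r + 1 = (i + 1) + r by ring, pow_add _ (i + 1) r, ← h8]
      field_simp
    rw [sum_congr rfl fun k _ => h2 k, ← mul_sum, pow_succ, sum_triangle (fun i r => coeff i F *
        ((-1) ^ i * (i.factorial : ℂ)) * ((x ^ (i + 1) *
        ((((i + r).choose i : ℕ) : ℝ) * x ^ r) : ℝ) : ℂ)) K]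
    have h3 : ω⁻¹ ^ m * ω⁻¹ * (ω * ∑ i ∈ range K, ∑ r ∈ range (K - i), coeff i F *
        ((-1) ^ i * (i.factorial : ℂ)) * ((x ^ (i + 1) *
        ((((i + r).choose i : ℕ) : ℝ) * x ^ r) : ℝ) : ℂ)) = ω⁻¹ ^ m *
        ∑ i ∈ range K, ∑ r ∈ range (K - i), coeff i F *
        ((-1) ^ i * (i.factorial : ℂ)) * ((x ^ (i + 1) *
        ((((i + r).choose i : ℕ) : ℝ) * x ^ r) : ℝ) : ℂ) := by
      field_simp
    rw [h3]
    congr 1
    apply sum_congr rfl
    intro i _
    push_cast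
    rw [mul_sum, mul_sum]
  rw [h1, ← mul_sub, norm_mul, norm_pow, norm_inv, hω, inv_one, one_pow, one_mul,
    ← sum_sub_distrib]
  have h2 : ∀ i ∈ range K, ‖coeff i F * ((-1) ^ i * (i.factorial : ℂ)) / (m : ℂ) ^ (i + 1) -
      coeff i F * ((-1) ^ i * (i.factorial : ℂ)) * ((x ^ (i + 1) * ∑ r ∈ range (K - i),
        (((i + r).choose i : ℕ) : ℝ) * x ^ r : ℝ) : ℂ)‖ ≤
      ‖coeff i F‖ * (i.factorial : ℝ) * Cb i * x ^ (K + 1) := by
    intro i hi
    have hi' := mem_range.mp hi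
    have h3 : coeff i F * ((-1) ^ i * (i.factorial : ℂ)) / (m : ℂ) ^ (i + 1) -
      coeff i F * ((-1) ^ i * (i.factorial : ℂ)) * ((x ^ (i + 1) * ∑ r ∈ range (K - i),
        (((i + r).choose i : ℕ) : ℝ) * x ^ r : ℝ) : ℂ) =
      coeff i F * ((-1) ^ i * (i.factorial : ℂ)) * ((x ^ (i + 1) * ((1 / (1 - x)) ^ (i + 1) -
        ∑ r ∈ range (K - i), (((i + r).choose i : ℕ) : ℝ) * x ^ r) : ℝ) : ℂ) := by
      have h4 : (1 : ℂ) / (m : ℂ) ^ (i + 1) = ((x ^ (i + 1) * (1 / (1 - x)) ^ (i + 1) : ℝ) : ℂ) := by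
        rw [← mul_pow, ← hmx]
        push_cast
        rw [one_div_pow]
      rw [mul_sub, Complex.ofReal_sub, ← h4]
      ring
    rw [h3, norm_mul, norm_mul, norm_mul, norm_pow, norm_neg, norm_one, one_pow, one_mul,
      Complex.norm_natCast, Complex.norm_real, Real.norm_eq_abs, abs_mul,
      abs_of_pos (by positivity : 0 < x ^ (i + 1))]
    have h5 := hCb i x hx0.le hx2
    calc _ ≤ ‖coeff i F‖ * (i.factorial : ℝ) * (x ^ (i + 1) * (Cb i * x ^ (K - i))) := by
          gcongr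
      _ = _ := by
          rw [show K + 1 = (i + 1) + (K - i) by omega, pow_add]
          ring
  refine (norm_sum_le _ _).trans ((sum_le_sum h2).trans ?_)
  rw [← sum_mul, ← hD, hx, one_div_pow, mul_one_div]
  rw [div_le_div_iff₀ (by positivity) (by positivity), mul_assoc, ← mul_pow]
  gcongr
  push_cast
  linarith

lemma sK_X_pow_mul (K : ℕ) {ω : ℂ} (hω : ‖ω‖ = 1) (F : ℂ⟦X⟧) (e : ℕ) :
    BigO (K + 1) (X ^ e * sK K ω F - sK K ω (Zs ω ^ e * F)) := by
  induction e with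
  | zero => simpa using BigO.zero (𝕜 := ℂ) (K + 1)
  | succ e ih =>
    have h1 := (ih.X_mul).add (sK_X_mul K hω (Zs ω ^ e * F))
    have h2 : X * (X ^ e * sK K ω F - sK K ω (Zs ω ^ e * F)) +
        (X * sK K ω (Zs ω ^ e * F) - sK K ω (Zs ω * (Zs ω ^ e * F))) =
        X ^ (e + 1) * sK K ω F - sK K ω (Zs ω ^ (e + 1) * F) := by
      rw [pow_succ' (Zs ω), mul_assoc, pow_succ' X]; ring
    rw [h2] at h1
    exact h1

/-- multiplication by polynomials -/
lemma sK_poly_mul (K : ℕ) {ω : ℂ} (hω : ‖ω‖ = 1) (F : ℂ⟦X⟧) (P : Polynomial ℂ) :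
    BigO (K + 1) ((P : ℂ⟦X⟧) * sK K ω F - sK K ω (Polynomial.aeval (Zs ω) P * F)) := by
  induction P using Polynomial.induction_on' with
  | add p q hp hq =>
    have := hp.add hq
    convert this using 1
    rw [Polynomial.coe_add, map_add, add_mul, add_mul, sK_add]
    ring
  | monomial n a =>
    have := (sK_X_pow_mul K hω F n).C_mul a
    convert this using 1
    rw [Polynomial.aeval_monomial, ← Polynomial.C_mul_X_pow_eq_monomial]
    push_cast
    have h1 : algebraMap ℂ ℂ⟦X⟧ a = C a := rfl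
    rw [h1, mul_assoc (C a) (Zs ω ^ n) F, sK_C_mul]
    ring

lemma cpoly_eq_zero_of_small {E : Polynomial ℂ} {C : ℝ}
    (h : ∀ j : ℕ, 0 < j → ‖E.eval (j : ℂ)‖ ≤ C / j) : E = 0 := by
  have ht : Tendsto (fun j : ℕ => ‖E.eval (j : ℂ)‖) atTop (𝓝 0) := by
    apply squeeze_zero' (Eventually.of_forall fun _ => norm_nonneg _) _
      (tendsto_const_div_atTop_nhds_zero_nat C)
    filter_upwards [eventually_gt_atTop 0] with j hj using h j hj
  rcases lt_or_ge 0 E.degree with hd | hd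
  · exfalso
    have h1 : Tendsto (fun j : ℕ => ‖(j : ℂ)‖) atTop atTop := by
      simp only [Complex.norm_natCast]
      exact tendsto_natCast_atTop_atTop
    have h2 := Polynomial.tendsto_norm_atTop E hd h1
    exact not_tendsto_nhds_of_tendsto_atTop h2 0 ht
  · rw [Polynomial.eq_C_of_degree_le_zero hd] at ht ⊢
    simp only [Polynomial.eval_C] at ht
    have := tendsto_nhds_unique ht tendsto_const_nhds
    rw [eq_comm, norm_eq_zero] at this
    rw [this, map_zero]

/-- uniqueness -/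
lemma coeff_eq_zero_of_sK {K : ℕ} {F : ℂ⟦X⟧} (h : BigO (K + 1) (sK K 1 F)) :
    ∀ k < K, coeff k F = 0 := by
  obtain ⟨C0, hC0, hC⟩ := h.nonneg
  set E : Polynomial ℂ := ∑ k ∈ range K, Polynomial.C (coeff k F *
    ((-1) ^ k * (k.factorial : ℂ))) * Polynomial.X ^ (K - 1 - k) with hE
  have hE0 : E = 0 := by
    apply cpoly_eq_zero_of_small (C := C0)
    intro n hn
    have hn' : (0 : ℝ) < n := by exact_mod_cast hn
    have hn0 : (n : ℂ) ≠ 0 := by exact_mod_cast hn.ne'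
    have h1 := hC n
    rw [coeff_sK, inv_one, one_pow, one_mul] at h1
    have h2 : E.eval (n : ℂ) = (n : ℂ) ^ K * ∑ k ∈ range K, coeff k F *
        ((-1) ^ k * (k.factorial : ℂ)) / (n : ℂ) ^ (k + 1) := by
      rw [hE, Polynomial.eval_finsetSum, mul_sum]
      apply sum_congr rfl
      intro k hk
      have hk' := mem_range.mp hk
      simp only [Polynomial.eval_mul, Polynomial.eval_C, Polynomial.eval_pow, Polynomial.eval_X]
      rw [show (n : ℂ) ^ K = (n : ℂ) ^ (K - 1 - k) * (n : ℂ) ^ (k + 1) by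
        rw [← pow_add]; congr 1; omega]
      field_simp
    rw [h2, norm_mul, norm_pow, Complex.norm_natCast]
    calc (n : ℝ) ^ K * _ ≤ (n : ℝ) ^ K * (C0 / ((n : ℝ) + 1) ^ (K + 1)) := by gcongr
      _ ≤ (n : ℝ) ^ K * (C0 / (n : ℝ) ^ (K + 1)) := by gcongr; linarith
      _ = _ := by rw [pow_succ]; field_simp
  intro k hk
  have h1 := congrArg (fun p => Polynomial.coeff p (K - 1 - k)) hE0
  simp only [hE, Polynomial.finsetSum_coeff, Polynomial.coeff_C_mul, Polynomial.coeff_X_pow,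
    Polynomial.coeff_zero] at h1
  rw [sum_eq_single k] at h1
  · rw [if_pos rfl, mul_one] at h1
    have h2 : ((-1 : ℂ)) ^ k * (k.factorial : ℂ) ≠ 0 := by
      apply mul_ne_zero
      · exact pow_ne_zero _ (by norm_num)
      · exact_mod_cast k.factorial_ne_zero
    exact (mul_eq_zero.mp h1).resolve_right h2
  · intro b hb hbk
    have := mem_range.mp hb
    rw [if_neg (by omega), mul_zero]
  · intro h
    exact absurd (mem_range.mpr hk) h

end Pool.Agent.Lib.MP_493311_pr
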