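import Mathlib
import Pool.Agent.Lib.MP_493311_pr.Seq
import Pool.Agent.Lib.MP_493311_pr.EsExp

open Finset PowerSeries Filter
open scoped Topology

namespace Pool.Agent.Lib.MP_493311_pr

/-- Bernoulli numbers (`B_1 = -1/2`), as reals -/
noncomputable def Bn (m : ℕ) : ℝ := ((bernoulli m : ℚ) : ℝ)

lemma Bn_sum {n : ℕ} (hn : 1 ≤ n) : ∑ m ∈ range n, (((n - 1).choose m : ℕ) : ℝ) *
    (Bn (m + 1) / ((m : ℝ) + 1)) = (Bn n + (if n = 1 then 1 else 0) - 1) / n := by
  have h1 : ∑ k ∈ range n, (n.choose k : ℚ) * bernoulli k = if n = 1 then 1 else 0 :=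
    sum_bernoulli n
  have h2 : ∑ k ∈ range n, ((n.choose k : ℕ) : ℝ) * Bn k = if n = 1 then 1 else 0 := by
    unfold Bn
    have := congrArg (fun q : ℚ => (q : ℝ)) h1
    simp only [Rat.cast_sum, Rat.cast_mul, Rat.cast_natCast] at this
    rw [this]
    split_ifs <;> simp
  have h3 : ∑ k ∈ range (n + 1), ((n.choose k : ℕ) : ℝ) * Bn k =
      (if n = 1 then 1 else 0) + Bn n := by
    rw [sum_range_succ, h2, Nat.choose_self, Nat.cast_one, one_mul]
  rw [sum_range_succ'] at h3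
  have hB0 : Bn 0 = 1 := by unfold Bn; simp
  rw [hB0, Nat.choose_zero_right, Nat.cast_one, one_mul] at h3
  have hn' : (n : ℝ) ≠ 0 := by positivity
  rw [eq_div_iff hn', sum_mul]
  have h4 : ∀ m ∈ range n, (((n - 1).choose m : ℕ) : ℝ) * (Bn (m + 1) / ((m : ℝ) + 1)) * n =
      ((n.choose (m + 1) : ℕ) : ℝ) * Bn (m + 1) := by
    intro m _
    have h5 := Nat.add_one_mul_choose_eq (n - 1) m
    rw [Nat.sub_add_cancel hn] at h5
    have h6 : (n : ℝ) * (((n - 1).choose m : ℕ) : ℝ) = ((n.choose (m + 1) : ℕ) : ℝ) * (m + 1) := by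
      exact_mod_cast h5
    have h7 : (m : ℝ) + 1 ≠ 0 := by positivity
    field_simp
    linear_combination Bn (m + 1) * h6
  rw [sum_congr rfl h4]
  linarith

/-- truncated `∑_{m=1}^N B_m u^m / m` -/
noncomputable def bN (N : ℕ) (u : ℝ) : ℝ :=
  ∑ m ∈ range N, Bn (m + 1) / ((m : ℝ) + 1) * u ^ (m + 1)

lemma bN_diff (N : ℕ) : ∃ C : ℝ, 0 ≤ C ∧ ∀ u : ℝ, 0 ≤ u → u ≤ 1 / 2 →
    |u + Real.log (1 - u) + bN N u - bN N (u / (1 - u))| ≤ C * u ^ (N + 1) := by
  choose Cb hCb0 hCb using fun m => binom_tail m (N - m)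
  refine ⟨(∑ m ∈ range N, |Bn (m + 1) / ((m : ℝ) + 1)| * Cb m) + 2, ?_, ?_⟩
  · have : 0 ≤ ∑ m ∈ range N, |Bn (m + 1) / ((m : ℝ) + 1)| * Cb m :=
      sum_nonneg fun m _ => mul_nonneg (abs_nonneg _) (hCb0 m)
    linarith
  · intro u hu hu2
    have h1u : 0 < 1 - u := by linarith
    -- expansion of bN (u/(1-u))
    set P : ℝ := ∑ m ∈ range N, Bn (m + 1) / ((m : ℝ) + 1) * (u ^ (m + 1) *
      ∑ r ∈ range (N - m), (((m + r).choose m : ℕ) : ℝ) * u ^ r) with hP
    have h1 : |bN N (u / (1 - u)) - P| ≤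
        (∑ m ∈ range N, |Bn (m + 1) / ((m : ℝ) + 1)| * Cb m) * u ^ (N + 1) := by
      unfold bN
      rw [hP, ← sum_sub_distrib, sum_mul]
      refine (abs_sum_le_sum_abs _ _).trans (sum_le_sum fun m hm => ?_)
      have hm' := mem_range.mp hm
      rw [← mul_sub, abs_mul, mul_assoc]
      apply mul_le_mul_of_nonneg_left _ (abs_nonneg _)
      have h2 : (u / (1 - u)) ^ (m + 1) - u ^ (m + 1) * ∑ r ∈ range (N - m),
          (((m + r).choose m : ℕ) : ℝ) * u ^ r = u ^ (m + 1) * ((1 / (1 - u)) ^ (m + 1) -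
          ∑ r ∈ range (N - m), (((m + r).choose m : ℕ) : ℝ) * u ^ r) := by
        rw [div_pow, one_div_pow]; ring
      rw [h2, abs_mul, abs_of_nonneg (by positivity)]
      calc u ^ (m + 1) * _ ≤ u ^ (m + 1) * (Cb m * u ^ (N - m)) := by
            gcongr
            exact hCb m u hu hu2
        _ = _ := by
            rw [show N + 1 = (m + 1) + (N - m) by omega, pow_add]; ring
    -- rearrangement
    have h2 : P = ∑ n ∈ range N, (∑ m ∈ range (n + 1), ((n.choose m : ℕ) : ℝ) *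
        (Bn (m + 1) / ((m : ℝ) + 1))) * u ^ (n + 1) := by
      rw [hP]
      have h3 := sum_triangle (fun i r => Bn (i + 1) / ((i : ℝ) + 1) * (u ^ (i + 1) *
        ((((i + r).choose i : ℕ) : ℝ) * u ^ r))) N
      have h4 : ∀ m ∈ range N, Bn (m + 1) / ((m : ℝ) + 1) * (u ^ (m + 1) *
          ∑ r ∈ range (N - m), (((m + r).choose m : ℕ) : ℝ) * u ^ r) =
          ∑ r ∈ range (N - m), Bn (m + 1) / ((m : ℝ) + 1) * (u ^ (m + 1) *
          ((((m + r).choose m : ℕ) : ℝ) * u ^ r)) := by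
        intro m _
        rw [mul_sum, mul_sum]
      rw [sum_congr rfl h4, ← h3]
      apply sum_congr rfl
      intro n _
      rw [sum_mul]
      apply sum_congr rfl
      intro i hi
      have hi' : i ≤ n := by have := mem_range.mp hi; omega
      rw [Nat.add_sub_cancel' hi']
      have : u ^ (i + 1) * u ^ (n - i) = u ^ (n + 1) := by
        rw [← pow_add]; congr 1; omega
      rw [← this]; ring
    have h3 : P = ∑ n ∈ range N, ((Bn (n + 1) + (if n + 1 = 1 then 1 else 0) - 1) /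
        ((n : ℝ) + 1)) * u ^ (n + 1) := by
      rw [h2]
      apply sum_congr rfl
      intro n _
      have := Bn_sum (n := n + 1) (by omega)
      rw [Nat.add_sub_cancel] at this
      rw [this]
      push_cast
      rfl
    have h4 := Real.abs_log_sub_add_sum_range_le (x := u) (by rw [abs_of_nonneg hu]; linarith) N
    rw [abs_of_nonneg hu] at h4
    have h5 : u ^ (N + 1) / (1 - u) ≤ 2 * u ^ (N + 1) := by
      rw [div_le_iff₀ h1u]
      have : 0 ≤ u ^ (N + 1) := by positivity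
      nlinarith
    rcases Nat.eq_zero_or_pos N with hN | hN
    · subst hN
      have h6 : bN 0 u = 0 := by unfold bN; simp
      have h7 : bN 0 (u / (1 - u)) = 0 := by unfold bN; simp
      rw [h6, h7]
      simp only [range_zero, sum_empty, zero_add, pow_one] at h4 h5 ⊢
      have h8 := Real.abs_log_sub_add_sum_range_le (x := u) (by rw [abs_of_nonneg hu]; linarith) 1
      rw [abs_of_nonneg hu] at h8
      simp only [range_one, sum_singleton, Nat.cast_zero, zero_add, div_one, pow_one] at h8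
      rw [add_zero, sub_zero]
      refine h8.trans ?_
      rw [div_le_iff₀ h1u]
      have h9 : 0 ≤ u * (2 - 3 * u) := mul_nonneg hu (by linarith)
      have h10 : u ^ (1 + 1) = u * u := by ring
      rw [h10]
      linarith
    · have h6 : u + Real.log (1 - u) + bN N u - P =
          (∑ i ∈ range N, u ^ (i + 1) / (i + 1)) + Real.log (1 - u) := by
        have h7 : (∑ i ∈ range N, u ^ (i + 1) / (i + 1)) + P = bN N u + u := by
          rw [h3]
          unfold bN
          rw [← sum_add_distrib]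
          have h8 : ∀ i ∈ range N, u ^ (i + 1) / ((i : ℝ) + 1) +
              (Bn (i + 1) + (if i + 1 = 1 then 1 else 0) - 1) / ((i : ℝ) + 1) * u ^ (i + 1) =
              Bn (i + 1) / ((i : ℝ) + 1) * u ^ (i + 1) + (if i = 0 then u else 0) := by
            intro i _
            rcases i with _ | i
            · simp
              ring
            · rw [if_neg (by omega), if_neg (by omega)]
              ring
          rw [sum_congr rfl h8, sum_add_distrib]
          congr 1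
          rw [sum_ite_eq']
          rw [if_pos (mem_range.mpr hN)]
        linarith
      have h7 : u + Real.log (1 - u) + bN N u - bN N (u / (1 - u)) =
          ((∑ i ∈ range N, u ^ (i + 1) / (i + 1)) + Real.log (1 - u)) -
          (bN N (u / (1 - u)) - P) := by rw [← h6]; ring
      rw [h7]
      refine (abs_sub _ _).trans ?_
      rw [add_mul, add_comm]
      exact add_le_add h1 (h4.trans h5)

/-- Euler–Maclaurin: `∑_{i > j} (-1/i - log(1-1/i)) = -∑ B_m j^{-m}/m` -/
lemma tl_phiL (N : ℕ) : ∃ C : ℝ, ∀ j : ℕ, 0 < j →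
    |tl phiL j + bN N (1 / (j : ℝ))| ≤ C / (j : ℝ) ^ (N + 1) := by
  obtain ⟨C0, hC0, hC⟩ := bN_diff (N + 1)
  -- auxiliary remainder
  set e : ℕ → ℝ := fun i => phiL i - (bN (N + 1) (1 / (i : ℝ)) - bN (N + 1) (1 / ((i : ℝ) - 1)))
    with he
  have hbd : ∀ i : ℕ, 2 ≤ i → |e i| ≤ C0 / (i : ℝ) ^ (N + 2) := by
    intro i hi
    have hi' : (2 : ℝ) ≤ i := by exact_mod_cast hi
    have h1 := hC (1 / (i : ℝ)) (by positivity) (one_div_le_one_div_of_le (by norm_num) hi')
    have h2 : (1 / (i : ℝ)) / (1 - 1 / (i : ℝ)) = 1 / ((i : ℝ) - 1) := by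
      have : (i : ℝ) - 1 ≠ 0 := by linarith
      have h3 : (i : ℝ) ≠ 0 := by linarith
      field_simp
    rw [h2] at h1
    have h3 : e i = -(1 / (i : ℝ) + Real.log (1 - 1 / (i : ℝ)) + bN (N + 1) (1 / (i : ℝ)) -
        bN (N + 1) (1 / ((i : ℝ) - 1))) := by
      rw [he]; unfold phiL; ring
    rw [h3, abs_neg]
    refine h1.trans (le_of_eq ?_)
    rw [one_div_pow]; ring
  have hbN0 : ∀ M : ℕ, Tendsto (fun i : ℕ => bN M (1 / (i : ℝ))) atTop (𝓝 0) := by
    intro M
    have h1 : Tendsto (fun u : ℝ => bN M u) (𝓝 0) (𝓝 (bN M 0)) := by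
      apply Continuous.tendsto
      unfold bN
      fun_prop
    have h2 : bN M 0 = 0 := by unfold bN; simp
    rw [h2] at h1
    exact h1.comp (tendsto_one_div_atTop_nhds_zero_nat (𝕜 := ℝ))
  refine ⟨C0 * 2 ^ (N + 2) + |Bn (N + 1) / ((N : ℝ) + 1)|, fun j hj => ?_⟩
  have hj' : (1 : ℝ) ≤ j := by exact_mod_cast hj
  have hs := (tail_sum (a := fun i => e (j + 1 + i)) (l := N) (n := j) hC0 fun i => ?_)
  · obtain ⟨hs1, hs2⟩ := hs
    have hph := tl_summable (phiL_Cl 0) j
    have hdiff : Summable fun i : ℕ => bN (N + 1) (1 / ((j + 1 + i : ℕ) : ℝ)) -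
        bN (N + 1) (1 / (((j + 1 + i : ℕ) : ℝ) - 1)) := by
      have := hph.sub hs1
      refine this.congr fun i => ?_
      rw [he]; ring
    have htel : ∑' i : ℕ, (bN (N + 1) (1 / ((j + 1 + i : ℕ) : ℝ)) -
        bN (N + 1) (1 / (((j + 1 + i : ℕ) : ℝ) - 1))) = -bN (N + 1) (1 / (j : ℝ)) := by
      have h1 := hdiff.hasSum.tendsto_sum_nat
      have h2 : ∀ n : ℕ, ∑ i ∈ range n, (bN (N + 1) (1 / ((j + 1 + i : ℕ) : ℝ)) -
        bN (N + 1) (1 / (((j + 1 + i : ℕ) : ℝ) - 1))) =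
          bN (N + 1) (1 / ((n + j : ℕ) : ℝ)) - bN (N + 1) (1 / (j : ℝ)) := by
        intro n
        induction n with
        | zero => simp
        | succ n ih =>
          rw [sum_range_succ, ih]
          have e1 : ((j + 1 + n : ℕ) : ℝ) - 1 = ((n + j : ℕ) : ℝ) := by push_cast; ring
          have e2 : ((j + 1 + n : ℕ) : ℝ) = ((n + 1 + j : ℕ) : ℝ) := by push_cast; ring
          rw [e1, e2]; ring
      simp only [h2] at h1
      have h3 : Tendsto (fun n : ℕ => bN (N + 1) (1 / ((n + j : ℕ) : ℝ)) -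
          bN (N + 1) (1 / (j : ℝ))) atTop (𝓝 (0 - bN (N + 1) (1 / (j : ℝ)))) := by
        apply Tendsto.sub_const
        exact (hbN0 (N + 1)).comp (tendsto_add_atTop_nat j)
      rw [zero_sub] at h3
      exact tendsto_nhds_unique h1 h3
    have h4 : tl phiL j + bN (N + 1) (1 / (j : ℝ)) = ∑' i, e (j + 1 + i) := by
      have h5 : tl phiL j = ∑' i, (e (j + 1 + i) + (bN (N + 1) (1 / ((j + 1 + i : ℕ) : ℝ)) -
        bN (N + 1) (1 / (((j + 1 + i : ℕ) : ℝ) - 1)))) := by
        unfold tl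
        congr 1
        funext i
        rw [he]; ring
      rw [h5, hs1.tsum_add hdiff, htel]
      ring
    have h5 : bN (N + 1) (1 / (j : ℝ)) = bN N (1 / (j : ℝ)) +
        Bn (N + 1) / ((N : ℝ) + 1) * (1 / (j : ℝ)) ^ (N + 1) := by
      unfold bN
      rw [sum_range_succ]
    have h6 : tl phiL j + bN N (1 / (j : ℝ)) = (∑' i, e (j + 1 + i)) -
        Bn (N + 1) / ((N : ℝ) + 1) * (1 / (j : ℝ)) ^ (N + 1) := by
      rw [← h4, h5]; ring
    rw [h6, add_div]
    refine (abs_sub _ _).trans (add_le_add ?_ ?_)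
    · refine hs2.trans ?_
      gcongr
      linarith
    · rw [abs_mul, one_div_pow, abs_of_pos (by positivity : 0 < 1 / (j : ℝ) ^ (N + 1)),
        mul_one_div]
  · have := hbd (j + 1 + i) (by omega)
    push_cast at this
    rwa [show (j : ℝ) + 1 + i = j + i + 1 by ring] at this

/-- `e^{-H_j}`, real form -/
lemma log_h (j : ℕ) : Real.log (h j) = -∑ i ∈ range j, (1 : ℝ) / (i + 1) := by
  unfold h; rw [Real.log_exp]

/-- expansion of the harmonic numbers -/
lemma harmonic_expansion (N : ℕ) : ∃ C : ℝ, ∀ j : ℕ, 0 < j →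
    |(∑ i ∈ range j, (1 : ℝ) / (i + 1)) - (Real.log j + Real.eulerMascheroniConstant -
      ∑ m ∈ range N, Bn (m + 1) / ((m : ℝ) + 1) / (j : ℝ) ^ (m + 1))| ≤
      C / (j : ℝ) ^ (N + 1) := by
  obtain ⟨C, hC⟩ := tl_phiL N
  refine ⟨C, fun j hj => ?_⟩
  have hj' : (0 : ℝ) < j := by exact_mod_cast hj
  have h1 := log_h_eq hj
  rw [Real.log_mul hj'.ne' (h_pos j).ne', log_h] at h1
  have h2 : ∑ m ∈ range N, Bn (m + 1) / ((m : ℝ) + 1) / (j : ℝ) ^ (m + 1) =
      bN N (1 / (j : ℝ)) := by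
    unfold bN
    apply sum_congr rfl
    intro m _
    rw [one_div_pow]; ring
  rw [h2]
  have h3 : (∑ i ∈ range j, (1 : ℝ) / (i + 1)) - (Real.log j + Real.eulerMascheroniConstant -
      bN N (1 / (j : ℝ))) = tl phiL j + bN N (1 / (j : ℝ)) := by linarith
  rw [h3]
  exact hC j hj

end Pool.Agent.Lib.MP_493311_pr
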