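import Mathlib
import Pool.Agent.Lib.MP_493311_pr.Bern

open Finset PowerSeries Filter
open scoped Topology

namespace Pool.Agent.Lib.MP_493311_pr

/-- coefficients of `exp (∑_{m ≥ 1} B_m x^m / m)`, by the recursion
`t η_t = ∑_{i=1}^t B_i η_{t-i}` -/
noncomputable def eta : ℕ → ℝ
  | 0 => 1
  | t + 1 => (1 / ((t : ℝ) + 1)) * ∑ i : Fin (t + 1), Bn (i + 1) * eta (t - i)
termination_by t => t
decreasing_by omega

lemma eta_zero : eta 0 = 1 := by rw [eta]

lemma eta_succ (t : ℕ) : ((t : ℝ) + 1) * eta (t + 1) =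
    ∑ i ∈ range (t + 1), Bn (i + 1) * eta (t - i) := by
  rw [eta, Fin.sum_univ_eq_sum_range (fun i => Bn (i + 1) * eta (t - i))]
  have : (t : ℝ) + 1 ≠ 0 := by positivity
  field_simp

/-- polynomial version of `bN` -/
noncomputable def bP (N : ℕ) : Polynomial ℝ :=
  ∑ m ∈ range N, Polynomial.C (Bn (m + 1) / ((m : ℝ) + 1)) * Polynomial.X ^ (m + 1)

lemma bP_eval (N : ℕ) (u : ℝ) : (bP N).eval u = bN N u := by
  unfold bP bN
  rw [Polynomial.eval_finsetSum]
  simp only [Polynomial.eval_mul, Polynomial.eval_C, Polynomial.eval_pow, Polynomial.eval_X]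

/-- truncation of the series `eta` -/
noncomputable def eP (N : ℕ) : Polynomial ℝ :=
  ∑ t ∈ range (N + 1), Polynomial.C (eta t) * Polynomial.X ^ t

lemma eP_coeff {N t : ℕ} (ht : t ≤ N) : (eP N).coeff t = eta t := by
  unfold eP
  rw [Polynomial.finsetSum_coeff, sum_eq_single t]
  · simp
  · intro b _ hb
    rw [Polynomial.coeff_C_mul, Polynomial.coeff_X_pow, if_neg (Ne.symm hb), mul_zero]
  · intro h
    exact absurd (mem_range.mpr (by omega)) h

lemma bP_deriv_coeff {N i : ℕ} (hi : i < N) : (Polynomial.derivative (bP N)).coeff i =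
    Bn (i + 1) := by
  rw [Polynomial.coeff_derivative]
  unfold bP
  rw [Polynomial.finsetSum_coeff, sum_eq_single i]
  · rw [Polynomial.coeff_C_mul, Polynomial.coeff_X_pow, if_pos rfl, mul_one]
    have : (i : ℝ) + 1 ≠ 0 := by positivity
    field_simp
  · intro b _ hb
    rw [Polynomial.coeff_C_mul, Polynomial.coeff_X_pow, if_neg (by omega), mul_zero]
  · intro h
    exact absurd (mem_range.mpr hi) h

lemma D_dvd (N : ℕ) : Polynomial.X ^ N ∣
    Polynomial.derivative (eP N) - Polynomial.derivative (bP N) * eP N := by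
  rw [Polynomial.X_pow_dvd_iff]
  intro t ht
  rw [Polynomial.coeff_sub, Polynomial.coeff_derivative, eP_coeff (by omega),
    Polynomial.coeff_mul, Nat.sum_antidiagonal_eq_sum_range_succ_mk]
  have h1 := eta_succ t
  have h2 : ∑ k ∈ range t.succ, (Polynomial.derivative (bP N)).coeff k * (eP N).coeff (t - k) =
      ∑ i ∈ range (t + 1), Bn (i + 1) * eta (t - i) := by
    apply sum_congr rfl
    intro i hi
    have hi' := mem_range.mp hi
    rw [bP_deriv_coeff (by omega), eP_coeff (by omega)]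
  rw [h2, ← h1]
  ring

lemma eval_bound_unit (R : Polynomial ℝ) {x : ℝ} (hx : 0 ≤ x) (hx1 : x ≤ 1) :
    |R.eval x| ≤ ab R := by
  rw [Polynomial.eval_eq_sum_range]
  unfold ab
  refine (abs_sum_le_sum_abs _ _).trans (sum_le_sum fun i _ => ?_)
  rw [abs_mul, abs_pow, abs_of_nonneg hx]
  exact mul_le_of_le_one_right (abs_nonneg _) (pow_le_one₀ hx hx1)

lemma eP_bound (N : ℕ) : ∃ C : ℝ, 0 ≤ C ∧ ∀ u : ℝ, 0 ≤ u → u ≤ 1 →
    |(eP N).eval u - Real.exp ((bP N).eval u)| ≤ C * u ^ (N + 1) := by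
  obtain ⟨R, hR⟩ := D_dvd N
  set M : ℝ := ab (bP N) with hM
  have hM0 : 0 ≤ M := ab_nonneg _
  refine ⟨Real.exp M * (ab R * Real.exp M), by
    have := ab_nonneg R; positivity, ?_⟩
  intro u hu hu1
  set F : ℝ → ℝ := fun x => (eP N).eval x * Real.exp (-(bP N).eval x) with hF
  have hderiv : ∀ x : ℝ, HasDerivAt F (x ^ N * R.eval x * Real.exp (-(bP N).eval x)) x := by
    intro x
    have h1 := (eP N).hasDerivAt x
    have h2 := ((bP N).hasDerivAt x).neg.exp
    have h3 := h1.mul h2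
    refine (show HasDerivAt F _ x from h3).congr_deriv ?_
    have h4 := congrArg (Polynomial.eval x) hR
    simp only [Polynomial.eval_sub, Polynomial.eval_mul, Polynomial.eval_pow,
      Polynomial.eval_X] at h4
    simp only [Pi.neg_apply]
    linear_combination (Real.exp (-(bP N).eval x)) * h4
  have hbd : ∀ x ∈ Set.Icc (0 : ℝ) u, ‖x ^ N * R.eval x * Real.exp (-(bP N).eval x)‖ ≤
      u ^ N * (ab R * Real.exp M) := by
    intro x hx
    rw [Real.norm_eq_abs, abs_mul, abs_mul, abs_pow, abs_of_nonneg hx.1,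
      abs_of_pos (Real.exp_pos _), mul_assoc]
    have hx1 : x ≤ 1 := hx.2.trans hu1
    have h1 := eval_bound_unit R hx.1 hx1
    have h2 := eval_bound_unit (bP N) hx.1 hx1
    have h3 : Real.exp (-(bP N).eval x) ≤ Real.exp M := by
      apply Real.exp_le_exp.mpr
      exact (neg_le_abs _).trans h2
    have h4 : x ^ N ≤ u ^ N := pow_le_pow_left₀ hx.1 hx.2 N
    have h5 := ab_nonneg R
    gcongr
  have h1 := Convex.norm_image_sub_le_of_norm_hasDerivWithin_le (f := F) (s := Set.Icc 0 u)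
    (fun x _ => (hderiv x).hasDerivWithinAt) hbd (convex_Icc 0 u)
    (Set.left_mem_Icc.mpr hu) (Set.right_mem_Icc.mpr hu)
  have hF0 : F 0 = 1 := by
    rw [hF]
    simp only
    rw [← Polynomial.coeff_zero_eq_eval_zero, ← Polynomial.coeff_zero_eq_eval_zero,
      eP_coeff (by omega), eta_zero]
    have : (bP N).coeff 0 = 0 := by
      unfold bP
      rw [Polynomial.finsetSum_coeff]
      apply sum_eq_zero
      intro m _
      rw [Polynomial.coeff_C_mul, Polynomial.coeff_X_pow, if_neg (by omega), mul_zero]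
    rw [this, neg_zero, Real.exp_zero, one_mul]
  rw [hF0, sub_zero, Real.norm_eq_abs, Real.norm_eq_abs, abs_of_nonneg hu] at h1
  have h2 : (eP N).eval u - Real.exp ((bP N).eval u) =
      Real.exp ((bP N).eval u) * (F u - 1) := by
    rw [hF]
    simp only
    rw [mul_sub, mul_one, mul_left_comm, ← Real.exp_add]
    simp
  rw [h2, abs_mul, abs_of_pos (Real.exp_pos _)]
  have h3 : Real.exp ((bP N).eval u) ≤ Real.exp M := by
    apply Real.exp_le_exp.mpr
    exact (le_abs_self _).trans (eval_bound_unit (bP N) hu hu1)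
  calc _ ≤ Real.exp M * (u ^ N * (ab R * Real.exp M) * u) :=
        mul_le_mul h3 h1 (abs_nonneg _) (Real.exp_pos _).le
    _ = _ := by rw [pow_succ]; ring

lemma abs_exp_sub_exp_le (x y M : ℝ) (hx : |x| ≤ M) (hy : |y| ≤ M) :
    |Real.exp x - Real.exp y| ≤ Real.exp M * |x - y| := by
  have h1 := Convex.norm_image_sub_le_of_norm_hasDerivWithin_le (f := Real.exp)
    (s := Set.Icc (-M) M) (C := Real.exp M) (f' := Real.exp)
    (fun z _ => (Real.hasDerivAt_exp z).hasDerivWithinAt)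
    (fun z hz => by
      rw [Real.norm_eq_abs, abs_of_pos (Real.exp_pos _)]
      exact Real.exp_le_exp.mpr hz.2) (convex_Icc _ _)
    (abs_le.mp hy) (abs_le.mp hx)
  simpa [Real.norm_eq_abs] using h1

/-- expansion of `e^{-H_j}` -/
theorem h_expansion (N : ℕ) : ∃ C : ℝ, ∀ j : ℕ, 0 < j →
    |h j - Real.exp (-Real.eulerMascheroniConstant) *
      ∑ t ∈ range (N + 1), eta t / (j : ℝ) ^ (t + 1)| ≤ C / (j : ℝ) ^ (N + 2) := by
  obtain ⟨C1, hC1⟩ := tl_phiL N
  obtain ⟨C2, hC20, hC2⟩ := eP_bound N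
  obtain ⟨C3, hC30, hC3⟩ := (phiL_Cl.tail).bound
  set M : ℝ := C3 + ab (bP N) with hM
  set E := Real.exp (-Real.eulerMascheroniConstant) with hE
  have hE0 : 0 < E := Real.exp_pos _
  refine ⟨E * (Real.exp M * C1 + C2), fun j hj => ?_⟩
  have hj' : (1 : ℝ) ≤ j := by exact_mod_cast hj
  have hu : (0 : ℝ) ≤ 1 / j := by positivity
  have hu1 : 1 / (j : ℝ) ≤ 1 := by rw [div_le_one (by linarith)]; exact hj'
  have h1 := hC1 j hj
  have h2 := hC2 (1 / (j : ℝ)) hu hu1
  have h3 := hC3 j hj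
  rw [zero_add, pow_one] at h3
  have h3' : |-tl phiL j| ≤ M := by
    rw [abs_neg]
    have : C3 / (j : ℝ) ≤ C3 := div_le_self hC30 hj'
    have := ab_nonneg (bP N)
    linarith
  have h4 : |(bP N).eval (1 / (j : ℝ))| ≤ M := by
    have := eval_bound_unit (bP N) hu hu1
    linarith
  have h5 := abs_exp_sub_exp_le _ _ M h3' h4
  have h6 : |-tl phiL j - (bP N).eval (1 / (j : ℝ))| ≤ C1 / (j : ℝ) ^ (N + 1) := by
    rw [bP_eval]
    have : -tl phiL j - bN N (1 / (j : ℝ)) = -(tl phiL j + bN N (1 / (j : ℝ))) := by ring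
    rw [this, abs_neg]
    exact h1
  have h7 : E * ∑ t ∈ range (N + 1), eta t / (j : ℝ) ^ (t + 1) =
      E * (1 / j) * (eP N).eval (1 / (j : ℝ)) := by
    unfold eP
    rw [Polynomial.eval_finsetSum, mul_sum, mul_sum]
    apply sum_congr rfl
    intro t _
    simp only [Polynomial.eval_mul, Polynomial.eval_C, Polynomial.eval_pow, Polynomial.eval_X]
    rw [one_div_pow, pow_succ]
    field_simp
  rw [h_eq hj, ← hE, h7]
  have h8 : E * (Real.exp (-tl phiL j) * (1 / (j : ℝ))) - E * (1 / j) * (eP N).eval (1 / (j : ℝ)) =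
      E * (1 / j) * ((Real.exp (-tl phiL j) - Real.exp ((bP N).eval (1 / (j : ℝ)))) -
      ((eP N).eval (1 / (j : ℝ)) - Real.exp ((bP N).eval (1 / (j : ℝ))))) := by ring
  rw [h8, abs_mul, abs_of_nonneg (by positivity)]
  have h9 : |(Real.exp (-tl phiL j) - Real.exp ((bP N).eval (1 / (j : ℝ)))) -
      ((eP N).eval (1 / (j : ℝ)) - Real.exp ((bP N).eval (1 / (j : ℝ))))| ≤
      Real.exp M * (C1 / (j : ℝ) ^ (N + 1)) + C2 * (1 / (j : ℝ)) ^ (N + 1) := by
    refine (abs_sub _ _).trans (add_le_add (h5.trans ?_) h2)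
    gcongr
  calc _ ≤ E * (1 / j) * (Real.exp M * (C1 / (j : ℝ) ^ (N + 1)) +
        C2 * (1 / (j : ℝ)) ^ (N + 1)) := by gcongr
    _ = _ := by
        rw [one_div_pow, pow_succ (j : ℝ) (N + 1)]
        field_simp

lemma HasRes_h_pow (s : ℕ) : HasRes (fun j => h j * (j : ℝ) ^ s)
    (Real.exp (-Real.eulerMascheroniConstant) * eta s) := by
  obtain ⟨C, hC⟩ := h_expansion s
  set E := Real.exp (-Real.eulerMascheroniConstant) with hE
  refine ⟨Polynomial.C E * ∑ t ∈ range s, Polynomial.C (eta t) * Polynomial.X ^ (s - 1 - t),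
    C, fun j hj => ?_⟩
  have hj' : (0 : ℝ) < j := by exact_mod_cast hj
  have h1 := hC j hj
  have h2 : h j * (j : ℝ) ^ s - Polynomial.eval (j : ℝ) (Polynomial.C E * ∑ t ∈ range s,
      Polynomial.C (eta t) * Polynomial.X ^ (s - 1 - t)) - E * eta s / j =
      (h j - E * ∑ t ∈ range (s + 1), eta t / (j : ℝ) ^ (t + 1)) * (j : ℝ) ^ s := by
    rw [Polynomial.eval_mul, Polynomial.eval_C, Polynomial.eval_finsetSum, sum_range_succ, sub_mul]
    have h3 : ∑ t ∈ range s, Polynomial.eval (j : ℝ) (Polynomial.C (eta t) *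
        Polynomial.X ^ (s - 1 - t)) = (∑ t ∈ range s, eta t / (j : ℝ) ^ (t + 1)) *
        (j : ℝ) ^ s := by
      rw [sum_mul]
      apply sum_congr rfl
      intro t ht
      have ht' := mem_range.mp ht
      simp only [Polynomial.eval_mul, Polynomial.eval_C, Polynomial.eval_pow, Polynomial.eval_X]
      rw [show (j : ℝ) ^ s = (j : ℝ) ^ (s - 1 - t) * (j : ℝ) ^ (t + 1) by
        rw [← pow_add]; congr 1; omega]
      field_simp
    rw [h3]
    have h4 : eta s / (j : ℝ) ^ (s + 1) * (j : ℝ) ^ s = eta s / j := by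
      rw [pow_succ]; field_simp
    linear_combination E * h4
  rw [h2, abs_mul, abs_of_pos (by positivity : (0 : ℝ) < (j : ℝ) ^ s)]
  calc _ ≤ C / (j : ℝ) ^ (s + 2) * (j : ℝ) ^ s := by gcongr
    _ = _ := by rw [pow_add]; field_simp

/-- explicit residues -/
theorem res_h_poly (P : Polynomial ℝ) : res (fun j => h j * P.eval (j : ℝ)) =
    Real.exp (-Real.eulerMascheroniConstant) *
      ∑ s ∈ range (P.natDegree + 1), P.coeff s * eta s := by
  have h1 : res (fun j => h j * P.eval (j : ℝ)) =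
      res (fun j => ∑ s ∈ range (P.natDegree + 1), P.coeff s * (h j * (j : ℝ) ^ s)) := by
    apply res_congr
    intro j _
    rw [Polynomial.eval_eq_sum_range, mul_sum]
    apply sum_congr rfl
    intro s _
    ring
  rw [h1, res_sum _ fun s _ => HR.const_mul ⟨_, HasRes_h_pow s⟩ _, mul_sum]
  apply sum_congr rfl
  intro s _
  rw [res_const_mul ⟨_, HasRes_h_pow s⟩, (HasRes_h_pow s).eq]
  ring

end Pool.Agent.Lib.MP_493311_pr
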