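import Mathlib
import Pool.Agent.Lib.MP_493311_pr.Seq
import Pool.Agent.Lib.MP_493311_pr.EsExp

open Finset PowerSeries Filter
open scoped Topology

namespace Pool.Agent.Lib.MP_493311_pr

/-- complexification -/
noncomputable def toC : ℝ⟦X⟧ →+* ℂ⟦X⟧ := PowerSeries.map Complex.ofRealHom

lemma coeff_toC (n : ℕ) (f : ℝ⟦X⟧) : coeff n (toC f) = ((coeff n f : ℝ) : ℂ) := by
  unfold toC
  rw [coeff_map]
  rfl

lemma toC_C (c : ℝ) : toC (C c) = C (c : ℂ) := by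
  unfold toC
  rw [map_C]
  rfl

lemma toC_X : toC X = X := by
  unfold toC
  rw [map_X]

lemma toC_coe (P : Polynomial ℝ) :
    toC (P : ℝ⟦X⟧) = ((P.map Complex.ofRealHom : Polynomial ℂ) : ℂ⟦X⟧) := by
  ext n
  rw [coeff_toC, Polynomial.coeff_coe, Polynomial.coeff_coe, Polynomial.coeff_map]
  rfl

lemma toC_one_sub_X_pow (k : ℕ) : toC ((1 - X) ^ k) = (1 - X) ^ k := by
  rw [map_pow, map_sub, map_one, toC_X]

lemma BigO.toC {p : ℕ} {f : ℝ⟦X⟧} (hf : BigO p f) : BigO p (MP_493311_pr.toC f) := by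
  obtain ⟨C0, hC⟩ := hf
  refine ⟨C0, fun n => ?_⟩
  rw [coeff_toC, Complex.norm_real]
  exact hC n

/-- roots of unity -/
noncomputable def zt (a t : ℕ) : ℂ := Complex.exp (2 * Real.pi * Complex.I * t / a)

lemma zt_norm (a t : ℕ) : ‖zt a t‖ = 1 := by
  unfold zt
  rw [show (2 * Real.pi * Complex.I * t / a : ℂ) = ((2 * Real.pi * t / a : ℝ) : ℂ) * Complex.I by
    push_cast; ring]
  exact Complex.norm_exp_ofReal_mul_I _

lemma zt_ne_zero (a t : ℕ) : zt a t ≠ 0 := Complex.exp_ne_zero _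

lemma zt_pow (a t : ℕ) (ha : 0 < a) : zt a t ^ a = 1 := by
  unfold zt
  rw [← Complex.exp_nat_mul]
  have ha' : (a : ℂ) ≠ 0 := by exact_mod_cast ha.ne'
  rw [show (a : ℂ) * (2 * Real.pi * Complex.I * t / a) = t * (2 * Real.pi * Complex.I) by
    field_simp]
  exact Complex.exp_nat_mul_two_pi_mul_I t

lemma zt_zero (a : ℕ) : zt a 0 = 1 := by
  unfold zt; simp

lemma zt_eq_pow (a t : ℕ) : zt a t = zt a 1 ^ t := by
  unfold zt
  rw [← Complex.exp_nat_mul]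
  congr 1
  push_cast
  ring

lemma zt_primitive {a : ℕ} (ha : 0 < a) : IsPrimitiveRoot (zt a 1) a := by
  have := Complex.isPrimitiveRoot_exp a ha.ne'
  unfold zt
  convert this using 2
  push_cast
  ring

lemma zt_ne_one {a t : ℕ} (ht : 0 < t) (hta : t < a) : zt a t ≠ 1 := by
  rw [zt_eq_pow]
  exact (zt_primitive (by omega)).pow_ne_one_of_pos_of_lt ht.ne' hta

/-- character sum -/
lemma sum_zt {a : ℕ} (ha : 0 < a) (n : ℕ) :
    ∑ t ∈ range a, (zt a t)⁻¹ ^ n = if a ∣ n then (a : ℂ) else 0 := by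
  have hp := zt_primitive ha
  have h1 : ∀ t, (zt a t)⁻¹ ^ n = ((zt a 1)⁻¹ ^ n) ^ t := by
    intro t
    rw [zt_eq_pow, inv_pow, inv_pow, inv_pow, ← pow_mul, ← pow_mul, mul_comm]
  rw [sum_congr rfl fun t _ => h1 t]
  split_ifs with h
  · have h2 : (zt a 1)⁻¹ ^ n = 1 := by
      rw [inv_pow, inv_eq_one]
      exact (hp.pow_eq_one_iff_dvd n).mpr h
    rw [h2]
    simp
  · have h2 : (zt a 1)⁻¹ ^ n ≠ 1 := by
      rw [inv_pow]
      intro h3
      rw [inv_eq_one] at h3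
      exact h ((hp.pow_eq_one_iff_dvd n).mp h3)
    have h3 := geom_sum_mul ((zt a 1)⁻¹ ^ n) a
    have h4 : ((zt a 1)⁻¹ ^ n) ^ a = 1 := by
      rw [← pow_mul, mul_comm n a, pow_mul, inv_pow, hp.pow_eq_one, inv_one, one_pow]
    rw [h4, sub_self] at h3
    exact (mul_eq_zero.mp h3).resolve_right (sub_ne_zero.mpr h2)

/-- `(-as)^{b-1}/(b-1)!` -/
noncomputable def Gab (a b : ℕ) : ℂ⟦X⟧ :=
  C ((-(a : ℂ)) ^ (b - 1) / ((b - 1).factorial : ℂ)) * X ^ (b - 1)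

lemma sK_Gab {K a b : ℕ} (hb : 1 ≤ b) (hbK : b ≤ K) (ω : ℂ) (n : ℕ) :
    coeff n (sK K ω (Gab a b)) = ω⁻¹ ^ n * ((a : ℂ) ^ (b - 1) / (n : ℂ) ^ b) := by
  rw [coeff_sK, sum_eq_single (b - 1)]
  · unfold Gab
    rw [coeff_C_mul, coeff_X_pow, if_pos rfl, mul_one, Nat.sub_add_cancel hb]
    have h1 : ((b - 1).factorial : ℂ) ≠ 0 := by exact_mod_cast (b - 1).factorial_ne_zero
    have h2 : (-(a : ℂ)) ^ (b - 1) * (-1) ^ (b - 1) = (a : ℂ) ^ (b - 1) := by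
      rw [← mul_pow]; ring_nf
    rw [← h2]
    field_simp
  · intro k _ hk
    unfold Gab
    rw [coeff_C_mul, coeff_X_pow, if_neg hk, mul_zero, zero_mul, zero_div]
  · intro h
    exfalso; apply h
    rw [mem_range]; omega

lemma Lam_eq {K a b : ℕ} (ha : 1 ≤ a) (hb : 1 ≤ b) (hbK : b ≤ K) :
    toC (Lam a (fun j => 1 * (1 / (j : ℝ)) ^ b)) =
      ∑ t ∈ range a, sK K (zt a t) (Gab a b) := by
  ext n
  rw [coeff_toC, map_sum, sum_congr rfl fun t _ => sK_Gab hb hbK (zt a t) n, ← sum_mul,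
    sum_zt ha]
  split_ifs with h
  · obtain ⟨j, rfl⟩ := h
    rcases Nat.eq_zero_or_pos j with hj | hj
    · subst hj
      rw [mul_zero, coeff_Lam]
      have : (0 : ℂ) ^ b = 0 := zero_pow (by omega)
      simp [this]
    · rw [coeff_Lam_mul ha _ hj]
      have hj' : (j : ℂ) ≠ 0 := by exact_mod_cast hj.ne'
      have ha' : (a : ℂ) ≠ 0 := by exact_mod_cast (by omega : a ≠ 0)
      push_cast
      rw [one_mul, mul_pow]
      have : (a : ℂ) ^ b = a * (a : ℂ) ^ (b - 1) := by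
        rw [← pow_succ', Nat.sub_add_cancel hb]
      rw [this, one_div_pow]
      field_simp
  · rw [coeff_Lam_zero]
    · simp
    · intro j _ hj
      exact h ⟨j, hj⟩

lemma coeff_zero_Ee : coeff 0 Ee = 1 := by
  unfold Ee; rw [coeff_mk]; simp

lemma constCoeff_aeval (ω : ℂ) (P : Polynomial ℂ) :
    coeff 0 (Polynomial.aeval (Zs ω) P) = P.eval ω := by
  have h1 : coeff 0 (Zs ω) = ω := by
    unfold Zs
    rw [coeff_C_mul, coeff_zero_Ee, mul_one]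
  induction P using Polynomial.induction_on' with
  | add p q hp hq => rw [map_add, map_add, hp, hq, Polynomial.eval_add]
  | monomial n a =>
    rw [Polynomial.aeval_monomial, Polynomial.eval_monomial]
    have h2 : algebraMap ℂ ℂ⟦X⟧ a = C a := rfl
    rw [h2, coeff_C_mul, coeff_zero_eq_constantCoeff_apply, map_pow,
      ← coeff_zero_eq_constantCoeff_apply, h1]

/-- polynomials vanishing at `ω` kill the sequence -/
lemma sK_kill (K : ℕ) {ω : ℂ} (hω : ‖ω‖ = 1) (F : ℂ⟦X⟧) {P : Polynomial ℂ} (hP : P.eval ω = 0) :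
    BigO (K + 1) (((P ^ K : Polynomial ℂ) : ℂ⟦X⟧) * sK K ω F) := by
  have h1 := sK_poly_mul K hω F (P ^ K)
  have h2 : sK K ω (Polynomial.aeval (Zs ω) (P ^ K) * F) = 0 := by
    apply sK_eq_zero
    intro k hk
    have h3 : (X : ℂ⟦X⟧) ∣ Polynomial.aeval (Zs ω) P := by
      rw [X_dvd_iff, ← coeff_zero_eq_constantCoeff_apply, constCoeff_aeval, hP]
    obtain ⟨U, hU⟩ := h3
    rw [map_pow, hU, mul_pow, mul_assoc, coeff_X_pow_mul', if_neg (by omega)]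
  rw [h2, sub_zero] at h1
  exact h1

/-- division -/
lemma sK_of_mul {K : ℕ} {P : Polynomial ℂ} (hP : P.eval 1 ≠ 0) {Δ : ℂ⟦X⟧}
    (h : BigO (K + 1) ((P : ℂ⟦X⟧) * sK K 1 Δ)) : sK K 1 Δ = 0 := by
  have h1 := sK_poly_mul K (ω := 1) (by simp) Δ P
  have h2 : BigO (K + 1) (sK K 1 (Polynomial.aeval (Zs 1) P * Δ)) := by
    have := h.sub h1
    rwa [sub_sub_cancel] at this
  have h3 := coeff_eq_zero_of_sK h2
  have h4 : (X : ℂ⟦X⟧) ^ K ∣ Polynomial.aeval (Zs 1) P * Δ := X_pow_dvd_iff.mpr h3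
  have h5 : IsUnit (Polynomial.aeval (Zs 1) P : ℂ⟦X⟧) := by
    rw [PowerSeries.isUnit_iff_constantCoeff, ← coeff_zero_eq_constantCoeff_apply,
      constCoeff_aeval]
    exact isUnit_iff_ne_zero.mpr hP
  have h6 : (X : ℂ⟦X⟧) ^ K ∣ Δ := (h5.dvd_mul_left).mp h4
  apply sK_eq_zero
  exact X_pow_dvd_iff.mp h6

/-- Bezout -/
lemma bezout_bigO {p M : ℕ} {f : ℂ⟦X⟧} {P : Polynomial ℂ} (hP : P.eval 1 ≠ 0)
    (h1 : BigO p ((P : ℂ⟦X⟧) * f)) (h2 : BigO p ((1 - X) ^ M * f)) : BigO p f := by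
  have hcop : IsCoprime P ((1 - Polynomial.X : Polynomial ℂ) ^ M) := by
    apply IsCoprime.pow_right
    have h3 : IsCoprime (Polynomial.X - Polynomial.C (1 : ℂ)) P := by
      rw [(Polynomial.irreducible_X_sub_C (1 : ℂ)).coprime_iff_not_dvd, Polynomial.dvd_iff_isRoot]
      exact hP
    have h4 : (1 - Polynomial.X : Polynomial ℂ) = -(Polynomial.X - Polynomial.C 1) := by
      rw [Polynomial.C_1]; ring
    rw [h4]
    exact h3.symm.neg_right
  obtain ⟨a, b, hab⟩ := hcop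
  have h5 := congrArg (fun p : Polynomial ℂ => (p : ℂ⟦X⟧)) hab
  simp only [Polynomial.coe_add, Polynomial.coe_mul, Polynomial.coe_pow, Polynomial.coe_sub,
    Polynomial.coe_one, Polynomial.coe_X] at h5
  have h6 : f = (a : ℂ⟦X⟧) * ((P : ℂ⟦X⟧) * f) + (b : ℂ⟦X⟧) * ((1 - X) ^ M * f) := by
    linear_combination (-f) * h5
  rw [h6]
  exact (h1.poly_mul a).add (h2.poly_mul b)

end Pool.Agent.Lib.MP_493311_pr
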