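import Mathlib
import Pool.Agent.Lib.MP_493311_pr.Osc

open Finset PowerSeries Filter
open scoped Topology

namespace Pool.Agent.Lib.MP_493311_pr

/-- complex version of `theta` -/
noncomputable def thC (a b : ℕ) : Polynomial ℂ := (theta a b).map Complex.ofRealHom

/-- `F_{a,ω}(s)` up to order `K` -/
noncomputable def Fom (K a t : ℕ) : ℂ⟦X⟧ := ∑ b ∈ Ico 1 (K + 1),
  (1 - Zs (zt a t))⁻¹ ^ b * Polynomial.aeval (Zs (zt a t)) (thC a b) * Gab a b

lemma one_sub_Zs_ne {ω : ℂ} (hω : ω ≠ 1) : constantCoeff (1 - Zs ω) ≠ 0 := by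
  rw [map_sub, map_one]
  unfold Zs
  rw [map_mul, constantCoeff_C, ← coeff_zero_eq_constantCoeff_apply, coeff_zero_Ee, mul_one]
  exact sub_ne_zero.mpr (Ne.symm hω)

lemma inv_pow_mul {ω : ℂ} (hω : ω ≠ 1) {b M : ℕ} (hb : b ≤ M) :
    (1 - Zs ω) ^ M * (1 - Zs ω)⁻¹ ^ b = (1 - Zs ω) ^ (M - b) := by
  have h1 := PowerSeries.mul_inv_cancel (1 - Zs ω) (one_sub_Zs_ne hω)
  have h2 : (1 - Zs ω) ^ M = (1 - Zs ω) ^ (M - b) * (1 - Zs ω) ^ b := by
    rw [← pow_add, Nat.sub_add_cancel hb]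
  rw [h2, mul_assoc, ← mul_pow, h1, one_pow, mul_one]

lemma aeval_one_sub (ω : ℂ) (e : ℕ) (P : Polynomial ℂ) :
    Polynomial.aeval (Zs ω) ((1 - Polynomial.X) ^ e * P) =
      (1 - Zs ω) ^ e * Polynomial.aeval (Zs ω) P := by
  rw [map_mul, map_pow, map_sub, map_one, Polynomial.aeval_X]

/-- equality up to `O(n^{-p})` -/
def Eqv (p : ℕ) (f g : ℂ⟦X⟧) : Prop := BigO p (f - g)

lemma Eqv.refl (p : ℕ) (f : ℂ⟦X⟧) : Eqv p f f := by
  unfold Eqv; rw [sub_self]; exact BigO.zero _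

lemma Eqv.trans {p : ℕ} {f g h : ℂ⟦X⟧} (h1 : Eqv p f g) (h2 : Eqv p g h) : Eqv p f h := by
  unfold Eqv at *
  have := h1.add h2
  rwa [sub_add_sub_cancel] at this

lemma Eqv.symm {p : ℕ} {f g : ℂ⟦X⟧} (h1 : Eqv p f g) : Eqv p g f := by
  unfold Eqv at *
  have := h1.neg
  rwa [neg_sub] at this

lemma Eqv.add {p : ℕ} {f g f' g' : ℂ⟦X⟧} (h1 : Eqv p f g) (h2 : Eqv p f' g') :
    Eqv p (f + f') (g + g') := by
  unfold Eqv at *
  have := BigO.add h1 h2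
  convert this using 1
  ring

lemma Eqv.sub {p : ℕ} {f g f' g' : ℂ⟦X⟧} (h1 : Eqv p f g) (h2 : Eqv p f' g') :
    Eqv p (f - f') (g - g') := by
  unfold Eqv at *
  have := BigO.sub h1 h2
  convert this using 1
  ring

lemma Eqv.sum {ι : Type*} (s : Finset ι) {p : ℕ} {f g : ι → ℂ⟦X⟧}
    (h : ∀ i ∈ s, Eqv p (f i) (g i)) : Eqv p (∑ i ∈ s, f i) (∑ i ∈ s, g i) := by
  unfold Eqv at *
  rw [← sum_sub_distrib]
  exact BigO.sum s h

lemma Eqv.poly_mul {p : ℕ} {f g : ℂ⟦X⟧} (h : Eqv p f g) (P : Polynomial ℂ) :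
    Eqv p ((P : ℂ⟦X⟧) * f) ((P : ℂ⟦X⟧) * g) := by
  unfold Eqv at *
  rw [← mul_sub]
  exact BigO.poly_mul h P

lemma Eqv.of_poly (p : ℕ) (P : Polynomial ℂ) : Eqv p (P : ℂ⟦X⟧) 0 := by
  unfold Eqv; rw [sub_zero]; exact BigO.poly _ _

lemma Eqv.zero_of_bigO {p : ℕ} {f : ℂ⟦X⟧} (h : BigO p f) : Eqv p f 0 := by
  unfold Eqv; rwa [sub_zero]

lemma Eqv.bigO {p : ℕ} {f : ℂ⟦X⟧} (h : Eqv p f 0) : BigO p f := by
  unfold Eqv at h; rwa [sub_zero] at h

lemma Eqv_sK_poly (K : ℕ) {ω : ℂ} (hω : ‖ω‖ = 1) (F : ℂ⟦X⟧) (P : Polynomial ℂ) :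
    Eqv (K + 1) ((P : ℂ⟦X⟧) * sK K ω F) (sK K ω (Polynomial.aeval (Zs ω) P * F)) :=
  sK_poly_mul K hω F P

/-- the one-parts -/
noncomputable def Phi (K : ℕ) : ℂ⟦X⟧ := ∑ a ∈ Ico 1 (K + 3), ∑ b ∈ Ico 1 (K + 1),
  (1 - Zs 1) ^ (K + 1 - b) * Polynomial.aeval (Zs 1) (thC a b) * Gab a b

/-- one term of the expansion -/
lemma term_eqv {K a b : ℕ} (ha : 1 ≤ a) (hb : 1 ≤ b) (hbK : b ≤ K) :
    Eqv (K + 1) (toC ((1 - X) ^ (K + 1 - b) * ((theta a b : ℝ⟦X⟧) *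
      Lam (0 + a) (fun j => 1 * (1 / (j : ℝ)) ^ b))))
      (∑ t ∈ range a, sK K (zt a t) ((1 - Zs (zt a t)) ^ (K + 1 - b) *
        Polynomial.aeval (Zs (zt a t)) (thC a b) * Gab a b)) := by
  rw [zero_add, map_mul, map_mul, toC_one_sub_X_pow, toC_coe, Lam_eq ha hb hbK, mul_sum, mul_sum]
  apply Eqv.sum
  intro t _
  have h1 := Eqv_sK_poly K (zt_norm a t) (Gab a b) ((1 - Polynomial.X) ^ (K + 1 - b) * thC a b)
  rw [aeval_one_sub, Polynomial.coe_mul, Polynomial.coe_pow, Polynomial.coe_sub,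
    Polynomial.coe_one, Polynomial.coe_X, mul_assoc] at h1
  exact h1

lemma Es_pow_eqv (K : ℕ) : Eqv (K + 1) (toC ((1 - X) ^ (K + 1) * Es))
    (sK K 1 (Phi K) + ∑ a ∈ Ico 1 (K + 3), ∑ t ∈ Ico 1 a,
      sK K (zt a t) ((1 - Zs (zt a t)) ^ (K + 1) * Fom K a t)) := by
  rw [Es_pow, map_add, map_add]
  have h1 : Eqv (K + 1) (toC ((1 - X) ^ K - (1 - X) ^ (K + 1))) 0 := by
    have e : ((1 - X) ^ K - (1 - X) ^ (K + 1) : ℝ⟦X⟧) =
        (((1 - Polynomial.X) ^ K - (1 - Polynomial.X) ^ (K + 1) : Polynomial ℝ) : ℝ⟦X⟧) := by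
      push_cast; ring
    rw [e, toC_coe]
    exact Eqv.of_poly _ _
  have h2 : Eqv (K + 1) (toC (SJ fun j => C 1 * (X ^ (0 * j) * RR j (K + 1)))) 0 := by
    have h1 : Cl 0 (fun _ : ℕ => (1 : ℝ)) := Cl.one
    have := (RR_sum_bigO K (k := 0) h1).toC
    rw [zero_add] at this
    exact Eqv.zero_of_bigO this
  have h3 : Eqv (K + 1) (toC (∑ a ∈ Ico 1 (K + 1 + 2), ∑ b ∈ range (K + 1 + 1),
      (1 - X) ^ (K + 1 - b) * ((theta a b : ℝ⟦X⟧) * Lam (0 + a) (fun j => 1 * (1 / (j : ℝ)) ^ b))))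
      (sK K 1 (Phi K) + ∑ a ∈ Ico 1 (K + 3), ∑ t ∈ Ico 1 a,
      sK K (zt a t) ((1 - Zs (zt a t)) ^ (K + 1) * Fom K a t)) := by
    unfold Phi
    rw [map_sum, sK_sum, ← sum_add_distrib]
    apply Eqv.sum
    intro a ha
    have ha' := mem_Ico.mp ha
    have ha1 : 1 ≤ a := ha'.1
    rw [sum_range_succ, sum_range_eq_add_Ico _ (by omega : 0 < K + 1), map_add, map_add, map_sum]
    have h0 : theta a 0 = 0 := theta_eq_zero (by omega)
    have e0 : toC ((1 - X) ^ (K + 1 - 0) * ((theta a 0 : ℝ⟦X⟧) *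
        Lam (0 + a) (fun j => 1 * (1 / (j : ℝ)) ^ 0))) = 0 := by
      rw [h0]; simp
    have eK : Eqv (K + 1) (toC ((1 - X) ^ (K + 1 - (K + 1)) * ((theta a (K + 1) : ℝ⟦X⟧) *
        Lam (0 + a) (fun j => 1 * (1 / (j : ℝ)) ^ (K + 1))))) 0 := by
      apply Eqv.zero_of_bigO
      apply BigO.toC
      rw [Nat.sub_self, pow_zero, one_mul, zero_add]
      apply BigO.poly_mul
      apply Lam_bigO ha1
      refine (Cl.pow_inv (K + 1)).congr fun j _ => ?_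
      rw [one_div_pow, one_mul]
    rw [e0, zero_add]
    have h4 : sK K 1 (∑ b ∈ Ico 1 (K + 1), (1 - Zs 1) ^ (K + 1 - b) *
        Polynomial.aeval (Zs 1) (thC a b) * Gab a b) + ∑ t ∈ Ico 1 a,
        sK K (zt a t) ((1 - Zs (zt a t)) ^ (K + 1) * Fom K a t) =
        (∑ b ∈ Ico 1 (K + 1), ∑ t ∈ range a, sK K (zt a t)
          ((1 - Zs (zt a t)) ^ (K + 1 - b) *
          Polynomial.aeval (Zs (zt a t)) (thC a b) * Gab a b)) + 0 := by
      rw [add_zero, sum_comm, sum_range_eq_add_Ico _ (by omega : 0 < a), zt_zero, sK_sum]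
      congr 1
      apply sum_congr rfl
      intro t ht
      have ht' := mem_Ico.mp ht
      rw [← sK_sum]
      congr 1
      unfold Fom
      rw [mul_sum]
      apply sum_congr rfl
      intro b hb
      have hb' := mem_Ico.mp hb
      rw [← mul_assoc, ← mul_assoc, inv_pow_mul (zt_ne_one (by omega) ht'.2) (by omega)]
    rw [h4]
    apply Eqv.add _ eK
    apply Eqv.sum
    intro b hb
    have hb' := mem_Ico.mp hb
    exact term_eqv ha1 hb'.1 (by omega)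
  have := (h1.add h3).add h2
  rwa [zero_add, add_zero] at this

lemma Lg_eqv (K : ℕ) : Eqv (K + 1) (toC Lg) (sK K 1 1) := by
  rcases K with _ | K
  · have h1 : sK 0 1 1 = 0 := sK_eq_zero (fun k hk => by omega)
    rw [h1]
    apply Eqv.zero_of_bigO
    have := (bigO_pow_mul_Lg 0).toC
    rwa [pow_zero, one_mul] at this
  · have h1 : toC Lg = sK (K + 1) 1 1 := by
      ext n
      rw [coeff_toC, coeff_Lg, coeff_sK, sum_eq_single 0]
      · simp
      · intro k _ hk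
        rw [coeff_one, if_neg hk]; simp
      · intro h; simp at h
    rw [h1]
    exact Eqv.refl _ _

lemma poly_Lg_eqv (K : ℕ) (P : Polynomial ℝ) : Eqv (K + 1) (toC ((P : ℝ⟦X⟧) * Lg))
    (sK K 1 (Polynomial.aeval (Zs 1) (P.map Complex.ofRealHom))) := by
  rw [map_mul, toC_coe]
  have h1 := ((Lg_eqv K).poly_mul (P.map Complex.ofRealHom)).trans
    (Eqv_sK_poly K (by simp) 1 (P.map Complex.ofRealHom))
  rwa [mul_one] at h1

/-- the model -/
noncomputable def Osum (K : ℕ) : ℂ⟦X⟧ :=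
  ∑ a ∈ Ico 1 (K + 3), ∑ t ∈ Ico 1 a, sK K (zt a t) (Fom K a t)

lemma Neg_complex {p : ℕ} {f : ℝ⟦X⟧} (h : Neg p f) : ∃ P : Polynomial ℂ, P.eval 1 ≠ 0 ∧
    BigO p ((P : ℂ⟦X⟧) * toC f) := by
  obtain ⟨P, hP, hb⟩ := h
  refine ⟨P.map Complex.ofRealHom, ?_, ?_⟩
  · have h1 : (P.map Complex.ofRealHom).eval 1 = ((P.eval 1 : ℝ) : ℂ) := by
      have := Polynomial.eval_map_apply (f := Complex.ofRealHom) (p := P) (1 : ℝ)
      simpa using this
    rw [h1]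
    exact_mod_cast hP
  · have := hb.toC
    rwa [map_mul, toC_coe] at this

theorem hh_bigO (K : ℕ) {c κ : ℝ}
    (h : Sym (K + 1) (Es - C κ * GG - C c * (GG * Lg) - EL (K + 1) (SD AE0))) :
    BigO (K + 1) (toC (Es - C κ * GG - C c * (GG * Lg) - EL (K + 1) (SD AE0)) - Osum K) := by
  set hr : ℝ⟦X⟧ := Es - C κ * GG - C c * (GG * Lg) - EL (K + 1) (SD AE0) with hhr
  -- polynomial killing the other roots of unity
  set Qp : Polynomial ℂ := (∏ a ∈ Ico 1 (K + 3), ∑ i ∈ range a, Polynomial.X ^ i) ^ K with hQp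
  have hQ1 : Qp.eval 1 ≠ 0 := by
    rw [hQp, Polynomial.eval_pow, Polynomial.eval_prod]
    apply pow_ne_zero
    apply prod_ne_zero_iff.mpr
    intro a ha
    have ha' := mem_Ico.mp ha
    rw [Polynomial.eval_finsetSum]
    simp only [Polynomial.eval_pow, Polynomial.eval_X, one_pow, sum_const, card_range,
      nsmul_eq_mul, mul_one]
    exact_mod_cast (by omega : a ≠ 0)
  have hkill : BigO (K + 1) ((Qp : ℂ⟦X⟧) * Osum K) := by
    unfold Osum
    rw [mul_sum]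
    apply BigO.sum
    intro a ha
    rw [mul_sum]
    apply BigO.sum
    intro t ht
    have ht' := mem_Ico.mp ht
    apply sK_kill K (zt_norm a t)
    rw [Polynomial.eval_prod]
    apply prod_eq_zero ha
    rw [Polynomial.eval_finsetSum]
    simp only [Polynomial.eval_pow, Polynomial.eval_X]
    have h1 := geom_sum_mul (zt a t) a
    rw [zt_pow a t (by omega), sub_self] at h1
    exact (mul_eq_zero.mp h1).resolve_right (sub_ne_zero.mpr (zt_ne_one (by omega) ht'.2))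
  obtain ⟨P, hP, hb⟩ := Neg_complex h.toNeg
  have hPQ : (P * Qp).eval 1 ≠ 0 := by
    rw [Polynomial.eval_mul]; exact mul_ne_zero hP hQ1
  have hA : BigO (K + 1) (((P * Qp : Polynomial ℂ) : ℂ⟦X⟧) * (toC hr - Osum K)) := by
    have e : ((P * Qp : Polynomial ℂ) : ℂ⟦X⟧) * (toC hr - Osum K) =
        (Qp : ℂ⟦X⟧) * ((P : ℂ⟦X⟧) * toC hr) - (P : ℂ⟦X⟧) * ((Qp : ℂ⟦X⟧) * Osum K) := by
      rw [Polynomial.coe_mul]; ring
    rw [e]
    exact (hb.poly_mul Qp).sub (hkill.poly_mul P)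
  -- multiplication by a high power
  obtain ⟨Δ, hΔ⟩ : ∃ Δ : ℂ⟦X⟧, Eqv (K + 1) ((1 - X) ^ (K + 1) * (toC hr - Osum K))
      (sK K 1 Δ) := by
    set PL : Polynomial ℝ := Polynomial.C c * (1 - Polynomial.X) ^ K +
      (1 - Polynomial.X) ^ (K + 1) * (trunc (K + 1) (SD AE0)).comp (1 - Polynomial.X) with hPL
    have e1 : (1 - X) ^ (K + 1) * hr = (1 - X) ^ (K + 1) * Es -
        ((Polynomial.C κ * (1 - Polynomial.X) ^ K : Polynomial ℝ) : ℝ⟦X⟧) -
        (PL : ℝ⟦X⟧) * Lg := by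
      rw [hhr, hPL]
      push_cast
      unfold EL tld
      rw [pow_succ]
      linear_combination (-(C κ * (1 - X) ^ K) - C c * (1 - X) ^ K * Lg) * one_sub_X_mul_GG
    have h1 : Eqv (K + 1) (toC ((1 - X) ^ (K + 1) * hr))
        (sK K 1 (Phi K) + (∑ a ∈ Ico 1 (K + 3), ∑ t ∈ Ico 1 a,
        sK K (zt a t) ((1 - Zs (zt a t)) ^ (K + 1) * Fom K a t)) - 0 -
        sK K 1 (Polynomial.aeval (Zs 1) (PL.map Complex.ofRealHom))) := by
      rw [e1, map_sub, map_sub, toC_coe]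
      exact ((Es_pow_eqv K).sub (Eqv.of_poly _ _)).sub (poly_Lg_eqv K PL)
    have h2 : Eqv (K + 1) ((1 - X) ^ (K + 1) * Osum K) (∑ a ∈ Ico 1 (K + 3), ∑ t ∈ Ico 1 a,
        sK K (zt a t) ((1 - Zs (zt a t)) ^ (K + 1) * Fom K a t)) := by
      unfold Osum
      rw [mul_sum]
      apply Eqv.sum
      intro a _
      rw [mul_sum]
      apply Eqv.sum
      intro t _
      have h3 := Eqv_sK_poly K (zt_norm a t) (Fom K a t) ((1 - Polynomial.X) ^ (K + 1))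
      have h4 : ((((1 - Polynomial.X) ^ (K + 1) : Polynomial ℂ)) : ℂ⟦X⟧) = (1 - X) ^ (K + 1) := by
        simp
      rw [h4, map_pow, map_sub, map_one, Polynomial.aeval_X] at h3
      exact h3
    refine ⟨Phi K - Polynomial.aeval (Zs 1) (PL.map Complex.ofRealHom), ?_⟩
    have h5 := h1.sub h2
    have e2 : (1 - X) ^ (K + 1) * (toC hr - Osum K) = toC ((1 - X) ^ (K + 1) * hr) -
        (1 - X) ^ (K + 1) * Osum K := by
      rw [map_mul, toC_one_sub_X_pow]; ring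
    rw [e2, sK_sub]
    convert h5 using 1
    ring
  have hΔ0 : sK K 1 Δ = 0 := by
    apply sK_of_mul hPQ
    have h1 := (hΔ.symm.poly_mul (P * Qp))
    have h2 : Eqv (K + 1) (((P * Qp : Polynomial ℂ) : ℂ⟦X⟧) * ((1 - X) ^ (K + 1) *
        (toC hr - Osum K))) 0 := by
      apply Eqv.zero_of_bigO
      have e : ((P * Qp : Polynomial ℂ) : ℂ⟦X⟧) * ((1 - X) ^ (K + 1) * (toC hr - Osum K)) =
          (((1 - Polynomial.X) ^ (K + 1) : Polynomial ℂ) : ℂ⟦X⟧) *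
          (((P * Qp : Polynomial ℂ) : ℂ⟦X⟧) * (toC hr - Osum K)) := by
        push_cast; ring
      rw [e]
      exact hA.poly_mul _
    exact (h1.trans h2).bigO
  rw [hΔ0] at hΔ
  exact bezout_bigO hPQ hA hΔ.bigO

lemma Zs_one : Zs 1 = Ee := by
  unfold Zs; rw [map_one, one_mul]

/-- the part at `1` -/
noncomputable def Rone (K : ℕ) : ℂ⟦X⟧ :=
  ∑ i ∈ range (K + 1), C ((coeff i (SD AE0) : ℝ) : ℂ) * (1 - Ee) ^ i

theorem Es_full (K : ℕ) {c κ : ℝ}
    (h : Sym (K + 1) (Es - C κ * GG - C c * (GG * Lg) - EL (K + 1) (SD AE0))) :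
    BigO (K + 1) (toC (Es - C κ * GG - C c * (GG * Lg)) - sK K 1 (Rone K) - Osum K) := by
  have h1 := hh_bigO K h
  have h2 : Eqv (K + 1) (toC (EL (K + 1) (SD AE0))) (sK K 1 (Rone K)) := by
    unfold EL tld
    have h3 := poly_Lg_eqv K ((trunc (K + 1) (SD AE0)).comp (1 - Polynomial.X))
    have h4 : Polynomial.aeval (Zs 1) (((trunc (K + 1) (SD AE0)).comp
        (1 - Polynomial.X)).map Complex.ofRealHom) = Rone K := by
      rw [Polynomial.map_comp, Polynomial.aeval_comp, Zs_one]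
      have h5 : Polynomial.aeval Ee ((1 - Polynomial.X : Polynomial ℝ).map Complex.ofRealHom) =
          1 - Ee := by
        simp
      rw [h5]
      unfold Rone
      have h6 : ((trunc (K + 1) (SD AE0)).map Complex.ofRealHom).natDegree < K + 1 := by
        refine lt_of_le_of_lt Polynomial.natDegree_map_le ?_
        exact natDegree_trunc_lt _ _
      rw [Polynomial.aeval_eq_sum_range' h6]
      apply sum_congr rfl
      intro i hi
      rw [Polynomial.coeff_map, coeff_trunc, if_pos (mem_range.mp hi), smul_eq_C_mul]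
      rfl
    rw [h4] at h3
    exact h3
  unfold Eqv at h2
  have h3 := h1.add h2
  convert h3 using 1
  rw [map_sub toC _ (EL (K + 1) (SD AE0))]
  ring

end Pool.Agent.Lib.MP_493311_pr
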