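import Mathlib
import Pool.Agent.Lib.MP_493311_pr.Osc2

open Finset PowerSeries Filter
open scoped Topology

namespace Pool.Agent.Lib.MP_493311_pr

/-- `β_ω(s) = ω e^{-s} / (1 - ω e^{-s})` as a formal power series in `s` -/
noncomputable def beta (ω : ℂ) : ℂ⟦X⟧ := Zs ω * (1 - Zs ω)⁻¹

/-- `∑_{m ≥ 0} β_ω^{(m)}(s) Y^{m+1}`, a power series in `Y` over the power series in `s` -/
noncomputable def betaY (ω : ℂ) : (ℂ⟦X⟧)⟦X⟧ :=
  PowerSeries.mk fun b => match b with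
    | 0 => 0
    | m + 1 => (fun f : ℂ⟦X⟧ => d⁄dX ℂ f)^[m] (beta ω)

/-- evaluation of real polynomials at `ω e^{-s}` -/
noncomputable def phZ (ω : ℂ) : Polynomial ℝ →+* ℂ⟦X⟧ :=
  ((Polynomial.aeval (Zs ω) : Polynomial ℂ →ₐ[ℂ] ℂ⟦X⟧) : Polynomial ℂ →+* ℂ⟦X⟧).comp
    (Polynomial.mapRingHom Complex.ofRealHom)

lemma phZ_apply (ω : ℂ) (P : Polynomial ℝ) :
    phZ ω P = Polynomial.aeval (Zs ω) (P.map Complex.ofRealHom) := rfl

lemma deriv_Ee : d⁄dX ℂ Ee = -Ee := by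
  ext n
  rw [coeff_derivative, map_neg]
  unfold Ee
  rw [coeff_mk, coeff_mk, Nat.factorial_succ, pow_succ]
  have h1 : ((n : ℂ) + 1) ≠ 0 := by exact_mod_cast Nat.succ_ne_zero n
  have h2 : (n.factorial : ℂ) ≠ 0 := by exact_mod_cast n.factorial_ne_zero
  push_cast
  field_simp

lemma deriv_Zs (ω : ℂ) : d⁄dX ℂ (Zs ω) = -Zs ω := by
  unfold Zs
  rw [← smul_eq_C_mul, Derivation.map_smul, deriv_Ee, smul_neg]

lemma deriv_inv_Zs (ω : ℂ) : d⁄dX ℂ ((1 - Zs ω)⁻¹) = -(Zs ω * (1 - Zs ω)⁻¹ ^ 2) := by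
  rw [PowerSeries.derivative_inv', map_sub, Derivation.map_one_eq_zero, deriv_Zs]
  ring

lemma phZ_X (ω : ℂ) : phZ ω Polynomial.X = Zs ω := by
  rw [phZ_apply]; simp

lemma deriv_phZ (ω : ℂ) (P : Polynomial ℝ) :
    d⁄dX ℂ (phZ ω P) = -(Zs ω * phZ ω (Polynomial.derivative P)) := by
  rw [phZ_apply, phZ_apply, Derivation.map_aeval, deriv_Zs, Polynomial.derivative_map,
    smul_eq_mul]
  ring

lemma beta_iter {ω : ℂ} (hω : ω ≠ 1) (m : ℕ) :
    (fun f : ℂ⟦X⟧ => d⁄dX ℂ f)^[m] (beta ω) =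
      (1 - Zs ω)⁻¹ ^ (m + 1) * phZ ω ((-1) ^ m * Apol m) := by
  have hu := PowerSeries.mul_inv_cancel (1 - Zs ω) (one_sub_Zs_ne hω)
  induction m with
  | zero =>
    simp only [Function.iterate_zero, id, pow_zero, one_mul, zero_add, pow_one, Apol]
    rw [phZ_X]; unfold beta; ring
  | succ m ih =>
    rw [Function.iterate_succ_apply', ih, Derivation.leibniz, Derivation.leibniz_pow, deriv_phZ,
      deriv_inv_Zs]
    simp only [smul_eq_mul, nsmul_eq_mul, Nat.add_sub_cancel]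
    have h1 : Polynomial.derivative ((-1 : Polynomial ℝ) ^ m * Apol m) =
        (-1) ^ m * Polynomial.derivative (Apol m) := by
      have : ((-1 : Polynomial ℝ) ^ m) = Polynomial.C ((-1 : ℝ) ^ m) := by simp
      rw [this, Polynomial.derivative_C_mul]
    rw [h1]
    simp only [Apol]
    simp only [map_mul, map_add, map_sub, map_one, map_pow, map_neg, phZ_X, map_natCast]
    set u := (1 - Zs ω)⁻¹
    set z := Zs ω
    set A := phZ ω (Apol m)
    set A' := phZ ω (Polynomial.derivative (Apol m))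
    rw [pow_succ u (m + 1), pow_succ (-1 : ℂ⟦X⟧) m]
    push_cast
    linear_combination ((u ^ (m + 1)) * (-1) ^ m * z * A') * hu

lemma betaY_eq {ω : ℂ} (hω : ω ≠ 1) : betaY ω =
    rescale ((1 - Zs ω)⁻¹) (PowerSeries.map (phZ ω) TT) := by
  ext1 b
  rw [coeff_rescale, coeff_map]
  unfold betaY TT
  rw [coeff_mk, coeff_mk]
  rcases b with _ | m
  · simp
  · exact beta_iter hω m

lemma coeff_betaY_pow {ω : ℂ} (hω : ω ≠ 1) (a b : ℕ) :
    C (1 / (a.factorial : ℂ)) * coeff b (betaY ω ^ a) =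
      (1 - Zs ω)⁻¹ ^ b * Polynomial.aeval (Zs ω) (thC a b) := by
  rw [betaY_eq hω, ← map_pow, ← map_pow, coeff_rescale, coeff_map]
  unfold thC theta
  rw [Polynomial.map_mul, Polynomial.map_C, map_mul, Polynomial.aeval_C]
  have : (Complex.ofRealHom (1 / (a.factorial : ℝ))) = 1 / (a.factorial : ℂ) := by
    simp
  rw [this, phZ_apply]
  have h2 : (algebraMap ℂ ℂ⟦X⟧) (1 / (a.factorial : ℂ)) = C (1 / (a.factorial : ℂ)) := rfl
  rw [h2]
  ring

end Pool.Agent.Lib.MP_493311_pr
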