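import Mathlib
import Pool.Agent.Lib.MP_493311_pr.Crude

open Finset Filter MeasureTheory
open scoped Topology

namespace Pool.Agent.Lib.MP_493311_pr

section riemann

variable {G : ℝ → ℝ} (hG : AntitoneOn G (Set.Ioi 0)) (hG0 : ∀ x, 0 < x → 0 ≤ G x)
  {a s : ℝ} (ha : 0 < a) (hs : 0 < s) (hI : IntegrableOn G (Set.Ioi a))

include hG ha hs in
lemma anti_comp (N : ℕ) : AntitoneOn (fun x => G (a + s * x)) (Set.Icc (0 : ℝ) (0 + N)) := by
  intro x hx y hy hxy
  have h1 : 0 ≤ x := hx.1
  have h2 : 0 ≤ y := hy.1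
  apply hG
  · show 0 < a + s * x; positivity
  · show 0 < a + s * y; positivity
  · have : s * x ≤ s * y := by gcongr
    linarith

include hG hG0 ha hs hI in
lemma sum_le_Ioi (N : ℕ) : ∑ i ∈ range N, s * G (a + s * ((i + 1 : ℕ) : ℝ)) ≤
    ∫ x in Set.Ioi a, G x := by
  have h1 := (anti_comp hG ha hs N).sum_le_integral
  have h2 : s * ∫ x in (0 : ℝ)..(0 + N), G (a + s * x) = ∫ x in (a + s * 0)..(a + s * (0 + N)), G x :=
    intervalIntegral.mul_integral_comp_add_mul ..
  have h3 : ∫ x in (a + s * 0)..(a + s * (0 + N)), G x ≤ ∫ x in Set.Ioi a, G x := by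
    rw [mul_zero, add_zero, zero_add,
      intervalIntegral.integral_of_le (by have : 0 ≤ s * (N : ℝ) := by positivity
                                          linarith)]
    apply setIntegral_mono_set hI
    · filter_upwards [ae_restrict_mem measurableSet_Ioi] with x hx
      exact hG0 x (lt_trans ha hx)
    · exact LE.le.eventuallyLE (fun x hx => hx.1)
  rw [← mul_sum]
  simp only [zero_add] at h1 h2
  calc s * ∑ i ∈ range N, G (a + s * ((i + 1 : ℕ) : ℝ)) ≤ s * ∫ x in (0 : ℝ)..N, G (a + s * x) := by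
        gcongr
    _ ≤ _ := by
        rw [h2]
        simpa using h3

include hG hG0 ha hs hI in
lemma summable_G : Summable (fun i : ℕ => s * G (a + s * ((i + 1 : ℕ) : ℝ))) :=
  summable_of_sum_range_le (fun i => mul_nonneg hs.le (hG0 _ (by positivity)))
    (sum_le_Ioi hG hG0 ha hs hI)

include hG hG0 ha hs hI in
lemma tsum_le_Ioi : ∑' i : ℕ, s * G (a + s * ((i + 1 : ℕ) : ℝ)) ≤ ∫ x in Set.Ioi a, G x :=
  Real.tsum_le_of_sum_range_le (fun i => mul_nonneg hs.le (hG0 _ (by positivity)))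
    (sum_le_Ioi hG hG0 ha hs hI)

include hG hG0 ha hs hI in
lemma summable_G' : Summable (fun i : ℕ => s * G (a + s * (i : ℝ))) := by
  have := summable_G hG hG0 ha hs hI
  rw [← summable_nat_add_iff 1]
  exact this

include hG hG0 ha hs hI in
lemma Ioi_le_tsum : ∫ x in Set.Ioi a, G x ≤ ∑' i : ℕ, s * G (a + s * (i : ℝ)) := by
  have hS := summable_G' hG hG0 ha hs hI
  have hlim : Tendsto (fun N : ℕ => a + s * (N : ℝ)) atTop atTop :=
    tendsto_atTop_add_const_left _ _ (tendsto_natCast_atTop_atTop.const_mul_atTop hs)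
  have h1 := intervalIntegral_tendsto_integral_Ioi a hI hlim
  refine le_of_tendsto h1 (Eventually.of_forall fun N => ?_)
  have h2 := (anti_comp hG ha hs N).integral_le_sum
  have h3 : s * ∫ x in (0 : ℝ)..(0 + N), G (a + s * x) = ∫ x in (a + s * 0)..(a + s * (0 + N)), G x :=
    intervalIntegral.mul_integral_comp_add_mul ..
  simp only [zero_add, mul_zero, add_zero] at h2 h3
  rw [← h3]
  calc s * ∫ x in (0 : ℝ)..N, G (a + s * x) ≤ s * ∑ i ∈ range N, G (a + s * (i : ℝ)) := by gcongr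
    _ = ∑ i ∈ range N, s * G (a + s * (i : ℝ)) := by rw [mul_sum]
    _ ≤ _ := hS.sum_le_tsum _ (fun i _ => mul_nonneg hs.le (hG0 _ (by positivity)))

end riemann

/-- the integrand `e^{-t}/t` -/
noncomputable def ge (t : ℝ) : ℝ := Real.exp (-t) / t

/-- the exponential integral `E₁(x) = ∫_x^∞ e^{-t}/t dt` -/
noncomputable def E1 (x : ℝ) : ℝ := ∫ t in Set.Ioi x, Real.exp (-t) / t

lemma ge_anti : AntitoneOn ge (Set.Ioi 0) := by
  intro x hx y hy hxy
  have hx' : 0 < x := hx
  have hy' : 0 < y := hy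
  unfold ge
  apply div_le_div₀ (Real.exp_pos _).le _ hx' hxy
  exact Real.exp_le_exp.mpr (by linarith)

lemma ge_pos {x : ℝ} (hx : 0 < x) : 0 < ge x := div_pos (Real.exp_pos _) hx

lemma ge_contOn : ContinuousOn ge (Set.Ioi 0) := by
  unfold ge
  apply ContinuousOn.div
  · exact (Real.continuous_exp.comp continuous_neg).continuousOn
  · exact continuousOn_id
  · intro x hx; exact (ne_of_gt hx)

lemma integrable_exp_neg (a : ℝ) : IntegrableOn (fun t => Real.exp (-t)) (Set.Ioi a) := by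
  have := integrableOn_exp_neg_Ioi a
  exact this

lemma ge_le {a t : ℝ} (ha : 0 < a) (ht : a ≤ t) : ge t ≤ a⁻¹ * Real.exp (-t) := by
  unfold ge
  rw [div_eq_inv_mul]
  have h1 : t⁻¹ ≤ a⁻¹ := inv_anti₀ ha ht
  have := Real.exp_pos (-t)
  gcongr

lemma ge_int {a : ℝ} (ha : 0 < a) : IntegrableOn ge (Set.Ioi a) := by
  refine Integrable.mono' ((integrable_exp_neg a).const_mul a⁻¹) ?_ ?_
  · apply ContinuousOn.aestronglyMeasurable _ measurableSet_Ioi
    exact ge_contOn.mono (Set.Ioi_subset_Ioi ha.le)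
  · filter_upwards [ae_restrict_mem measurableSet_Ioi] with t ht
    have ht' : a < t := ht
    rw [Real.norm_eq_abs, abs_of_pos (ge_pos (ha.trans ht'))]
    exact ge_le ha ht'.le

lemma E1_eq (x : ℝ) : E1 x = ∫ t in Set.Ioi x, ge t := rfl

lemma E1_nonneg {x : ℝ} (hx : 0 < x) : 0 ≤ E1 x := by
  rw [E1_eq]
  apply setIntegral_nonneg measurableSet_Ioi
  intro t ht
  exact (ge_pos (hx.trans ht)).le

lemma E1_sub {x y : ℝ} (hx : 0 < x) (hxy : x ≤ y) : E1 x - E1 y = ∫ t in x..y, ge t := by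
  rw [E1_eq, E1_eq]
  exact intervalIntegral.integral_Ioi_sub_Ioi (ge_int hx) hxy

lemma ge_ii {x y : ℝ} (hx : 0 < x) (hxy : x ≤ y) : IntervalIntegrable ge volume x y := by
  apply ContinuousOn.intervalIntegrable
  rw [Set.uIcc_of_le hxy]
  exact ge_contOn.mono fun t ht => lt_of_lt_of_le hx ht.1

lemma E1_anti : AntitoneOn E1 (Set.Ioi 0) := by
  intro x hx y hy hxy
  have hx' : 0 < x := hx
  have h1 := E1_sub hx' hxy
  have h2 : 0 ≤ ∫ t in x..y, ge t := by
    apply intervalIntegral.integral_nonneg hxy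
    intro t ht
    exact (ge_pos (lt_of_lt_of_le hx' ht.1)).le
  linarith

/-- `φ(x) = E₁(x) + ln x` -/
noncomputable def ph (x : ℝ) : ℝ := E1 x + Real.log x

lemma ph_diff {x y : ℝ} (hx : 0 < x) (hxy : x ≤ y) : ph y - ph x =
    ∫ t in x..y, (1 - Real.exp (-t)) / t := by
  have h1 := E1_sub hx hxy
  have h2 : ∫ t in x..y, 1 / t = Real.log (y / x) :=
    integral_one_div_of_pos hx (lt_of_lt_of_le hx hxy)
  rw [Real.log_div (lt_of_lt_of_le hx hxy).ne' hx.ne'] at h2
  have h3 : IntervalIntegrable (fun t : ℝ => 1 / t) volume x y := by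
    apply ContinuousOn.intervalIntegrable
    rw [Set.uIcc_of_le hxy]
    apply ContinuousOn.div continuousOn_const continuousOn_id
    intro t ht; exact (lt_of_lt_of_le hx ht.1).ne'
  have h4 : ∫ t in x..y, (1 - Real.exp (-t)) / t = (∫ t in x..y, 1 / t) - ∫ t in x..y, ge t := by
    rw [← intervalIntegral.integral_sub h3 (ge_ii hx hxy)]
    apply intervalIntegral.integral_congr
    intro t _
    simp only [ge]
    ring
  unfold ph
  rw [h4, h2]
  linarith

lemma kernel_bounds {t : ℝ} (ht : 0 < t) : 0 ≤ (1 - Real.exp (-t)) / t ∧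
    (1 - Real.exp (-t)) / t ≤ 1 := by
  constructor
  · apply div_nonneg _ ht.le
    have : Real.exp (-t) ≤ 1 := Real.exp_le_one_iff.mpr (by linarith)
    linarith
  · rw [div_le_one ht]
    have := Real.add_one_le_exp (-t)
    linarith

lemma ph_mono {x y : ℝ} (hx : 0 < x) (hxy : x ≤ y) : ph x ≤ ph y := by
  have h := ph_diff hx hxy
  have h2 : 0 ≤ ∫ t in x..y, (1 - Real.exp (-t)) / t := by
    apply intervalIntegral.integral_nonneg hxy
    intro t ht
    exact (kernel_bounds (lt_of_lt_of_le hx ht.1)).1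
  linarith

lemma ph_lip {x y : ℝ} (hx : 0 < x) (hxy : x ≤ y) : ph y ≤ ph x + (y - x) := by
  have h := ph_diff hx hxy
  have h2 : ∫ t in x..y, (1 - Real.exp (-t)) / t ≤ ∫ t in x..y, (1 : ℝ) := by
    apply intervalIntegral.integral_mono_on hxy
    · apply ContinuousOn.intervalIntegrable
      rw [Set.uIcc_of_le hxy]
      apply ContinuousOn.div
      · exact (continuous_const.sub (Real.continuous_exp.comp continuous_neg)).continuousOn
      · exact continuousOn_id
      · intro t ht; exact (lt_of_lt_of_le hx ht.1).ne'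
    · exact intervalIntegrable_const
    · intro t ht
      exact (kernel_bounds (lt_of_lt_of_le hx ht.1)).2
  rw [intervalIntegral.integral_const, smul_eq_mul, mul_one] at h2
  linarith

lemma rt_term {s : ℝ} (hs : 0 < s) (i j : ℕ) :
    Real.exp (-s) ^ (i + j + 1) / ((i : ℝ) + j + 1) = s * ge (s * ((i : ℝ) + j + 1)) := by
  unfold ge
  rw [← Real.exp_nat_mul]
  have : ((i + j + 1 : ℕ) : ℝ) * -s = -(s * ((i : ℝ) + j + 1)) := by push_cast; ring
  rw [this]
  have h2 : (i : ℝ) + j + 1 ≠ 0 := by positivity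
  field_simp

lemma rt_summable {s : ℝ} (hs : 0 < s) {j : ℕ} (hj : 0 < j) :
    Summable (fun i : ℕ => s * ge (s * ((i : ℝ) + j + 1))) := by
  have hj' : (0 : ℝ) < j := by exact_mod_cast hj
  have := summable_G ge_anti (fun x hx => (ge_pos hx).le) (by positivity : 0 < s * (j : ℝ)) hs
    (ge_int (by positivity))
  refine this.congr fun i => ?_
  congr 2
  push_cast
  ring

/-- upper bound for `rt` -/
lemma rt_le {s : ℝ} (hs : 0 < s) {j : ℕ} (hj : 0 < j) : rt (Real.exp (-s)) j ≤ E1 (s * j) := by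
  have hj' : (0 : ℝ) < j := by exact_mod_cast hj
  have h1 := tsum_le_Ioi ge_anti (fun x hx => (ge_pos hx).le) (by positivity : 0 < s * (j : ℝ)) hs
    (ge_int (by positivity))
  rw [← E1_eq] at h1
  refine le_trans (le_of_eq ?_) h1
  unfold rt
  apply tsum_congr
  intro i
  rw [rt_term hs]
  congr 2
  push_cast
  ring

/-- lower bound for `rt` -/
lemma le_rt {s : ℝ} (hs : 0 < s) (j : ℕ) : E1 (s * (j + 1)) ≤ rt (Real.exp (-s)) j := by
  have h1 := Ioi_le_tsum ge_anti (fun x hx => (ge_pos hx).le)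
    (by positivity : 0 < s * ((j : ℝ) + 1)) hs (ge_int (by positivity))
  rw [← E1_eq] at h1
  refine le_trans h1 (le_of_eq ?_)
  unfold rt
  apply tsum_congr
  intro i
  rw [rt_term hs]
  congr 2
  ring

end Pool.Agent.Lib.MP_493311_pr
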