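import Mathlib
import Pool.Agent.Lib.MP_493311_pr.Sand
import Pool.Agent.Lib.MP_493311_pr.Bern2

open Finset Filter MeasureTheory
open scoped Topology

namespace Pool.Agent.Lib.MP_493311_pr

lemma rho_bounds {s : ℝ} (hs : 0 < s) : 1 - s ≤ (1 - Real.exp (-s)) / s ∧
    (1 - Real.exp (-s)) / s ≤ 1 := by
  refine ⟨?_, (kernel_bounds hs).2⟩
  rw [le_div_iff₀ hs]
  have h1 : Real.exp (-s) * (s + 1) ≤ 1 := by
    have := Real.add_one_le_exp s
    calc Real.exp (-s) * (s + 1) ≤ Real.exp (-s) * Real.exp s := by gcongr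
      _ = 1 := by rw [← Real.exp_add]; simp
  have h2 := Real.add_one_le_exp (-s)
  nlinarith [Real.exp_pos (-s)]

lemma tendsto_rho : Tendsto (fun s : ℝ => (1 - Real.exp (-s)) / s) (𝓝[>] 0) (𝓝 1) := by
  have h1 : Tendsto (fun s : ℝ => 1 - s) (𝓝[>] 0) (𝓝 1) := by
    have : Tendsto (fun s : ℝ => 1 - s) (𝓝 0) (𝓝 (1 - 0)) := by
      exact (continuous_const.sub continuous_id).tendsto 0
    rw [sub_zero] at this
    exact this.mono_left nhdsWithin_le_nhds
  refine tendsto_of_tendsto_of_tendsto_of_le_of_le' h1 tendsto_const_nhds ?_ ?_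
  · filter_upwards [self_mem_nhdsWithin] with s hs using (rho_bounds hs).1
  · filter_upwards [self_mem_nhdsWithin] with s hs using (rho_bounds hs).2

lemma exp_neg_range {s : ℝ} (hs : 0 < s) : 0 ≤ Real.exp (-s) ∧ Real.exp (-s) < 1 :=
  ⟨(Real.exp_pos _).le, by
    have := Real.exp_lt_exp.mpr (by linarith : -s < 0)
    rwa [Real.exp_zero] at this⟩

/-- harmonic sum -/
noncomputable def Hs (j : ℕ) : ℝ := ∑ i ∈ range j, (1 : ℝ) / (i + 1)

lemma h_eq_exp_Hs (j : ℕ) : h j = Real.exp (-Hs j) := rfl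

lemma lim_rt (j : ℕ) : Tendsto (fun s : ℝ => rt (Real.exp (-s)) j + Real.log s) (𝓝[>] 0)
    (𝓝 (-Hs j)) := by
  have h1 : Tendsto (fun s : ℝ => -Real.log ((1 - Real.exp (-s)) / s)) (𝓝[>] 0) (𝓝 0) := by
    have := (tendsto_rho.log one_ne_zero).neg
    simpa using this
  have h2 : Tendsto (fun s : ℝ => ∑ i ∈ range j, Real.exp (-s) ^ (i + 1) / ((i : ℝ) + 1)) (𝓝[>] 0)
      (𝓝 (Hs j)) := by
    have h3 : Continuous fun s : ℝ => ∑ i ∈ range j, Real.exp (-s) ^ (i + 1) / ((i : ℝ) + 1) := by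
      fun_prop
    have h4 := h3.tendsto 0
    simp only [neg_zero, Real.exp_zero, one_pow] at h4
    exact h4.mono_left nhdsWithin_le_nhds
  have h5 := h1.sub h2
  rw [zero_sub] at h5
  refine h5.congr' ?_
  filter_upwards [self_mem_nhdsWithin] with s hs
  have hs' : 0 < s := hs
  obtain ⟨hz, hz1⟩ := exp_neg_range hs'
  rw [rt_eq hz hz1, Real.log_div (by linarith) hs'.ne']
  ring

lemma Hs_eq_harmonic (j : ℕ) : Hs j = ((harmonic j : ℚ) : ℝ) := by
  unfold Hs harmonic
  push_cast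
  apply sum_congr rfl
  intro i _
  rw [one_div]

lemma tendsto_Hs : Tendsto (fun j : ℕ => Real.log j - Hs j) atTop (𝓝 (-Real.eulerMascheroniConstant)) := by
  have := Real.tendsto_harmonic_sub_log.neg
  refine this.congr fun j => ?_
  rw [Hs_eq_harmonic]
  ring

lemma tendsto_Hs' : Tendsto (fun j : ℕ => Real.log ((j : ℝ) + 1) - Hs j) atTop (𝓝 (-Real.eulerMascheroniConstant)) := by
  have := Real.tendsto_eulerMascheroniSeq.neg
  refine this.congr fun j => ?_
  rw [Hs_eq_harmonic, Real.eulerMascheroniSeq]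
  ring

lemma le_ph {x : ℝ} (hx : 0 < x) : -Real.eulerMascheroniConstant ≤ ph x := by
  refine le_of_tendsto tendsto_Hs ?_
  filter_upwards [eventually_gt_atTop 0] with j hj
  have hj' : (0 : ℝ) < j := by exact_mod_cast hj
  have h1 : Tendsto (fun s : ℝ => rt (Real.exp (-s)) j + Real.log s + Real.log j) (𝓝[>] 0)
      (𝓝 (-Hs j + Real.log j)) := (lim_rt j).add_const _
  have h2 : Real.log j - Hs j = -Hs j + Real.log j := by ring
  rw [h2]
  refine le_of_tendsto h1 ?_
  have hev : ∀ᶠ s : ℝ in 𝓝[>] 0, s < x / j :=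
    (eventually_lt_nhds (by positivity : (0 : ℝ) < x / j)).filter_mono nhdsWithin_le_nhds
  filter_upwards [self_mem_nhdsWithin, hev] with s hs hsx
  have hs' : 0 < s := hs
  have h3 := rt_le hs' hj
  have h4 : s * j ≤ x := by rw [lt_div_iff₀ hj'] at hsx; exact hsx.le
  have h5 := ph_mono (by positivity : 0 < s * (j : ℝ)) h4
  unfold ph at h5 ⊢
  rw [Real.log_mul hs'.ne' hj'.ne'] at h5
  linarith

lemma ph_le {x : ℝ} (hx : 0 < x) : ph x ≤ -Real.eulerMascheroniConstant + x := by
  have h0 : Tendsto (fun j : ℕ => Real.log ((j : ℝ) + 1) - Hs j + x) atTop (𝓝 (-Real.eulerMascheroniConstant + x)) :=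
    tendsto_Hs'.add_const _
  refine ge_of_tendsto h0 (Eventually.of_forall fun j => ?_)
  have hj' : (0 : ℝ) < (j : ℝ) + 1 := by positivity
  have h1 : Tendsto (fun s : ℝ => rt (Real.exp (-s)) j + Real.log s + (Real.log ((j : ℝ) + 1) + x))
      (𝓝[>] 0) (𝓝 (-Hs j + (Real.log ((j : ℝ) + 1) + x))) := (lim_rt j).add_const _
  have h2 : Real.log ((j : ℝ) + 1) - Hs j + x = -Hs j + (Real.log ((j : ℝ) + 1) + x) := by ring
  rw [h2]
  refine ge_of_tendsto h1 ?_
  have hev : ∀ᶠ s : ℝ in 𝓝[>] 0, s < x / ((j : ℝ) + 1) :=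
    (eventually_lt_nhds (by positivity : (0 : ℝ) < x / ((j : ℝ) + 1))).filter_mono
      nhdsWithin_le_nhds
  filter_upwards [self_mem_nhdsWithin, hev] with s hs hsx
  have hs' : 0 < s := hs
  have h3 := le_rt hs' j
  have h4 : s * ((j : ℝ) + 1) ≤ x := by rw [lt_div_iff₀ hj'] at hsx; exact hsx.le
  have h5 := ph_lip (by positivity : 0 < s * ((j : ℝ) + 1)) h4
  have h6 : 0 < s * ((j : ℝ) + 1) := by positivity
  have h7 : ph (s * ((j : ℝ) + 1)) = E1 (s * (j + 1)) + (Real.log s + Real.log ((j : ℝ) + 1)) := by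
    unfold ph
    rw [Real.log_mul hs'.ne' hj'.ne']
  linarith

/-- the limit function `U(x) = e^{E₁(x)} - 1` -/
noncomputable def Uf (x : ℝ) : ℝ := Real.exp (E1 x) - 1

lemma Uf_anti : AntitoneOn Uf (Set.Ioi 0) := by
  intro x hx y hy hxy
  unfold Uf
  have := Real.exp_le_exp.mpr (E1_anti hx hy hxy)
  linarith

lemma Uf_nonneg {x : ℝ} (hx : 0 < x) : 0 ≤ Uf x := by
  unfold Uf
  have := Real.one_le_exp (E1_nonneg hx)
  linarith

lemma exp_E1 {x : ℝ} (hx : 0 < x) : Real.exp (E1 x) = Real.exp (ph x) / x := by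
  unfold ph
  rw [Real.exp_add, Real.exp_log hx]
  field_simp

/-- `V(x) = e^{E₁(x)} - 1 - e^{-γ}/x` -/
noncomputable def Vf (x : ℝ) : ℝ := Real.exp (E1 x) - 1 - Real.exp (-Real.eulerMascheroniConstant) / x

lemma Vf_bound {x : ℝ} (hx : 0 < x) (hx1 : x ≤ 1) : |Vf x| ≤ Real.exp (-Real.eulerMascheroniConstant) * Real.exp 1 + 1 := by
  unfold Vf
  rw [exp_E1 hx]
  have h1 := Real.exp_le_exp.mpr (le_ph hx)
  have h2 := Real.exp_le_exp.mpr (ph_le hx)
  rw [Real.exp_add] at h2
  have hg := Real.exp_pos (-Real.eulerMascheroniConstant)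
  have h3 : Real.exp x - 1 ≤ x * Real.exp 1 := by
    have h4 := Real.add_one_le_exp (-x)
    have h5 : Real.exp x * (-x + 1) ≤ 1 := by
      calc Real.exp x * (-x + 1) ≤ Real.exp x * Real.exp (-x) := by gcongr
        _ = 1 := by rw [← Real.exp_add]; simp
    have h6 : Real.exp x ≤ Real.exp 1 := Real.exp_le_exp.mpr hx1
    nlinarith
  have h7 : 0 ≤ Real.exp (ph x) / x - Real.exp (-Real.eulerMascheroniConstant) / x := by
    rw [← sub_div]
    apply div_nonneg _ hx.le
    linarith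
  have h8 : Real.exp (ph x) / x - Real.exp (-Real.eulerMascheroniConstant) / x ≤ Real.exp (-Real.eulerMascheroniConstant) * Real.exp 1 := by
    rw [← sub_div, div_le_iff₀ hx]
    calc Real.exp (ph x) - Real.exp (-Real.eulerMascheroniConstant) ≤ Real.exp (-Real.eulerMascheroniConstant) * (Real.exp x - 1) := by linarith
      _ ≤ Real.exp (-Real.eulerMascheroniConstant) * (x * Real.exp 1) := by gcongr
      _ = _ := by ring
  rw [abs_le]
  have := Real.exp_pos 1
  constructor <;> nlinarith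

lemma E1_meas : AEStronglyMeasurable E1 (volume.restrict (Set.Ioi 0)) :=
  (aemeasurable_restrict_of_antitoneOn measurableSet_Ioi E1_anti).aestronglyMeasurable

lemma Uf_meas : AEStronglyMeasurable Uf (volume.restrict (Set.Ioi 0)) :=
  (aemeasurable_restrict_of_antitoneOn measurableSet_Ioi Uf_anti).aestronglyMeasurable

lemma inv_meas : AEStronglyMeasurable (fun x : ℝ => Real.exp (-Real.eulerMascheroniConstant) / x)
    (volume.restrict (Set.Ioi 0)) := by
  apply Measurable.aestronglyMeasurable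
  exact measurable_const.div measurable_id

lemma Vf_meas : AEStronglyMeasurable Vf (volume.restrict (Set.Ioi 0)) :=
  Uf_meas.sub inv_meas

lemma Vf_int : IntegrableOn Vf (Set.Ioc 0 1) := by
  refine Integrable.mono' (g := fun _ => Real.exp (-Real.eulerMascheroniConstant) * Real.exp 1 + 1) ?_
    (Vf_meas.mono_set Set.Ioc_subset_Ioi_self) ?_
  · exact integrableOn_const (hs := measure_Ioc_lt_top.ne)
  · filter_upwards [ae_restrict_mem measurableSet_Ioc] with x hx
    exact Vf_bound hx.1 hx.2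

lemma E1_le {x : ℝ} (hx : 1 ≤ x) : E1 x ≤ Real.exp (-x) := by
  rw [E1_eq]
  have h1 : ∫ t in Set.Ioi x, ge t ≤ ∫ t in Set.Ioi x, Real.exp (-t) := by
    apply setIntegral_mono_on (ge_int (by linarith)) (integrable_exp_neg x) measurableSet_Ioi
    intro t ht
    have ht' : x < t := ht
    have := ge_le (a := 1) one_pos (by linarith : 1 ≤ t)
    simpa using this
  rw [integral_exp_neg_Ioi] at h1
  exact h1

lemma Uf_int1 : IntegrableOn Uf (Set.Ioi 1) := by
  refine Integrable.mono' ((integrable_exp_neg 1).const_mul (Real.exp 1)) ?_ ?_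
  · exact Uf_meas.mono_set (Set.Ioi_subset_Ioi zero_le_one)
  · filter_upwards [ae_restrict_mem measurableSet_Ioi] with x hx
    have hx' : 1 < x := hx
    rw [Real.norm_eq_abs, abs_of_nonneg (Uf_nonneg (by linarith))]
    unfold Uf
    have h1 := E1_le hx'.le
    have h0 := E1_nonneg (by linarith : 0 < x)
    set e := E1 x
    have h2 : e ≤ 1 := h1.trans (Real.exp_le_one_iff.mpr (by linarith))
    have h3 : Real.exp e * (-e + 1) ≤ 1 := by
      calc Real.exp e * (-e + 1) ≤ Real.exp e * Real.exp (-e) := by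
            gcongr; exact Real.add_one_le_exp _
        _ = 1 := by rw [← Real.exp_add]; simp
    have h4 : Real.exp e ≤ Real.exp 1 := Real.exp_le_exp.mpr h2
    calc Real.exp e - 1 ≤ Real.exp e * e := by linarith
      _ ≤ Real.exp 1 * Real.exp (-x) := by gcongr

lemma Uf_int {a : ℝ} (ha : 0 < a) : IntegrableOn Uf (Set.Ioi a) := by
  rcases le_or_gt 1 a with h | h
  · exact Uf_int1.mono_set (Set.Ioi_subset_Ioi h)
  · rw [← Set.Ioc_union_Ioi_eq_Ioi h.le]
    refine IntegrableOn.union ?_ Uf_int1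
    refine Integrable.mono' (g := fun _ => Uf a) ?_
      (Uf_meas.mono_set (Set.Ioc_subset_Ioi_self.trans (Set.Ioi_subset_Ioi ha.le))) ?_
    · exact integrableOn_const (hs := measure_Ioc_lt_top.ne)
    · filter_upwards [ae_restrict_mem measurableSet_Ioc] with x hx
      have hx0 : 0 < x := ha.trans hx.1
      rw [Real.norm_eq_abs, abs_of_nonneg (Uf_nonneg hx0)]
      exact Uf_anti ha hx0 hx.1.le

/-- the integral part of the constant -/
noncomputable def CU : ℝ := (∫ x in (0 : ℝ)..1, (Real.exp (E1 x) - 1 - Real.exp (-Real.eulerMascheroniConstant) / x)) +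
  ∫ x in Set.Ioi (1 : ℝ), (Real.exp (E1 x) - 1)

lemma int_Uf : ∃ M : ℝ, ∀ a : ℝ, 0 < a → a ≤ 1 →
    |(∫ x in Set.Ioi a, Uf x) - (CU - Real.exp (-Real.eulerMascheroniConstant) * Real.log a)| ≤ M * a := by
  refine ⟨Real.exp (-Real.eulerMascheroniConstant) * Real.exp 1 + 1, fun a ha ha1 => ?_⟩
  have h1 := intervalIntegral.integral_Ioi_sub_Ioi (Uf_int ha) ha1
  have hV : IntervalIntegrable Vf volume 0 1 := by
    rw [intervalIntegrable_iff_integrableOn_Ioc_of_le zero_le_one]
    exact Vf_int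
  have hVa : IntervalIntegrable Vf volume a 1 := by
    rw [intervalIntegrable_iff_integrableOn_Ioc_of_le ha1]
    exact Vf_int.mono_set (Set.Ioc_subset_Ioc_left ha.le)
  have hV0a : IntervalIntegrable Vf volume 0 a := by
    rw [intervalIntegrable_iff_integrableOn_Ioc_of_le ha.le]
    exact Vf_int.mono_set (Set.Ioc_subset_Ioc_right ha1)
  have hinv : IntervalIntegrable (fun x : ℝ => Real.exp (-Real.eulerMascheroniConstant) * (1 / x)) volume a 1 := by
    apply ContinuousOn.intervalIntegrable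
    rw [Set.uIcc_of_le ha1]
    apply continuousOn_const.mul
    apply ContinuousOn.div continuousOn_const continuousOn_id
    intro t ht; exact (lt_of_lt_of_le ha ht.1).ne'
  have h2 : ∫ x in a..1, Uf x = (∫ x in a..1, Vf x) - Real.exp (-Real.eulerMascheroniConstant) * Real.log a := by
    have h3 : ∫ x in a..1, Uf x = ∫ x in a..1, (Vf x + Real.exp (-Real.eulerMascheroniConstant) * (1 / x)) := by
      apply intervalIntegral.integral_congr
      intro t _
      simp only [Uf, Vf]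
      ring
    rw [h3, intervalIntegral.integral_add hVa hinv, intervalIntegral.integral_const_mul,
      integral_one_div_of_pos ha one_pos, one_div, Real.log_inv]
    ring
  have h4 := intervalIntegral.integral_add_adjacent_intervals hV0a hVa
  have h5 : CU = (∫ x in (0 : ℝ)..1, Vf x) + ∫ x in Set.Ioi (1 : ℝ), Uf x := rfl
  have h6 : ‖∫ x in (0 : ℝ)..a, Vf x‖ ≤ (Real.exp (-Real.eulerMascheroniConstant) * Real.exp 1 + 1) * |a - 0| := by
    apply intervalIntegral.norm_integral_le_of_norm_le_const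
    intro x hx
    rw [Set.uIoc_of_le ha.le] at hx
    exact Vf_bound hx.1 (hx.2.trans ha1)
  rw [sub_zero, abs_of_pos ha, Real.norm_eq_abs] at h6
  have h7 : (∫ x in Set.Ioi a, Uf x) - (CU - Real.exp (-Real.eulerMascheroniConstant) * Real.log a) =
      -∫ x in (0 : ℝ)..a, Vf x := by
    rw [h5]
    linarith
  rw [h7, abs_neg]
  exact h6

/-! ### the sandwich -/

lemma term_le {s : ℝ} (hs : 0 < s) {j : ℕ} (hj : 0 < j) :
    Real.exp (rt (Real.exp (-s)) j) - 1 ≤ Uf (s * j) := by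
  unfold Uf
  have := Real.exp_le_exp.mpr (rt_le hs hj)
  linarith

lemma le_term {s : ℝ} (hs : 0 < s) (j : ℕ) :
    Uf (s * (j + 1)) ≤ Real.exp (rt (Real.exp (-s)) j) - 1 := by
  unfold Uf
  have := Real.exp_le_exp.mpr (le_rt hs j)
  linarith

lemma summable_terms {s : ℝ} (hs : 0 < s) :
    Summable (fun j : ℕ => s * (Real.exp (rt (Real.exp (-s)) j) - 1)) :=
  (ev_Es (exp_neg_range hs).1 (exp_neg_range hs).2).summable.mul_left s

lemma s_ev_Es {s : ℝ} (hs : 0 < s) (J : ℕ) : s * ev (Real.exp (-s)) Es =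
    ∑ j ∈ range J, s * (Real.exp (rt (Real.exp (-s)) j) - 1) +
    ∑' i : ℕ, s * (Real.exp (rt (Real.exp (-s)) (i + J)) - 1) := by
  have h1 := (ev_Es (exp_neg_range hs).1 (exp_neg_range hs).2).mul_left s
  rw [← h1.tsum_eq]
  exact ((summable_terms hs).sum_add_tsum_nat_add J).symm

lemma tail_le {s : ℝ} (hs : 0 < s) (J : ℕ) :
    ∑' i : ℕ, s * (Real.exp (rt (Real.exp (-s)) (i + (J + 2))) - 1) ≤
      ∫ x in Set.Ioi (s * ((J : ℝ) + 1)), Uf x := by
  have hpos : 0 < s * ((J : ℝ) + 1) := by positivity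
  have h1 := tsum_le_Ioi Uf_anti (fun x hx => Uf_nonneg hx) hpos hs (Uf_int hpos)
  have h2 := summable_G Uf_anti (fun x hx => Uf_nonneg hx) hpos hs (Uf_int hpos)
  have h3 := (summable_nat_add_iff (J + 2)).mpr (summable_terms hs)
  refine (h3.tsum_le_tsum (fun i => ?_) h2).trans h1
  have h4 := term_le hs (j := i + (J + 2)) (by omega)
  have h5 : s * ((J : ℝ) + 1) + s * ((i + 1 : ℕ) : ℝ) = s * ((i + (J + 2) : ℕ) : ℝ) := by
    push_cast; ring
  rw [h5]
  gcongr

lemma le_tail {s : ℝ} (hs : 0 < s) (J : ℕ) :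
    ∫ x in Set.Ioi (s * ((J : ℝ) + 1)), Uf x ≤
      ∑' i : ℕ, s * (Real.exp (rt (Real.exp (-s)) (i + J)) - 1) := by
  have hpos : 0 < s * ((J : ℝ) + 1) := by positivity
  have h1 := Ioi_le_tsum Uf_anti (fun x hx => Uf_nonneg hx) hpos hs (Uf_int hpos)
  have h2 := summable_G' Uf_anti (fun x hx => Uf_nonneg hx) hpos hs (Uf_int hpos)
  have h3 := (summable_nat_add_iff J).mpr (summable_terms hs)
  refine h1.trans (h2.tsum_le_tsum (fun i => ?_) h3)
  have h4 := le_term hs (i + J)
  have h5 : s * ((J : ℝ) + 1) + s * (i : ℝ) = s * (((i + J : ℕ) : ℝ) + 1) := by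
    push_cast; ring
  rw [h5]
  gcongr

lemma lim_term (j : ℕ) : Tendsto (fun s : ℝ => s * (Real.exp (rt (Real.exp (-s)) j) - 1)) (𝓝[>] 0)
    (𝓝 (h j)) := by
  have h1 : Tendsto (fun s : ℝ => Real.exp (rt (Real.exp (-s)) j + Real.log s) - s) (𝓝[>] 0)
      (𝓝 (Real.exp (-Hs j) - 0)) := by
    apply Tendsto.sub
    · exact (Real.continuous_exp.tendsto _).comp (lim_rt j)
    · exact (continuous_id.tendsto (0 : ℝ)).mono_left nhdsWithin_le_nhds
  rw [sub_zero, ← h_eq_exp_Hs] at h1
  refine h1.congr' ?_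
  filter_upwards [self_mem_nhdsWithin] with s hs
  rw [Real.exp_add, Real.exp_log hs]
  ring

/-- the discrepancy `s E(e^{-s}) + e^{-γ} ln s` -/
noncomputable def Ds (s : ℝ) : ℝ := s * ev (Real.exp (-s)) Es + Real.exp (-Real.eulerMascheroniConstant) * Real.log s

lemma lim_int (J : ℕ) : Tendsto (fun s : ℝ => (∫ x in Set.Ioi (s * ((J : ℝ) + 1)), Uf x) +
    Real.exp (-Real.eulerMascheroniConstant) * Real.log s) (𝓝[>] 0) (𝓝 (CU - Real.exp (-Real.eulerMascheroniConstant) * Real.log ((J : ℝ) + 1))) := by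
  obtain ⟨M, hM⟩ := int_Uf
  have hJ : (0 : ℝ) < (J : ℝ) + 1 := by positivity
  have h1 : Tendsto (fun s : ℝ => M * (s * ((J : ℝ) + 1))) (𝓝[>] 0) (𝓝 0) := by
    have : Continuous fun s : ℝ => M * (s * ((J : ℝ) + 1)) := by fun_prop
    have h2 := this.tendsto 0
    simp only [zero_mul, mul_zero] at h2
    exact h2.mono_left nhdsWithin_le_nhds
  rw [tendsto_iff_norm_sub_tendsto_zero]
  refine squeeze_zero' (Eventually.of_forall fun _ => norm_nonneg _) ?_ h1
  have hev : ∀ᶠ s : ℝ in 𝓝[>] 0, s < 1 / ((J : ℝ) + 1) :=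
    (eventually_lt_nhds (by positivity : (0 : ℝ) < 1 / ((J : ℝ) + 1))).filter_mono
      nhdsWithin_le_nhds
  filter_upwards [self_mem_nhdsWithin, hev] with s hs hsx
  have hs' : 0 < s := hs
  have h4 : s * ((J : ℝ) + 1) ≤ 1 := by rw [lt_div_iff₀ hJ] at hsx; exact hsx.le
  have h5 := hM (s * ((J : ℝ) + 1)) (by positivity) h4
  rw [Real.log_mul hs'.ne' hJ.ne'] at h5
  rw [Real.norm_eq_abs]
  convert h5 using 2
  ring

/-- the sum part of the constant -/
noncomputable def CD : ℝ := 1 + ∑' j : ℕ, (Real.exp (-∑ i ∈ range (j + 1), (1 : ℝ) / (i + 1)) -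
  Real.exp (-Real.eulerMascheroniConstant) * Real.log (1 + 1 / ((j : ℝ) + 1)))

lemma log_one_add_bound {x : ℝ} (hx : 0 ≤ x) : |Real.log (1 + x) - x| ≤ x ^ 2 := by
  rw [abs_le]
  constructor
  · have h1 := Real.one_sub_inv_le_log_of_pos (by linarith : 0 < 1 + x)
    have h2 : x - x ^ 2 ≤ 1 - (1 + x)⁻¹ := by
      have h3 : 0 < 1 + x := by linarith
      have h4 : 1 - (1 + x)⁻¹ = x / (1 + x) := by field_simp; ring
      rw [h4, le_div_iff₀ h3]
      nlinarith [pow_nonneg hx 3]
    linarith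
  · have h1 := Real.log_le_sub_one_of_pos (by linarith : 0 < 1 + x)
    nlinarith [sq_nonneg x]

lemma CD_summable : Summable (fun j : ℕ => h (j + 1) -
    Real.exp (-Real.eulerMascheroniConstant) * Real.log (1 + 1 / ((j : ℝ) + 1))) := by
  obtain ⟨C, hC⟩ := h_expansion 0
  set E := Real.exp (-Real.eulerMascheroniConstant) with hE
  have hE0 : 0 < E := Real.exp_pos _
  have hs : Summable (fun j : ℕ => (C + E) * (1 / ((j + 1 : ℕ) : ℝ) ^ 2)) := by
    apply Summable.mul_left
    exact (summable_nat_add_iff 1).mpr (Real.summable_one_div_nat_pow.mpr one_lt_two)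
  refine Summable.of_norm_bounded hs fun j => ?_
  have h1 := hC (j + 1) (Nat.succ_pos j)
  simp only [zero_add, sum_range_one, pow_one, eta_zero] at h1
  have h2 := log_one_add_bound (x := 1 / ((j : ℝ) + 1)) (by positivity)
  rw [Real.norm_eq_abs]
  have h3 : h (j + 1) - E * Real.log (1 + 1 / ((j : ℝ) + 1)) =
      (h (j + 1) - E * (1 / ((j + 1 : ℕ) : ℝ))) -
      E * (Real.log (1 + 1 / ((j : ℝ) + 1)) - 1 / ((j : ℝ) + 1)) := by
    push_cast; ring
  rw [h3]
  refine (abs_sub _ _).trans ?_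
  rw [abs_mul, abs_of_pos hE0]
  calc _ ≤ C / ((j + 1 : ℕ) : ℝ) ^ 2 + E * (1 / ((j : ℝ) + 1)) ^ 2 := by gcongr
    _ = _ := by push_cast; rw [one_div_pow]; ring

lemma lim_CD : Tendsto (fun J : ℕ => ∑ j ∈ range J, h j - Real.exp (-Real.eulerMascheroniConstant) * Real.log J) atTop
    (𝓝 CD) := by
  have h1 := CD_summable.hasSum.tendsto_sum_nat
  have h2 := h1.const_add 1
  rw [← tendsto_add_atTop_iff_nat 1]
  have h3 : (1 + ∑' (i : ℕ), (h (i + 1) - Real.exp (-Real.eulerMascheroniConstant) * Real.log (1 + 1 / ((i : ℝ) + 1)))) =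
    CD := rfl
  rw [h3] at h2
  refine h2.congr fun J => ?_
  rw [sum_range_succ', h_zero, sum_sub_distrib, ← mul_sum]
  have h4 : ∑ i ∈ range J, Real.log (1 + 1 / ((i : ℝ) + 1)) = Real.log ((J + 1 : ℕ) : ℝ) := by
    induction J with
    | zero => simp
    | succ J ih =>
      rw [sum_range_succ, ih, ← Real.log_mul (by positivity) (by positivity)]
      congr 1
      push_cast
      field_simp
  rw [h4]
  ring

/-- limit of the discrepancy -/
lemma lim_Ds : Tendsto Ds (𝓝[>] 0) (𝓝 (CD + CU)) := by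
  have hE0 : 0 < Real.exp (-Real.eulerMascheroniConstant) := Real.exp_pos _
  have hshift : ∀ k : ℕ, Tendsto (fun J : ℕ => Real.log (((J + k : ℕ) : ℝ)) - Real.log ((J : ℝ) + 1))
      atTop (𝓝 0) := by
    intro k
    have h1 : Tendsto (fun J : ℕ => (((J + k : ℕ) : ℝ)) / ((J : ℝ) + 1)) atTop (𝓝 1) := by
      have h2 : Tendsto (fun J : ℕ => 1 + ((k : ℝ) - 1) * (1 / ((J : ℝ) + 1))) atTop
          (𝓝 (1 + ((k : ℝ) - 1) * 0)) :=
        (tendsto_one_div_add_atTop_nhds_zero_nat.const_mul _).const_add _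
      rw [mul_zero, add_zero] at h2
      refine h2.congr fun J => ?_
      push_cast
      field_simp
      ring
    have h3 := h1.log one_ne_zero
    rw [Real.log_one] at h3
    refine h3.congr' ?_
    filter_upwards [eventually_gt_atTop 0] with J hJ
    have hJ' : (0 : ℝ) < J := by exact_mod_cast hJ
    rw [Real.log_div (by positivity) (by positivity)]
  rw [tendsto_order]
  constructor
  · intro a ha
    -- lower bound
    have h1 : Tendsto (fun J : ℕ => ∑ j ∈ range J, h j - Real.exp (-Real.eulerMascheroniConstant) * Real.log J +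
        Real.exp (-Real.eulerMascheroniConstant) * (Real.log (((J + 0 : ℕ) : ℝ)) - Real.log ((J : ℝ) + 1)) + CU) atTop
        (𝓝 (CD + Real.exp (-Real.eulerMascheroniConstant) * 0 + CU)) :=
      (lim_CD.add ((hshift 0).const_mul _)).add_const _
    rw [mul_zero, add_zero] at h1
    obtain ⟨J, hJ⟩ := (h1.eventually (lt_mem_nhds ha)).exists
    have h2 : Tendsto (fun s : ℝ => ∑ j ∈ range J, s * (Real.exp (rt (Real.exp (-s)) j) - 1) +
        ((∫ x in Set.Ioi (s * ((J : ℝ) + 1)), Uf x) + Real.exp (-Real.eulerMascheroniConstant) * Real.log s)) (𝓝[>] 0)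
        (𝓝 (∑ j ∈ range J, h j + (CU - Real.exp (-Real.eulerMascheroniConstant) * Real.log ((J : ℝ) + 1)))) :=
      (tendsto_finsetSum _ fun j _ => lim_term j).add (lim_int J)
    have h3 : a < ∑ j ∈ range J, h j + (CU - Real.exp (-Real.eulerMascheroniConstant) * Real.log ((J : ℝ) + 1)) := by
      rw [add_zero] at hJ
      linarith
    filter_upwards [h2.eventually (lt_mem_nhds h3), self_mem_nhdsWithin] with s hs1 hs
    have hs' : 0 < s := hs
    unfold Ds
    rw [s_ev_Es hs' J]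
    have := le_tail hs' J
    linarith
  · intro b hb
    have h1 : Tendsto (fun J : ℕ => ∑ j ∈ range (J + 2), h j -
        Real.exp (-Real.eulerMascheroniConstant) * Real.log ((J + 2 : ℕ) : ℝ) +
        Real.exp (-Real.eulerMascheroniConstant) * (Real.log (((J + 2 : ℕ) : ℝ)) - Real.log ((J : ℝ) + 1)) + CU) atTop
        (𝓝 (CD + Real.exp (-Real.eulerMascheroniConstant) * 0 + CU)) :=
      ((lim_CD.comp (tendsto_add_atTop_nat 2)).add ((hshift 2).const_mul _)).add_const _
    rw [mul_zero, add_zero] at h1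
    obtain ⟨J, hJ⟩ := (h1.eventually (gt_mem_nhds hb)).exists
    have h2 : Tendsto (fun s : ℝ => ∑ j ∈ range (J + 2),
        s * (Real.exp (rt (Real.exp (-s)) j) - 1) +
        ((∫ x in Set.Ioi (s * ((J : ℝ) + 1)), Uf x) + Real.exp (-Real.eulerMascheroniConstant) * Real.log s)) (𝓝[>] 0)
        (𝓝 (∑ j ∈ range (J + 2), h j + (CU - Real.exp (-Real.eulerMascheroniConstant) * Real.log ((J : ℝ) + 1)))) :=
      (tendsto_finsetSum _ fun j _ => lim_term j).add (lim_int J)
    have h3 : ∑ j ∈ range (J + 2), h j + (CU - Real.exp (-Real.eulerMascheroniConstant) * Real.log ((J : ℝ) + 1)) < b := by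
      linarith
    filter_upwards [h2.eventually (gt_mem_nhds h3), self_mem_nhdsWithin] with s hs1 hs
    have hs' : 0 < s := hs
    unfold Ds
    rw [s_ev_Es hs' (J + 2)]
    have := tail_le hs' J
    linarith

/-- identification of the constants -/
theorem const_eq {c κ : ℝ} (hN : Neg 1 (Es - PowerSeries.C κ * GG - PowerSeries.C c * (GG * Lg))) :
    c = Real.exp (-Real.eulerMascheroniConstant) ∧ κ = CD + CU := by
  have hS : ∀ z : ℝ, 0 ≤ z → z < 1 →
      Sm z (Es - PowerSeries.C κ * GG - PowerSeries.C c * (GG * Lg)) := fun z hz hz1 =>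
    ((Sm_Es hz hz1).sub ((Sm_C z κ).mul (Sm_GG hz hz1))).sub
      ((Sm_C z c).mul ((Sm_GG hz hz1).mul (Sm_Lg hz hz1)))
  have hev : ∀ z : ℝ, 0 ≤ z → z < 1 →
      (1 - z) * ev z (Es - PowerSeries.C κ * GG - PowerSeries.C c * (GG * Lg)) =
      (1 - z) * ev z Es - κ + c * Real.log (1 - z) := by
    intro z hz hz1
    have h1z : 1 - z ≠ 0 := by linarith
    rw [ev_sub ((Sm_Es hz hz1).sub ((Sm_C z κ).mul (Sm_GG hz hz1)))
      ((Sm_C z c).mul ((Sm_GG hz hz1).mul (Sm_Lg hz hz1))),
      ev_sub (Sm_Es hz hz1) ((Sm_C z κ).mul (Sm_GG hz hz1)),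
      ev_mul (Sm_C z κ) (Sm_GG hz hz1), ev_mul (Sm_C z c) ((Sm_GG hz hz1).mul (Sm_Lg hz hz1)),
      ev_mul (Sm_GG hz hz1) (Sm_Lg hz hz1), ev_C, ev_C, ev_GG hz hz1, ev_Lg hz hz1]
    field_simp
    ring
  have hA := abel hN hS
  have hexp : Tendsto (fun s : ℝ => Real.exp (-s)) (𝓝[>] 0) (𝓝[<] 1) := by
    rw [tendsto_nhdsWithin_iff]
    constructor
    · have : Continuous fun s : ℝ => Real.exp (-s) := by fun_prop
      have h2 := this.tendsto 0
      rw [neg_zero, Real.exp_zero] at h2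
      exact h2.mono_left nhdsWithin_le_nhds
    · filter_upwards [self_mem_nhdsWithin] with s hs
      exact (exp_neg_range hs).2
  have hB := hA.comp hexp
  -- combine with the limit of `Ds`
  have hslog : Tendsto (fun s : ℝ => s * Real.log s) (𝓝[>] 0) (𝓝 0) := by
    have h2 := Real.continuous_mul_log.tendsto 0
    rw [zero_mul] at h2
    exact h2.mono_left nhdsWithin_le_nhds
  have hrl : Tendsto (fun s : ℝ => (1 - (1 - Real.exp (-s)) / s) * Real.log s) (𝓝[>] 0) (𝓝 0) := by
    rw [tendsto_zero_iff_norm_tendsto_zero] at hslog ⊢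
    refine squeeze_zero' (Eventually.of_forall fun _ => norm_nonneg _) ?_ hslog
    filter_upwards [self_mem_nhdsWithin] with s hs
    have hs' : 0 < s := hs
    rw [norm_mul, norm_mul]
    obtain ⟨h1, h2⟩ := rho_bounds hs'
    gcongr
    rw [Real.norm_eq_abs, Real.norm_eq_abs, abs_of_nonneg (by linarith), abs_of_pos hs']
    linarith
  have hlogr : Tendsto (fun s : ℝ => Real.log ((1 - Real.exp (-s)) / s)) (𝓝[>] 0) (𝓝 0) := by
    have := tendsto_rho.log one_ne_zero
    simpa using this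
  -- `(c - e^{-γ}) log s → κ - (CD + CU)`
  have hmain : Tendsto (fun s : ℝ => (c - Real.exp (-Real.eulerMascheroniConstant)) * Real.log s) (𝓝[>] 0)
      (𝓝 (κ - (CD + CU))) := by
    have h1 := tendsto_rho.mul lim_Ds
    have h2 := ((hB.sub h1).sub (hrl.const_mul (Real.exp (-Real.eulerMascheroniConstant)))).sub (hlogr.const_mul c)
    have h3 := h2.add_const κ
    have e1 : 0 - 1 * (CD + CU) - Real.exp (-Real.eulerMascheroniConstant) * 0 - c * 0 + κ = κ - (CD + CU) := by ring
    rw [e1] at h3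
    refine h3.congr' ?_
    filter_upwards [self_mem_nhdsWithin] with s hs
    have hs' : 0 < s := hs
    obtain ⟨hz, hz1⟩ := exp_neg_range hs'
    simp only [Function.comp]
    rw [hev _ hz hz1]
    unfold Ds
    rw [Real.log_div (by linarith) hs'.ne']
    field_simp
    ring
  have hc : c - Real.exp (-Real.eulerMascheroniConstant) = 0 := by
    by_contra hne
    have h1 := hmain.const_mul (1 / (c - Real.exp (-Real.eulerMascheroniConstant)))
    have h2 : Tendsto (fun s : ℝ => Real.log s) (𝓝[>] 0)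
        (𝓝 (1 / (c - Real.exp (-Real.eulerMascheroniConstant)) * (κ - (CD + CU)))) := by
      refine h1.congr fun s => ?_
      field_simp
    exact not_tendsto_nhds_of_tendsto_atBot Real.tendsto_log_nhdsGT_zero _ h2
  rw [hc] at hmain
  simp only [zero_mul] at hmain
  have h3 := tendsto_nhds_unique hmain tendsto_const_nhds
  exact ⟨by linarith, by linarith⟩

end Pool.Agent.Lib.MP_493311_pr
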