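import Mathlib
import Pool.Agent.Lib.MP_493311_pr.Basic

open Finset

namespace Pool.Agent.Lib.MP_493311_pr

/-- the order of the centralizer of a permutation with cycle lengths `m` -/
def zM (m : Multiset ℕ) : ℕ := m.prod * ∏ n ∈ m.toFinset, (m.count n).factorial

lemma zM_eq (m : Multiset ℕ) {S : Finset ℕ} (h : m.toFinset ⊆ S) :
    zM m = m.prod * ∏ n ∈ S, (m.count n).factorial := by
  unfold zM
  congr 1
  apply prod_subset h
  intro x _ hx
  rw [Multiset.mem_toFinset] at hx
  rw [Multiset.count_eq_zero_of_notMem hx, Nat.factorial_zero]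

lemma zM_cons (a : ℕ) (m : Multiset ℕ) : zM (a ::ₘ m) = a * (m.count a + 1) * zM m := by
  have h1 : (a ::ₘ m).toFinset ⊆ insert a m.toFinset := by simp
  have h2 : m.toFinset ⊆ insert a m.toFinset := subset_insert _ _
  rw [zM_eq _ h1, zM_eq _ h2, Multiset.prod_cons]
  have ha : a ∈ insert a m.toFinset := mem_insert_self _ _
  rw [← mul_prod_erase _ _ ha, ← mul_prod_erase _ _ ha, Multiset.count_cons_self,
    Nat.factorial_succ]
  have h3 : ∏ x ∈ (insert a m.toFinset).erase a, (Multiset.count x (a ::ₘ m)).factorial =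
      ∏ x ∈ (insert a m.toFinset).erase a, (Multiset.count x m).factorial := by
    apply prod_congr rfl
    intro x hx
    rw [Multiset.count_cons_of_ne (ne_of_mem_erase hx)]
  rw [h3]
  ring

lemma zM_pos {m : Multiset ℕ} (h : ∀ i ∈ m, 0 < i) : 0 < zM m := by
  unfold zM
  have : 0 < m.prod := Multiset.prod_pos h
  positivity

/-- multisets with sum `n` and all members `> j` -/
def MS (n j : ℕ) : Finset (Multiset ℕ) :=
  ((univ : Finset (Nat.Partition n)).image (fun p => p.parts)).filter (fun m => ∀ i ∈ m, j < i)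

lemma mem_MS {n j : ℕ} {m : Multiset ℕ} : m ∈ MS n j ↔ m.sum = n ∧ ∀ i ∈ m, j < i := by
  unfold MS
  rw [mem_filter, mem_image]
  constructor
  · rintro ⟨⟨p, _, rfl⟩, h⟩
    exact ⟨p.parts_sum, h⟩
  · rintro ⟨h1, h2⟩
    exact ⟨⟨⟨m, fun {i} hi => lt_of_le_of_lt (Nat.zero_le j) (h2 i hi), h1⟩, mem_univ _, rfl⟩, h2⟩

/-- sum of the reciprocals of the centralizer orders -/
noncomputable def Zs' (j n : ℕ) : ℝ := ∑ m ∈ MS n j, 1 / (zM m : ℝ)

lemma Zs'_zero (j : ℕ) : Zs' j 0 = 1 := by
  unfold Zs'
  have : MS 0 j = {0} := by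
    ext m
    rw [mem_MS, mem_singleton]
    constructor
    · rintro ⟨h1, h2⟩
      by_contra hne
      obtain ⟨a, ha⟩ := Multiset.exists_mem_of_ne_zero hne
      have h3 := h2 a ha
      have h4 := Multiset.single_le_sum (fun x _ => Nat.zero_le x) a ha
      omega
    · rintro rfl
      simp
  rw [this, sum_singleton]
  simp [zM]

lemma mem_le_sum {m : Multiset ℕ} {a : ℕ} (ha : a ∈ m) : a ≤ m.sum :=
  Multiset.single_le_sum (fun x _ => Nat.zero_le x) a ha

lemma sum_eq_count {m : Multiset ℕ} {j n : ℕ} (hm : m ∈ MS n j) :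
    (n : ℝ) = ∑ i ∈ Ioc j n, (m.count i : ℝ) * i := by
  rw [mem_MS] at hm
  have h1 : m.sum = ∑ i ∈ m.toFinset, m.count i * i := by
    have := Finset.sum_multiset_count m
    simpa using this
  have h2 : ∑ i ∈ m.toFinset, m.count i * i = ∑ i ∈ Ioc j n, m.count i * i := by
    apply sum_subset
    · intro i hi
      rw [Multiset.mem_toFinset] at hi
      rw [mem_Ioc]
      exact ⟨hm.2 i hi, hm.1 ▸ mem_le_sum hi⟩
    · intro i _ hi
      rw [Multiset.mem_toFinset] at hi
      rw [Multiset.count_eq_zero_of_notMem hi, zero_mul]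
  rw [← hm.1] at h2 ⊢
  rw [hm.1] at h2
  have h3 : ((m.sum : ℕ) : ℝ) = ((∑ i ∈ Ioc j n, m.count i * i : ℕ) : ℝ) := by
    rw [← h2, ← h1]
  rw [h3, hm.1]
  push_cast
  rfl

lemma mul_Zs' (j n : ℕ) : (n : ℝ) * Zs' j n = ∑ i ∈ Ioc j n, Zs' j (n - i) := by
  unfold Zs'
  rw [mul_sum]
  have h1 : ∀ m ∈ MS n j, (n : ℝ) * (1 / (zM m : ℝ)) =
      ∑ i ∈ Ioc j n, if i ∈ m then (m.count i : ℝ) * i / zM m else 0 := by
    intro m hm
    rw [mul_one_div]
    nth_rewrite 1 [sum_eq_count hm]
    rw [sum_div]
    apply sum_congr rfl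
    intro i _
    split_ifs with h
    · rfl
    · rw [Multiset.count_eq_zero_of_notMem h]; simp
  rw [sum_congr rfl h1, sum_comm]
  apply sum_congr rfl
  intro i hi
  rw [mem_Ioc] at hi
  rw [← sum_filter]
  symm
  refine sum_bij' (fun m _ => i ::ₘ m) (fun m _ => m.erase i) ?_ ?_ ?_ ?_ ?_
  · intro m hm
    rw [mem_MS] at hm
    rw [mem_filter, mem_MS]
    refine ⟨⟨?_, ?_⟩, Multiset.mem_cons_self i m⟩
    · rw [Multiset.sum_cons, hm.1]; omega
    · intro k hk
      rw [Multiset.mem_cons] at hk
      rcases hk with rfl | hk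
      · exact hi.1
      · exact hm.2 k hk
  · intro m hm
    rw [mem_filter, mem_MS] at hm
    rw [mem_MS]
    refine ⟨?_, fun k hk => hm.1.2 k (Multiset.mem_of_mem_erase hk)⟩
    have := Multiset.sum_erase hm.2
    omega
  · intro m _
    exact Multiset.erase_cons_head i m
  · intro m hm
    rw [mem_filter] at hm
    exact Multiset.cons_erase hm.2
  · intro m hm
    rw [mem_MS] at hm
    rw [Multiset.count_cons_self, zM_cons]
    have h3 : (0 : ℝ) < zM m := by
      exact_mod_cast zM_pos fun k hk => lt_of_le_of_lt (Nat.zero_le j) (hm.2 k hk)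
    have h4 : (0 : ℝ) < i := by exact_mod_cast (by omega : 0 < i)
    push_cast
    field_simp

lemma Zs'_eq_q (j n : ℕ) : Zs' j n = q j n := by
  induction n using Nat.strong_induction_on with
  | _ n ih =>
    rcases Nat.eq_zero_or_pos n with rfl | hn
    · rw [Zs'_zero, q_zero]
    · have hn' : (n : ℝ) ≠ 0 := by positivity
      apply mul_left_cancel₀ hn'
      rw [mul_Zs', mul_q_eq_sum]
      have h1 : ∀ i ∈ Ioc j n, Zs' j (n - i) = q j (n - i) := by
        intro i hi
        rw [mem_Ioc] at hi
        exact ih (n - i) (by omega)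
      rw [sum_congr rfl h1]
      refine sum_bij' (fun i _ => n - i) (fun m _ => n - m) ?_ ?_ ?_ ?_ ?_
      · intro i hi
        rw [mem_Ioc] at hi
        rw [mem_range]; omega
      · intro m hm
        rw [mem_range] at hm
        rw [mem_Ioc]; omega
      · intro i hi
        rw [mem_Ioc] at hi
        show n - (n - i) = i
        omega
      · intro m hm
        rw [mem_range] at hm
        show n - (n - m) = m
        omega
      · intro i _; rfl

/-- `a_j(σ)`: the number of cycles of `σ` of length `j`, fixed points being counted as cycles of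
length `1` -/
def cycleCount {n : ℕ} (σ : Equiv.Perm (Fin n)) (j : ℕ) : ℕ := σ.partition.parts.count j

/-- `m(σ)`: the length of the shortest cycle of `σ` -/
noncomputable def shortestCycle {n : ℕ} (σ : Equiv.Perm (Fin n)) : ℕ :=
  sInf {j : ℕ | 1 ≤ j ∧ 0 < cycleCount σ j}

/-- `E_n`: the mean of `m(σ)` over all permutations `σ` of `n` elements -/
noncomputable def meanShortestCycle (n : ℕ) : ℝ :=
  (∑ σ : Equiv.Perm (Fin n), (shortestCycle σ : ℝ)) / (n.factorial : ℝ)

lemma mem_set_iff {n : ℕ} (σ : Equiv.Perm (Fin n)) (j : ℕ) :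
    j ∈ {j : ℕ | 1 ≤ j ∧ 0 < cycleCount σ j} ↔ j ∈ σ.partition.parts := by
  rw [Set.mem_ofPred_eq]
  unfold cycleCount
  rw [Multiset.count_pos]
  exact ⟨fun h => h.2, fun h => ⟨σ.partition.parts_pos h, h⟩⟩

lemma parts_nonempty {n : ℕ} (hn : 0 < n) (σ : Equiv.Perm (Fin n)) :
    {j : ℕ | 1 ≤ j ∧ 0 < cycleCount σ j}.Nonempty := by
  have hne : σ.partition.parts ≠ 0 := by
    intro h
    have h1 := σ.partition.parts_sum
    rw [h, Multiset.sum_zero, Fintype.card_fin] at h1
    omega
  obtain ⟨a, ha⟩ := Multiset.exists_mem_of_ne_zero hne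
  exact ⟨a, (mem_set_iff σ a).mpr ha⟩

lemma lt_shortest {n : ℕ} (hn : 0 < n) (σ : Equiv.Perm (Fin n)) (j : ℕ) :
    j < shortestCycle σ ↔ ∀ i ∈ σ.partition.parts, j < i := by
  constructor
  · intro h i hi
    exact lt_of_lt_of_le h (Nat.sInf_le ((mem_set_iff σ i).mpr hi))
  · intro h
    exact h _ ((mem_set_iff σ _).mp (Nat.sInf_mem (parts_nonempty hn σ)))

lemma shortest_le {n : ℕ} (hn : 0 < n) (σ : Equiv.Perm (Fin n)) : shortestCycle σ ≤ n := by
  obtain ⟨a, ha⟩ := parts_nonempty hn σ
  have h1 : shortestCycle σ ≤ a := Nat.sInf_le ha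
  have h2 := mem_le_sum ((mem_set_iff σ a).mp ha)
  rw [σ.partition.parts_sum, Fintype.card_fin] at h2
  exact h1.trans h2

/-- counting the permutations without cycles of length `≤ j` -/
lemma card_no_short (n j : ℕ) :
    (((univ : Finset (Equiv.Perm (Fin n))).filter
      (fun σ => ∀ i ∈ σ.partition.parts, j < i)).card : ℝ) = (n.factorial : ℝ) * q j n := by
  classical
  rcases Nat.eq_zero_or_pos j with rfl | hj
  · rw [q_zero_left, mul_one, filter_true_of_mem]
    · rw [card_univ, Fintype.card_perm, Fintype.card_fin]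
    · intro σ _ i hi
      exact σ.partition.parts_pos hi
  · have hmem : ∀ σ : Equiv.Perm (Fin n), (∀ i ∈ σ.partition.parts, j < i) ↔
        σ.cycleType ∈ MS n j := by
      intro σ
      rw [mem_MS, Equiv.Perm.parts_partition, Equiv.Perm.sum_cycleType, Fintype.card_fin]
      constructor
      · intro h
        have h1 : n - σ.support.card = 0 := by
          by_contra hne
          have h2 := h 1 (Multiset.mem_add.mpr (Or.inr (Multiset.mem_replicate.mpr ⟨hne, rfl⟩)))
          omega
        have h2 : σ.support.card ≤ n := by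
          have := σ.support.card_le_univ
          rwa [Fintype.card_fin] at this
        exact ⟨by omega, fun i hi => h i (Multiset.mem_add.mpr (Or.inl hi))⟩
      · rintro ⟨h1, h2⟩ i hi
        rw [Multiset.mem_add] at hi
        rcases hi with hi | hi
        · exact h2 i hi
        · rw [Multiset.mem_replicate] at hi
          omega
    have h1 : (univ : Finset (Equiv.Perm (Fin n))).filter
        (fun σ => ∀ i ∈ σ.partition.parts, j < i) =
        (univ : Finset (Equiv.Perm (Fin n))).filter (fun σ => σ.cycleType ∈ MS n j) := by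
      apply filter_congr
      intro σ _
      exact hmem σ
    have h1' := card_eq_sum_card_fiberwise (s := (univ : Finset (Equiv.Perm (Fin n))).filter
      (fun σ => σ.cycleType ∈ MS n j)) (f := fun σ : Equiv.Perm (Fin n) => σ.cycleType)
      (t := MS n j) (fun σ hσ => (mem_filter.mp (mem_coe.mp hσ)).2)
    rw [h1, h1', ← Zs'_eq_q]
    unfold Zs'
    rw [mul_sum]
    push_cast
    apply sum_congr rfl
    intro m hm
    have h2 : (((univ : Finset (Equiv.Perm (Fin n))).filter
        (fun σ => σ.cycleType ∈ MS n j)).filter (fun σ => σ.cycleType = m)) =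
        ({g | g.cycleType = m} : Finset (Equiv.Perm (Fin n))) := by
      ext σ
      simp only [mem_filter, mem_univ, true_and]
      constructor
      · exact fun h => h.2
      · intro h
        exact ⟨h ▸ hm, h⟩
    rw [h2]
    have h3 := Equiv.Perm.card_of_cycleType_mul_eq (Fin n) m
    rw [mem_MS] at hm
    rw [if_pos ⟨by rw [Fintype.card_fin]; exact hm.1.le, fun a ha => by
      have := hm.2 a ha; omega⟩, Fintype.card_fin, hm.1, Nat.sub_self, Nat.factorial_zero,
      one_mul] at h3
    have h4 : (0 : ℝ) < zM m := by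
      exact_mod_cast zM_pos fun k hk => lt_of_le_of_lt (Nat.zero_le j) (hm.2 k hk)
    have h5 : ((({g | g.cycleType = m} : Finset (Equiv.Perm (Fin n))).card : ℕ) : ℝ) * zM m =
        (n.factorial : ℝ) := by
      rw [← h3]
      unfold zM
      push_cast
      ring
    rw [mul_one_div, eq_div_iff h4.ne']
    exact h5

/-- tail-sum formula for the mean shortest cycle length -/
theorem mean_eq_sum {n : ℕ} (hn : 0 < n) : meanShortestCycle n = ∑ j ∈ range n, q j n := by
  classical
  unfold meanShortestCycle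
  have h0 : (n.factorial : ℝ) ≠ 0 := by positivity
  rw [div_eq_iff h0, sum_mul]
  have h1 : ∀ σ : Equiv.Perm (Fin n), (shortestCycle σ : ℝ) =
      ∑ j ∈ range n, if (∀ i ∈ σ.partition.parts, j < i) then (1 : ℝ) else 0 := by
    intro σ
    have h2 : ∀ j ∈ range n, (if (∀ i ∈ σ.partition.parts, j < i) then (1 : ℝ) else 0) =
        if j < shortestCycle σ then (1 : ℝ) else 0 := by
      intro j _
      simp only [lt_shortest hn σ j]
    rw [sum_congr rfl h2, ← sum_filter, sum_const, nsmul_eq_mul, mul_one]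
    congr 1
    have h3 : (range n).filter (fun j => j < shortestCycle σ) = range (shortestCycle σ) := by
      ext j
      rw [mem_filter, mem_range, mem_range]
      have := shortest_le hn σ
      omega
    rw [h3, card_range]
  rw [sum_congr rfl fun σ _ => h1 σ, sum_comm]
  apply sum_congr rfl
  intro j _
  rw [← sum_filter, sum_const, nsmul_eq_mul, mul_one, card_no_short]
  ring

end Pool.Agent.Lib.MP_493311_pr
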