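import Mathlib
import Pool.Agent.Lib.MP_493311_pr.Beta
import Pool.Agent.Lib.MP_493311_pr.Const
import Pool.Agent.Lib.MP_493311_pr.Perm

open Finset PowerSeries Filter
open scoped Topology

namespace Pool.Agent.Lib.MP_493311_pr

/-- `ρ_i = e^{-γ} ∑_s [x^s] π_{i+1}(x) η_s` -/
noncomputable def rho (i : ℕ) : ℝ := Real.exp (-Real.eulerMascheroniConstant) * ∑ s ∈ range (i + 2), (ppi (i + 1)).coeff s * eta s

lemma coeff_SD_AE0 (i : ℕ) : coeff i (SD AE0) = rho i := by
  rw [coeff_SD, coeff_AE0, res_h_poly]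
  unfold rho
  congr 1
  apply sum_subset
  · intro s hs
    have := ppi_natDegree (i + 1)
    rw [mem_range] at hs ⊢
    omega
  · intro s _ hs
    rw [Polynomial.coeff_eq_zero_of_natDegree_lt, zero_mul]
    rw [mem_range] at hs
    omega

lemma coeff_one_sub_Ee_pow {i k : ℕ} (h : k < i) : coeff k ((1 - Ee) ^ i) = 0 := by
  have h1 : (X : ℂ⟦X⟧) ∣ 1 - Ee := by
    rw [X_dvd_iff, map_sub, map_one, ← coeff_zero_eq_constantCoeff_apply, coeff_zero_Ee, sub_self]
  have h2 : (X : ℂ⟦X⟧) ^ i ∣ (1 - Ee) ^ i := pow_dvd_pow_of_dvd h1 i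
  exact (X_pow_dvd_iff.mp h2) k h

/-- part at `1` of the `k`-th coefficient -/
noncomputable def oneC (k : ℕ) : ℂ := ∑ i ∈ range (k + 1), ((rho i : ℝ) : ℂ) * coeff k ((1 - Ee) ^ i)

lemma coeff_Rone {K k : ℕ} (hk : k < K) : coeff k (Rone K) = oneC k := by
  unfold Rone oneC
  rw [map_sum]
  have h1 : ∀ i ∈ range (K + 1), coeff k (C ((coeff i (SD AE0) : ℝ) : ℂ) * (1 - Ee) ^ i) =
      ((rho i : ℝ) : ℂ) * coeff k ((1 - Ee) ^ i) := by
    intro i _
    rw [coeff_C_mul, coeff_SD_AE0]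
  rw [sum_congr rfl h1]
  symm
  apply sum_subset
  · intro i hi
    rw [mem_range] at hi ⊢
    omega
  · intro i _ hi
    rw [mem_range] at hi
    rw [coeff_one_sub_Ee_pow (by omega), mul_zero]

/-- contribution of the root of unity `ω` through order `a` -/
noncomputable def oscS (k a : ℕ) (ω : ℂ) : ℂ⟦X⟧ := ∑ b ∈ Icc a (k + 1),
  C ((-(a : ℂ)) ^ (b - 1) / ((b - 1).factorial : ℂ)) * X ^ (b - 1) *
    (C (1 / (a.factorial : ℂ)) * coeff b (betaY ω ^ a))

lemma coeff_Fom {K k a t : ℕ} (hk : k < K) (ht : 0 < t) (hta : t < a) :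
    coeff k (Fom K a t) = coeff k (oscS k a (zt a t)) := by
  have hω := zt_ne_one ht hta
  unfold Fom oscS
  rw [map_sum, map_sum]
  have h1 : ∀ b ∈ Icc a (k + 1), coeff k (C ((-(a : ℂ)) ^ (b - 1) / ((b - 1).factorial : ℂ)) *
      X ^ (b - 1) * (C (1 / (a.factorial : ℂ)) * coeff b (betaY (zt a t) ^ a))) =
      coeff k ((1 - Zs (zt a t))⁻¹ ^ b * Polynomial.aeval (Zs (zt a t)) (thC a b) * Gab a b) := by
    intro b _
    rw [coeff_betaY_pow hω]
    unfold Gab
    congr 1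
    ring
  rw [sum_congr rfl h1]
  symm
  apply sum_subset
  · intro b hb
    rw [mem_Icc] at hb
    rw [mem_Ico]
    omega
  · intro b hb hb'
    rw [mem_Ico] at hb
    rw [mem_Icc] at hb'
    rcases lt_or_ge b a with h | h
    · have : thC a b = 0 := by
        unfold thC
        rw [theta_eq_zero h, Polynomial.map_zero]
      rw [this, map_zero, mul_zero, zero_mul, map_zero]
    · have hbk : k < b - 1 := by omega
      unfold Gab
      have e : (1 - Zs (zt a t))⁻¹ ^ b * Polynomial.aeval (Zs (zt a t)) (thC a b) *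
          (C ((-(a : ℂ)) ^ (b - 1) / ((b - 1).factorial : ℂ)) * X ^ (b - 1)) =
          X ^ (b - 1) * ((1 - Zs (zt a t))⁻¹ ^ b * Polynomial.aeval (Zs (zt a t)) (thC a b) *
          C ((-(a : ℂ)) ^ (b - 1) / ((b - 1).factorial : ℂ))) := by ring
      rw [e, coeff_X_pow_mul', if_neg (by omega)]

/-- oscillating part -/
noncomputable def osc (k n : ℕ) : ℂ := ∑ a ∈ Icc 2 (k + 1), ∑ t ∈ Ico 1 a,
  (zt a t)⁻¹ ^ n * coeff k (oscS k a (zt a t))

lemma oscS_eq_zero {k a : ℕ} (h : k + 1 < a) (ω : ℂ) : oscS k a ω = 0 := by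
  unfold oscS
  rw [Icc_eq_empty (by omega), sum_empty]

lemma coeff_Osum (K n : ℕ) : coeff n (Osum K) =
    ∑ k ∈ range K, osc k n * ((-1) ^ k * (k.factorial : ℂ)) / (n : ℂ) ^ (k + 1) := by
  unfold Osum
  rw [map_sum]
  have h1 : ∀ a ∈ Ico 1 (K + 3), coeff n (∑ t ∈ Ico 1 a, sK K (zt a t) (Fom K a t)) =
      ∑ k ∈ range K, (∑ t ∈ Ico 1 a, (zt a t)⁻¹ ^ n * coeff k (oscS k a (zt a t))) *
        ((-1) ^ k * (k.factorial : ℂ)) / (n : ℂ) ^ (k + 1) := by
    intro a _
    rw [map_sum]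
    have h2 : ∀ t ∈ Ico 1 a, coeff n (sK K (zt a t) (Fom K a t)) =
        ∑ k ∈ range K, (zt a t)⁻¹ ^ n * coeff k (oscS k a (zt a t)) *
          ((-1) ^ k * (k.factorial : ℂ)) / (n : ℂ) ^ (k + 1) := by
      intro t ht
      rw [mem_Ico] at ht
      rw [coeff_sK, mul_sum]
      apply sum_congr rfl
      intro k hk
      rw [coeff_Fom (mem_range.mp hk) (by omega) ht.2]
      ring
    rw [sum_congr rfl h2, sum_comm]
    apply sum_congr rfl
    intro k _
    rw [sum_mul, sum_div]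
  rw [sum_congr rfl h1, sum_comm]
  apply sum_congr rfl
  intro k hk
  rw [mem_range] at hk
  rw [← sum_div, ← sum_mul]
  congr 2
  unfold osc
  symm
  apply sum_subset
  · intro a ha
    rw [mem_Icc] at ha
    rw [mem_Ico]
    omega
  · intro a ha ha'
    rw [mem_Ico] at ha
    rw [mem_Icc] at ha'
    rcases Nat.lt_or_ge a 2 with h | h
    · have : a = 1 := by omega
      rw [this, Ico_self, sum_empty]
    · apply sum_eq_zero
      intro t _
      rw [oscS_eq_zero (by omega), map_zero, mul_zero]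

/-- the coefficient of `n^{-k}` (for `k ≥ 1`) -/
noncomputable def cf (k n : ℕ) : ℝ := -(Real.exp (-Real.eulerMascheroniConstant) * Bn k / k) +
  (-1) ^ (k - 1) * ((k - 1).factorial : ℝ) * (oneC (k - 1) + osc (k - 1) n).re

/-- the constant term -/
noncomputable def C0 : ℝ := Real.exp (-Real.eulerMascheroniConstant) * Real.eulerMascheroniConstant + (CD + CU)

theorem expansion (K : ℕ) : ∃ M : ℝ, ∀ n : ℕ, 0 < n →
    |meanShortestCycle n - (Real.exp (-Real.eulerMascheroniConstant) * Real.log n + C0 +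
      ∑ k ∈ Icc 1 K, cf k n / (n : ℝ) ^ k)| ≤ M / (n : ℝ) ^ (K + 1) := by
  obtain ⟨c, κ, h⟩ := Es_LE K
  have hN : Neg 1 (Es - C κ * GG - C c * (GG * Lg)) := by
    have h1 : Neg 1 (Es - C κ * GG - C c * (GG * Lg) - EL (K + 1) (SD AE0)) :=
      h.toNeg.mono (by omega)
    have h2 : Neg 1 (EL (K + 1) (SD AE0)) := by
      unfold EL tld
      have h3 : Neg (0 + 1) ((1 - X) ^ 0 * Lg) := (bigO_pow_mul_Lg 0).toNeg
      rw [pow_zero, one_mul] at h3
      exact h3.poly_mul _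
    have h3 := h1.add h2
    rwa [sub_add_cancel] at h3
  obtain ⟨hc, hκ⟩ := const_eq hN
  obtain ⟨M1, hM1⟩ := Es_full K h
  obtain ⟨M2, hM2⟩ := harmonic_expansion K
  have hE0 : 0 < Real.exp (-Real.eulerMascheroniConstant) := Real.exp_pos _
  refine ⟨M1 + Real.exp (-Real.eulerMascheroniConstant) * M2, fun n hn => ?_⟩
  have hn' : (0 : ℝ) < n := by exact_mod_cast hn
  have h1 := hM1 n
  have h2 := hM2 n hn
  have hM10 : 0 ≤ M1 := by
    have := (norm_nonneg _).trans (hM1 0)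
    simpa using this
  -- coefficient of the left side
  have e1 : coeff n (Es - C κ * GG - C c * (GG * Lg)) = meanShortestCycle n - κ -
      c * ∑ i ∈ range n, (1 : ℝ) / (i + 1) := by
    rw [map_sub, map_sub, coeff_C_mul, coeff_C_mul, coeff_GG, coeff_Es hn, mean_eq_sum hn, mul_one]
    congr 2
    rw [coeff_mul, Nat.sum_antidiagonal_eq_sum_range_succ_mk]
    simp only [coeff_GG, coeff_Lg, one_mul]
    rw [← sum_range_reflect]
    have h3 : ∀ i ∈ range n.succ, (1 : ℝ) / ((n - (n.succ - 1 - i) : ℕ) : ℝ) = 1 / (i : ℝ) := by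
      intro i hi
      rw [mem_range] at hi
      congr 2
      omega
    rw [sum_congr rfl h3, sum_range_succ']
    simp
  have e2 : coeff n (toC (Es - C κ * GG - C c * (GG * Lg)) - sK K 1 (Rone K) - Osum K) =
      ((meanShortestCycle n - κ - c * ∑ i ∈ range n, (1 : ℝ) / (i + 1) : ℝ) : ℂ) -
      ∑ k ∈ range K, (oneC k + osc k n) * ((-1) ^ k * (k.factorial : ℂ)) / (n : ℂ) ^ (k + 1) := by
    rw [map_sub, map_sub, coeff_toC, e1, coeff_sK, coeff_Osum]
    rw [inv_one, one_pow, one_mul, sub_sub, ← sum_add_distrib]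
    congr 1
    apply sum_congr rfl
    intro k hk
    rw [coeff_Rone (mem_range.mp hk)]
    ring
  rw [e2] at h1
  have e3 : (∑ k ∈ range K, (oneC k + osc k n) * ((-1) ^ k * (k.factorial : ℂ)) /
      (n : ℂ) ^ (k + 1)).re = ∑ k ∈ range K, (-1) ^ k * (k.factorial : ℝ) *
        (oneC k + osc k n).re / (n : ℝ) ^ (k + 1) := by
    rw [Complex.re_sum]
    apply sum_congr rfl
    intro k _
    have : (oneC k + osc k n) * ((-1) ^ k * (k.factorial : ℂ)) / (n : ℂ) ^ (k + 1) =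
        (oneC k + osc k n) * (((-1) ^ k * (k.factorial : ℝ) / (n : ℝ) ^ (k + 1) : ℝ) : ℂ) := by
      push_cast; ring
    rw [this, Complex.re_mul_ofReal]
    ring
  have h3 := (Complex.abs_re_le_norm _).trans h1
  rw [Complex.sub_re, Complex.ofReal_re, e3] at h3
  have e4 : ∑ k ∈ Icc 1 K, cf k n / (n : ℝ) ^ k = ∑ k ∈ range K, cf (k + 1) n / (n : ℝ) ^ (k + 1) := by
    rw [range_eq_Ico, sum_Ico_add' (fun k => cf k n / (n : ℝ) ^ k) 0 K 1]
    apply sum_congr _ (fun _ _ => rfl)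
    ext k
    rw [mem_Icc, mem_Ico]
    omega
  have e5 : ∑ k ∈ range K, cf (k + 1) n / (n : ℝ) ^ (k + 1) =
      ∑ k ∈ range K, (-1) ^ k * (k.factorial : ℝ) * (oneC k + osc k n).re / (n : ℝ) ^ (k + 1) -
      Real.exp (-Real.eulerMascheroniConstant) * ∑ k ∈ range K, Bn (k + 1) / ((k : ℝ) + 1) / (n : ℝ) ^ (k + 1) := by
    rw [mul_sum, ← sum_sub_distrib]
    apply sum_congr rfl
    intro k _
    unfold cf
    rw [Nat.add_sub_cancel]
    push_cast
    ring
  rw [e4, e5]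
  have e6 : meanShortestCycle n - (Real.exp (-Real.eulerMascheroniConstant) * Real.log n + C0 +
      (∑ k ∈ range K, (-1) ^ k * (k.factorial : ℝ) * (oneC k + osc k n).re / (n : ℝ) ^ (k + 1) -
      Real.exp (-Real.eulerMascheroniConstant) * ∑ k ∈ range K, Bn (k + 1) / ((k : ℝ) + 1) / (n : ℝ) ^ (k + 1))) =
      (meanShortestCycle n - κ - c * ∑ i ∈ range n, (1 : ℝ) / (i + 1) -
      ∑ k ∈ range K, (-1) ^ k * (k.factorial : ℝ) * (oneC k + osc k n).re / (n : ℝ) ^ (k + 1)) +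
      Real.exp (-Real.eulerMascheroniConstant) * (∑ i ∈ range n, (1 : ℝ) / (i + 1) - (Real.log n + Real.eulerMascheroniConstant -
      ∑ k ∈ range K, Bn (k + 1) / ((k : ℝ) + 1) / (n : ℝ) ^ (k + 1))) := by
    rw [hc, hκ]
    unfold C0
    ring
  rw [e6]
  refine (abs_add_le _ _).trans ?_
  rw [abs_mul, abs_of_pos hE0, add_div]
  apply add_le_add
  · refine h3.trans ?_
    gcongr
    linarith
  · rw [mul_div_assoc]
    gcongr

end Pool.Agent.Lib.MP_493311_pr
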