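import Mathlib
import Pool.Agent.Lib.MP_493311_pr.Final

open Finset PowerSeries Filter
open scoped Topology

namespace Pool.Agent.Lib.MP_493311_pr

/-! ### leading coefficients at roots of unity -/

lemma constCoeff_beta (ω : ℂ) : constantCoeff (beta ω) = ω * (1 - ω)⁻¹ := by
  unfold beta
  have h1 : constantCoeff (Zs ω) = ω := by
    unfold Zs
    rw [map_mul, constantCoeff_C, ← coeff_zero_eq_constantCoeff_apply, coeff_zero_Ee, mul_one]
  rw [map_mul, constantCoeff_inv, map_sub, map_one, h1]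

lemma coeff_self_pow {R : Type*} [CommRing R] {f : R⟦X⟧} (h : coeff 0 f = 0) (a : ℕ) :
    coeff a (f ^ a) = (coeff 1 f) ^ a := by
  have h' : (X : R⟦X⟧) ∣ f := X_dvd_iff.mpr (by rwa [← coeff_zero_eq_constantCoeff_apply])
  obtain ⟨g, hg⟩ := h'
  have h1 : coeff 1 f = coeff 0 g := by
    rw [hg, show (1 : ℕ) = 0 + 1 from rfl, coeff_succ_X_mul]
  rw [h1, hg, mul_pow, coeff_X_pow_mul', if_pos le_rfl, Nat.sub_self,
    coeff_zero_eq_constantCoeff_apply, coeff_zero_eq_constantCoeff_apply, map_pow]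

/-- leading contribution -/
noncomputable def lead0 (k : ℕ) (ω : ℂ) : ℂ := (-((k + 1 : ℕ) : ℂ)) ^ k / (k.factorial : ℂ) *
  (1 / ((k + 1).factorial : ℂ) * (ω * (1 - ω)⁻¹) ^ (k + 1))

lemma coeff_oscS_lead (k : ℕ) (ω : ℂ) : coeff k (oscS k (k + 1) ω) = lead0 k ω := by
  unfold oscS lead0
  rw [Icc_self, sum_singleton, Nat.add_sub_cancel]
  have h0 : coeff 0 (betaY ω) = 0 := by unfold betaY; rw [coeff_mk]
  have h1 : coeff 1 (betaY ω) = beta ω := by unfold betaY; rw [coeff_mk]; rfl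
  rw [coeff_self_pow h0, h1, mul_assoc, coeff_C_mul, coeff_X_pow_mul', if_pos le_rfl, Nat.sub_self,
    coeff_C_mul, coeff_zero_eq_constantCoeff_apply, map_pow, constCoeff_beta]

/-! ### periodicity -/

lemma osc_periodic {k L : ℕ} (hL : ∀ a, 2 ≤ a → a ≤ k + 1 → a ∣ L) (n : ℕ) :
    osc k (n + L) = osc k n := by
  unfold osc
  apply sum_congr rfl
  intro a ha
  rw [mem_Icc] at ha
  apply sum_congr rfl
  intro t _
  obtain ⟨b, rfl⟩ := hL a ha.1 ha.2
  have : (zt a t)⁻¹ ^ (a * b) = 1 := by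
    rw [pow_mul, inv_pow, zt_pow a t (by omega), inv_one, one_pow]
  rw [pow_add, this, mul_one]

lemma cf_periodic {k L : ℕ} (hk : 0 < k) (hL : ∀ a, 2 ≤ a → a ≤ k → a ∣ L) (n : ℕ) :
    cf k (n + L) = cf k n := by
  unfold cf
  rw [osc_periodic (fun a h1 h2 => hL a h1 (by omega))]

/-! ### the first coefficients -/

lemma bin_one : bin 1 = Polynomial.X := by
  unfold bin
  rw [descPochhammer_one]
  simp

lemma bin_two : bin 2 = Polynomial.C (1 / 2) * (Polynomial.X * (Polynomial.X - 1)) := by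
  unfold bin
  rw [show (2 : ℕ) = 1 + 1 from rfl, descPochhammer_succ_right, descPochhammer_one]
  norm_num

lemma ppi_one : ppi 1 = Polynomial.X := by
  rw [ppi_succ, sum_range_one, ppi_zero, bin_one]
  simp

lemma ppi_two : ppi 2 = Polynomial.C (1 / 4) * Polynomial.X ^ 2 + Polynomial.C (1 / 4) * Polynomial.X := by
  rw [ppi_succ, sum_range_succ, sum_range_one]
  simp only [pow_zero, pow_one, one_mul, Nat.sub_zero, Nat.sub_self, zero_add, Nat.cast_one]
  rw [ppi_zero, ppi_one, bin_one, show (1 : ℕ) + 1 = 2 from rfl, bin_two]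
  have h1 : (Polynomial.C (1 / 2 : ℝ)) * Polynomial.C (1 / 2) = Polynomial.C (1 / 4) := by
    rw [← Polynomial.C_mul]; norm_num
  have h2 : (Polynomial.C (1 / 2 : ℝ)) = 2 * Polynomial.C (1 / 4) := by
    rw [show (2 : Polynomial ℝ) = Polynomial.C 2 from rfl, ← Polynomial.C_mul]; norm_num
  have h3 : (Polynomial.C (1 / (1 + 1) : ℝ)) = Polynomial.C (1 / 2) := by norm_num
  rw [h3]
  linear_combination (-(Polynomial.X * (Polynomial.X - 1))) * h1 +
    (Polynomial.X * Polynomial.X) * h2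

lemma Bn_one : Bn 1 = -1 / 2 := by
  unfold Bn; rw [bernoulli_one]; norm_num

lemma Bn_two : Bn 2 = 1 / 6 := by
  unfold Bn; rw [bernoulli_two]; norm_num

lemma eta_one : eta 1 = -1 / 2 := by
  have := eta_succ 0
  rw [sum_range_one, Nat.sub_self, eta_zero, zero_add, Bn_one] at this
  push_cast at this
  linarith

lemma eta_two : eta 2 = 5 / 24 := by
  have := eta_succ 1
  rw [sum_range_succ, sum_range_one] at this
  simp only [zero_add, Nat.sub_zero, Nat.sub_self, Nat.cast_one] at this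
  rw [eta_zero, eta_one, Bn_one, show (1 : ℕ) + 1 = 2 from rfl, Bn_two] at this
  linarith

lemma rho_zero : rho 0 = -(Real.exp (-Real.eulerMascheroniConstant) / 2) := by
  unfold rho
  rw [zero_add, zero_add, sum_range_succ, sum_range_one, ppi_one, eta_one]
  simp
  ring

lemma rho_one : rho 1 = -(7 / 96 * Real.exp (-Real.eulerMascheroniConstant)) := by
  unfold rho
  rw [show (1 : ℕ) + 2 = 3 from rfl, show (1 : ℕ) + 1 = 2 from rfl, sum_range_succ, sum_range_succ,
    sum_range_one, ppi_two, eta_one, eta_two]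
  simp [Polynomial.coeff_X]
  ring

lemma coeff_one_Ee : coeff 1 Ee = -1 := by
  unfold Ee; rw [coeff_mk]; simp

lemma oneC_zero : oneC 0 = ((rho 0 : ℝ) : ℂ) := by
  unfold oneC
  rw [zero_add, sum_range_one, pow_zero, coeff_zero_one, mul_one]

lemma oneC_one : oneC 1 = ((rho 1 : ℝ) : ℂ) := by
  unfold oneC
  rw [sum_range_succ, sum_range_one, pow_zero, coeff_one, if_neg one_ne_zero, mul_zero, zero_add,
    pow_one, map_sub, coeff_one, if_neg one_ne_zero, coeff_one_Ee]
  ring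

lemma osc_zero (n : ℕ) : osc 0 n = 0 := by
  unfold osc
  rw [Icc_eq_empty (by norm_num), sum_empty]

lemma zt_two_one : zt 2 1 = -1 := by
  unfold zt
  rw [← Complex.exp_pi_mul_I]
  congr 1
  push_cast
  ring

lemma osc_one (n : ℕ) : osc 1 n = -((-1) ^ n / 4) := by
  unfold osc
  rw [show (1 : ℕ) + 1 = 2 from rfl, Icc_self, sum_singleton]
  have : Ico 1 2 = {1} := by ext x; simp only [mem_Ico, mem_singleton]; omega
  rw [this, sum_singleton, zt_two_one]
  have h1 := coeff_oscS_lead 1 (-1)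
  rw [show (1 : ℕ) + 1 = 2 from rfl] at h1
  rw [h1]
  unfold lead0
  have : ((-1 : ℂ)⁻¹) = -1 := by norm_num
  rw [this]
  simp [Nat.factorial]
  norm_num
  ring

lemma cf_one (n : ℕ) : cf 1 n = 0 := by
  unfold cf
  rw [Nat.sub_self, oneC_zero, osc_zero, add_zero, Complex.ofReal_re, rho_zero, Bn_one]
  simp
  ring

lemma cf_two (n : ℕ) : cf 2 n = (-1) ^ n / 4 - Real.exp (-Real.eulerMascheroniConstant) / 96 := by
  unfold cf
  rw [show (2 : ℕ) - 1 = 1 from rfl, oneC_one, osc_one, Bn_two, rho_one]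
  have h1 : ((((-(7 / 96 * Real.exp (-Real.eulerMascheroniConstant)) : ℝ) : ℂ)) + -((-1) ^ n / 4)) =
      ((-(7 / 96 * Real.exp (-Real.eulerMascheroniConstant)) + -((-1) ^ n / 4) : ℝ) : ℂ) := by push_cast; ring
  rw [h1, Complex.ofReal_re]
  simp
  ring

/-! ### non-vanishing -/

lemma geom_root {x : ℂ} {L : ℕ} (hx : x ^ L = 1) : ∑ n ∈ range L, x ^ n = if x = 1 then (L : ℂ) else 0 := by
  split_ifs with h
  · rw [h]; simp
  · have h1 := geom_sum_mul x L
    rw [hx, sub_self] at h1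
    exact (mul_eq_zero.mp h1).resolve_right (sub_ne_zero.mpr h)

lemma conj_zt (a t : ℕ) : (starRingEnd ℂ) (zt a t) = (zt a t)⁻¹ := by
  rw [Complex.inv_def, Complex.normSq_eq_norm_sq, zt_norm]
  simp

lemma zt_eq_iff {k a t : ℕ} (hk : 2 ≤ k) (ha : 2 ≤ a) (hak : a ≤ k) (hta : t < a)
    {s : ℕ} (hsk : s < k) (hco : Nat.Coprime s k) : zt k s = zt a t → a = k ∧ t = s := by
  intro h
  have hp : IsPrimitiveRoot (zt k s) k := by
    rw [zt_eq_pow]
    exact (zt_primitive (by omega)).pow_of_coprime s hco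
  have h1 : zt k s ^ a = 1 := by rw [h]; exact zt_pow a t (by omega)
  have h2 := hp.dvd_of_pow_eq_one a h1
  have h3 := Nat.le_of_dvd (by omega) h2
  have h4 : a = k := le_antisymm hak h3
  refine ⟨h4, ?_⟩
  subst h4
  rw [zt_eq_pow a s, zt_eq_pow a t] at h
  exact ((zt_primitive (by omega)).pow_inj hsk hta h).symm

lemma cf_ne_zero {k : ℕ} (hk : 2 ≤ k) : ∃ n, cf k n ≠ 0 := by
  by_contra hcon
  push Not at hcon
  obtain ⟨m, rfl⟩ : ∃ m, k = m + 1 := ⟨k - 1, by omega⟩
  set L := (m + 1).factorial with hL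
  have hLpos : 0 < L := Nat.factorial_pos _
  have hdiv : ∀ a, 2 ≤ a → a ≤ m + 1 → a ∣ L := fun a h1 h2 => Nat.dvd_factorial (by omega) h2
  set ω := zt (m + 1) 1 with hω
  have hωL : ω ^ L = 1 := by
    obtain ⟨b, hb⟩ := hdiv (m + 1) hk le_rfl
    rw [hb, pow_mul, zt_pow _ _ (by omega), one_pow]
  have hω1 : ω ≠ 1 := zt_ne_one (by omega) (by omega)
  have hztL : ∀ a t, 2 ≤ a → a ≤ m + 1 → (zt a t) ^ L = 1 := by
    intro a t h1 h2
    obtain ⟨b, hb⟩ := hdiv a h1 h2
    rw [hb, pow_mul, zt_pow _ _ (by omega), one_pow]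
  -- first character sum
  have hS1 : ∑ n ∈ range L, ω ^ n * osc m n = L * lead0 m ω := by
    have h1 : ∀ n, ω ^ n * osc m n = ∑ a ∈ Icc 2 (m + 1), ∑ t ∈ Ico 1 a,
        coeff m (oscS m a (zt a t)) * (ω * (zt a t)⁻¹) ^ n := by
      intro n
      unfold osc
      rw [mul_sum]
      apply sum_congr rfl
      intro a _
      rw [mul_sum]
      apply sum_congr rfl
      intro t _
      rw [mul_pow]; ring
    rw [sum_congr rfl fun n _ => h1 n, sum_comm]
    have h2 : ∀ a ∈ Icc 2 (m + 1), ∑ n ∈ range L, ∑ t ∈ Ico 1 a,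
        coeff m (oscS m a (zt a t)) * (ω * (zt a t)⁻¹) ^ n =
        if a = m + 1 then L * lead0 m ω else 0 := by
      intro a ha
      rw [mem_Icc] at ha
      rw [sum_comm]
      have h3 : ∀ t ∈ Ico 1 a, ∑ n ∈ range L,
          coeff m (oscS m a (zt a t)) * (ω * (zt a t)⁻¹) ^ n =
          if a = m + 1 ∧ t = 1 then L * lead0 m ω else 0 := by
        intro t ht
        rw [mem_Ico] at ht
        rw [← mul_sum, geom_root (by rw [mul_pow, hωL, inv_pow, hztL a t ha.1 ha.2]; simp)]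
        by_cases h4 : ω * (zt a t)⁻¹ = 1
        · have h5 : zt (m + 1) 1 = zt a t := by
            rw [mul_inv_eq_one₀ (zt_ne_zero a t)] at h4
            exact h4
          have h6 := zt_eq_iff hk ha.1 ha.2 ht.2 (by omega) (Nat.coprime_one_left _) h5
          rw [if_pos h4, if_pos h6, h6.1, h6.2, coeff_oscS_lead]
          ring
        · rw [if_neg h4, if_neg]
          · rw [mul_zero]
          · rintro ⟨rfl, rfl⟩
            exact h4 (mul_inv_cancel₀ (zt_ne_zero _ _))
      rw [sum_congr rfl h3]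
      by_cases h7 : a = m + 1
      · simp only [h7, true_and, if_true]
        rw [sum_ite_eq' (Ico 1 (m + 1)) 1, if_pos (by rw [mem_Ico]; omega)]
      · simp only [h7, false_and, if_false, sum_const_zero]
    rw [sum_congr rfl h2, sum_ite_eq' (Icc 2 (m + 1)) (m + 1), if_pos (by rw [mem_Icc]; omega)]
  -- second character sum
  have hωm : zt (m + 1) m = ω⁻¹ := by
    rw [zt_eq_pow, ← hω]
    apply eq_inv_of_mul_eq_one_left
    rw [← pow_succ]
    exact zt_pow _ _ (by omega)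
  have hconj : (starRingEnd ℂ) (lead0 m (zt (m + 1) m)) = lead0 m ω := by
    unfold lead0
    have h1 : (starRingEnd ℂ) (zt (m + 1) m) = ω := by
      rw [conj_zt, hωm, inv_inv]
    simp only [map_mul, map_div₀, map_pow, map_neg, map_inv₀, map_sub, map_one, map_natCast, h1]
  have hS2 : ∑ n ∈ range L, ω ^ n * (starRingEnd ℂ) (osc m n) = L * lead0 m ω := by
    have h1 : ∀ n, ω ^ n * (starRingEnd ℂ) (osc m n) = ∑ a ∈ Icc 2 (m + 1), ∑ t ∈ Ico 1 a,
        (starRingEnd ℂ) (coeff m (oscS m a (zt a t))) * (ω * zt a t) ^ n := by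
      intro n
      unfold osc
      rw [map_sum, mul_sum]
      apply sum_congr rfl
      intro a _
      rw [map_sum, mul_sum]
      apply sum_congr rfl
      intro t _
      rw [map_mul, map_pow, map_inv₀, conj_zt, inv_inv, mul_pow]; ring
    rw [sum_congr rfl fun n _ => h1 n, sum_comm]
    have h2 : ∀ a ∈ Icc 2 (m + 1), ∑ n ∈ range L, ∑ t ∈ Ico 1 a,
        (starRingEnd ℂ) (coeff m (oscS m a (zt a t))) * (ω * zt a t) ^ n =
        if a = m + 1 then L * lead0 m ω else 0 := by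
      intro a ha
      rw [mem_Icc] at ha
      rw [sum_comm]
      have h3 : ∀ t ∈ Ico 1 a, ∑ n ∈ range L,
          (starRingEnd ℂ) (coeff m (oscS m a (zt a t))) * (ω * zt a t) ^ n =
          if a = m + 1 ∧ t = m then L * lead0 m ω else 0 := by
        intro t ht
        rw [mem_Ico] at ht
        rw [← mul_sum, geom_root (by rw [mul_pow, hωL, hztL a t ha.1 ha.2]; simp)]
        by_cases h4 : ω * zt a t = 1
        · have h5 : zt (m + 1) m = zt a t := by
            rw [hωm]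
            exact (eq_inv_of_mul_eq_one_right h4).symm
          have hco : Nat.Coprime m (m + 1) := by
            rw [Nat.coprime_self_add_right]; exact Nat.coprime_one_right _
          have h6 := zt_eq_iff hk ha.1 ha.2 ht.2 (Nat.lt_succ_self m) hco h5
          rw [if_pos h4, if_pos h6, h6.1, h6.2, coeff_oscS_lead, hconj]
          ring
        · rw [if_neg h4, if_neg]
          · rw [mul_zero]
          · rintro ⟨rfl, rfl⟩
            apply h4
            rw [hωm]
            exact mul_inv_cancel₀ (zt_ne_zero _ _)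
      rw [sum_congr rfl h3]
      by_cases h7 : a = m + 1
      · simp only [h7, true_and, if_true]
        rw [sum_ite_eq' (Ico 1 (m + 1)) m, if_pos (by rw [mem_Ico]; omega)]
      · simp only [h7, false_and, if_false, sum_const_zero]
    rw [sum_congr rfl h2, sum_ite_eq' (Icc 2 (m + 1)) (m + 1), if_pos (by rw [mem_Icc]; omega)]
  -- combine
  set B : ℝ := (-1) ^ m * (m.factorial : ℝ) with hB
  have hB0 : B ≠ 0 := by rw [hB]; positivity
  set A : ℝ := -(Real.exp (-Real.eulerMascheroniConstant) * Bn (m + 1) / ((m + 1 : ℕ) : ℝ)) + B * (oneC m).re with hA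
  have hcf : ∀ n, (A : ℂ) + (B : ℂ) * ((osc m n + (starRingEnd ℂ) (osc m n)) / 2) = 0 := by
    intro n
    have h1 := hcon n
    unfold cf at h1
    rw [Nat.add_sub_cancel, ← hB, Complex.add_re, mul_add, ← add_assoc, ← hA] at h1
    have h2 : (osc m n + (starRingEnd ℂ) (osc m n)) / 2 = (((osc m n).re : ℝ) : ℂ) := by
      rw [Complex.add_conj]; push_cast; ring
    rw [h2]
    exact_mod_cast h1
  have hsum : ∑ n ∈ range L, ω ^ n * ((A : ℂ) + (B : ℂ) * ((osc m n +
      (starRingEnd ℂ) (osc m n)) / 2)) = (B : ℂ) * (L * lead0 m ω) := by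
    have h1 : ∀ n, ω ^ n * ((A : ℂ) + (B : ℂ) * ((osc m n + (starRingEnd ℂ) (osc m n)) / 2)) =
        (A : ℂ) * ω ^ n + (B : ℂ) / 2 * (ω ^ n * osc m n) +
        (B : ℂ) / 2 * (ω ^ n * (starRingEnd ℂ) (osc m n)) := by intro n; ring
    rw [sum_congr rfl fun n _ => h1 n, sum_add_distrib, sum_add_distrib, ← mul_sum, ← mul_sum,
      ← mul_sum, geom_root hωL, if_neg hω1, hS1, hS2]
    ring
  have hzero : ∑ n ∈ range L, ω ^ n * ((A : ℂ) + (B : ℂ) * ((osc m n +
      (starRingEnd ℂ) (osc m n)) / 2)) = 0 := by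
    apply sum_eq_zero
    intro n _
    rw [hcf n, mul_zero]
  rw [hzero] at hsum
  have h1 : lead0 m ω ≠ 0 := by
    unfold lead0
    have h2 : ω * (1 - ω)⁻¹ ≠ 0 :=
      mul_ne_zero (zt_ne_zero _ _) (inv_ne_zero (sub_ne_zero.mpr (Ne.symm hω1)))
    have h3 : (m.factorial : ℂ) ≠ 0 := by exact_mod_cast m.factorial_ne_zero
    have h4 : (((m + 1).factorial : ℕ) : ℂ) ≠ 0 := by exact_mod_cast (m + 1).factorial_ne_zero
    have h5 : (-((m + 1 : ℕ) : ℂ)) ≠ 0 := neg_ne_zero.mpr (by exact_mod_cast Nat.succ_ne_zero m)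
    exact mul_ne_zero (div_ne_zero (pow_ne_zero _ h5) h3)
      (mul_ne_zero (one_div_ne_zero h4) (pow_ne_zero _ h2))
  have h2 : (B : ℂ) ≠ 0 := by exact_mod_cast hB0
  have h3 : (L : ℂ) ≠ 0 := by exact_mod_cast hLpos.ne'
  exact (mul_ne_zero h2 (mul_ne_zero h3 h1)) hsum.symm

/-- the terms have exact order `n^{-k}` -/
lemma cf_large {k : ℕ} (hk : 2 ≤ k) : ∃ δ : ℝ, 0 < δ ∧ ∀ N, ∃ n, N ≤ n ∧ δ ≤ |cf k n| := by
  obtain ⟨n, hn⟩ := cf_ne_zero hk
  refine ⟨|cf k n|, abs_pos.mpr hn, fun N => ⟨n + N * k.factorial, ?_, ?_⟩⟩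
  · have := Nat.factorial_pos k
    nlinarith
  · rw [cf_periodic (by omega)]
    intro a h1 h2
    exact (Nat.dvd_factorial (by omega) h2).mul_left N

end Pool.Agent.Lib.MP_493311_pr
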